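import Pool.Agent.DUA.Ks

/-!
# Definitions for the dual series (variable `u = w t`; `i π / 6` is half a row, `i π` is `3 l`)

`t z = tanh (z / 2)`, `tau z = t (z + i π / 6) t (z - i π / 6)`, `V s = t s ^ 2 * t (s + i π / 3) * t (s - i π / 3)`,
`p s = (3 / 2) sinh (3 s / 4) / (cosh (3 s / 4) + √2 / 2)`, `k s = (3 / 8 π) / cosh (3 s / 4)`,
`q s = (√3 / 2 π) / (2 cosh s + 1)`, `z0 = 1 / (4 √3 π)`.
-/

set_option autoImplicit false

noncomputable section

open Finset Complex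

namespace DUA

/-- `i π / 6` -/
def a6 : ℂ := ((Real.pi / 6 : ℝ) : ℂ) * I

/-- `tanh (z / 2)` -/
def t (z : ℂ) : ℂ := Complex.tanh (z / 2)

/-- derivative of `t` -/
def t' (z : ℂ) : ℂ := 1 / (2 * Complex.cosh (z / 2) ^ 2)

/-- `t (z + i π / 6) * t (z - i π / 6)` -/
def tau (z : ℂ) : ℂ := t (z + a6) * t (z - a6)

/-- the pair factor (real) -/
def V (s : ℝ) : ℝ := Real.tanh (s / 2) ^ 2 * ((2 * Real.cosh s - 1) / (2 * Real.cosh s + 1))

/-- the Pfaffian kernel -/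
def p (z : ℂ) : ℂ :=
  (3 / 2 : ℂ) * Complex.sinh (3 * z / 4) / (Complex.cosh (3 * z / 4) + ((Real.sqrt 2 / 2 : ℝ) : ℂ))

/-- the kernel of the contour identity -/
def kk (s : ℝ) : ℝ := 3 / (8 * Real.pi) / Real.cosh (3 * s / 4)

/-- the contracting kernel -/
def qq (s : ℝ) : ℝ := Real.sqrt 3 / (2 * Real.pi) / (2 * Real.cosh s + 1)

/-- activity -/
def z0 : ℝ := 1 / (4 * Real.sqrt 3 * Real.pi)

/-- the field of the list `J` at `θ` -/
def Lam (J : List ℂ) (θ : ℂ) : ℂ := (J.map fun v => tau (v - θ)).prod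

/-- `∏_v t (x - v)` -/
def tp (x : ℂ) (l : List ℂ) : ℂ := (l.map fun v => t (x - v)).prod

/-- `∏_{i < j} t (v_i - v_j)` -/
def Dl : List ℂ → ℂ
  | [] => 1
  | x :: l => tp x l * Dl l

/-- the Pfaffian of `a (v_i - v_j)` by first row expansion -/
def pf (a : ℂ → ℂ) : List ℂ → ℂ
  | [] => 1
  | x :: l => ∑ i : Fin l.length, (-1 : ℂ) ^ (i : ℕ) * a (x - l.get i) * pf a (l.eraseIdx i)
termination_by l => l.length
decreasing_by
  simp only [List.length_cons]
  rw [List.length_eraseIdx_of_lt i.2]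
  omega

/-- the normalised grid average of the list `J` (`κ = - z0 ε`) -/
def nG (G : Finset ℝ) (κ : ℂ) (J : List ℂ) : ℂ :=
  Dl J * (Z V G (fun s => κ * Lam J (s : ℂ)) / Z V G (fun _ => κ))

end DUA

end
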