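import Pool.Agent.DUA.Defs
import Pool.Agent.NUP1.Line

/-!
# The contour identities of the dual series (DUAL, B series, part 3 (i) - (iii))

* `rect`: `∫ K (s - z) (g (s + 2 π i / 3) + g (s - 2 π i / 3)) ds = g z` for `|Im z| < 2 π / 3`, `g` analytic and bounded
  on `|Im| ≤ 2 π / 3`;
* `p_rep`: `p z = t z + ∫ K (s - z) t s ds`, `pd_rep`: the same for the derivatives;
* `p_jump`: `(i / 4 π) (p (z - i π / 3) - p (z + i π / 3)) = K z`;
* `p_eqn`: the linear equation of `x ↦ p (x - u)`.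
-/

set_option autoImplicit false

noncomputable section

open Complex MeasureTheory Set Filter Topology

namespace DUA

namespace ShA

/-- the complex kernel `(3 / 8 π) / cosh (3 z / 4)` -/
def Kc (z : ℂ) : ℂ := ((3 / (8 * Real.pi) : ℝ) : ℂ) / Complex.cosh (3 * z / 4)

/-- the derivative of `p` -/
def p' (z : ℂ) : ℂ :=
  9 / 32 * (1 / Complex.cosh (3 * z / 8 + ((Real.pi / 8 : ℝ) : ℂ) * I) ^ 2 +
    1 / Complex.cosh (3 * z / 8 - ((Real.pi / 8 : ℝ) : ℂ) * I) ^ 2)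

namespace Sh

/-! ### lines -/

lemma hl_re (s c : ℝ) : ((s : ℂ) + c * I).re = s := by simp

lemma hl_im (s c : ℝ) : ((s : ℂ) + c * I).im = c := by simp

/-- the integral over a horizontal line does not depend on the line -/
theorem hline {a b : ℝ} (hab : a ≤ b) {G : ℂ → ℂ} (hc : ContinuousOn G {z : ℂ | a ≤ z.im ∧ z.im ≤ b})
    (hd : ∀ z : ℂ, a < z.im → z.im < b → DifferentiableAt ℂ G z) {C δ t₀ : ℝ} (hδ : 0 < δ)
    (h : ∀ z : ℂ, a ≤ z.im → z.im ≤ b → t₀ ≤ |z.re| → ‖G z‖ ≤ C * Real.exp (-δ * |z.re|)) :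
    ∫ s : ℝ, G (s + b * I) = ∫ s : ℝ, G (s + a * I) := by
  have him : ∀ z : ℂ, (I * z).im = z.re := fun z => by simp
  have hre : ∀ z : ℂ, (I * z).re = -z.im := fun z => by simp
  have key := NUP1.line_shift0 (G := fun z => G (I * z)) hab (C := C) (δ := δ) (t₀ := t₀) (by
      refine hc.comp (by fun_prop) ?_
      intro z hz
      show a ≤ (I * z).im ∧ (I * z).im ≤ b
      rw [him]
      exact hz) (by
      intro z hz
      have h1 : DifferentiableAt ℂ G (I * z) := hd _ (by rw [him]; exact hz.1) (by rw [him]; exact hz.2)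
      exact (h1.comp z ((differentiableAt_id).const_mul I)).differentiableWithinAt) hδ (by
      intro s t hs1 hs2 ht
      have h1 := h (I * (s + t * I)) (by rw [him, hl_re]; exact hs1) (by rw [him, hl_re]; exact hs2) (by
        rw [hre, hl_im, abs_neg]
        exact ht)
      rw [hre, hl_im, abs_neg] at h1
      exact h1)
  have e : ∀ c : ℝ, ∫ t : ℝ, G (I * (c + t * I)) = ∫ s : ℝ, G (s + c * I) := by
    intro c
    have e1 : (fun t : ℝ => G (I * (c + t * I))) = fun t : ℝ => (fun s : ℝ => G (s + c * I)) (-t) := by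
      funext t
      show G (I * (c + t * I)) = G (((-t : ℝ) : ℂ) + c * I)
      congr 1
      push_cast
      linear_combination (t : ℂ) * I_mul_I
    rw [e1, integral_neg_eq_self (fun s : ℝ => G (s + c * I)) volume]
  rw [← e b, ← e a]
  exact key

/-- continuous functions with exponentially small tails on a horizontal line -/
lemma hint {a b c : ℝ} (hc1 : a ≤ c) (hc2 : c ≤ b) {G : ℂ → ℂ} (hc : ContinuousOn G {z : ℂ | a ≤ z.im ∧ z.im ≤ b})
    {C δ t₀ : ℝ} (hδ : 0 < δ)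
    (h : ∀ z : ℂ, a ≤ z.im → z.im ≤ b → t₀ ≤ |z.re| → ‖G z‖ ≤ C * Real.exp (-δ * |z.re|)) :
    Integrable (fun s : ℝ => G (s + c * I)) := by
  refine NUP1.integrable_of_decay (C := C) (δ := δ) (t₀ := t₀) ?_ hδ ?_
  · refine hc.comp_continuous (by fun_prop) ?_
    intro s
    show a ≤ ((s : ℂ) + c * I).im ∧ ((s : ℂ) + c * I).im ≤ b
    rw [hl_im]
    exact ⟨hc1, hc2⟩
  · intro s hs
    have h1 := h (s + c * I) (by rw [hl_im]; exact hc1) (by rw [hl_im]; exact hc2) (by rw [hl_re]; exact hs)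
    rwa [hl_re] at h1

/-! ### bounds -/

lemma cosh_parts (z : ℂ) : Complex.cosh z = ((Real.cosh z.re * Real.cos z.im : ℝ) : ℂ) +
    ((Real.sinh z.re * Real.sin z.im : ℝ) : ℂ) * I := by
  have h : Complex.cosh z = Complex.cosh ((z.re : ℂ) + (z.im : ℂ) * I) := by rw [re_add_im]
  rw [h, Complex.cosh_add, Complex.cosh_mul_I, Complex.sinh_mul_I]
  push_cast
  ring

lemma sinh_parts (z : ℂ) : Complex.sinh z = ((Real.sinh z.re * Real.cos z.im : ℝ) : ℂ) +
    ((Real.cosh z.re * Real.sin z.im : ℝ) : ℂ) * I := by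
  have h : Complex.sinh z = Complex.sinh ((z.re : ℂ) + (z.im : ℂ) * I) := by rw [re_add_im]
  rw [h, Complex.sinh_add, Complex.cosh_mul_I, Complex.sinh_mul_I]
  push_cast
  ring

lemma norm_cosh_sq (z : ℂ) : ‖Complex.cosh z‖ ^ 2 = (Real.cosh z.re * Real.cos z.im) ^ 2 +
    (Real.sinh z.re * Real.sin z.im) ^ 2 := by
  rw [cosh_parts, ← Complex.normSq_eq_norm_sq, Complex.normSq_add_mul_I]

lemma norm_sinh_sq (z : ℂ) : ‖Complex.sinh z‖ ^ 2 = (Real.sinh z.re * Real.cos z.im) ^ 2 +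
    (Real.cosh z.re * Real.sin z.im) ^ 2 := by
  rw [sinh_parts, ← Complex.normSq_eq_norm_sq, Complex.normSq_add_mul_I]

lemma norm_sinh_le (z : ℂ) : ‖Complex.sinh z‖ ≤ Real.cosh z.re := by
  refine le_of_sq_le_sq ?_ (Real.cosh_pos _).le
  rw [norm_sinh_sq]
  have h1 := Real.sin_sq_add_cos_sq z.im
  have h2 := Real.cosh_sq z.re
  have h3 := sq_nonneg (Real.cos z.im)
  nlinarith

lemma sinh_le_norm (z : ℂ) : |Real.sinh z.re| ≤ ‖Complex.sinh z‖ := by
  refine abs_le_of_sq_le_sq ?_ (norm_nonneg _)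
  rw [norm_sinh_sq]
  have h1 := Real.sin_sq_add_cos_sq z.im
  have h2 := Real.cosh_sq z.re
  have h3 := sq_nonneg (Real.sin z.im)
  nlinarith

lemma cosh_low {z : ℂ} {β : ℝ} (hβ : β ≤ Real.pi / 2) (hz : |z.im| ≤ β) :
    Real.cos β * Real.cosh z.re ≤ ‖Complex.cosh z‖ := by
  have h0 : 0 ≤ β := (abs_nonneg _).trans hz
  have h1 : 0 ≤ Real.cos β := Real.cos_nonneg_of_mem_Icc ⟨by linarith [Real.pi_pos], hβ⟩
  have h2 : Real.cos β ≤ Real.cos z.im := by
    rw [← Real.cos_abs z.im]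
    exact Real.cos_le_cos_of_nonneg_of_le_pi (abs_nonneg _) (by linarith [Real.pi_pos]) hz
  have h3 := Real.cosh_pos z.re
  refine le_of_sq_le_sq ?_ (norm_nonneg _)
  rw [norm_cosh_sq]
  have h4 : (Real.cos β * Real.cosh z.re) ^ 2 ≤ (Real.cosh z.re * Real.cos z.im) ^ 2 := by
    refine pow_le_pow_left₀ (by positivity) ?_ 2
    nlinarith
  nlinarith [sq_nonneg (Real.sinh z.re * Real.sin z.im)]

lemma cosh_ne {z : ℂ} {β : ℝ} (hβ : β < Real.pi / 2) (hz : |z.im| ≤ β) : Complex.cosh z ≠ 0 := by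
  have h0 : 0 ≤ β := (abs_nonneg _).trans hz
  have h1 : 0 < Real.cos β := Real.cos_pos_of_mem_Ioo ⟨by linarith [Real.pi_pos], hβ⟩
  have h2 := cosh_low hβ.le hz
  have h3 := mul_pos h1 (Real.cosh_pos z.re)
  intro h
  rw [h, norm_zero] at h2
  linarith

lemma exp_le_cosh (x : ℝ) : Real.exp |x| / 2 ≤ Real.cosh x := by
  rw [← Real.cosh_abs x, Real.cosh_eq]
  have := Real.exp_pos (-|x|)
  linarith

lemma inv_cosh_bd {z : ℂ} {β : ℝ} (hβ : β < Real.pi / 2) (hz : |z.im| ≤ β) :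
    ‖1 / Complex.cosh z‖ ≤ 2 / Real.cos β * Real.exp (-|z.re|) := by
  have h0 : 0 ≤ β := (abs_nonneg _).trans hz
  have h1 : 0 < Real.cos β := Real.cos_pos_of_mem_Ioo ⟨by linarith [Real.pi_pos], hβ⟩
  have h2 := cosh_low hβ.le hz
  have h3 := exp_le_cosh z.re
  have h4 := Real.exp_pos |z.re|
  have h5 : Real.cos β * (Real.exp |z.re| / 2) ≤ ‖Complex.cosh z‖ := (mul_le_mul_of_nonneg_left h3 h1.le).trans h2
  rw [norm_div, norm_one, Real.exp_neg]
  calc 1 / ‖Complex.cosh z‖ ≤ 1 / (Real.cos β * (Real.exp |z.re| / 2)) := one_div_le_one_div_of_le (by positivity) h5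
    _ = 2 / Real.cos β * (Real.exp |z.re|)⁻¹ := by field_simp

lemma inv_cosh2_bd {z : ℂ} {β : ℝ} (hβ : β < Real.pi / 2) (hz : |z.im| ≤ β) :
    ‖1 / Complex.cosh z ^ 2‖ ≤ (2 / Real.cos β) ^ 2 * Real.exp (-(2 * |z.re|)) := by
  have h := inv_cosh_bd hβ hz
  have e : 1 / Complex.cosh z ^ 2 = (1 / Complex.cosh z) ^ 2 := by rw [one_div_pow]
  rw [e, norm_pow]
  calc ‖1 / Complex.cosh z‖ ^ 2 ≤ (2 / Real.cos β * Real.exp (-|z.re|)) ^ 2 := pow_le_pow_left₀ (norm_nonneg _) h 2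
    _ = (2 / Real.cos β) ^ 2 * Real.exp (-(2 * |z.re|)) := by
      rw [mul_pow, ← Real.exp_nat_mul]
      congr 2
      push_cast
      ring

lemma tanh_bd {z : ℂ} {β : ℝ} (hβ : β < Real.pi / 2) (hz : |z.im| ≤ β) : ‖Complex.tanh z‖ ≤ 1 / Real.cos β := by
  have h0 : 0 ≤ β := (abs_nonneg _).trans hz
  have h1 : 0 < Real.cos β := Real.cos_pos_of_mem_Ioo ⟨by linarith [Real.pi_pos], hβ⟩
  have h2 := cosh_low hβ.le hz
  have h3 := Real.cosh_pos z.re
  rw [Complex.tanh_eq_sinh_div_cosh, norm_div]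
  calc ‖Complex.sinh z‖ / ‖Complex.cosh z‖ ≤ Real.cosh z.re / (Real.cos β * Real.cosh z.re) := by
        have h4 := norm_sinh_le z
        have h5 : 0 < Real.cos β * Real.cosh z.re := by positivity
        gcongr
    _ = 1 / Real.cos β := by field_simp

/-! ### the integral of `1 / cosh` -/

lemma integrable_inv_cosh : Integrable fun y : ℝ => (Real.cosh y)⁻¹ := by
  refine ((NUP1.integrable_exp_neg_abs (δ := 1) one_pos).const_mul 2).mono' ?_ ?_
  · exact (Real.continuous_cosh.inv₀ fun y => (Real.cosh_pos y).ne').aestronglyMeasurable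
  · refine Eventually.of_forall fun y => ?_
    rw [Real.norm_eq_abs, abs_of_pos (inv_pos.2 (Real.cosh_pos y))]
    have h1 := exp_le_cosh y
    have h2 := Real.exp_pos |y|
    rw [show -1 * |y| = -|y| by ring, Real.exp_neg]
    calc (Real.cosh y)⁻¹ ≤ (Real.exp |y| / 2)⁻¹ := inv_anti₀ (by positivity) h1
      _ = 2 * (Real.exp |y|)⁻¹ := by rw [inv_div, div_eq_mul_inv]

lemma sinh_top : Tendsto Real.sinh atTop atTop := by
  refine tendsto_atTop_mono' atTop ?_ tendsto_id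
  filter_upwards [eventually_ge_atTop (0:ℝ)] with y hy
  exact Real.self_le_sinh_iff.2 hy

lemma integral_inv_cosh : ∫ y : ℝ, (Real.cosh y)⁻¹ = Real.pi := by
  have hd : ∀ y : ℝ, HasDerivAt (fun y => Real.arctan (Real.sinh y)) ((Real.cosh y)⁻¹) y := by
    intro y
    have h := (Real.hasDerivAt_sinh y).arctan
    convert h using 1
    rw [← Real.cosh_sq' y]
    have := (Real.cosh_pos y).ne'
    field_simp
  have htop : Tendsto (fun y => Real.arctan (Real.sinh y)) atTop (𝓝 (Real.pi / 2)) :=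
    (tendsto_nhds_of_tendsto_nhdsWithin Real.tendsto_arctan_atTop).comp sinh_top
  have hbot : Tendsto (fun y => Real.arctan (Real.sinh y)) atBot (𝓝 (-(Real.pi / 2))) := by
    have h1 : Tendsto Real.sinh atBot atBot := by
      have h2 : Tendsto (fun y : ℝ => - Real.sinh (-y)) atBot atBot :=
        tendsto_neg_atTop_atBot.comp (sinh_top.comp tendsto_neg_atBot_atTop)
      refine h2.congr fun y => ?_
      rw [Real.sinh_neg, neg_neg]
    exact (tendsto_nhds_of_tendsto_nhdsWithin Real.tendsto_arctan_atBot).comp h1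
  rw [integral_of_hasDerivAt_of_tendsto hd integrable_inv_cosh hbot htop]
  ring

/-- two lines in a symmetric strip -/
theorem hline2 {m y1 y2 : ℝ} (h1 : |y1| ≤ m) (h2 : |y2| ≤ m) {G : ℂ → ℂ} (hc : ContinuousOn G {z : ℂ | |z.im| ≤ m})
    (hd : ∀ z : ℂ, |z.im| < m → DifferentiableAt ℂ G z) {C δ t₀ : ℝ} (hδ : 0 < δ)
    (h : ∀ z : ℂ, |z.im| ≤ m → t₀ ≤ |z.re| → ‖G z‖ ≤ C * Real.exp (-δ * |z.re|)) :
    ∫ s : ℝ, G (s + y1 * I) = ∫ s : ℝ, G (s + y2 * I) := by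
  have aux : ∀ a b : ℝ, |a| ≤ m → |b| ≤ m → a ≤ b → ∫ s : ℝ, G (s + b * I) = ∫ s : ℝ, G (s + a * I) := by
    intro a b ha hb hab
    have ha' := abs_le.1 ha
    have hb' := abs_le.1 hb
    refine hline hab (hc.mono ?_) ?_ hδ (C := C) (t₀ := t₀) ?_
    · intro z hz
      have h3 : a ≤ z.im ∧ z.im ≤ b := hz
      have h4 : |z.im| ≤ m := abs_le.2 ⟨by linarith [ha'.1, h3.1], by linarith [hb'.2, h3.2]⟩
      exact h4
    · intro z hz1 hz2
      exact hd z (abs_lt.2 ⟨by linarith [ha'.1], by linarith [hb'.2]⟩)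
    · intro z hz1 hz2 hz3
      exact h z (abs_le.2 ⟨by linarith [ha'.1], by linarith [hb'.2]⟩) hz3
  rcases le_total y1 y2 with h3 | h3
  · exact (aux y1 y2 h1 h2 h3).symm
  · exact aux y2 y1 h2 h1 h3

lemma im34 (z : ℂ) : (3 * z / 4).im = 3 * z.im / 4 := by
  simp

lemma re34 (z : ℂ) : (3 * z / 4).re = 3 * z.re / 4 := by
  simp

/-- the integral of `1 / cosh (3 (s - z) / 4)` over the real line -/
theorem int_sech {z : ℂ} (hz : |z.im| < 2 * Real.pi / 3) :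
    Integrable (fun s : ℝ => 1 / Complex.cosh (3 * ((s : ℂ) - z) / 4)) ∧
      ∫ s : ℝ, 1 / Complex.cosh (3 * ((s : ℂ) - z) / 4) = ((4 * Real.pi / 3 : ℝ) : ℂ) := by
  set m : ℝ := |z.im| with hm
  have hm0 : 0 ≤ m := abs_nonneg _
  set β : ℝ := 3 * m / 4 with hβdef
  have hβ : β < Real.pi / 2 := by rw [hβdef]; linarith
  have hβ0 : 0 ≤ β := by positivity
  set G : ℂ → ℂ := fun ζ => 1 / Complex.cosh (3 * ζ / 4) with hG
  have habs : ∀ ζ : ℂ, |ζ.im| ≤ m → |(3 * ζ / 4).im| ≤ β := by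
    intro ζ h
    rw [im34, hβdef, abs_div, abs_mul, abs_of_pos (by norm_num : (0:ℝ) < 3), abs_of_pos (by norm_num : (0:ℝ) < 4)]
    linarith
  have hne : ∀ ζ : ℂ, |ζ.im| ≤ m → Complex.cosh (3 * ζ / 4) ≠ 0 := fun ζ h => cosh_ne hβ (habs ζ h)
  have hc : ContinuousOn G {ζ : ℂ | |ζ.im| ≤ m} := by
    refine ContinuousOn.div continuousOn_const ?_ ?_
    · fun_prop
    · intro ζ h
      exact hne ζ h
  have hd : ∀ ζ : ℂ, |ζ.im| < m → DifferentiableAt ℂ G ζ := by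
    intro ζ h
    have h1 := hne ζ h.le
    show DifferentiableAt ℂ (fun ζ => 1 / Complex.cosh (3 * ζ / 4)) ζ
    refine DifferentiableAt.div (by fun_prop) (by fun_prop) h1
  have hdec : ∀ ζ : ℂ, |ζ.im| ≤ m → (0:ℝ) ≤ |ζ.re| → ‖G ζ‖ ≤ 2 / Real.cos β * Real.exp (-(3/4) * |ζ.re|) := by
    intro ζ h _
    have h1 := inv_cosh_bd hβ (habs ζ h)
    rw [re34, abs_div, abs_mul, abs_of_pos (by norm_num : (0:ℝ) < 3), abs_of_pos (by norm_num : (0:ℝ) < 4)] at h1
    have e : -(3 * |ζ.re| / 4) = -(3/4) * |ζ.re| := by ring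
    rw [e] at h1
    exact h1
  have hmz : |(-z.im)| ≤ m := by rw [abs_neg]
  have hm00 : |(0:ℝ)| ≤ m := by rw [abs_zero]; exact hm0
  have key := hline2 hmz hm00 hc hd (by norm_num : (0:ℝ) < 3/4) hdec
  have hI : Integrable (fun s : ℝ => G (s + ((-z.im : ℝ) : ℂ) * I)) := by
    refine hint (a := -m) (b := m) (c := -z.im) ?_ ?_ (hc.mono ?_) (by norm_num : (0:ℝ) < 3/4)
      (C := 2 / Real.cos β) (t₀ := 0) ?_
    · exact (abs_le.1 hmz).1
    · exact (abs_le.1 hmz).2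
    · intro ζ h
      have h3 : -m ≤ ζ.im ∧ ζ.im ≤ m := h
      have h4 : |ζ.im| ≤ m := abs_le.2 h3
      exact h4
    · intro ζ h1 h2 h3
      exact hdec ζ (abs_le.2 ⟨h1, h2⟩) h3
  have eF : (fun s : ℝ => 1 / Complex.cosh (3 * ((s : ℂ) - z) / 4)) =
      fun s : ℝ => (fun s : ℝ => G (s + ((-z.im : ℝ) : ℂ) * I)) (s - z.re) := by
    funext s
    show 1 / Complex.cosh (3 * ((s : ℂ) - z) / 4) = 1 / Complex.cosh (3 * (((s - z.re : ℝ) : ℂ) + ((-z.im : ℝ) : ℂ) * I) / 4)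
    congr 2
    conv_lhs => rw [← re_add_im z]
    push_cast
    ring
  rw [eF]
  refine ⟨hI.comp_sub_right z.re, ?_⟩
  rw [integral_sub_right_eq_self (fun s : ℝ => G (s + ((-z.im : ℝ) : ℂ) * I)) z.re, key]
  have e2 : (fun s : ℝ => G (s + ((0 : ℝ) : ℂ) * I)) = fun s : ℝ => (((Real.cosh (3 / 4 * s))⁻¹ : ℝ) : ℂ) := by
    funext s
    show 1 / Complex.cosh (3 * ((s : ℂ) + ((0 : ℝ) : ℂ) * I) / 4) = _
    push_cast
    rw [zero_mul, add_zero, one_div]
    congr 2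
    ring
  rw [e2, integral_complex_ofReal]
  congr 1
  rw [Measure.integral_comp_mul_left (fun y : ℝ => (Real.cosh y)⁻¹) (3/4), integral_inv_cosh, smul_eq_mul]
  rw [abs_of_pos (by norm_num : (0:ℝ) < (3/4)⁻¹)]
  ring

/-! ### the rectangle -/

lemma sinh_ne {w : ℂ} (h : |w.im| < Real.pi) (hw : w ≠ 0) : Complex.sinh w ≠ 0 := by
  intro h0
  have h1 := norm_sinh_sq w
  rw [h0, norm_zero] at h1
  have h2 := Real.sin_sq_add_cos_sq w.im
  have h3 := Real.cosh_sq w.re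
  have h4 : Real.sinh w.re ^ 2 + Real.sin w.im ^ 2 = 0 := by
    have e : Real.sinh w.re ^ 2 + Real.sin w.im ^ 2 = (Real.sinh w.re * Real.cos w.im) ^ 2 +
        (Real.cosh w.re * Real.sin w.im) ^ 2 := by
      rw [mul_pow, mul_pow, h3]
      have : Real.cos w.im ^ 2 = 1 - Real.sin w.im ^ 2 := by linarith
      rw [this]
      ring
    rw [e]
    linarith
  have h5 : Real.sinh w.re = 0 := by
    have := sq_nonneg (Real.sinh w.re)
    have := sq_nonneg (Real.sin w.im)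
    exact pow_eq_zero_iff (two_ne_zero) |>.1 (by linarith)
  have h6 : Real.sin w.im = 0 := by
    have := sq_nonneg (Real.sinh w.re)
    have := sq_nonneg (Real.sin w.im)
    exact pow_eq_zero_iff (two_ne_zero) |>.1 (by linarith)
  have h7 : w.re = 0 := Real.sinh_eq_zero.1 h5
  have h8 : w.im = 0 := by
    have h9 := abs_lt.1 h
    exact (Real.sin_eq_zero_iff_of_lt_of_lt h9.1 h9.2).1 h6
  exact hw (Complex.ext h7 h8)

lemma sinh_abs_low {x : ℝ} (hx : 1 ≤ |x|) : Real.exp |x| / 4 ≤ |Real.sinh x| := by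
  rw [Real.abs_sinh, Real.sinh_eq, Real.exp_neg]
  have h1 := Real.exp_pos |x|
  have h2 : (2:ℝ) ≤ Real.exp |x| := by
    have := Real.add_one_le_exp |x|
    linarith
  have h3 : (Real.exp |x|)⁻¹ ≤ 1 / 2 := by
    rw [inv_eq_one_div]
    exact one_div_le_one_div_of_le (by norm_num) h2
  linarith

lemma dslope_quot {g : ℂ → ℂ} {z ζ : ℂ} (h : ζ ≠ z) :
    dslope g z ζ / dslope (fun ζ => Complex.sinh (3 * (ζ - z) / 4)) z ζ = (g ζ - g z) / Complex.sinh (3 * (ζ - z) / 4) := by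
  rw [dslope_of_ne _ h, dslope_of_ne _ h, slope_def_field, slope_def_field]
  have h1 : ζ - z ≠ 0 := sub_ne_zero.2 h
  have e : Complex.sinh (3 * (z - z) / 4) = 0 := by rw [sub_self, mul_zero, zero_div, Complex.sinh_zero]
  show (g ζ - g z) / (ζ - z) / ((Complex.sinh (3 * (ζ - z) / 4) - Complex.sinh (3 * (z - z) / 4)) / (ζ - z)) = _
  rw [e, sub_zero]
  rw [div_div_div_cancel_right₀ h1]

lemma hasDerivAt_sg (z ζ : ℂ) : HasDerivAt (fun ζ => Complex.sinh (3 * (ζ - z) / 4))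
    (Complex.cosh (3 * (ζ - z) / 4) * (3 / 4)) ζ := by
  have h1 : HasDerivAt (fun ζ : ℂ => 3 * (ζ - z) / 4) (3 / 4) ζ := by
    have h2 := (((hasDerivAt_id ζ).sub_const z).const_mul (3:ℂ)).div_const 4
    simpa using h2
  exact h1.csinh

theorem rect {g : ℂ → ℂ} {C : ℝ} (hc : ContinuousOn g {ζ : ℂ | |ζ.im| ≤ 2 * Real.pi / 3})
    (hd : ∀ ζ : ℂ, |ζ.im| < 2 * Real.pi / 3 → DifferentiableAt ℂ g ζ)
    (hb : ∀ ζ : ℂ, |ζ.im| ≤ 2 * Real.pi / 3 → ‖g ζ‖ ≤ C) {z : ℂ} (hz : |z.im| < 2 * Real.pi / 3) :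
    Integrable (fun s : ℝ => Kc (s - z) * (g (s + ((2 * Real.pi / 3 : ℝ) : ℂ) * I) +
      g (s - ((2 * Real.pi / 3 : ℝ) : ℂ) * I))) ∧
    ∫ s : ℝ, Kc (s - z) * (g (s + ((2 * Real.pi / 3 : ℝ) : ℂ) * I) +
      g (s - ((2 * Real.pi / 3 : ℝ) : ℂ) * I)) = g z := by
  set b : ℝ := 2 * Real.pi / 3 with hbdef
  have hpi := Real.pi_pos
  have hb0 : 0 < b := by rw [hbdef]; positivity
  set sg : ℂ → ℂ := fun ζ => Complex.sinh (3 * (ζ - z) / 4) with hsg
  set H : ℂ → ℂ := fun ζ => dslope g z ζ / dslope sg z ζ with hH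
  have hzn : {ζ : ℂ | |ζ.im| ≤ b} ∈ 𝓝 z := by
    have h1 : IsOpen {ζ : ℂ | |ζ.im| < b} := isOpen_lt (by fun_prop) continuous_const
    exact mem_of_superset (h1.mem_nhds hz) fun ζ h => (le_of_lt h : |ζ.im| ≤ b)
  have hzo : {ζ : ℂ | |ζ.im| < b} ∈ 𝓝 z := by
    have h1 : IsOpen {ζ : ℂ | |ζ.im| < b} := isOpen_lt (by fun_prop) continuous_const
    exact h1.mem_nhds hz
  have hsgne : ∀ ζ : ℂ, |ζ.im| ≤ b → dslope sg z ζ ≠ 0 := by
    intro ζ h
    by_cases e : ζ = z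
    · rw [e, dslope_same, (hasDerivAt_sg z z).deriv, sub_self, mul_zero, zero_div, Complex.cosh_zero]
      norm_num
    · rw [dslope_of_ne _ e, slope_def_field]
      have h1 : ζ - z ≠ 0 := sub_ne_zero.2 e
      refine div_ne_zero ?_ h1
      have e0 : sg z = 0 := by
        show Complex.sinh (3 * (z - z) / 4) = 0
        rw [sub_self, mul_zero, zero_div, Complex.sinh_zero]
      rw [e0, sub_zero]
      refine sinh_ne ?_ (by
        intro h2
        apply h1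
        have h3 : 3 * (ζ - z) = 0 := by
          have := congrArg (fun w => w * 4) h2
          simpa using this
        simpa using h3)
      rw [im34, sub_im, abs_div, abs_mul, abs_of_pos (by norm_num : (0:ℝ) < 3), abs_of_pos (by norm_num : (0:ℝ) < 4)]
      have h2 : |ζ.im - z.im| < 2 * b := by
        have := abs_sub ζ.im z.im
        linarith
      rw [hbdef] at h2
      linarith
  have hcH : ContinuousOn H {ζ : ℂ | |ζ.im| ≤ b} := by
    refine ContinuousOn.div ?_ ?_ fun ζ h => hsgne ζ h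
    · exact (continuousOn_dslope hzn).2 ⟨hc, hd z hz⟩
    · refine (continuousOn_dslope hzn).2 ⟨?_, (hasDerivAt_sg z z).differentiableAt⟩
      exact fun ζ _ => (hasDerivAt_sg z ζ).continuousAt.continuousWithinAt
  have hdH : ∀ ζ : ℂ, |ζ.im| < b → DifferentiableAt ℂ H ζ := by
    intro ζ h
    have h1 : IsOpen {ζ : ℂ | |ζ.im| < b} := isOpen_lt (by fun_prop) continuous_const
    have h2 : DifferentiableOn ℂ (dslope g z) {ζ : ℂ | |ζ.im| < b} :=
      (Complex.differentiableOn_dslope hzo).2 fun w hw => (hd w hw).differentiableWithinAt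
    have h3 : DifferentiableOn ℂ (dslope sg z) {ζ : ℂ | |ζ.im| < b} :=
      (Complex.differentiableOn_dslope hzo).2 fun w _ => (hasDerivAt_sg z w).differentiableAt.differentiableWithinAt
    exact (h2.differentiableAt (h1.mem_nhds h)).div (h3.differentiableAt (h1.mem_nhds h)) (hsgne ζ h.le)
  have hdec : ∀ ζ : ℂ, |ζ.im| ≤ b → |z.re| + 4 / 3 ≤ |ζ.re| →
      ‖H ζ‖ ≤ 8 * C * Real.exp (3 / 4 * |z.re|) * Real.exp (-(3/4) * |ζ.re|) := by
    intro ζ h1 h2
    have h3 : 4 / 3 ≤ |ζ.re - z.re| := by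
      have := abs_sub_abs_le_abs_sub ζ.re z.re
      linarith
    have h4 : ζ ≠ z := by
      intro e
      rw [e, sub_self, abs_zero] at h3
      norm_num at h3
    have e1 : H ζ = (g ζ - g z) / Complex.sinh (3 * (ζ - z) / 4) := dslope_quot h4
    have h5 : ‖g ζ - g z‖ ≤ 2 * C := by
      have := norm_sub_le (g ζ) (g z)
      have := hb ζ h1
      have := hb z hz.le
      linarith
    have h6 := sinh_le_norm (3 * (ζ - z) / 4)
    rw [re34, sub_re] at h6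
    have e7 : |3 * (ζ.re - z.re) / 4| = 3 / 4 * |ζ.re - z.re| := by
      rw [abs_div, abs_mul, abs_of_pos (by norm_num : (0:ℝ) < 3), abs_of_pos (by norm_num : (0:ℝ) < 4)]
      ring
    have h8 := sinh_abs_low (x := 3 * (ζ.re - z.re) / 4) (by rw [e7]; linarith)
    rw [e7] at h8
    have h9 : Real.exp (3 / 4 * |ζ.re - z.re|) / 4 ≤ ‖Complex.sinh (3 * (ζ - z) / 4)‖ := h8.trans h6
    have h10 := Real.exp_pos (3 / 4 * |ζ.re - z.re|)
    have hC : 0 ≤ C := (norm_nonneg _).trans (hb z hz.le)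
    rw [e1, norm_div]
    calc ‖g ζ - g z‖ / ‖Complex.sinh (3 * (ζ - z) / 4)‖ ≤ 2 * C / (Real.exp (3 / 4 * |ζ.re - z.re|) / 4) := by
          gcongr
      _ = 8 * C * Real.exp (-(3 / 4 * |ζ.re - z.re|)) := by
          rw [Real.exp_neg]
          field_simp
          ring
      _ ≤ 8 * C * Real.exp (3 / 4 * |z.re| + (-(3/4) * |ζ.re|)) := by
          have h11 := abs_sub_abs_le_abs_sub ζ.re z.re
          have h12 : -(3 / 4 * |ζ.re - z.re|) ≤ 3 / 4 * |z.re| + (-(3/4) * |ζ.re|) := by linarith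
          have h13 := Real.exp_le_exp.2 h12
          have h14 : 0 ≤ 8 * C := by linarith
          exact mul_le_mul_of_nonneg_left h13 h14
      _ = _ := by rw [Real.exp_add]; ring
  have hbb : |b| ≤ b := (abs_of_pos hb0).le
  have hbn : |(-b)| ≤ b := by rw [abs_neg]; exact hbb
  have key := hline2 hbb hbn hcH hdH (by norm_num : (0:ℝ) < 3/4) hdec
  have hIb : ∀ c : ℝ, |c| ≤ b → Integrable (fun s : ℝ => H (s + (c : ℂ) * I)) := by
    intro c hcb
    refine hint (a := -b) (b := b) (c := c) (abs_le.1 hcb).1 (abs_le.1 hcb).2 (hcH.mono ?_) (by norm_num : (0:ℝ) < 3/4)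
      (C := 8 * C * Real.exp (3 / 4 * |z.re|)) (t₀ := |z.re| + 4 / 3) ?_
    · intro ζ h
      have h3 : -b ≤ ζ.im ∧ ζ.im ≤ b := h
      have h4 : |ζ.im| ≤ b := abs_le.2 h3
      exact h4
    · intro ζ h1 h2 h3
      exact hdec ζ (abs_le.2 ⟨h1, h2⟩) h3
  obtain ⟨hI0, hI1⟩ := int_sech hz
  have hzb := abs_lt.1 hz
  have e1 : ∀ s : ℝ, H (s + (b : ℂ) * I) = -I * ((g (s + (b : ℂ) * I) - g z) * (1 / Complex.cosh (3 * ((s : ℂ) - z) / 4))) := by
    intro s
    have h4 : (s : ℂ) + (b : ℂ) * I ≠ z := by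
      intro e
      have := congrArg Complex.im e
      rw [hl_im] at this
      linarith [hzb.2]
    have e2 : H (s + (b : ℂ) * I) = (g (s + (b : ℂ) * I) - g z) / Complex.sinh (3 * ((s + (b : ℂ) * I) - z) / 4) := dslope_quot h4
    have e3 : 3 * ((s + (b : ℂ) * I) - z) / 4 = 3 * ((s : ℂ) - z) / 4 + ((Real.pi / 2 : ℝ) : ℂ) * I := by
      rw [hbdef]
      push_cast
      ring
    have e4 : Complex.sinh (3 * ((s + (b : ℂ) * I) - z) / 4) = Complex.cosh (3 * ((s : ℂ) - z) / 4) * I := by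
      rw [e3, Complex.sinh_add, Complex.cosh_mul_I, Complex.sinh_mul_I, ← Complex.ofReal_cos, ← Complex.ofReal_sin,
        Real.cos_pi_div_two, Real.sin_pi_div_two]
      push_cast
      ring
    rw [e2, e4, div_mul_eq_div_div, div_I]
    ring
  have e2 : ∀ s : ℝ, H (s + ((-b : ℝ) : ℂ) * I) =
      I * ((g (s - (b : ℂ) * I) - g z) * (1 / Complex.cosh (3 * ((s : ℂ) - z) / 4))) := by
    intro s
    have h4 : (s : ℂ) + ((-b : ℝ) : ℂ) * I ≠ z := by
      intro e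
      have := congrArg Complex.im e
      rw [hl_im] at this
      linarith [hzb.1]
    have e2 : H (s + ((-b : ℝ) : ℂ) * I) = (g (s + ((-b : ℝ) : ℂ) * I) - g z) /
        Complex.sinh (3 * ((s + ((-b : ℝ) : ℂ) * I) - z) / 4) := dslope_quot h4
    have e3 : 3 * ((s + ((-b : ℝ) : ℂ) * I) - z) / 4 = 3 * ((s : ℂ) - z) / 4 - ((Real.pi / 2 : ℝ) : ℂ) * I := by
      rw [hbdef]
      push_cast
      ring
    have e4 : Complex.sinh (3 * ((s + ((-b : ℝ) : ℂ) * I) - z) / 4) = - (Complex.cosh (3 * ((s : ℂ) - z) / 4) * I) := by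
      rw [e3, Complex.sinh_sub, Complex.cosh_mul_I, Complex.sinh_mul_I, ← Complex.ofReal_cos, ← Complex.ofReal_sin,
        Real.cos_pi_div_two, Real.sin_pi_div_two]
      push_cast
      ring
    have e5 : (s : ℂ) + ((-b : ℝ) : ℂ) * I = s - (b : ℂ) * I := by
      push_cast
      ring
    rw [e2, e4, e5, div_neg, div_mul_eq_div_div, div_I]
    ring
  have hJ1 := hIb b hbb
  have hJ2 := hIb (-b) hbn
  have eq1 : (fun s : ℝ => Kc (s - z) * (g (s + (b : ℂ) * I) + g (s - (b : ℂ) * I))) =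
      fun s : ℝ => ((3 / (8 * Real.pi) : ℝ) : ℂ) * (I * (H (s + (b : ℂ) * I) - H (s + ((-b : ℝ) : ℂ) * I)) +
        2 * g z * (1 / Complex.cosh (3 * ((s : ℂ) - z) / 4))) := by
    funext s
    rw [e1 s, e2 s]
    show ((3 / (8 * Real.pi) : ℝ) : ℂ) / Complex.cosh (3 * ((s : ℂ) - z) / 4) * _ = _
    have hI2 : I * I = -1 := I_mul_I
    linear_combination ((3 / (8 * Real.pi) : ℝ) : ℂ) * (g (s + (b : ℂ) * I) + g (s - (b : ℂ) * I) - 2 * g z) *
      (1 / Complex.cosh (3 * ((s : ℂ) - z) / 4)) * hI2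
  rw [eq1]
  refine ⟨?_, ?_⟩
  · exact (((hJ1.sub hJ2).const_mul I).add (hI0.const_mul (2 * g z))).const_mul _
  · have hS : Integrable (fun s : ℝ => I * (H (s + (b : ℂ) * I) - H (s + ((-b : ℝ) : ℂ) * I))) :=
      (hJ1.sub hJ2).const_mul I
    rw [integral_const_mul, integral_add hS (hI0.const_mul (2 * g z)), integral_const_mul,
      integral_const_mul, integral_sub hJ1 hJ2, key, sub_self, hI1]
    push_cast
    have hpi' : (Real.pi : ℂ) ≠ 0 := by
      exact_mod_cast hpi.ne'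
    field_simp
    ring

/-- the same with the lines `Im = η ± 2 π / 3` -/
theorem rect_eta {g : ℂ → ℂ} {C η : ℝ} (hc : ContinuousOn g {ζ : ℂ | |ζ.im - η| ≤ 2 * Real.pi / 3})
    (hd : ∀ ζ : ℂ, |ζ.im - η| < 2 * Real.pi / 3 → DifferentiableAt ℂ g ζ)
    (hb : ∀ ζ : ℂ, |ζ.im - η| ≤ 2 * Real.pi / 3 → ‖g ζ‖ ≤ C) {z : ℂ} (hz : |z.im - η| < 2 * Real.pi / 3) :
    Integrable (fun s : ℝ => Kc (s + (η : ℂ) * I - z) * (g (s + (η : ℂ) * I + ((2 * Real.pi / 3 : ℝ) : ℂ) * I) +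
      g (s + (η : ℂ) * I - ((2 * Real.pi / 3 : ℝ) : ℂ) * I))) ∧
    ∫ s : ℝ, Kc (s + (η : ℂ) * I - z) * (g (s + (η : ℂ) * I + ((2 * Real.pi / 3 : ℝ) : ℂ) * I) +
      g (s + (η : ℂ) * I - ((2 * Real.pi / 3 : ℝ) : ℂ) * I)) = g z := by
  have him : ∀ ζ : ℂ, (ζ + (η : ℂ) * I).im = ζ.im + η := fun ζ => by simp
  have him' : ∀ ζ : ℂ, (ζ - (η : ℂ) * I).im = ζ.im - η := fun ζ => by simp
  have key := rect (g := fun ζ => g (ζ + (η : ℂ) * I)) (C := C) (z := z - (η : ℂ) * I) (by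
      refine hc.comp (by fun_prop) ?_
      intro ζ hζ
      show |(ζ + (η : ℂ) * I).im - η| ≤ 2 * Real.pi / 3
      rw [him, add_sub_cancel_right]
      exact hζ) (by
      intro ζ hζ
      have h1 : DifferentiableAt ℂ g (ζ + (η : ℂ) * I) := hd _ (by rw [him, add_sub_cancel_right]; exact hζ)
      exact (HasDerivAt.comp_add_const ζ ((η : ℂ) * I) h1.hasDerivAt).differentiableAt) (by
      intro ζ hζ
      exact hb _ (by rw [him, add_sub_cancel_right]; exact hζ)) (by rw [him']; exact hz)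
  have e : (fun s : ℝ => Kc (s + (η : ℂ) * I - z) * (g (s + (η : ℂ) * I + ((2 * Real.pi / 3 : ℝ) : ℂ) * I) +
      g (s + (η : ℂ) * I - ((2 * Real.pi / 3 : ℝ) : ℂ) * I))) =
      fun s : ℝ => Kc (s - (z - (η : ℂ) * I)) * (g (s + ((2 * Real.pi / 3 : ℝ) : ℂ) * I + (η : ℂ) * I) +
      g (s - ((2 * Real.pi / 3 : ℝ) : ℂ) * I + (η : ℂ) * I)) := by
    funext s
    rw [show (s : ℂ) - (z - (η : ℂ) * I) = s + (η : ℂ) * I - z by ring,
      show (s : ℂ) + ((2 * Real.pi / 3 : ℝ) : ℂ) * I + (η : ℂ) * I = s + (η : ℂ) * I + ((2 * Real.pi / 3 : ℝ) : ℂ) * I by ring,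
      show (s : ℂ) - ((2 * Real.pi / 3 : ℝ) : ℂ) * I + (η : ℂ) * I = s + (η : ℂ) * I - ((2 * Real.pi / 3 : ℝ) : ℂ) * I by ring]
  rw [e]
  have e2 : g (z - (η : ℂ) * I + (η : ℂ) * I) = g z := by rw [sub_add_cancel]
  exact ⟨key.1, key.2.trans e2⟩

/-! ### `t` and `p` -/

lemma hasDerivAt_ctanh {w : ℂ} (h : Complex.cosh w ≠ 0) : HasDerivAt Complex.tanh (1 / Complex.cosh w ^ 2) w := by
  have h1 := (Complex.hasDerivAt_sinh w).div (Complex.hasDerivAt_cosh w) h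
  have e : (Complex.tanh : ℂ → ℂ) = fun z => Complex.sinh z / Complex.cosh z := by
    funext z
    exact Complex.tanh_eq_sinh_div_cosh z
  rw [e]
  refine h1.congr_deriv ?_
  congr 1
  have := Complex.cosh_sq_sub_sinh_sq w
  linear_combination this

lemma im_half (z : ℂ) : |(z / 2).im| = |z.im| / 2 := by
  have : (z / 2).im = z.im / 2 := by simp
  rw [this, abs_div, abs_of_pos (by norm_num : (0:ℝ) < 2)]

lemma re_half (z : ℂ) : |(z / 2).re| = |z.re| / 2 := by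
  have : (z / 2).re = z.re / 2 := by simp
  rw [this, abs_div, abs_of_pos (by norm_num : (0:ℝ) < 2)]

lemma im_A (z : ℂ) : |(3 * z / 8 + ((Real.pi / 8 : ℝ) : ℂ) * I).im| ≤ 3 * |z.im| / 8 + Real.pi / 8 := by
  have h : (3 * z / 8 + ((Real.pi / 8 : ℝ) : ℂ) * I).im = 3 * z.im / 8 + Real.pi / 8 := by
    rw [add_im, im_ofReal_mul, I_im]
    have : (3 * z / 8).im = 3 * z.im / 8 := by simp
    rw [this]
    ring
  rw [h]
  have hpi := Real.pi_pos
  refine (abs_add_le _ _).trans ?_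
  rw [abs_div, abs_mul, abs_of_pos (by norm_num : (0:ℝ) < 3), abs_of_pos (by norm_num : (0:ℝ) < 8),
    abs_of_pos (by positivity : 0 < Real.pi / 8)]

lemma im_B (z : ℂ) : |(3 * z / 8 - ((Real.pi / 8 : ℝ) : ℂ) * I).im| ≤ 3 * |z.im| / 8 + Real.pi / 8 := by
  have h : (3 * z / 8 - ((Real.pi / 8 : ℝ) : ℂ) * I).im = 3 * z.im / 8 - Real.pi / 8 := by
    rw [sub_im, im_ofReal_mul, I_im]
    have : (3 * z / 8).im = 3 * z.im / 8 := by simp
    rw [this]
    ring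
  rw [h]
  have hpi := Real.pi_pos
  refine (abs_sub _ _).trans ?_
  rw [abs_div, abs_mul, abs_of_pos (by norm_num : (0:ℝ) < 3), abs_of_pos (by norm_num : (0:ℝ) < 8),
    abs_of_pos (by positivity : 0 < Real.pi / 8)]

lemma re_A (z : ℂ) : |(3 * z / 8 + ((Real.pi / 8 : ℝ) : ℂ) * I).re| = 3 / 8 * |z.re| := by
  have h : (3 * z / 8 + ((Real.pi / 8 : ℝ) : ℂ) * I).re = 3 / 8 * z.re := by
    rw [add_re, re_ofReal_mul, I_re]
    have : (3 * z / 8).re = 3 * z.re / 8 := by simp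
    rw [this]
    ring
  rw [h, abs_mul, abs_of_pos (by norm_num : (0:ℝ) < 3 / 8)]

lemma re_B (z : ℂ) : |(3 * z / 8 - ((Real.pi / 8 : ℝ) : ℂ) * I).re| = 3 / 8 * |z.re| := by
  have h : (3 * z / 8 - ((Real.pi / 8 : ℝ) : ℂ) * I).re = 3 / 8 * z.re := by
    rw [sub_re, re_ofReal_mul, I_re]
    have : (3 * z / 8).re = 3 * z.re / 8 := by simp
    rw [this]
    ring
  rw [h, abs_mul, abs_of_pos (by norm_num : (0:ℝ) < 3 / 8)]

lemma ne_half {z : ℂ} (h : |z.im| < Real.pi) : Complex.cosh (z / 2) ≠ 0 :=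
  cosh_ne (β := |z.im| / 2) (by linarith) (im_half z).le

lemma ne_A {z : ℂ} (h : |z.im| < Real.pi) : Complex.cosh (3 * z / 8 + ((Real.pi / 8 : ℝ) : ℂ) * I) ≠ 0 :=
  cosh_ne (β := 3 * |z.im| / 8 + Real.pi / 8) (by linarith) (im_A z)

lemma ne_B {z : ℂ} (h : |z.im| < Real.pi) : Complex.cosh (3 * z / 8 - ((Real.pi / 8 : ℝ) : ℂ) * I) ≠ 0 :=
  cosh_ne (β := 3 * |z.im| / 8 + Real.pi / 8) (by linarith) (im_B z)

lemma ne_34 {z : ℂ} (h : |z.im| < 2 * Real.pi / 3) : Complex.cosh (3 * z / 4) ≠ 0 := by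
  refine cosh_ne (β := 3 * |z.im| / 4) (by linarith) ?_
  rw [im34, abs_div, abs_mul, abs_of_pos (by norm_num : (0:ℝ) < 3), abs_of_pos (by norm_num : (0:ℝ) < 4)]

/-- the denominator of `p` -/
lemma den_p (z : ℂ) : Complex.cosh (3 * z / 4) + ((Real.sqrt 2 / 2 : ℝ) : ℂ) =
    2 * (Complex.cosh (3 * z / 8 + ((Real.pi / 8 : ℝ) : ℂ) * I) * Complex.cosh (3 * z / 8 - ((Real.pi / 8 : ℝ) : ℂ) * I)) := by
  set A := 3 * z / 8 + ((Real.pi / 8 : ℝ) : ℂ) * I with hA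
  set B := 3 * z / 8 - ((Real.pi / 8 : ℝ) : ℂ) * I with hB
  have e1 := Complex.cosh_add A B
  have e2 := Complex.cosh_sub A B
  have e3 : A + B = 3 * z / 4 := by rw [hA, hB]; ring
  have e4 : A - B = ((Real.pi / 4 : ℝ) : ℂ) * I := by rw [hA, hB]; push_cast; ring
  rw [e3] at e1
  rw [e4, Complex.cosh_mul_I, ← Complex.ofReal_cos, Real.cos_pi_div_four] at e2
  rw [e1, e2]
  ring

lemma den_ne {z : ℂ} (h : |z.im| < Real.pi) : Complex.cosh (3 * z / 4) + ((Real.sqrt 2 / 2 : ℝ) : ℂ) ≠ 0 := by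
  rw [den_p]
  exact mul_ne_zero two_ne_zero (mul_ne_zero (ne_A h) (ne_B h))

lemma p_tanh {z : ℂ} (h : |z.im| < Real.pi) : p z =
    3 / 4 * (Complex.tanh (3 * z / 8 + ((Real.pi / 8 : ℝ) : ℂ) * I) + Complex.tanh (3 * z / 8 - ((Real.pi / 8 : ℝ) : ℂ) * I)) := by
  unfold p
  rw [den_p]
  have hA := ne_A h
  have hB := ne_B h
  set A := 3 * z / 8 + ((Real.pi / 8 : ℝ) : ℂ) * I with hAd
  set B := 3 * z / 8 - ((Real.pi / 8 : ℝ) : ℂ) * I with hBd
  have e1 := Complex.sinh_add A B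
  have e3 : A + B = 3 * z / 4 := by rw [hAd, hBd]; ring
  rw [e3] at e1
  rw [e1, Complex.tanh_eq_sinh_div_cosh, Complex.tanh_eq_sinh_div_cosh]
  field_simp
  ring

end Sh

open Sh

theorem hasDerivAt_t {z : ℂ} (h : |z.im| < Real.pi) : HasDerivAt t (t' z) z := by
  have h1 : HasDerivAt (fun z : ℂ => z / 2) (1 / 2) z := (hasDerivAt_id z).div_const 2
  have h2 := (hasDerivAt_ctanh (ne_half h)).comp z h1
  refine h2.congr_deriv ?_
  unfold t'
  rw [div_mul_div_comm, one_mul, mul_comm (Complex.cosh (z / 2) ^ 2)]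

theorem hasDerivAt_p {z : ℂ} (h : |z.im| < Real.pi) : HasDerivAt p (p' z) z := by
  have h0 : HasDerivAt (fun z : ℂ => 3 * z / 8) (3 / 8) z := by
    have h2 := ((hasDerivAt_id z).const_mul (3:ℂ)).div_const 8
    simpa using h2
  have hA := (hasDerivAt_ctanh (ne_A h)).comp z (h0.add_const (((Real.pi / 8 : ℝ) : ℂ) * I))
  have hB := (hasDerivAt_ctanh (ne_B h)).comp z (h0.sub_const (((Real.pi / 8 : ℝ) : ℂ) * I))
  have h3 := (hA.add hB).const_mul (3 / 4 : ℂ)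
  have h4 : (fun w => 3 / 4 * (Complex.tanh (3 * w / 8 + ((Real.pi / 8 : ℝ) : ℂ) * I) +
      Complex.tanh (3 * w / 8 - ((Real.pi / 8 : ℝ) : ℂ) * I))) =ᶠ[𝓝 z] p := by
    have h5 : IsOpen {w : ℂ | |w.im| < Real.pi} := isOpen_lt (by fun_prop) continuous_const
    filter_upwards [h5.mem_nhds h] with w hw
    exact (p_tanh hw).symm
  have h6 := HasDerivAt.congr_of_eventuallyEq h3 h4.symm
  refine h6.congr_deriv ?_
  unfold p'
  ring

theorem differentiableAt_t' {z : ℂ} (h : |z.im| < Real.pi) : DifferentiableAt ℂ t' z := by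
  have h1 := ne_half h
  show DifferentiableAt ℂ (fun z : ℂ => 1 / (2 * Complex.cosh (z / 2) ^ 2)) z
  exact DifferentiableAt.div (by fun_prop) (by fun_prop) (mul_ne_zero two_ne_zero (pow_ne_zero 2 h1))

theorem differentiableAt_p' {z : ℂ} (h : |z.im| < Real.pi) : DifferentiableAt ℂ p' z := by
  have h1 := ne_A h
  have h2 := ne_B h
  show DifferentiableAt ℂ (fun z : ℂ => 9 / 32 * (1 / Complex.cosh (3 * z / 8 + ((Real.pi / 8 : ℝ) : ℂ) * I) ^ 2 +
    1 / Complex.cosh (3 * z / 8 - ((Real.pi / 8 : ℝ) : ℂ) * I) ^ 2)) z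
  refine DifferentiableAt.const_mul (DifferentiableAt.add ?_ ?_) _
  · exact DifferentiableAt.div (by fun_prop) (by fun_prop) (pow_ne_zero 2 h1)
  · exact DifferentiableAt.div (by fun_prop) (by fun_prop) (pow_ne_zero 2 h2)

theorem t_bd {z : ℂ} {c : ℝ} (hc : c < Real.pi) (hz : |z.im| ≤ c) : ‖t z‖ ≤ 1 / Real.cos (c / 2) :=
  tanh_bd (by linarith) (by rw [im_half]; linarith)

theorem t'_bd {z : ℂ} {c : ℝ} (hc : c < Real.pi) (hz : |z.im| ≤ c) :
    ‖t' z‖ ≤ 2 / Real.cos (c / 2) ^ 2 * Real.exp (-|z.re|) := by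
  have h := inv_cosh2_bd (z := z / 2) (β := c / 2) (by linarith) (by rw [im_half]; linarith)
  have e : t' z = 1 / 2 * (1 / Complex.cosh (z / 2) ^ 2) := by
    unfold t'
    rw [div_mul_div_comm, one_mul]
  rw [re_half] at h
  rw [e, norm_mul, show ‖(1 / 2 : ℂ)‖ = 1 / 2 by simp]
  calc 1 / 2 * ‖1 / Complex.cosh (z / 2) ^ 2‖ ≤ 1 / 2 * ((2 / Real.cos (c / 2)) ^ 2 * Real.exp (-(2 * (|z.re| / 2)))) :=
        mul_le_mul_of_nonneg_left h (by norm_num)
    _ = 2 / Real.cos (c / 2) ^ 2 * Real.exp (-|z.re|) := by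
        rw [show -(2 * (|z.re| / 2)) = -|z.re| by ring, div_pow]
        ring

theorem p_bd {z : ℂ} {c : ℝ} (hc : c < Real.pi) (hz : |z.im| ≤ c) : ‖p z‖ ≤ 3 / 2 / Real.cos (3 * c / 8 + Real.pi / 8) := by
  have hz' : |z.im| < Real.pi := lt_of_le_of_lt hz hc
  have hA := tanh_bd (β := 3 * c / 8 + Real.pi / 8) (by linarith) ((im_A z).trans (by linarith))
  have hB := tanh_bd (β := 3 * c / 8 + Real.pi / 8) (by linarith) ((im_B z).trans (by linarith))
  rw [p_tanh hz', norm_mul, show ‖(3 / 4 : ℂ)‖ = 3 / 4 by simp]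
  have h1 := norm_add_le (Complex.tanh (3 * z / 8 + ((Real.pi / 8 : ℝ) : ℂ) * I))
    (Complex.tanh (3 * z / 8 - ((Real.pi / 8 : ℝ) : ℂ) * I))
  calc 3 / 4 * _ ≤ 3 / 4 * (1 / Real.cos (3 * c / 8 + Real.pi / 8) + 1 / Real.cos (3 * c / 8 + Real.pi / 8)) :=
        mul_le_mul_of_nonneg_left (h1.trans (add_le_add hA hB)) (by norm_num)
    _ = _ := by ring

theorem p'_bd {z : ℂ} {c : ℝ} (hc : c < Real.pi) (hz : |z.im| ≤ c) :
    ‖p' z‖ ≤ 9 / 4 / Real.cos (3 * c / 8 + Real.pi / 8) ^ 2 * Real.exp (-(3 / 4 * |z.re|)) := by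
  have hA := inv_cosh2_bd (β := 3 * c / 8 + Real.pi / 8) (by linarith) ((im_A z).trans (by linarith))
  have hB := inv_cosh2_bd (β := 3 * c / 8 + Real.pi / 8) (by linarith) ((im_B z).trans (by linarith))
  rw [re_A] at hA
  rw [re_B] at hB
  unfold p'
  rw [norm_mul, show ‖(9 / 32 : ℂ)‖ = 9 / 32 by simp]
  have h1 := norm_add_le (1 / Complex.cosh (3 * z / 8 + ((Real.pi / 8 : ℝ) : ℂ) * I) ^ 2)
    (1 / Complex.cosh (3 * z / 8 - ((Real.pi / 8 : ℝ) : ℂ) * I) ^ 2)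
  calc 9 / 32 * _ ≤ 9 / 32 * ((2 / Real.cos (3 * c / 8 + Real.pi / 8)) ^ 2 * Real.exp (-(2 * (3 / 8 * |z.re|))) +
        (2 / Real.cos (3 * c / 8 + Real.pi / 8)) ^ 2 * Real.exp (-(2 * (3 / 8 * |z.re|)))) :=
        mul_le_mul_of_nonneg_left (h1.trans (add_le_add hA hB)) (by norm_num)
    _ = _ := by
        rw [show -(2 * (3 / 8 * |z.re|)) = -(3 / 4 * |z.re|) by ring, div_pow]
        ring

/-! ### the sum rule of `p` -/

namespace Sh

lemma sinh_quarter (w : ℂ) : Complex.sinh (w + ((Real.pi / 2 : ℝ) : ℂ) * I) = Complex.cosh w * I := by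
  rw [Complex.sinh_add, Complex.cosh_mul_I, Complex.sinh_mul_I, ← Complex.ofReal_cos, ← Complex.ofReal_sin,
    Real.cos_pi_div_two, Real.sin_pi_div_two]
  push_cast
  ring

lemma cosh_quarter (w : ℂ) : Complex.cosh (w + ((Real.pi / 2 : ℝ) : ℂ) * I) = Complex.sinh w * I := by
  rw [Complex.cosh_add, Complex.cosh_mul_I, Complex.sinh_mul_I, ← Complex.ofReal_cos, ← Complex.ofReal_sin,
    Real.cos_pi_div_two, Real.sin_pi_div_two]
  push_cast
  ring

lemma sinh_quarter' (w : ℂ) : Complex.sinh (w - ((Real.pi / 2 : ℝ) : ℂ) * I) = -(Complex.cosh w * I) := by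
  rw [Complex.sinh_sub, Complex.cosh_mul_I, Complex.sinh_mul_I, ← Complex.ofReal_cos, ← Complex.ofReal_sin,
    Real.cos_pi_div_two, Real.sin_pi_div_two]
  push_cast
  ring

lemma cosh_quarter' (w : ℂ) : Complex.cosh (w - ((Real.pi / 2 : ℝ) : ℂ) * I) = -(Complex.sinh w * I) := by
  rw [Complex.cosh_sub, Complex.cosh_mul_I, Complex.sinh_mul_I, ← Complex.ofReal_cos, ← Complex.ofReal_sin,
    Real.cos_pi_div_two, Real.sin_pi_div_two]
  push_cast
  ring

lemma r2 : ((Real.sqrt 2 / 2 : ℝ) : ℂ) ^ 2 = 1 / 2 := by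
  have h : (Real.sqrt 2 / 2) ^ 2 = 1 / 2 := by
    rw [div_pow, Real.sq_sqrt (by norm_num)]
    norm_num
  rw [← Complex.ofReal_pow, h]
  push_cast
  rfl

lemma r3 : ((Real.sqrt 3 / 2 : ℝ) : ℂ) ^ 2 = 3 / 4 := by
  have h : (Real.sqrt 3 / 2) ^ 2 = 3 / 4 := by
    rw [div_pow, Real.sq_sqrt (by norm_num)]
    norm_num
  rw [← Complex.ofReal_pow, h]
  push_cast
  rfl

end Sh

theorem p_pair {w : ℂ} (h : |w.im| < Real.pi / 3) :
    p (w + ((2 * Real.pi / 3 : ℝ) : ℂ) * I) + p (w - ((2 * Real.pi / 3 : ℝ) : ℂ) * I) =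
      3 * (Complex.sinh (3 * (w / 2)) / Complex.cosh (3 * (w / 2))) := by
  have hpi := Real.pi_pos
  have e1 : 3 * (w + ((2 * Real.pi / 3 : ℝ) : ℂ) * I) / 4 = 3 * w / 4 + ((Real.pi / 2 : ℝ) : ℂ) * I := by
    push_cast; ring
  have e2 : 3 * (w - ((2 * Real.pi / 3 : ℝ) : ℂ) * I) / 4 = 3 * w / 4 - ((Real.pi / 2 : ℝ) : ℂ) * I := by
    push_cast; ring
  have i1 : (w + ((2 * Real.pi / 3 : ℝ) : ℂ) * I).im = w.im + 2 * Real.pi / 3 := by
    rw [add_im, im_ofReal_mul, I_im, mul_one]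
  have i2 : (w - ((2 * Real.pi / 3 : ℝ) : ℂ) * I).im = w.im - 2 * Real.pi / 3 := by
    rw [sub_im, im_ofReal_mul, I_im, mul_one]
  have hh := abs_lt.1 h
  have d1 := den_ne (z := w + ((2 * Real.pi / 3 : ℝ) : ℂ) * I) (by
    rw [i1]; exact abs_lt.2 ⟨by linarith [hh.1], by linarith [hh.2]⟩)
  have d2 := den_ne (z := w - ((2 * Real.pi / 3 : ℝ) : ℂ) * I) (by
    rw [i2]; exact abs_lt.2 ⟨by linarith [hh.1], by linarith [hh.2]⟩)
  unfold p
  rw [e1, cosh_quarter] at d1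
  rw [e2, cosh_quarter'] at d2
  rw [e1, e2, sinh_quarter, cosh_quarter, sinh_quarter', cosh_quarter']
  set S := Complex.sinh (3 * w / 4) with hS
  set K := Complex.cosh (3 * w / 4) with hK
  set r := ((Real.sqrt 2 / 2 : ℝ) : ℂ) with hr
  have hr2 : r ^ 2 = 1 / 2 := r2
  have hI2 : I * I = -1 := I_mul_I
  have hKS : K ^ 2 - S ^ 2 = 1 := Complex.cosh_sq_sub_sinh_sq _
  have e3 : Complex.sinh (3 * (w / 2)) = 2 * S * K := by
    rw [show 3 * (w / 2) = 2 * (3 * w / 4) by ring, Complex.sinh_two_mul]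
  have e4 : Complex.cosh (3 * (w / 2)) = 2 * ((S * I + r) * (-(S * I) + r)) := by
    rw [show 3 * (w / 2) = 2 * (3 * w / 4) by ring, Complex.cosh_two_mul]
    linear_combination hKS + 2 * S ^ 2 * hI2 - 2 * hr2
  have e5 : 3 * (2 * S * K / (2 * ((S * I + r) * (-(S * I) + r)))) = 3 * S * K / ((S * I + r) * (-(S * I) + r)) := by
    rw [mul_assoc 2 S K, mul_div_mul_left _ _ two_ne_zero]
    ring
  rw [e3, e4, e5, div_add_div _ _ d1 d2]
  congr 1
  linear_combination (-3 * K * S) * hI2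

theorem t_triple {w : ℂ} (h : |w.im| < Real.pi / 3) :
    t w + t (w + ((2 * Real.pi / 3 : ℝ) : ℂ) * I) + t (w - ((2 * Real.pi / 3 : ℝ) : ℂ) * I) =
      3 * (Complex.sinh (3 * (w / 2)) / Complex.cosh (3 * (w / 2))) := by
  have hpi := Real.pi_pos
  have i1 : (w + ((2 * Real.pi / 3 : ℝ) : ℂ) * I).im = w.im + 2 * Real.pi / 3 := by
    rw [add_im, im_ofReal_mul, I_im, mul_one]
  have i2 : (w - ((2 * Real.pi / 3 : ℝ) : ℂ) * I).im = w.im - 2 * Real.pi / 3 := by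
    rw [sub_im, im_ofReal_mul, I_im, mul_one]
  have hh := abs_lt.1 h
  have d0 := ne_half (z := w) (by linarith)
  have d1 := ne_half (z := w + ((2 * Real.pi / 3 : ℝ) : ℂ) * I) (by
    rw [i1]; exact abs_lt.2 ⟨by linarith [hh.1], by linarith [hh.2]⟩)
  have d2 := ne_half (z := w - ((2 * Real.pi / 3 : ℝ) : ℂ) * I) (by
    rw [i2]; exact abs_lt.2 ⟨by linarith [hh.1], by linarith [hh.2]⟩)
  have e1 : (w + ((2 * Real.pi / 3 : ℝ) : ℂ) * I) / 2 = w / 2 + ((Real.pi / 3 : ℝ) : ℂ) * I := by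
    push_cast; ring
  have e2 : (w - ((2 * Real.pi / 3 : ℝ) : ℂ) * I) / 2 = w / 2 - ((Real.pi / 3 : ℝ) : ℂ) * I := by
    push_cast; ring
  have c1 : Complex.cosh (w / 2 + ((Real.pi / 3 : ℝ) : ℂ) * I) =
      Complex.cosh (w / 2) / 2 + Complex.sinh (w / 2) * ((Real.sqrt 3 / 2 : ℝ) : ℂ) * I := by
    rw [Complex.cosh_add, Complex.cosh_mul_I, Complex.sinh_mul_I, ← Complex.ofReal_cos, ← Complex.ofReal_sin,
      Real.cos_pi_div_three, Real.sin_pi_div_three]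
    push_cast
    ring
  have c2 : Complex.cosh (w / 2 - ((Real.pi / 3 : ℝ) : ℂ) * I) =
      Complex.cosh (w / 2) / 2 - Complex.sinh (w / 2) * ((Real.sqrt 3 / 2 : ℝ) : ℂ) * I := by
    rw [Complex.cosh_sub, Complex.cosh_mul_I, Complex.sinh_mul_I, ← Complex.ofReal_cos, ← Complex.ofReal_sin,
      Real.cos_pi_div_three, Real.sin_pi_div_three]
    push_cast
    ring
  have s1 : Complex.sinh (w / 2 + ((Real.pi / 3 : ℝ) : ℂ) * I) =
      Complex.sinh (w / 2) / 2 + Complex.cosh (w / 2) * ((Real.sqrt 3 / 2 : ℝ) : ℂ) * I := by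
    rw [Complex.sinh_add, Complex.cosh_mul_I, Complex.sinh_mul_I, ← Complex.ofReal_cos, ← Complex.ofReal_sin,
      Real.cos_pi_div_three, Real.sin_pi_div_three]
    push_cast
    ring
  have s2 : Complex.sinh (w / 2 - ((Real.pi / 3 : ℝ) : ℂ) * I) =
      Complex.sinh (w / 2) / 2 - Complex.cosh (w / 2) * ((Real.sqrt 3 / 2 : ℝ) : ℂ) * I := by
    rw [Complex.sinh_sub, Complex.cosh_mul_I, Complex.sinh_mul_I, ← Complex.ofReal_cos, ← Complex.ofReal_sin,
      Real.cos_pi_div_three, Real.sin_pi_div_three]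
    push_cast
    ring
  unfold t
  rw [e1, c1] at d1
  rw [e2, c2] at d2
  rw [e1, e2, Complex.tanh_eq_sinh_div_cosh, Complex.tanh_eq_sinh_div_cosh, Complex.tanh_eq_sinh_div_cosh, c1, c2, s1, s2,
    Complex.sinh_three_mul, Complex.cosh_three_mul]
  set S := Complex.sinh (w / 2) with hS
  set K := Complex.cosh (w / 2) with hK
  set q := ((Real.sqrt 3 / 2 : ℝ) : ℂ) with hq
  have hq2 : q ^ 2 = 3 / 4 := r3
  have hI2 : I * I = -1 := I_mul_I
  have hKS : K ^ 2 - S ^ 2 = 1 := Complex.cosh_sq_sub_sinh_sq _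
  have e3 : 4 * K ^ 3 - 3 * K = 4 * (K * ((K / 2 + S * q * I) * (K / 2 - S * q * I))) := by
    linear_combination (3 * K) * hKS + (4 * K * S ^ 2) * (q ^ 2 * hI2 - hq2)
  have e4 : 4 * S ^ 3 + 3 * S = S ^ 3 + 3 * K ^ 2 * S := by
    linear_combination (-3 * S) * hKS
  have e5 : 3 * (S ^ 3 + 3 * K ^ 2 * S) = 4 * ((S * (K / 2 + S * q * I) + K * (S / 2 + K * q * I)) * (K / 2 - S * q * I) +
      K * (K / 2 + S * q * I) * (S / 2 - K * q * I)) := by
    linear_combination (4 * S ^ 3 + 8 * K ^ 2 * S) * (q ^ 2 * hI2 - hq2)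
  have e6 : (4 : ℂ) ≠ 0 := by norm_num
  rw [e3, e4, div_add_div _ _ d0 d1, div_add_div _ _ (mul_ne_zero d0 d1) d2, ← mul_assoc K, mul_div_assoc', e5,
    mul_div_mul_left _ _ e6]

theorem p_add {w : ℂ} (h : |w.im| < Real.pi / 3) :
    p (w + ((2 * Real.pi / 3 : ℝ) : ℂ) * I) + p (w - ((2 * Real.pi / 3 : ℝ) : ℂ) * I) =
      t w + t (w + ((2 * Real.pi / 3 : ℝ) : ℂ) * I) + t (w - ((2 * Real.pi / 3 : ℝ) : ℂ) * I) := by
  rw [p_pair h, t_triple h]

theorem pd_add {w : ℂ} (h : |w.im| < Real.pi / 3) :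
    p' (w + ((2 * Real.pi / 3 : ℝ) : ℂ) * I) + p' (w - ((2 * Real.pi / 3 : ℝ) : ℂ) * I) =
      t' w + t' (w + ((2 * Real.pi / 3 : ℝ) : ℂ) * I) + t' (w - ((2 * Real.pi / 3 : ℝ) : ℂ) * I) := by
  have hpi := Real.pi_pos
  have i1 : (w + ((2 * Real.pi / 3 : ℝ) : ℂ) * I).im = w.im + 2 * Real.pi / 3 := by
    rw [add_im, im_ofReal_mul, I_im, mul_one]
  have i2 : (w - ((2 * Real.pi / 3 : ℝ) : ℂ) * I).im = w.im - 2 * Real.pi / 3 := by
    rw [sub_im, im_ofReal_mul, I_im, mul_one]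
  have hh := abs_lt.1 h
  have k0 : |w.im| < Real.pi := by linarith
  have k1 : |(w + ((2 * Real.pi / 3 : ℝ) : ℂ) * I).im| < Real.pi := by
    rw [i1]; exact abs_lt.2 ⟨by linarith [hh.1], by linarith [hh.2]⟩
  have k2 : |(w - ((2 * Real.pi / 3 : ℝ) : ℂ) * I).im| < Real.pi := by
    rw [i2]; exact abs_lt.2 ⟨by linarith [hh.1], by linarith [hh.2]⟩
  have h1 := (HasDerivAt.comp_add_const w (((2 * Real.pi / 3 : ℝ) : ℂ) * I) (hasDerivAt_p k1)).add
    (HasDerivAt.comp_sub_const w (((2 * Real.pi / 3 : ℝ) : ℂ) * I) (hasDerivAt_p k2))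
  have h2 := ((hasDerivAt_t k0).add (HasDerivAt.comp_add_const w (((2 * Real.pi / 3 : ℝ) : ℂ) * I) (hasDerivAt_t k1))).add
    (HasDerivAt.comp_sub_const w (((2 * Real.pi / 3 : ℝ) : ℂ) * I) (hasDerivAt_t k2))
  refine h1.unique (h2.congr_of_eventuallyEq ?_)
  have h5 : IsOpen {w : ℂ | |w.im| < Real.pi / 3} := isOpen_lt (by fun_prop) continuous_const
  filter_upwards [h5.mem_nhds h] with v hv
  exact p_add hv

/-! ### the representations of `p` and of its derivative -/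

namespace Sh

lemma strip_lt {η c : ℝ} {ζ : ℂ} (h : |ζ.im - η| ≤ c) : |ζ.im| ≤ |η| + c := by
  have := abs_sub_abs_le_abs_sub ζ.im η
  linarith

end Sh

theorem p_rep_eta {z : ℂ} {η : ℝ} (hη : |η| < Real.pi / 3) (hz : |z.im - η| < 2 * Real.pi / 3) :
    Integrable (fun s : ℝ => Kc (s + (η : ℂ) * I - z) * t (s + (η : ℂ) * I)) ∧
      ∫ s : ℝ, Kc (s + (η : ℂ) * I - z) * t (s + (η : ℂ) * I) = p z - t z := by
  have hc : |η| + 2 * Real.pi / 3 < Real.pi := by linarith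
  have key := rect_eta (g := fun ζ => p ζ - t ζ) (η := η)
    (C := 3 / 2 / Real.cos (3 * (|η| + 2 * Real.pi / 3) / 8 + Real.pi / 8) + 1 / Real.cos ((|η| + 2 * Real.pi / 3) / 2))
    (by
      intro ζ hζ
      have h1 := lt_of_le_of_lt (strip_lt hζ) hc
      exact ((hasDerivAt_p h1).sub (hasDerivAt_t h1)).continuousAt.continuousWithinAt)
    (by
      intro ζ hζ
      have h1 := lt_of_le_of_lt (strip_lt hζ.le) hc
      exact ((hasDerivAt_p h1).sub (hasDerivAt_t h1)).differentiableAt)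
    (by
      intro ζ hζ
      have h1 := strip_lt hζ
      exact (norm_sub_le _ _).trans (add_le_add (p_bd hc h1) (t_bd hc h1))) hz
  have e : (fun s : ℝ => Kc (s + (η : ℂ) * I - z) * t (s + (η : ℂ) * I)) =
      fun s : ℝ => Kc (s + (η : ℂ) * I - z) *
        ((p (s + (η : ℂ) * I + ((2 * Real.pi / 3 : ℝ) : ℂ) * I) - t (s + (η : ℂ) * I + ((2 * Real.pi / 3 : ℝ) : ℂ) * I)) +
        (p (s + (η : ℂ) * I - ((2 * Real.pi / 3 : ℝ) : ℂ) * I) - t (s + (η : ℂ) * I - ((2 * Real.pi / 3 : ℝ) : ℂ) * I))) := by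
    funext s
    have h2 := p_add (w := (s : ℂ) + (η : ℂ) * I) (by rw [hl_im]; exact hη)
    congr 1
    linear_combination -h2
  rw [e]
  exact key

theorem pd_rep_eta {z : ℂ} {η : ℝ} (hη : |η| < Real.pi / 3) (hz : |z.im - η| < 2 * Real.pi / 3) :
    Integrable (fun s : ℝ => Kc (s + (η : ℂ) * I - z) * t' (s + (η : ℂ) * I)) ∧
      ∫ s : ℝ, Kc (s + (η : ℂ) * I - z) * t' (s + (η : ℂ) * I) = p' z - t' z := by
  have hc : |η| + 2 * Real.pi / 3 < Real.pi := by linarith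
  have key := rect_eta (g := fun ζ => p' ζ - t' ζ) (η := η)
    (C := 9 / 4 / Real.cos (3 * (|η| + 2 * Real.pi / 3) / 8 + Real.pi / 8) ^ 2 +
      2 / Real.cos ((|η| + 2 * Real.pi / 3) / 2) ^ 2)
    (by
      intro ζ hζ
      have h1 := lt_of_le_of_lt (strip_lt hζ) hc
      exact ((differentiableAt_p' h1).sub (differentiableAt_t' h1)).continuousAt.continuousWithinAt)
    (by
      intro ζ hζ
      have h1 := lt_of_le_of_lt (strip_lt hζ.le) hc
      exact (differentiableAt_p' h1).sub (differentiableAt_t' h1))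
    (by
      intro ζ hζ
      have h1 := strip_lt hζ
      refine (norm_sub_le _ _).trans (add_le_add ((p'_bd hc h1).trans ?_) ((t'_bd hc h1).trans ?_))
      · have h2 : Real.exp (-(3 / 4 * |ζ.re|)) ≤ 1 := Real.exp_le_one_iff.2 (by have := abs_nonneg ζ.re; linarith)
        exact mul_le_of_le_one_right (by positivity) h2
      · have h2 : Real.exp (-|ζ.re|) ≤ 1 := Real.exp_le_one_iff.2 (by have := abs_nonneg ζ.re; linarith)
        exact mul_le_of_le_one_right (by positivity) h2) hz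
  have e : (fun s : ℝ => Kc (s + (η : ℂ) * I - z) * t' (s + (η : ℂ) * I)) =
      fun s : ℝ => Kc (s + (η : ℂ) * I - z) *
        ((p' (s + (η : ℂ) * I + ((2 * Real.pi / 3 : ℝ) : ℂ) * I) - t' (s + (η : ℂ) * I + ((2 * Real.pi / 3 : ℝ) : ℂ) * I)) +
        (p' (s + (η : ℂ) * I - ((2 * Real.pi / 3 : ℝ) : ℂ) * I) - t' (s + (η : ℂ) * I - ((2 * Real.pi / 3 : ℝ) : ℂ) * I))) := by
    funext s
    have h2 := pd_add (w := (s : ℂ) + (η : ℂ) * I) (by rw [hl_im]; exact hη)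
    congr 1
    linear_combination -h2
  rw [e]
  exact key

/-- `p = t + K * t` -/
theorem p_rep {z : ℂ} (hz : |z.im| < 2 * Real.pi / 3) : Integrable (fun s : ℝ => Kc (s - z) * t s) ∧
    p z = t z + ∫ s : ℝ, Kc (s - z) * t s := by
  have h := p_rep_eta (z := z) (η := 0) (by rw [abs_zero]; have := Real.pi_pos; positivity) (by rw [sub_zero]; exact hz)
  simp only [Complex.ofReal_zero, zero_mul, add_zero] at h
  exact ⟨h.1, by rw [h.2]; ring⟩

theorem pd_rep {z : ℂ} (hz : |z.im| < 2 * Real.pi / 3) : Integrable (fun s : ℝ => Kc (s - z) * t' s) ∧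
    p' z = t' z + ∫ s : ℝ, Kc (s - z) * t' s := by
  have h := pd_rep_eta (z := z) (η := 0) (by rw [abs_zero]; have := Real.pi_pos; positivity) (by rw [sub_zero]; exact hz)
  simp only [Complex.ofReal_zero, zero_mul, add_zero] at h
  exact ⟨h.1, by rw [h.2]; ring⟩

/-! ### the jump -/

theorem Kc_neg (z : ℂ) : Kc (-z) = Kc z := by
  unfold Kc
  rw [show 3 * -z / 4 = -(3 * z / 4) by ring, Complex.cosh_neg]

theorem Kc_real (s : ℝ) : Kc s = (kk s : ℂ) := by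
  unfold Kc kk
  push_cast
  rfl

theorem two_a6 : 2 * a6 = ((Real.pi / 3 : ℝ) : ℂ) * I := by
  unfold a6
  push_cast
  ring

theorem p_jump {z : ℂ} (hz : |z.im| < 2 * Real.pi / 3) :
    I / (4 * (Real.pi : ℂ)) * (p (z - 2 * a6) - p (z + 2 * a6)) = Kc z := by
  have hpi := Real.pi_pos
  have hpi' : (Real.pi : ℂ) ≠ 0 := by exact_mod_cast hpi.ne'
  have hh := abs_lt.1 hz
  rw [two_a6]
  have i1 : (z + ((Real.pi / 3 : ℝ) : ℂ) * I).im = z.im + Real.pi / 3 := by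
    rw [add_im, im_ofReal_mul, I_im, mul_one]
  have i2 : (z - ((Real.pi / 3 : ℝ) : ℂ) * I).im = z.im - Real.pi / 3 := by
    rw [sub_im, im_ofReal_mul, I_im, mul_one]
  have d1 := den_ne (z := z - ((Real.pi / 3 : ℝ) : ℂ) * I) (by
    rw [i2]; exact abs_lt.2 ⟨by linarith [hh.1], by linarith [hh.2]⟩)
  have d2 := den_ne (z := z + ((Real.pi / 3 : ℝ) : ℂ) * I) (by
    rw [i1]; exact abs_lt.2 ⟨by linarith [hh.1], by linarith [hh.2]⟩)
  have d3 := ne_34 hz
  have e1 : 3 * (z + ((Real.pi / 3 : ℝ) : ℂ) * I) / 4 = 3 * z / 4 + ((Real.pi / 4 : ℝ) : ℂ) * I := by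
    push_cast; ring
  have e2 : 3 * (z - ((Real.pi / 3 : ℝ) : ℂ) * I) / 4 = 3 * z / 4 - ((Real.pi / 4 : ℝ) : ℂ) * I := by
    push_cast; ring
  have c1 : Complex.cosh (3 * z / 4 + ((Real.pi / 4 : ℝ) : ℂ) * I) =
      ((Real.sqrt 2 / 2 : ℝ) : ℂ) * (Complex.cosh (3 * z / 4) + Complex.sinh (3 * z / 4) * I) := by
    rw [Complex.cosh_add, Complex.cosh_mul_I, Complex.sinh_mul_I, ← Complex.ofReal_cos, ← Complex.ofReal_sin,
      Real.cos_pi_div_four, Real.sin_pi_div_four]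
    ring
  have c2 : Complex.cosh (3 * z / 4 - ((Real.pi / 4 : ℝ) : ℂ) * I) =
      ((Real.sqrt 2 / 2 : ℝ) : ℂ) * (Complex.cosh (3 * z / 4) - Complex.sinh (3 * z / 4) * I) := by
    rw [Complex.cosh_sub, Complex.cosh_mul_I, Complex.sinh_mul_I, ← Complex.ofReal_cos, ← Complex.ofReal_sin,
      Real.cos_pi_div_four, Real.sin_pi_div_four]
    ring
  have s1 : Complex.sinh (3 * z / 4 + ((Real.pi / 4 : ℝ) : ℂ) * I) =
      ((Real.sqrt 2 / 2 : ℝ) : ℂ) * (Complex.sinh (3 * z / 4) + Complex.cosh (3 * z / 4) * I) := by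
    rw [Complex.sinh_add, Complex.cosh_mul_I, Complex.sinh_mul_I, ← Complex.ofReal_cos, ← Complex.ofReal_sin,
      Real.cos_pi_div_four, Real.sin_pi_div_four]
    ring
  have s2 : Complex.sinh (3 * z / 4 - ((Real.pi / 4 : ℝ) : ℂ) * I) =
      ((Real.sqrt 2 / 2 : ℝ) : ℂ) * (Complex.sinh (3 * z / 4) - Complex.cosh (3 * z / 4) * I) := by
    rw [Complex.sinh_sub, Complex.cosh_mul_I, Complex.sinh_mul_I, ← Complex.ofReal_cos, ← Complex.ofReal_sin,
      Real.cos_pi_div_four, Real.sin_pi_div_four]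
    ring
  unfold p Kc
  rw [e2, c2] at d1
  rw [e1, c1] at d2
  rw [e1, e2, c1, c2, s1, s2]
  set S := Complex.sinh (3 * z / 4) with hS
  set K := Complex.cosh (3 * z / 4) with hK
  set r := ((Real.sqrt 2 / 2 : ℝ) : ℂ) with hr
  have hr2 : r ^ 2 = 1 / 2 := r2
  have hr0 : r ≠ 0 := by
    intro h
    rw [h] at hr2
    norm_num at hr2
  have hI2 : I * I = -1 := I_mul_I
  have hKS : K ^ 2 - S ^ 2 = 1 := Complex.cosh_sq_sub_sinh_sq _
  have d1' : K - S * I + 1 ≠ 0 := by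
    intro h
    apply d1
    linear_combination r * h
  have d2' : K + S * I + 1 ≠ 0 := by
    intro h
    apply d2
    linear_combination r * h
  have f1 : 3 / 2 * (r * (S - K * I)) / (r * (K - S * I) + r) = 3 / 2 * ((S - K * I) / (K - S * I + 1)) := by
    rw [show r * (K - S * I) + r = r * (K - S * I + 1) by ring, show 3 / 2 * (r * (S - K * I)) = r * (3 / 2 * (S - K * I)) by ring,
      mul_div_mul_left _ _ hr0, mul_div_assoc]
  have f2 : 3 / 2 * (r * (S + K * I)) / (r * (K + S * I) + r) = 3 / 2 * ((S + K * I) / (K + S * I + 1)) := by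
    rw [show r * (K + S * I) + r = r * (K + S * I + 1) by ring, show 3 / 2 * (r * (S + K * I)) = r * (3 / 2 * (S + K * I)) by ring,
      mul_div_mul_left _ _ hr0, mul_div_assoc]
  have hprod : (K - S * I + 1) * (K + S * I + 1) = 2 * K * (K + 1) := by
    linear_combination (-S ^ 2) * hI2 - hKS
  have hK1 : K + 1 ≠ 0 := by
    intro h
    have := mul_ne_zero d1' d2'
    rw [hprod, h, mul_zero] at this
    exact this rfl
  have f3 : (S - K * I) / (K - S * I + 1) - (S + K * I) / (K + S * I + 1) = -(I / K) := by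
    rw [div_sub_div _ _ d1' d2', hprod, ← neg_div, div_eq_div_iff (mul_ne_zero (mul_ne_zero two_ne_zero d3) hK1) d3]
    linear_combination (2 * I * K) * (-hKS)
  rw [f1, f2, ← mul_sub, f3]
  push_cast
  field_simp
  linear_combination -8 * hI2

theorem p_jump_real (s : ℝ) : I / (4 * (Real.pi : ℂ)) * (p (s - 2 * a6) - p (s + 2 * a6)) = (kk s : ℂ) := by
  rw [p_jump (by rw [ofReal_im, abs_zero]; have := Real.pi_pos; positivity), Kc_real]

/-! ### the linear equation -/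

namespace Sh

/-- two lines in a strip -/
theorem hline3 {a b y1 y2 : ℝ} (h1 : a ≤ y1 ∧ y1 ≤ b) (h2 : a ≤ y2 ∧ y2 ≤ b) {G : ℂ → ℂ}
    (hd : ∀ z : ℂ, a ≤ z.im → z.im ≤ b → DifferentiableAt ℂ G z) {C δ : ℝ} (hδ : 0 < δ)
    (h : ∀ z : ℂ, a ≤ z.im → z.im ≤ b → ‖G z‖ ≤ C * Real.exp (-δ * |z.re|)) :
    Integrable (fun s : ℝ => G (s + y1 * I)) ∧ Integrable (fun s : ℝ => G (s + y2 * I)) ∧
    ∫ s : ℝ, G (s + y1 * I) = ∫ s : ℝ, G (s + y2 * I) := by
  have hc : ContinuousOn G {z : ℂ | a ≤ z.im ∧ z.im ≤ b} := fun z hz => (hd z hz.1 hz.2).continuousAt.continuousWithinAt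
  refine ⟨hint h1.1 h1.2 hc hδ (t₀ := 0) fun z hz1 hz2 _ => h z hz1 hz2,
    hint h2.1 h2.2 hc hδ (t₀ := 0) fun z hz1 hz2 _ => h z hz1 hz2, ?_⟩
  have aux : ∀ c d : ℝ, a ≤ c → d ≤ b → c ≤ d → ∫ s : ℝ, G (s + d * I) = ∫ s : ℝ, G (s + c * I) := by
    intro c d hc1 hd1 hcd
    refine hline hcd (hc.mono ?_) ?_ hδ (C := C) (t₀ := 0) ?_
    · intro z hz
      have h3 : c ≤ z.im ∧ z.im ≤ d := hz
      have h4 : a ≤ z.im ∧ z.im ≤ b := ⟨hc1.trans h3.1, h3.2.trans hd1⟩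
      exact h4
    · intro z hz1 hz2
      exact hd z (hc1.trans hz1.le) (hz2.le.trans hd1)
    · intro z hz1 hz2 _
      exact h z (hc1.trans hz1) (hz2.trans hd1)
  rcases le_total y1 y2 with h3 | h3
  · exact (aux y1 y2 h1.1 h2.2 h3).symm
  · exact aux y2 y1 h2.1 h1.2 h3

lemma Kc_diff {z : ℂ} (h : |z.im| < 2 * Real.pi / 3) : DifferentiableAt ℂ Kc z := by
  have h1 := ne_34 h
  show DifferentiableAt ℂ (fun z : ℂ => ((3 / (8 * Real.pi) : ℝ) : ℂ) / Complex.cosh (3 * z / 4)) z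
  exact DifferentiableAt.div (by fun_prop) (by fun_prop) h1

lemma Kc_bd {z : ℂ} {c : ℝ} (hc : c < 2 * Real.pi / 3) (hz : |z.im| ≤ c) :
    ‖Kc z‖ ≤ 3 / (8 * Real.pi) * (2 / Real.cos (3 * c / 4)) := by
  have hpi := Real.pi_pos
  have h1 : |(3 * z / 4).im| ≤ 3 * c / 4 := by
    rw [im34, abs_div, abs_mul, abs_of_pos (by norm_num : (0:ℝ) < 3), abs_of_pos (by norm_num : (0:ℝ) < 4)]
    linarith
  have hc0 : 0 ≤ c := (abs_nonneg _).trans hz
  have h2 := inv_cosh_bd (z := 3 * z / 4) (β := 3 * c / 4) (by linarith) h1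
  have h3 : 0 < Real.cos (3 * c / 4) := Real.cos_pos_of_mem_Ioo ⟨by linarith, by linarith⟩
  have h4 : Real.exp (-|(3 * z / 4).re|) ≤ 1 := Real.exp_le_one_iff.2 (by have := abs_nonneg (3 * z / 4).re; linarith)
  have h5 : ‖1 / Complex.cosh (3 * z / 4)‖ ≤ 2 / Real.cos (3 * c / 4) :=
    h2.trans (mul_le_of_le_one_right (by positivity) h4)
  have e : Kc z = ((3 / (8 * Real.pi) : ℝ) : ℂ) * (1 / Complex.cosh (3 * z / 4)) := by
    unfold Kc
    rw [mul_one_div]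
  rw [e, norm_mul, Complex.norm_real, Real.norm_eq_abs, abs_of_pos (by positivity)]
  exact mul_le_mul_of_nonneg_left h5 (by positivity)

end Sh

/-- **the linear equation of `x ↦ p (x - u)`** -/
theorem p_eqn {x u : ℂ} (hx : |x.im| < 5 * Real.pi / 6) (hu : |u.im| < 2 * Real.pi / 3) (hxu : |(x - u).im| < Real.pi) :
    Integrable (fun θ : ℝ => t' (x - (θ + a6)) * p (θ - a6 - u)) ∧
    Integrable (fun θ : ℝ => t' (x - (θ - a6)) * p (θ + a6 - u)) ∧
    p' (x - u) = t' (x - u) + I / (4 * (Real.pi : ℂ)) *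
      ∫ θ : ℝ, (t' (x - (θ + a6)) * p (θ - a6 - u) - t' (x - (θ - a6)) * p (θ + a6 - u)) := by
  have hpi := Real.pi_pos
  have hpi' : (Real.pi : ℂ) ≠ 0 := by exact_mod_cast hpi.ne'
  have hxx := abs_lt.1 hx
  have huu := abs_lt.1 hu
  have ha6 : a6.im = Real.pi / 6 := by unfold a6; rw [im_ofReal_mul, I_im, mul_one]
  have ha6r : a6.re = 0 := by unfold a6; rw [re_ofReal_mul, I_re, mul_zero]
  -- the strip constants
  set c1 : ℝ := max |x.im - Real.pi / 6| (max |x.im| |x.im + Real.pi / 6|) with hc1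
  have hc1lt : c1 < Real.pi := by
    rw [hc1]
    refine max_lt ?_ (max_lt ?_ ?_)
    · exact abs_lt.2 ⟨by linarith [hxx.1], by linarith [hxx.2]⟩
    · linarith
    · exact abs_lt.2 ⟨by linarith [hxx.1], by linarith [hxx.2]⟩
  set c2 : ℝ := Real.pi / 3 + |u.im| with hc2
  have hc2lt : c2 < Real.pi := by rw [hc2]; linarith
  have b1 : x.im - Real.pi / 6 ≤ c1 := (le_abs_self _).trans (le_max_left _ _)
  have b1' : -(x.im - Real.pi / 6) ≤ c1 := (neg_le_abs _).trans (le_max_left _ _)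
  have b2 : x.im ≤ c1 := (le_abs_self _).trans ((le_max_left _ _).trans (le_max_right _ _))
  have b2' : -x.im ≤ c1 := (neg_le_abs _).trans ((le_max_left _ _).trans (le_max_right _ _))
  have b3 : x.im + Real.pi / 6 ≤ c1 := (le_abs_self _).trans ((le_max_right _ _).trans (le_max_right _ _))
  have b3' : -(x.im + Real.pi / 6) ≤ c1 := (neg_le_abs _).trans ((le_max_right _ _).trans (le_max_right _ _))
  have hu1 := neg_le_abs u.im
  have hu2 := le_abs_self u.im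
  have hexp : ∀ ζ : ℂ, Real.exp (-|x.re - ζ.re|) ≤ Real.exp |x.re| * Real.exp (-1 * |ζ.re|) := by
    intro ζ
    rw [← Real.exp_add]
    refine Real.exp_le_exp.2 ?_
    have h1 := abs_sub_abs_le_abs_sub ζ.re x.re
    rw [abs_sub_comm] at h1
    linarith
  -- first term
  have G1 := hline3 (a := -(Real.pi / 6)) (b := 0) (y1 := 0) (y2 := -(Real.pi / 6)) ⟨by linarith, le_rfl⟩
    ⟨le_rfl, by linarith⟩ (G := fun ζ => t' (x - (ζ + a6)) * p (ζ - a6 - u)) (by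
      intro ζ h1 h2
      have k1 : |(x - (ζ + a6)).im| ≤ c1 := by
        rw [sub_im, add_im, ha6]
        exact abs_le.2 ⟨by linarith, by linarith⟩
      have k2 : |(ζ - a6 - u).im| ≤ c2 := by
        rw [sub_im, sub_im, ha6]
        exact abs_le.2 ⟨by linarith, by linarith⟩
      have m1 : DifferentiableAt ℂ (fun ζ : ℂ => t' (x - (ζ + a6))) ζ :=
        DifferentiableAt.comp (g := t') ζ (differentiableAt_t' (lt_of_le_of_lt k1 hc1lt)) (by fun_prop)
      have m2 : DifferentiableAt ℂ (fun ζ : ℂ => p (ζ - a6 - u)) ζ :=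
        DifferentiableAt.comp (g := p) ζ (hasDerivAt_p (lt_of_le_of_lt k2 hc2lt)).differentiableAt (by fun_prop)
      exact m1.mul m2) (C := 2 / Real.cos (c1 / 2) ^ 2 * Real.exp |x.re| * (3 / 2 / Real.cos (3 * c2 / 8 + Real.pi / 8)))
    (δ := 1) one_pos (by
      intro ζ h1 h2
      have k1 : |(x - (ζ + a6)).im| ≤ c1 := by
        rw [sub_im, add_im, ha6]
        exact abs_le.2 ⟨by linarith, by linarith⟩
      have k2 : |(ζ - a6 - u).im| ≤ c2 := by
        rw [sub_im, sub_im, ha6]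
        exact abs_le.2 ⟨by linarith, by linarith⟩
      have n1 := t'_bd hc1lt k1
      have n2 := p_bd hc2lt k2
      have r1 : (x - (ζ + a6)).re = x.re - ζ.re := by
        rw [sub_re, add_re, ha6r, add_zero]
      rw [r1] at n1
      show ‖t' (x - (ζ + a6)) * p (ζ - a6 - u)‖ ≤ _
      rw [norm_mul]
      calc ‖t' (x - (ζ + a6))‖ * ‖p (ζ - a6 - u)‖ ≤ (2 / Real.cos (c1 / 2) ^ 2 * Real.exp (-|x.re - ζ.re|)) *
            (3 / 2 / Real.cos (3 * c2 / 8 + Real.pi / 8)) :=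
            mul_le_mul n1 n2 (norm_nonneg _) ((norm_nonneg _).trans n1)
        _ ≤ (2 / Real.cos (c1 / 2) ^ 2 * (Real.exp |x.re| * Real.exp (-1 * |ζ.re|))) *
            (3 / 2 / Real.cos (3 * c2 / 8 + Real.pi / 8)) := by
            refine mul_le_mul_of_nonneg_right (mul_le_mul_of_nonneg_left (hexp ζ) (by positivity))
              ((norm_nonneg _).trans n2)
        _ = _ := by ring)
  -- second term
  have G2 := hline3 (a := 0) (b := Real.pi / 6) (y1 := 0) (y2 := Real.pi / 6) ⟨le_rfl, by linarith⟩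
    ⟨by linarith, le_rfl⟩ (G := fun ζ => t' (x - (ζ - a6)) * p (ζ + a6 - u)) (by
      intro ζ h1 h2
      have k1 : |(x - (ζ - a6)).im| ≤ c1 := by
        rw [sub_im, sub_im, ha6]
        exact abs_le.2 ⟨by linarith, by linarith⟩
      have k2 : |(ζ + a6 - u).im| ≤ c2 := by
        rw [sub_im, add_im, ha6]
        exact abs_le.2 ⟨by linarith, by linarith⟩
      have m1 : DifferentiableAt ℂ (fun ζ : ℂ => t' (x - (ζ - a6))) ζ :=
        DifferentiableAt.comp (g := t') ζ (differentiableAt_t' (lt_of_le_of_lt k1 hc1lt)) (by fun_prop)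
      have m2 : DifferentiableAt ℂ (fun ζ : ℂ => p (ζ + a6 - u)) ζ :=
        DifferentiableAt.comp (g := p) ζ (hasDerivAt_p (lt_of_le_of_lt k2 hc2lt)).differentiableAt (by fun_prop)
      exact m1.mul m2) (C := 2 / Real.cos (c1 / 2) ^ 2 * Real.exp |x.re| * (3 / 2 / Real.cos (3 * c2 / 8 + Real.pi / 8)))
    (δ := 1) one_pos (by
      intro ζ h1 h2
      have k1 : |(x - (ζ - a6)).im| ≤ c1 := by
        rw [sub_im, sub_im, ha6]
        exact abs_le.2 ⟨by linarith, by linarith⟩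
      have k2 : |(ζ + a6 - u).im| ≤ c2 := by
        rw [sub_im, add_im, ha6]
        exact abs_le.2 ⟨by linarith, by linarith⟩
      have n1 := t'_bd hc1lt k1
      have n2 := p_bd hc2lt k2
      have r1 : (x - (ζ - a6)).re = x.re - ζ.re := by
        rw [sub_re, sub_re, ha6r, sub_zero]
      rw [r1] at n1
      show ‖t' (x - (ζ - a6)) * p (ζ + a6 - u)‖ ≤ _
      rw [norm_mul]
      calc ‖t' (x - (ζ - a6))‖ * ‖p (ζ + a6 - u)‖ ≤ (2 / Real.cos (c1 / 2) ^ 2 * Real.exp (-|x.re - ζ.re|)) *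
            (3 / 2 / Real.cos (3 * c2 / 8 + Real.pi / 8)) :=
            mul_le_mul n1 n2 (norm_nonneg _) ((norm_nonneg _).trans n1)
        _ ≤ (2 / Real.cos (c1 / 2) ^ 2 * (Real.exp |x.re| * Real.exp (-1 * |ζ.re|))) *
            (3 / 2 / Real.cos (3 * c2 / 8 + Real.pi / 8)) := by
            refine mul_le_mul_of_nonneg_right (mul_le_mul_of_nonneg_left (hexp ζ) (by positivity))
              ((norm_nonneg _).trans n2)
        _ = _ := by ring)
  obtain ⟨g11, g12, g13⟩ := G1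
  obtain ⟨g21, g22, g23⟩ := G2
  -- the third line
  have e1 : (fun s : ℝ => t' (x - ((s : ℂ) + ((-(Real.pi / 6) : ℝ) : ℂ) * I + a6)) * p ((s : ℂ) + ((-(Real.pi / 6) : ℝ) : ℂ) * I - a6 - u)) =
      fun s : ℝ => t' (x - s) * p (s - u - 2 * a6) := by
    funext s
    rw [show (s : ℂ) + ((-(Real.pi / 6) : ℝ) : ℂ) * I + a6 = s by unfold a6; push_cast; ring,
      show (s : ℂ) + ((-(Real.pi / 6) : ℝ) : ℂ) * I - a6 - u = s - u - 2 * a6 by unfold a6; push_cast; ring]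
  have e2 : (fun s : ℝ => t' (x - ((s : ℂ) + ((Real.pi / 6 : ℝ) : ℂ) * I - a6)) * p ((s : ℂ) + ((Real.pi / 6 : ℝ) : ℂ) * I + a6 - u)) =
      fun s : ℝ => t' (x - s) * p (s - u + 2 * a6) := by
    funext s
    rw [show (s : ℂ) + ((Real.pi / 6 : ℝ) : ℂ) * I - a6 = s by unfold a6; push_cast; ring,
      show (s : ℂ) + ((Real.pi / 6 : ℝ) : ℂ) * I + a6 - u = s - u + 2 * a6 by unfold a6; push_cast; ring]
  rw [e1] at g12 g13
  rw [e2] at g22 g23
  simp only [Complex.ofReal_zero, zero_mul, add_zero] at g11 g13 g21 g23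
  refine ⟨g11, g21, ?_⟩
  rw [integral_sub g11 g21, g13, g23, ← integral_sub g12 g22, ← integral_const_mul]
  have e3 : (fun s : ℝ => I / (4 * (Real.pi : ℂ)) * (t' (x - s) * p (s - u - 2 * a6) - t' (x - s) * p (s - u + 2 * a6))) =
      fun s : ℝ => (fun s : ℝ => Kc ((s : ℂ) + (x.im : ℂ) * I - (x - u)) * t' ((s : ℂ) + (x.im : ℂ) * I)) (x.re - s) := by
    funext s
    have h1 := p_jump (z := (s : ℂ) - u) (by rw [sub_im, ofReal_im, zero_sub, abs_neg]; exact hu)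
    show _ = Kc (((x.re - s : ℝ) : ℂ) + (x.im : ℂ) * I - (x - u)) * t' (((x.re - s : ℝ) : ℂ) + (x.im : ℂ) * I)
    have h2 : ((x.re - s : ℝ) : ℂ) + (x.im : ℂ) * I = x - s := by
      conv_rhs => rw [← re_add_im x]
      push_cast
      ring
    rw [h2, show x - (s : ℂ) - (x - u) = -((s : ℂ) - u) by ring, Kc_neg, ← h1]
    ring
  rw [e3, integral_sub_left_eq_self (fun s : ℝ => Kc ((s : ℂ) + (x.im : ℂ) * I - (x - u)) * t' ((s : ℂ) + (x.im : ℂ) * I))
    volume x.re]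
  -- from the line `Im = x.im` to the line `η`
  set w := x - u with hw
  set η : ℝ := w.im / 3 with hη
  have hη1 : |η| < Real.pi / 3 := by
    rw [hη, abs_div, abs_of_pos (by norm_num : (0:ℝ) < 3)]
    linarith
  have hη2 : |w.im - η| < 2 * Real.pi / 3 := by
    rw [hη, show w.im - w.im / 3 = 2 / 3 * w.im by ring, abs_mul, abs_of_pos (by norm_num : (0:ℝ) < 2 / 3)]
    linarith
  have hx3 : |w.im - x.im| < 2 * Real.pi / 3 := by
    rw [hw, sub_im, show x.im - u.im - x.im = -u.im by ring, abs_neg]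
    exact hu
  set c3 : ℝ := max |η| |x.im| with hc3
  have hc3lt : c3 < Real.pi := max_lt (by linarith) (by linarith)
  set c4 : ℝ := max |w.im - η| |w.im - x.im| with hc4
  have hc4lt : c4 < 2 * Real.pi / 3 := max_lt hη2 hx3
  have q1 : |η| ≤ c3 := le_max_left _ _
  have q2 : |x.im| ≤ c3 := le_max_right _ _
  have q3 : |w.im - η| ≤ c4 := le_max_left _ _
  have q4 : |w.im - x.im| ≤ c4 := le_max_right _ _
  have hstrip : ∀ ζ : ℂ, min η x.im ≤ ζ.im → ζ.im ≤ max η x.im → |ζ.im| ≤ c3 ∧ |(ζ - w).im| ≤ c4 := by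
    intro ζ h1 h2
    rw [sub_im]
    have q1' := abs_le.1 q1
    have q2' := abs_le.1 q2
    have q3' := abs_le.1 q3
    have q4' := abs_le.1 q4
    rcases le_total η x.im with h3 | h3
    · rw [min_eq_left h3] at h1
      rw [max_eq_right h3] at h2
      exact ⟨abs_le.2 ⟨by linarith, by linarith⟩, abs_le.2 ⟨by linarith, by linarith⟩⟩
    · rw [min_eq_right h3] at h1
      rw [max_eq_left h3] at h2
      exact ⟨abs_le.2 ⟨by linarith, by linarith⟩, abs_le.2 ⟨by linarith, by linarith⟩⟩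
  have G3 := hline3 (a := min η x.im) (b := max η x.im) (y1 := x.im) (y2 := η) ⟨min_le_right _ _, le_max_right _ _⟩
    ⟨min_le_left _ _, le_max_left _ _⟩ (G := fun ζ => Kc (ζ - w) * t' ζ) (by
      intro ζ h1 h2
      obtain ⟨k1, k2⟩ := hstrip ζ h1 h2
      have m1 : DifferentiableAt ℂ (fun ζ : ℂ => Kc (ζ - w)) ζ :=
        DifferentiableAt.comp (g := Kc) ζ (Kc_diff (lt_of_le_of_lt k2 hc4lt)) (by fun_prop)
      exact m1.mul (differentiableAt_t' (lt_of_le_of_lt k1 hc3lt)))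
    (C := 3 / (8 * Real.pi) * (2 / Real.cos (3 * c4 / 4)) * (2 / Real.cos (c3 / 2) ^ 2)) (δ := 1) one_pos (by
      intro ζ h1 h2
      obtain ⟨k1, k2⟩ := hstrip ζ h1 h2
      have n1 := Kc_bd hc4lt k2
      have n2 := t'_bd hc3lt k1
      show ‖Kc (ζ - w) * t' ζ‖ ≤ _
      rw [norm_mul]
      calc ‖Kc (ζ - w)‖ * ‖t' ζ‖ ≤ (3 / (8 * Real.pi) * (2 / Real.cos (3 * c4 / 4))) *
            (2 / Real.cos (c3 / 2) ^ 2 * Real.exp (-|ζ.re|)) :=
            mul_le_mul n1 n2 (norm_nonneg _) ((norm_nonneg _).trans n1)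
        _ = _ := by rw [neg_one_mul]; ring)
  rw [G3.2.2, (pd_rep_eta hη1 hη2).2]
  ring

/-! ### the real forms -/

/-- (i) on the real line -/
theorem rect_real {g : ℂ → ℂ} {C : ℝ} (hc : ContinuousOn g {ζ : ℂ | |ζ.im| ≤ 2 * Real.pi / 3})
    (hd : ∀ ζ : ℂ, |ζ.im| < 2 * Real.pi / 3 → DifferentiableAt ℂ g ζ)
    (hb : ∀ ζ : ℂ, |ζ.im| ≤ 2 * Real.pi / 3 → ‖g ζ‖ ≤ C) (x : ℝ) :
    Integrable (fun s : ℝ => (kk s : ℂ) * (g (x + s + 4 * a6) + g (x + s - 4 * a6))) ∧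
    ∫ s : ℝ, (kk s : ℂ) * (g (x + s + 4 * a6) + g (x + s - 4 * a6)) = g x := by
  have h := rect hc hd hb (z := (x : ℂ)) (by rw [ofReal_im, abs_zero]; have := Real.pi_pos; positivity)
  have h4 : 4 * a6 = ((2 * Real.pi / 3 : ℝ) : ℂ) * I := by
    unfold a6
    push_cast
    ring
  have e : (fun s : ℝ => (kk s : ℂ) * (g (x + s + 4 * a6) + g (x + s - 4 * a6))) =
      fun s : ℝ => (fun s : ℝ => Kc (s - x) * (g (s + ((2 * Real.pi / 3 : ℝ) : ℂ) * I) +
      g (s - ((2 * Real.pi / 3 : ℝ) : ℂ) * I))) (s + x) := by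
    funext s
    show _ = Kc (((s + x : ℝ) : ℂ) - x) * (g (((s + x : ℝ) : ℂ) + ((2 * Real.pi / 3 : ℝ) : ℂ) * I) +
      g (((s + x : ℝ) : ℂ) - ((2 * Real.pi / 3 : ℝ) : ℂ) * I))
    rw [h4, ← Kc_real, show ((s + x : ℝ) : ℂ) - x = s by push_cast; ring,
      show ((s + x : ℝ) : ℂ) = x + s by push_cast; ring]
  rw [e]
  exact ⟨h.1.comp_add_right x, by rw [integral_add_right_eq_self (fun s : ℝ => Kc (s - x) *
    (g (s + ((2 * Real.pi / 3 : ℝ) : ℂ) * I) + g (s - ((2 * Real.pi / 3 : ℝ) : ℂ) * I))) x]; exact h.2⟩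

end ShA

open ShA

/-! ### the forms used by the limit -/

theorem shA_dt (z : ℂ) (h : |z.im| < Real.pi) : HasDerivAt t (t' z) z := hasDerivAt_t h

theorem shA_dt' (z : ℂ) (h : |z.im| < Real.pi) : DifferentiableAt ℂ t' z := differentiableAt_t' h

theorem shA_bt (h : ℝ) (hh : h < Real.pi) : ∃ C : ℝ, 0 ≤ C ∧ ∀ z : ℂ, |z.im| ≤ h → ‖t z‖ ≤ C := by
  refine ⟨|1 / Real.cos (h / 2)|, abs_nonneg _, fun z hz => (t_bd hh hz).trans (le_abs_self _)⟩

theorem shA_bt' (h : ℝ) (hh : h < Real.pi) : ∃ C : ℝ, 0 ≤ C ∧ ∀ z : ℂ, |z.im| ≤ h → ‖t' z‖ ≤ C * Real.exp (-|z.re|) :=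
  ⟨2 / Real.cos (h / 2) ^ 2, by positivity, fun _ hz => t'_bd hh hz⟩

theorem shA_deriv_t' {z : ℂ} (h : |z.im| < Real.pi) : HasDerivAt t' (-(t z * t' z)) z := by
  have h0 := Sh.ne_half h
  have h1 : HasDerivAt (fun z : ℂ => z / 2) (1 / 2) z := (hasDerivAt_id z).div_const 2
  have h2 : HasDerivAt (fun z : ℂ => 2 * Complex.cosh (z / 2) ^ 2) (2 * (2 * Complex.cosh (z / 2) ^ 1 *
      (Complex.sinh (z / 2) * (1 / 2)))) z := by
    have h3 := ((h1.ccosh).pow 2).const_mul (2:ℂ)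
    simpa using h3
  have h4 := (hasDerivAt_const z (1:ℂ)).div h2 (mul_ne_zero two_ne_zero (pow_ne_zero 2 h0))
  refine h4.congr_deriv ?_
  unfold t t'
  rw [Complex.tanh_eq_sinh_div_cosh]
  field_simp
  ring

theorem shA_bt'' (h : ℝ) (hh : h < Real.pi) : ∃ C : ℝ, 0 ≤ C ∧ ∀ z : ℂ, |z.im| ≤ h →
    ‖deriv t' z‖ ≤ C * Real.exp (-|z.re|) := by
  obtain ⟨C1, h1, h1'⟩ := shA_bt h hh
  obtain ⟨C2, h2, h2'⟩ := shA_bt' h hh
  refine ⟨C1 * C2, mul_nonneg h1 h2, fun z hz => ?_⟩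
  rw [(shA_deriv_t' (lt_of_le_of_lt hz hh)).deriv, norm_neg, norm_mul, mul_assoc]
  exact mul_le_mul (h1' z hz) (h2' z hz) (norm_nonneg _) h1

theorem shA_dp (z : ℂ) (h : |z.im| < Real.pi) : DifferentiableAt ℂ p z := (hasDerivAt_p h).differentiableAt

theorem shA_bp (h : ℝ) (hh : h < Real.pi) : ∃ C : ℝ, 0 ≤ C ∧ ∀ z : ℂ, |z.im| ≤ h → ‖p z‖ ≤ C :=
  ⟨|3 / 2 / Real.cos (3 * h / 8 + Real.pi / 8)|, abs_nonneg _, fun _ hz => (p_bd hh hz).trans (le_abs_self _)⟩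

theorem shA_bp' (h : ℝ) (hh : h < Real.pi) : ∃ C : ℝ, 0 ≤ C ∧ ∀ z : ℂ, |z.im| ≤ h → ‖deriv p z‖ ≤ C := by
  refine ⟨9 / 4 / Real.cos (3 * h / 8 + Real.pi / 8) ^ 2, by positivity, fun z hz => ?_⟩
  rw [(hasDerivAt_p (lt_of_le_of_lt hz hh)).deriv]
  refine (p'_bd hh hz).trans ?_
  have h2 : Real.exp (-(3 / 4 * |z.re|)) ≤ 1 := Real.exp_le_one_iff.2 (by have := abs_nonneg z.re; linarith)
  exact mul_le_of_le_one_right (by positivity) h2

theorem shA_i3 (u x : ℂ) (hu : |u.im| < Real.pi / 2) (hx : |x.im| < Real.pi / 2) :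
    deriv p (x - u) = t' (x - u) + (I / (4 * Real.pi)) *
      ∫ θ : ℝ, (t' (x - ((θ : ℂ) + a6)) * p ((θ : ℂ) - a6 - u) - t' (x - ((θ : ℂ) - a6)) * p ((θ : ℂ) + a6 - u)) := by
  have hpi := Real.pi_pos
  have h1 : |(x - u).im| < Real.pi := by
    rw [sub_im]
    have := abs_sub x.im u.im
    linarith
  rw [(hasDerivAt_p h1).deriv]
  exact (p_eqn (by linarith) (by linarith) h1).2.2

end DUA

end
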