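import Pool.Agent.DUA.LimB
import Pool.Agent.DUA.ShiftA

/-!
# Partial fractions of `∏ t (x - v)`

`(tp x J - 1) * Dl J = rs J (fun v K => (t (x - v) - 1) * Dl K)` for every list `J` of the strip (equal rows allowed),
hence `PfrS`.
-/

set_option autoImplicit false

noncomputable section

open Finset Filter Topology

namespace DUA

namespace Pf

theorem t_mul {a b : ℂ} (ha : Complex.cosh (a / 2) ≠ 0) (hb : Complex.cosh (b / 2) ≠ 0)
    (hab : Complex.cosh ((a - b) / 2) ≠ 0) : t (a - b) * (1 - t a * t b) = t a - t b := by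
  unfold t
  rw [Complex.tanh_eq_sinh_div_cosh, Complex.tanh_eq_sinh_div_cosh, Complex.tanh_eq_sinh_div_cosh]
  have h1 : Complex.cosh ((a - b) / 2) = Complex.cosh (a / 2) * Complex.cosh (b / 2) -
      Complex.sinh (a / 2) * Complex.sinh (b / 2) := by
    rw [sub_div, Complex.cosh_sub]
  have h2 : Complex.sinh ((a - b) / 2) = Complex.sinh (a / 2) * Complex.cosh (b / 2) -
      Complex.cosh (a / 2) * Complex.sinh (b / 2) := by
    rw [sub_div, Complex.sinh_sub]
  have e : 1 - Complex.sinh (a / 2) / Complex.cosh (a / 2) * (Complex.sinh (b / 2) / Complex.cosh (b / 2)) =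
      Complex.cosh ((a - b) / 2) / (Complex.cosh (a / 2) * Complex.cosh (b / 2)) := by
    rw [h1]; field_simp
  have e2 : Complex.sinh (a / 2) / Complex.cosh (a / 2) - Complex.sinh (b / 2) / Complex.cosh (b / 2) =
      Complex.sinh ((a - b) / 2) / (Complex.cosh (a / 2) * Complex.cosh (b / 2)) := by
    rw [h2]; field_simp
  rw [e, e2]
  field_simp

/-- shift by `i π` -/
def ip : ℂ := (Real.pi : ℂ) * Complex.I

theorem cosh_ip (z : ℂ) : Complex.cosh ((z + ip) / 2) = Complex.sinh (z / 2) * Complex.I := by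
  unfold ip
  rw [show (z + (Real.pi : ℂ) * Complex.I) / 2 = z / 2 + (Real.pi / 2 : ℂ) * Complex.I by ring, Complex.cosh_add,
    Complex.cosh_mul_I, Complex.sinh_mul_I, Complex.cos_pi_div_two, Complex.sin_pi_div_two]
  ring

theorem sinh_ip (z : ℂ) : Complex.sinh ((z + ip) / 2) = Complex.cosh (z / 2) * Complex.I := by
  unfold ip
  rw [show (z + (Real.pi : ℂ) * Complex.I) / 2 = z / 2 + (Real.pi / 2 : ℂ) * Complex.I by ring, Complex.sinh_add,
    Complex.cosh_mul_I, Complex.sinh_mul_I, Complex.cos_pi_div_two, Complex.sin_pi_div_two]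
  ring

theorem t_ip (z : ℂ) : t (z + ip) = (t z)⁻¹ := by
  unfold t
  rw [Complex.tanh_eq_sinh_div_cosh, Complex.tanh_eq_sinh_div_cosh, cosh_ip, sinh_ip, inv_div,
    mul_div_mul_right _ _ Complex.I_ne_zero]

theorem tp_ip (w : ℂ) (K : List ℂ) : tp (w + ip) K = (tp w K)⁻¹ := by
  induction K with
  | nil => simp [tp_nil]
  | cons v K ih =>
    rw [tp_cons, tp_cons, ih, show w + ip - v = w - v + ip by ring, t_ip, mul_inv]

theorem rs_congr2 {J : List ℂ} {f g : ℂ → List ℂ → ℂ} (h : ∀ v K, (v :: K).Perm J → f v K = g v K) :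
    rs J f = rs J g := by
  unfold rs
  refine sum_congr rfl fun i hi => ?_
  have hi' := mem_range.1 hi
  rw [h]
  rw [List.getD_eq_getElem _ _ hi']
  exact List.getElem_cons_eraseIdx_perm hi'

theorem tp_perm (x : ℂ) {J K : List ℂ} (h : J.Perm K) : tp x J = tp x K := by
  unfold tp
  exact (h.map _).prod_eq

theorem cosh_ne_st {v w : ℂ} (hv : St v) (hw : St w) : Complex.cosh ((v - w) / 2) ≠ 0 :=
  ShA.Sh.ne_half (St_sub hv hw)

theorem t_ne_zero {v w : ℂ} (hv : St v) (hw : St w) (h : v ≠ w) : t (v - w) ≠ 0 := by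
  unfold t
  rw [Complex.tanh_eq_sinh_div_cosh]
  refine div_ne_zero ?_ (cosh_ne_st hv hw)
  refine ShA.Sh.sinh_ne ?_ ?_
  · have h1 := St_sub hv hw
    have h2 := ShA.Sh.im_half (v - w)
    have := Real.pi_pos
    linarith
  · intro h0
    exact h (sub_eq_zero.1 (by
      have := congrArg (fun z => 2 * z) h0
      simpa using this))

/-- the generic step -/
theorem step {w x : ℂ} {K : List ℂ} (hw : St w) (hK : ∀ v ∈ K, St v) (hwK : w ∉ K)
    (hx : ∀ v ∈ w :: K, Complex.cosh ((x - v) / 2) ≠ 0)
    (ih : ∀ x : ℂ, (∀ v ∈ K, Complex.cosh ((x - v) / 2) ≠ 0) →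
      (tp x K - 1) * Dl K = rs K (fun v M => (t (x - v) - 1) * Dl M)) :
    (tp x (w :: K) - 1) * Dl (w :: K) = rs (w :: K) (fun v M => (t (x - v) - 1) * Dl M) := by
  have hne : ∀ v ∈ K, t (w - v) ≠ 0 := fun v hv => t_ne_zero hw (hK v hv) fun h => hwK (h ▸ hv)
  have htp : tp w K ≠ 0 := by
    unfold tp
    rw [Ne, List.prod_eq_zero_iff]
    intro h
    obtain ⟨v, hv, h0⟩ := List.mem_map.1 h
    exact hne v hv h0
  have i1 := ih x fun v hv => hx v (List.mem_cons_of_mem _ hv)
  have i2 := ih (w + ip) fun v hv => by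
    rw [show w + ip - v = w - v + ip by ring, cosh_ip]
    refine mul_ne_zero ?_ Complex.I_ne_zero
    intro h0
    refine hne v hv ?_
    unfold t
    rw [Complex.tanh_eq_sinh_div_cosh, h0, zero_div]
  rw [tp_ip] at i2
  rw [rs_cons]
  have e1 : rs K (fun v M => (t (x - v) - 1) * Dl (w :: M)) =
      tp w K * (-(t (x - w) * rs K (fun v M => (t (x - v) - 1) * Dl M)) +
        (t (x - w) - 1) * rs K (fun v M => (t (w + ip - v) - 1) * Dl M)) := by
    rw [← rs_mul, ← rs_mul]
    have e2 : ∀ f g : ℂ → List ℂ → ℂ, -rs K f + rs K g = rs K (fun v M => -f v M + g v M) := by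
      intro f g
      unfold rs
      rw [← sum_neg_distrib, ← sum_add_distrib]
      refine sum_congr rfl fun i _ => by ring
    rw [e2, ← rs_mul]
    refine rs_congr2 fun v M hM => ?_
    have hv : v ∈ K := hM.subset List.mem_cons_self
    have h3 : tp w K = t (w - v) * tp w M := by rw [← tp_perm w hM, tp_cons]
    have h4 := hne v hv
    have h5 : t (w + ip - v) = (t (w - v))⁻¹ := by
      rw [show w + ip - v = w - v + ip by ring, t_ip]
    have h6 := t_mul (a := x - v) (b := x - w) (hx v (List.mem_cons_of_mem _ hv)) (hx w List.mem_cons_self)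
      (by rw [show x - v - (x - w) = w - v by ring]; exact cosh_ne_st hw (hK v hv))
    rw [show x - v - (x - w) = w - v by ring] at h6
    rw [h3, h5, Dl_cons]
    have h7 : (t (w - v))⁻¹ * t (w - v) = 1 := inv_mul_cancel₀ h4
    linear_combination (tp w M * Dl M * (t (x - w) - 1)) * (-h7) + (-(tp w M * Dl M)) * h6
  rw [e1, ← i1, ← i2, tp_cons, Dl_cons]
  have h8 : (tp w K)⁻¹ * tp w K = 1 := inv_mul_cancel₀ htp
  linear_combination (Dl K * (t (x - w) - 1)) * h8

theorem main : ∀ J : List ℂ, (∀ v ∈ J, St v) → ∀ x : ℂ, (∀ v ∈ J, Complex.cosh ((x - v) / 2) ≠ 0) →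
    (tp x J - 1) * Dl J = rs J (fun v K => (t (x - v) - 1) * Dl K) := by
  intro J
  induction J with
  | nil => intro _ x _; simp [tp_nil]
  | cons w K ih =>
    intro hJ x hx
    have hw := hJ w List.mem_cons_self
    have hK : ∀ v ∈ K, St v := fun v hv => hJ v (List.mem_cons_of_mem _ hv)
    have ih' := ih hK
    -- continuity in w
    have hct : ∀ v, St v → ContinuousAt (fun w : ℂ => t (w - v)) w := by
      intro v hv
      refine ContinuousAt.comp (g := t) (f := fun w : ℂ => w - v) (shA_dt _ (St_sub hw hv)).continuousAt ?_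
      fun_prop
    have hctp : ∀ M : List ℂ, (∀ v ∈ M, St v) → ContinuousAt (fun w : ℂ => tp w M) w := by
      intro M
      induction M with
      | nil => intro _; simp only [tp_nil]; exact continuousAt_const
      | cons v M ihM =>
        intro hM
        simp only [tp_cons]
        exact (hct v (hM v List.mem_cons_self)).mul (ihM fun u hu => hM u (List.mem_cons_of_mem _ hu))
    have hcx : ContinuousAt (fun w : ℂ => t (x - w)) w := by
      have h1 : Complex.cosh ((x - w) / 2) ≠ 0 := hx w List.mem_cons_self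
      unfold t
      have h2 : ContinuousAt Complex.tanh ((x - w) / 2) := (ShA.Sh.hasDerivAt_ctanh h1).continuousAt
      refine ContinuousAt.comp (g := Complex.tanh) (f := fun w : ℂ => (x - w) / 2) h2 ?_
      fun_prop
    have hf : ContinuousAt (fun w : ℂ => (tp x (w :: K) - 1) * Dl (w :: K)) w := by
      simp only [tp_cons, Dl_cons]
      exact ((hcx.mul continuousAt_const).sub continuousAt_const).mul ((hctp K hK).mul continuousAt_const)
    have hg : ContinuousAt (fun w : ℂ => rs (w :: K) (fun v M => (t (x - v) - 1) * Dl M)) w := by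
      simp only [rs_cons]
      refine ((hcx.sub continuousAt_const).mul continuousAt_const).sub ?_
      unfold rs
      refine tendsto_finsetSum _ fun i hi => ?_
      simp only [Dl_cons]
      refine Tendsto.const_mul _ (Tendsto.const_mul _ (Tendsto.mul_const _ ?_))
      exact hctp (K.eraseIdx i) fun v hv => hK v ((List.eraseIdx_sublist ..).subset hv)
    have hev : ∀ᶠ w' in 𝓝[≠] w, (tp x (w' :: K) - 1) * Dl (w' :: K) =
        rs (w' :: K) (fun v M => (t (x - v) - 1) * Dl M) := by
      have h1 : ∀ᶠ w' in 𝓝[≠] w, St w' := by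
        refine eventually_nhdsWithin_of_eventually_nhds ?_
        have : IsOpen {z : ℂ | St z} := by
          have e : {z : ℂ | St z} = (fun z : ℂ => |z.im|) ⁻¹' Set.Iio (Real.pi / 2) := rfl
          rw [e]
          exact isOpen_Iio.preimage (by fun_prop)
        exact this.mem_nhds hw
      have h2 : ∀ᶠ w' in 𝓝[≠] w, w' ∉ K := by
        have h3 : ∀ v ∈ K, ∀ᶠ w' in 𝓝[≠] w, w' ≠ v := by
          intro v _
          by_cases hvw : v = w
          · subst hvw
            exact eventually_mem_nhdsWithin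
          · refine eventually_nhdsWithin_of_eventually_nhds ?_
            exact isOpen_ne.mem_nhds (Ne.symm hvw)
        have h4 : ∀ M : List ℂ, (∀ v ∈ M, ∀ᶠ w' in 𝓝[≠] w, w' ≠ v) → ∀ᶠ w' in 𝓝[≠] w, w' ∉ M := by
          intro M
          induction M with
          | nil => intro _; simp
          | cons a M ihM =>
            intro h
            filter_upwards [h a List.mem_cons_self, ihM fun v hv => h v (List.mem_cons_of_mem _ hv)] with w' h5 h6
            simp only [List.mem_cons, not_or]
            exact ⟨h5, h6⟩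
        exact h4 K h3
      have h3 : ∀ᶠ w' in 𝓝[≠] w, Complex.cosh ((x - w') / 2) ≠ 0 := by
        refine eventually_nhdsWithin_of_eventually_nhds ?_
        have : ContinuousAt (fun w' : ℂ => Complex.cosh ((x - w') / 2)) w := by fun_prop
        exact this.eventually_ne (hx w List.mem_cons_self)
      filter_upwards [h1, h2, h3] with w' h1 h2 h3
      refine step h1 hK h2 (fun v hv => ?_) ih'
      rcases List.mem_cons.1 hv with rfl | hv
      · exact h3
      · exact hx v (List.mem_cons_of_mem _ hv)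
    exact tendsto_nhds_unique_of_eventuallyEq (hf.tendsto.mono_left nhdsWithin_le_nhds)
      (hg.tendsto.mono_left nhdsWithin_le_nhds) hev

end Pf

/-- **partial fractions**, derivative form -/
theorem pfrS : PfrS := by
  intro J hJ x hx
  have h1 : HasDerivAt (fun x => rs J (fun v K => (t (x - v) - 1) * Dl K) + Dl J)
      (rs J (fun v K => t' (x - v) * Dl K)) x := by
    refine HasDerivAt.add_const _ (hasDerivAt_rs fun v hv K => ?_)
    have h2 := (shA_dt (x - v) (St_sub hx (hJ v hv))).comp_sub_const x v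
    exact (h2.sub_const 1).mul_const _
  refine h1.congr_of_eventuallyEq ?_
  have ho : IsOpen {z : ℂ | St z} := by
    have e : {z : ℂ | St z} = (fun z : ℂ => |z.im|) ⁻¹' Set.Iio (Real.pi / 2) := rfl
    rw [e]
    exact isOpen_Iio.preimage (by fun_prop)
  filter_upwards [ho.mem_nhds hx] with y hy
  have h3 := Pf.main J hJ y fun v hv => Pf.cosh_ne_st hy (hJ v hv)
  rw [Dl_cons]
  linear_combination h3

end DUA

end
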