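import Pool.Agent.DUA.Hsh

/-!
# (iv): the integral of the grid equation on a bounded analytic function

`(i / 4 π) ∫ (t' (x - y1) f (y2) - t' (x - y2) f (y1)) dθ = ∫ Q (x - θ) f' (θ) dθ`, `y1 = θ + a6`, `y2 = θ - a6`.
-/

set_option autoImplicit false

noncomputable section

open MeasureTheory Set Filter Topology Complex

namespace DUA

theorem a6_re : a6.re = 0 := by unfold a6; simp

theorem a6_im : a6.im = Real.pi / 6 := by
  unfold a6
  simp only [mul_im, ofReal_re, ofReal_im, I_re, I_im]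
  ring

theorem sinh_2a6 : Complex.sinh (2 * a6) = ((Real.sqrt 3 / 2 : ℝ) : ℂ) * I := by
  unfold a6
  rw [show (2 : ℂ) * (((Real.pi / 6 : ℝ) : ℂ) * I) = ((Real.pi / 3 : ℝ) : ℂ) * I by push_cast; ring,
    Complex.sinh_mul_I, ← Complex.ofReal_sin, Real.sin_pi_div_three]

/-- the difference of two shifted `t` -/
theorem t_sub_2a6 {z : ℂ} (hz : |z.im| ≤ Real.pi / 2) : t (z + 2 * a6) - t (z - 2 * a6) =
    4 * (Real.pi : ℂ) * I * Q z := by
  have hpi := Real.pi_pos
  have i2 : (2 * a6 : ℂ).im = Real.pi / 3 := by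
    have : (2 * a6 : ℂ) = ((2 : ℝ) : ℂ) * a6 := by push_cast; ring
    rw [this, Complex.im_ofReal_mul, a6_im]; ring
  have hz' := abs_le.1 hz
  have hA : Complex.cosh ((z + 2 * a6) / 2) ≠ 0 := by
    refine ker_cosh_ne ?_
    rw [add_im, i2, abs_lt]
    constructor <;> linarith
  have hB : Complex.cosh ((z - 2 * a6) / 2) ≠ 0 := by
    refine ker_cosh_ne ?_
    rw [sub_im, i2, abs_lt]
    constructor <;> linarith
  have e1 : Complex.sinh (2 * a6) = Complex.sinh ((z + 2 * a6) / 2) * Complex.cosh ((z - 2 * a6) / 2) -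
      Complex.cosh ((z + 2 * a6) / 2) * Complex.sinh ((z - 2 * a6) / 2) := by
    rw [← Complex.sinh_sub]; congr 1; ring
  have e2 : Complex.cosh ((z + 2 * a6) / 2) * Complex.cosh ((z - 2 * a6) / 2) = (2 * Complex.cosh z + 1) / 4 := by
    rw [ki_prod', cosh_2a6]; ring
  have hd := Q_den_ne hz
  unfold t Q
  rw [Complex.tanh_eq_sinh_div_cosh, Complex.tanh_eq_sinh_div_cosh, div_sub_div _ _ hA hB, ← e1, e2, sinh_2a6]
  have hpc : (Real.pi : ℂ) ≠ 0 := by exact_mod_cast hpi.ne'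
  push_cast
  field_simp

theorem ker_exp_shift (a s : ℝ) : Real.exp (-|a - s|) ≤ Real.exp |a| * Real.exp (-|s|) := by
  rw [← Real.exp_add]
  refine Real.exp_le_exp.2 ?_
  have : |s| ≤ |a| + |a - s| := by
    have h := abs_sub_abs_le_abs_sub s a
    rw [abs_sub_comm s a] at h
    linarith
  linarith

/-- **(iv)** -/
theorem shift_q {f : ℂ → ℂ} (hf : ∀ z : ℂ, |z.im| < Real.pi / 2 → DifferentiableAt ℂ f z) {h B : ℝ}
    (h1 : Real.pi / 6 < h) (h2 : h < Real.pi / 2) (hB : ∀ z : ℂ, |z.im| ≤ h → ‖f z‖ ≤ B) {x : ℂ}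
    (hx : |x.im| < Real.pi / 2) :
    Integrable (fun θ : ℝ => t' (x - ((θ : ℂ) + a6)) * f ((θ : ℂ) - a6)) ∧
    Integrable (fun θ : ℝ => t' (x - ((θ : ℂ) - a6)) * f ((θ : ℂ) + a6)) ∧
    Integrable (fun θ : ℝ => Q (x - θ) * deriv f θ) ∧
    I / (4 * (Real.pi : ℂ)) * ∫ θ : ℝ, (t' (x - ((θ : ℂ) + a6)) * f ((θ : ℂ) - a6) -
      t' (x - ((θ : ℂ) - a6)) * f ((θ : ℂ) + a6)) = ∫ θ : ℝ, Q (x - θ) * deriv f θ := by
  have hpi := Real.pi_pos
  have hB0 : 0 ≤ B := (norm_nonneg _).trans (hB 0 (by simp; linarith))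
  have hh0 : 0 < h := by linarith
  set c := |x.im| + Real.pi / 3 with hc
  have hcpi : c < Real.pi := by linarith
  obtain ⟨C, hC0, hC⟩ := t_bounds hcpi
  have i2 : (2 * a6 : ℂ).im = Real.pi / 3 := by
    have : (2 * a6 : ℂ) = ((2 : ℝ) : ℂ) * a6 := by push_cast; ring
    rw [this, Complex.im_ofReal_mul, a6_im]; ring
  have r2 : (2 * a6 : ℂ).re = 0 := by
    have : (2 * a6 : ℂ) = ((2 : ℝ) : ℂ) * a6 := by push_cast; ring
    rw [this, Complex.re_ofReal_mul, a6_re]; ring
  have hxl := neg_abs_le x.im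
  have hxr := le_abs_self x.im
  have ha6 : ((Real.pi / 6 : ℝ) : ℂ) * I = a6 := rfl
  -- bound of one factor
  have hbd : ∀ w s : ℂ, |w.im| ≤ c → |w.re| = |x.re - s.re| → |s.im| ≤ h → ‖t' w * f s‖ ≤
      (C * Real.exp |x.re| * B) * Real.exp (-1 * |s.re|) := by
    intro w s hw hr hs
    rw [norm_mul]
    have b1 := (hC w hw).2.1
    rw [hr] at b1
    have b2 := ker_exp_shift x.re s.re
    have b3 := hB s hs
    have b4 : ‖t' w‖ ≤ C * (Real.exp |x.re| * Real.exp (-|s.re|)) :=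
      b1.trans (mul_le_mul_of_nonneg_left b2 hC0.le)
    calc ‖t' w‖ * ‖f s‖ ≤ C * (Real.exp |x.re| * Real.exp (-|s.re|)) * B :=
          mul_le_mul b4 b3 (norm_nonneg _) (by positivity)
      _ = _ := by rw [neg_one_mul]; ring
  -- first contour
  set Φ₁ : ℂ → ℂ := fun z => t' (x - (z - a6) - 2 * a6) * f (z - a6) with hΦ₁
  have im1 : ∀ z : ℂ, 0 ≤ z.im → z.im ≤ Real.pi / 6 → |(x - (z - a6) - 2 * a6).im| ≤ c ∧ |(z - a6).im| ≤ Real.pi / 6 := by
    intro z hz0 hz1
    rw [sub_im, sub_im, sub_im, i2, a6_im, abs_le, abs_le, hc]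
    refine ⟨⟨by linarith, by linarith⟩, by linarith, by linarith⟩
  have d1 : ∀ z : ℂ, 0 ≤ z.im → z.im ≤ Real.pi / 6 → DifferentiableAt ℂ Φ₁ z := by
    intro z hz0 hz1
    obtain ⟨a1, a2⟩ := im1 z hz0 hz1
    have e1 : DifferentiableAt ℂ (fun z : ℂ => t' (x - (z - a6) - 2 * a6)) z := by
      have := (t'_hasDeriv (a1.trans_lt hcpi)).differentiableAt
      exact DifferentiableAt.comp z (f := fun z : ℂ => x - (z - a6) - 2 * a6) this (by fun_prop)
    have e2 : DifferentiableAt ℂ (fun z : ℂ => f (z - a6)) z := by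
      have := hf (z - a6) (by linarith)
      exact DifferentiableAt.comp z (f := fun z : ℂ => z - a6) this (by fun_prop)
    exact e1.mul e2
  have s1 := hshift (Φ := Φ₁) (θ := Real.pi / 6) (C := C * Real.exp |x.re| * B) (κ := 1) (by positivity) one_pos
    (fun z hz => (d1 z hz.1 hz.2).continuousAt.continuousWithinAt)
    (fun z hz0 hz1 => d1 z hz0.le hz1.le)
    (by
      intro z hz0 hz1 _
      obtain ⟨a1, a2⟩ := im1 z hz0 hz1
      have := hbd (x - (z - a6) - 2 * a6) (z - a6) a1 (by simp only [sub_re, r2, a6_re]; ring_nf) (by linarith)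
      simp only [sub_re, a6_re, sub_zero] at this
      exact this)
  -- second contour
  set Φ₂ : ℂ → ℂ := fun z => t' (x - z + 2 * a6) * f z with hΦ₂
  have im2 : ∀ z : ℂ, 0 ≤ z.im → z.im ≤ Real.pi / 6 → |(x - z + 2 * a6).im| ≤ c ∧ |z.im| ≤ Real.pi / 6 := by
    intro z hz0 hz1
    rw [add_im, sub_im, i2, abs_le, abs_le, hc]
    refine ⟨⟨by linarith, by linarith⟩, by linarith, by linarith⟩
  have d2 : ∀ z : ℂ, 0 ≤ z.im → z.im ≤ Real.pi / 6 → DifferentiableAt ℂ Φ₂ z := by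
    intro z hz0 hz1
    obtain ⟨a1, a2⟩ := im2 z hz0 hz1
    have e1 : DifferentiableAt ℂ (fun z : ℂ => t' (x - z + 2 * a6)) z := by
      have := (t'_hasDeriv (a1.trans_lt hcpi)).differentiableAt
      exact DifferentiableAt.comp z (f := fun z : ℂ => x - z + 2 * a6) this (by fun_prop)
    exact e1.mul (hf z (by linarith))
  have s2 := hshift (Φ := Φ₂) (θ := Real.pi / 6) (C := C * Real.exp |x.re| * B) (κ := 1) (by positivity) one_pos
    (fun z hz => (d2 z hz.1 hz.2).continuousAt.continuousWithinAt)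
    (fun z hz0 hz1 => d2 z hz0.le hz1.le)
    (by
      intro z hz0 hz1 _
      obtain ⟨a1, a2⟩ := im2 z hz0 hz1
      exact hbd (x - z + 2 * a6) z a1 (by simp only [add_re, sub_re, r2]; ring_nf) (by linarith))
  obtain ⟨s1a, s1b, s1c⟩ := s1
  obtain ⟨s2a, s2b, s2c⟩ := s2
  rw [ha6] at s1b s1c s2b s2c
  have g1 : (fun θ : ℝ => Φ₁ (θ : ℂ)) = fun θ : ℝ => t' (x - ((θ : ℂ) + a6)) * f ((θ : ℂ) - a6) := by
    funext θ
    simp only [hΦ₁]
    rw [show x - ((θ : ℂ) - a6) - 2 * a6 = x - ((θ : ℂ) + a6) by ring]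
  have g2 : (fun θ : ℝ => Φ₁ ((θ : ℂ) + a6)) = fun θ : ℝ => t' (x - (θ : ℂ) - 2 * a6) * f (θ : ℂ) := by
    funext θ
    simp only [hΦ₁]
    rw [show (θ : ℂ) + a6 - a6 = θ by ring]
  have g3 : (fun θ : ℝ => Φ₂ ((θ : ℂ) + a6)) = fun θ : ℝ => t' (x - ((θ : ℂ) - a6)) * f ((θ : ℂ) + a6) := by
    funext θ
    simp only [hΦ₂]
    rw [show x - ((θ : ℂ) + a6) + 2 * a6 = x - ((θ : ℂ) - a6) by ring]
  rw [g1] at s1a s1c
  rw [g2] at s1b s1c
  rw [g3] at s2b s2c
  -- the derivative of f on the line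
  have hder : ∀ s : ℝ, ‖deriv f (s : ℂ)‖ ≤ B / h := by
    intro s
    have hsub : ∀ z ∈ Metric.closedBall (s : ℂ) h, |z.im| ≤ h := by
      intro z hz
      have h3 : |(z - s).im| ≤ ‖z - s‖ := Complex.abs_im_le_norm _
      rw [Metric.mem_closedBall, dist_eq_norm] at hz
      simp only [sub_im, ofReal_im, sub_zero] at h3
      linarith
    refine Complex.norm_deriv_le_of_forall_mem_sphere_norm_le hh0 ?_ fun z hz =>
      hB z (hsub z (Metric.sphere_subset_closedBall hz))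
    refine DifferentiableOn.diffContOnCl fun z hz => (hf z ?_).differentiableWithinAt
    rw [closure_ball (s : ℂ) hh0.ne'] at hz
    exact (hsub z hz).trans_lt h2
  have hderc : Continuous fun s : ℝ => deriv f (s : ℂ) := by
    have h3 : DifferentiableOn ℂ f {z : ℂ | |z.im| < Real.pi / 2} := fun z hz => (hf z hz).differentiableWithinAt
    have h4 := (h3.deriv (isOpen_strip _)).continuousOn
    exact h4.comp_continuous Complex.continuous_ofReal fun s => by simpa using by positivity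
  have hQc : Continuous fun s : ℝ => Q (x - s) := by
    have h3 : ContinuousOn Q {z : ℂ | |z.im| ≤ Real.pi / 2} := fun z hz => (Q_diff hz).continuousAt.continuousWithinAt
    refine h3.comp_continuous (by fun_prop) fun s => ?_
    show |(x - (s : ℂ)).im| ≤ Real.pi / 2
    simpa using hx.le
  have hfc : Continuous fun s : ℝ => f (s : ℂ) := by
    have h3 : ContinuousOn f {z : ℂ | |z.im| < Real.pi / 2} := fun z hz => (hf z hz).continuousAt.continuousWithinAt
    exact h3.comp_continuous Complex.continuous_ofReal fun s => by simpa using by positivity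
  have hQb : ∀ s : ℝ, ‖Q (x - s)‖ ≤ Real.exp |x.re| * Real.exp (-1 * |s|) := by
    intro s
    have h3 := Q_bound (z := x - s) (by simpa using hx.le)
    rw [neg_one_mul]
    refine h3.trans ?_
    simpa using ker_exp_shift x.re s
  have iQ : ∀ (u : ℝ → ℂ) (D : ℝ), Continuous u → (∀ s, ‖u s‖ ≤ D) → Integrable fun s : ℝ => Q (x - s) * u s := by
    intro u D hu hD
    refine ((int_exp_abs one_pos).const_mul (Real.exp |x.re| * D)).mono' (hQc.mul hu).aestronglyMeasurable
      (Eventually.of_forall fun s => ?_)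
    rw [norm_mul]
    calc ‖Q (x - s)‖ * ‖u s‖ ≤ Real.exp |x.re| * Real.exp (-1 * |s|) * D :=
          mul_le_mul (hQb s) (hD s) (norm_nonneg _) (by positivity)
      _ = _ := by ring
  have iQ1 := iQ _ _ hderc hder
  have iQ2 := iQ _ B hfc fun s => hB s (by simpa using hh0.le)
  -- integration by parts
  have hm : ∀ s : ℝ, 4 * (Real.pi : ℂ) * I * Q (x - s) = t (x - s + 2 * a6) - t (x - s - 2 * a6) := by
    intro s
    rw [t_sub_2a6]
    simpa using hx.le
  have hu : ∀ s : ℝ, HasDerivAt (fun s : ℝ => 4 * (Real.pi : ℂ) * I * Q (x - s))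
      (t' (x - s - 2 * a6) - t' (x - s + 2 * a6)) s := by
    intro s
    have e0 : (fun s : ℝ => 4 * (Real.pi : ℂ) * I * Q (x - s)) =
        fun s : ℝ => t (x - s + 2 * a6) - t (x - s - 2 * a6) := funext hm
    rw [e0]
    obtain ⟨a1, -⟩ := im2 s (by simp) (by simpa using by positivity)
    have a3 : |(x - (s : ℂ) - 2 * a6).im| < Real.pi := by
      rw [sub_im, sub_im, i2, ofReal_im, abs_lt]
      constructor <;> linarith
    have hs0 : HasDerivAt (fun s : ℝ => (s : ℂ)) 1 s := Complex.ofRealCLM.hasDerivAt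
    have k1 : HasDerivAt (fun s : ℝ => x - (s : ℂ) + 2 * a6) (-1) s := by
      simpa using (hs0.const_sub x).add_const (2 * a6)
    have k2 : HasDerivAt (fun s : ℝ => x - (s : ℂ) - 2 * a6) (-1) s := by
      simpa using (hs0.const_sub x).sub_const (2 * a6)
    have l1 := HasDerivAt.comp s (t_hasDeriv (a1.trans_lt hcpi)) k1
    have l2 := HasDerivAt.comp s (t_hasDeriv a3) k2
    refine (l1.sub l2).congr_deriv ?_
    ring
  have hv : ∀ s : ℝ, HasDerivAt (fun s : ℝ => f (s : ℂ)) (deriv f (s : ℂ)) s := by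
    intro s
    have hs0 : HasDerivAt (fun s : ℝ => (s : ℂ)) 1 s := Complex.ofRealCLM.hasDerivAt
    have l1 := HasDerivAt.comp s (hf s (by simpa using by positivity)).hasDerivAt hs0
    refine l1.congr_deriv ?_
    ring
  have s12 : Integrable fun θ : ℝ => (t' (x - θ - 2 * a6) - t' (x - θ + 2 * a6)) * f θ := by
    have := s1b.sub s2a
    refine this.congr (Eventually.of_forall fun θ => ?_)
    simp only [hΦ₂, Pi.sub_apply]
    ring
  have hparts := integral_mul_deriv_eq_deriv_mul_of_integrable (u := fun s : ℝ => 4 * (Real.pi : ℂ) * I * Q (x - s))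
    (v := fun s : ℝ => f (s : ℂ)) (u' := fun s : ℝ => t' (x - s - 2 * a6) - t' (x - s + 2 * a6))
    (v' := fun s : ℝ => deriv f (s : ℂ)) (fun s _ => hu s) (fun s _ => hv s)
    (by
      refine (iQ1.const_mul (4 * (Real.pi : ℂ) * I)).congr (Eventually.of_forall fun θ => ?_)
      simp only [Pi.mul_apply]
      ring)
    (by
      refine s12.congr (Eventually.of_forall fun θ => ?_)
      simp only [Pi.mul_apply])
    (by
      refine (iQ2.const_mul (4 * (Real.pi : ℂ) * I)).congr (Eventually.of_forall fun θ => ?_)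
      simp only [Pi.mul_apply]
      ring)
  refine ⟨s1a, s2b, iQ1, ?_⟩
  rw [integral_sub s1a s2b, s1c, ← s2c, ← integral_sub s1b s2a]
  have e5 : (fun θ : ℝ => t' (x - (θ : ℂ) - 2 * a6) * f (θ : ℂ) - Φ₂ (θ : ℂ)) =
      fun θ : ℝ => (t' (x - θ - 2 * a6) - t' (x - θ + 2 * a6)) * f θ := by
    funext θ
    simp only [hΦ₂]
    ring
  rw [e5]
  have e6 : (fun s : ℝ => 4 * (Real.pi : ℂ) * I * Q (x - s) * deriv f (s : ℂ)) =
      fun s : ℝ => 4 * (Real.pi : ℂ) * I * (Q (x - s) * deriv f (s : ℂ)) := by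
    funext s; ring
  rw [e6, integral_const_mul] at hparts
  have e7 : ∫ θ : ℝ, (t' (x - θ - 2 * a6) - t' (x - θ + 2 * a6)) * f θ =
      -(4 * (Real.pi : ℂ) * I * ∫ s : ℝ, Q (x - s) * deriv f (s : ℂ)) := by
    rw [hparts, neg_neg]
  rw [e7]
  have hpc : (Real.pi : ℂ) ≠ 0 := by exact_mod_cast hpi.ne'
  have hI : I * I = -1 := I_mul_I
  field_simp
  linear_combination (-(∫ s : ℝ, Q (x - s) * deriv f (s : ℂ))) * I_sq

end DUA

end
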