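import Pool.Agent.DUA.Out
import Pool.Agent.DUA.Pfr
import Pool.Agent.DUA.ShiftA
import Pool.Agent.DUA.ShiftB

/-!
# The dual series of one `B`, without hypotheses
-/

set_option autoImplicit false

noncomputable section

open Finset MeasureTheory Filter Topology

namespace DUA

/-- all facts about the kernels -/
theorem kerH : KerH where
  dt := shA_dt
  dt' := shA_dt'
  bt := shA_bt
  bt' := shA_bt'
  bt'' := shA_bt''
  tau1 := fun _ h => tau_le_one h
  ctau := ⟨4, by norm_num, fun _ h => tau_sub_one h⟩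
  dp := shA_dp
  bp := shA_bp
  bp' := shA_bp'
  i3 := fun u x hu hx => shA_i3 u x hu hx
  i4 := fun f h B h1 h2 hf hB x hx => (shift_q (f := f) (fun z hz => hf z hz) h1 h2 hB hx).2.2.2
  bQ := ⟨1, by norm_num, fun z h => by rw [one_mul]; exact Q_bound h⟩
  cQ := fun x => by
    rw [Q_real, Complex.norm_real, Real.norm_of_nonneg (qq_pos x).le]
    exact qq_le x

/-- **the dual series of one `B`**: for every list `J` of even length in the strip `|Im v| < π / 2`,
`∏_{i < j} tanh ((v_i - v_j) / 2) * gas (Lam J)` is the Pfaffian of `p (v_i - v_j)` -/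
theorem gas_pf {J : List ℂ} (hJ : ∀ v ∈ J, St v) {m : ℕ} (hm : J.length = 2 * m) :
    Dl J * gas (fun θ => Lam J (θ : ℂ)) = pf p J := gas_even kerH pfrS hJ hm

theorem gas_series {Λ : ℝ → ℂ} (hc : Continuous Λ) {A a : ℝ} (hA0 : 0 ≤ A)
    (hA : ∀ x, ‖Λ x - 1‖ ≤ A * ew a x) : Summable (gterm Λ) ∧
    (∀ m, ‖gterm Λ m‖ ≤ (6 * (z0 * A) * (7 / 2)) ^ m / m.factorial) ∧
    (∀ m, Integrable fun θ : Fin m → ℝ => (∏ i, (-(z0 : ℂ) * (Λ (θ i) - 1))) * rho m θ) ∧
    Tendsto (fun n => Z V (Gd n) (fun s => kap n * Λ s) / Z V (Gd n) (fun _ => kap n)) atTop (𝓝 (gas Λ)) :=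
  gas_lim kerH pfrS hc hA0 hA

end DUA

end
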