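import Pool.Agent.DUA.Defs

/-!
# The grids `Gd n` (step `1 / n` on `[-n, n)`) and Riemann sums
-/

set_option autoImplicit false

noncomputable section

open Finset MeasureTheory Set

namespace DUA

/-- the `j`-th point -/
def gp (n j : ℕ) : ℝ := (j : ℝ) / n - n

/-- the grid of step `1 / n` on `[-n, n)` -/
def Gd (n : ℕ) : Finset ℝ := (Finset.range (2 * n ^ 2)).image (gp n)

theorem gp_inj {n : ℕ} (hn : 0 < n) : Function.Injective (gp n) := by
  intro i j h
  unfold gp at h
  have hn' : (n : ℝ) ≠ 0 := by exact_mod_cast hn.ne'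
  have h1 : (i : ℝ) / n = (j : ℝ) / n := by linarith
  rw [div_left_inj' hn'] at h1
  exact_mod_cast h1

theorem sum_Gd {n : ℕ} (hn : 0 < n) {M : Type*} [AddCommMonoid M] (f : ℝ → M) :
    ∑ θ ∈ Gd n, f θ = ∑ j ∈ Finset.range (2 * n ^ 2), f (gp n j) := by
  unfold Gd
  rw [Finset.sum_image fun i _ j _ h => gp_inj hn h]

theorem gp_succ (n : ℕ) (j : ℕ) : gp n (j + 1) = gp n j + 1 / n := by
  unfold gp; push_cast; ring

theorem gp_zero (n : ℕ) : gp n 0 = -(n : ℝ) := by unfold gp; simp

theorem gp_last {n : ℕ} (hn : 0 < n) : gp n (2 * n ^ 2) = n := by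
  have hn' : (n : ℝ) ≠ 0 := by exact_mod_cast hn.ne'
  unfold gp; push_cast; field_simp; ring

/-- exponential weight -/
def ew (a θ : ℝ) : ℝ := Real.exp (-|a - θ|)

theorem ew_pos (a θ : ℝ) : 0 < ew a θ := Real.exp_pos _

theorem continuous_ew (a : ℝ) : Continuous (ew a) := by unfold ew; fun_prop

theorem ew_near {a x y d : ℝ} (h : |x - y| ≤ d) : ew a x ≤ Real.exp d * ew a y := by
  unfold ew
  rw [← Real.exp_add]
  refine Real.exp_le_exp.2 ?_
  have := abs_sub_abs_le_abs_sub (a - y) (a - x)
  rw [show a - y - (a - x) = x - y by ring] at this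
  linarith

theorem integrable_exp_abs {b : ℝ} (hb : 0 < b) : Integrable fun x : ℝ => Real.exp (-(b * |x|)) := by
  have h1 : IntegrableOn (fun x : ℝ => Real.exp (-(b * |x|))) (Ioi 0) := by
    refine (exp_neg_integrableOn_Ioi 0 hb).congr_fun ?_ measurableSet_Ioi
    intro x hx
    simp only [abs_of_pos (mem_Ioi.1 hx)]
    congr 1; ring
  have h2 : IntegrableOn (fun x : ℝ => Real.exp (-(b * |x|))) (Iic 0) := by
    have h3 : IntegrableOn (fun x : ℝ => Real.exp (b * x)) (Iic 0) := by
      have := integrableOn_exp_mul_Iic (a := b) hb 0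
      exact this
    refine h3.congr_fun ?_ measurableSet_Iic
    intro x hx
    simp only [abs_of_nonpos (mem_Iic.1 hx)]
    congr 1; ring
  have := h2.union h1
  rw [Iic_union_Ioi] at this
  exact integrableOn_univ.1 this

theorem integral_exp_abs {b : ℝ} (hb : 0 < b) : ∫ x : ℝ, Real.exp (-(b * |x|)) = 2 / b := by
  have h0 := integral_comp_abs (f := fun x : ℝ => Real.exp (-(b * x)))
  rw [h0]
  have h1 : ∫ x in Ioi (0 : ℝ), Real.exp (-(b * x)) = 1 / b := by
    have := integral_exp_mul_Ioi (a := -b) (by linarith) 0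
    have e : (fun x : ℝ => Real.exp (-(b * x))) = fun x => Real.exp (-b * x) := by
      funext x; congr 1; ring
    rw [e, this]
    simp
  rw [h1]; ring

theorem integrable_exp_sub {b : ℝ} (hb : 0 < b) (a : ℝ) : Integrable fun x : ℝ => Real.exp (-(b * |a - x|)) := by
  have := (integrable_exp_abs hb).comp_sub_left a
  exact this

theorem integral_exp_sub {b : ℝ} (hb : 0 < b) (a : ℝ) : ∫ x : ℝ, Real.exp (-(b * |a - x|)) = 2 / b := by
  rw [← integral_exp_abs hb]
  exact integral_sub_left_eq_self (fun x : ℝ => Real.exp (-(b * |x|))) volume a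

theorem integrable_ew (a : ℝ) : Integrable (ew a) := by
  have := integrable_exp_sub (b := 1) one_pos a
  simp only [one_mul] at this
  exact this

theorem integral_ew (a : ℝ) : ∫ x, ew a x = 2 := by
  have := integral_exp_sub (b := 1) one_pos a
  simp only [one_mul, div_one] at this
  exact this

/-- grid sums of a slowly varying positive function -/
theorem gsum_le {n : ℕ} (hn : 0 < n) {f : ℝ → ℝ} (hf : Integrable f) (h0 : ∀ x, 0 ≤ f x) {c : ℝ} (hc : 0 ≤ c)
    (hs : ∀ x y : ℝ, |x - y| ≤ 1 / (n : ℝ) → f x ≤ c * f y) : ∑ θ ∈ Gd n, 1 / (n : ℝ) * f θ ≤ c * ∫ x, f x := by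
  rw [sum_Gd hn]
  have hn' : (0 : ℝ) < n := by exact_mod_cast hn
  have h1 : ∀ j ∈ Finset.range (2 * n ^ 2), 1 / (n : ℝ) * f (gp n j) ≤ ∫ x in gp n j..gp n (j + 1), c * f x := by
    intro j _
    have e : ∫ _ in gp n j..gp n (j + 1), f (gp n j) = 1 / (n : ℝ) * f (gp n j) := by
      rw [intervalIntegral.integral_const, gp_succ n, smul_eq_mul]; ring
    rw [← e]
    refine intervalIntegral.integral_mono_on (by rw [gp_succ n]; linarith [one_div_pos.2 hn'])
      intervalIntegrable_const ((hf.const_mul c).intervalIntegrable) ?_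
    intro x hx
    rw [gp_succ n] at hx
    refine hs _ _ ?_
    rw [abs_le]
    constructor <;> linarith [hx.1, hx.2]
  refine (Finset.sum_le_sum h1).trans ?_
  rw [intervalIntegral.sum_integral_adjacent_intervals
    fun k _ => (hf.const_mul c).intervalIntegrable, gp_zero, gp_last hn,
    intervalIntegral.integral_of_le (by linarith)]
  rw [← integral_const_mul]
  refine setIntegral_le_integral (hf.const_mul c) (Filter.Eventually.of_forall fun x => mul_nonneg hc (h0 x))

theorem gsum_ew {n : ℕ} (hn : 0 < n) (a : ℝ) : ∑ θ ∈ Gd n, 1 / (n : ℝ) * ew a θ ≤ 6 := by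
  have hn' : (1 : ℝ) ≤ n := by exact_mod_cast hn
  have h := gsum_le hn (integrable_ew a) (fun x => (ew_pos a x).le) (Real.exp_pos 1).le (fun x y h => by
    refine ew_near (h.trans ?_)
    rw [div_le_one (by linarith)]; exact hn')
  rw [integral_ew] at h
  have := Real.exp_one_lt_d9
  linarith

/-- **Riemann sums** of a function with exponential decay -/
theorem riem {n : ℕ} (hn : 0 < n) {H H' : ℝ → ℂ} {A a : ℝ} (hA : 0 ≤ A) (hd : ∀ x, HasDerivAt H (H' x) x)
    (h0 : ∀ x, ‖H x‖ ≤ A * ew a x) (h1 : ∀ x, ‖H' x‖ ≤ A * ew a x) :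
    ‖∑ θ ∈ Gd n, ((1 / (n : ℝ) : ℝ) : ℂ) * H θ - ∫ x, H x‖ ≤
      6 * A * (1 / n + Real.exp (-(n / 4))) * Real.exp (|a| / 4) := by
  have hn' : (0 : ℝ) < n := by exact_mod_cast hn
  have hn1 : (1 : ℝ) ≤ n := by exact_mod_cast hn
  have hHc : Continuous H := continuous_iff_continuousAt.2 fun x => (hd x).continuousAt
  have hHi : Integrable H := ((integrable_ew a).const_mul A).mono' hHc.aestronglyMeasurable
    (Filter.Eventually.of_forall h0)
  have hHI : ∀ b c : ℝ, IntervalIntegrable H volume b c := fun b c => hHi.intervalIntegrable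
  rw [sum_Gd hn]
  -- the bulk
  have b1 : ‖∑ j ∈ Finset.range (2 * n ^ 2), ((1 / (n : ℝ) : ℝ) : ℂ) * H (gp n j) - ∫ x in (-(n : ℝ))..n, H x‖ ≤
      6 * A * (1 / n) := by
    have e2 : ∫ x in (-(n : ℝ))..n, H x = ∑ j ∈ Finset.range (2 * n ^ 2), ∫ x in gp n j..gp n (j + 1), H x := by
      rw [intervalIntegral.sum_integral_adjacent_intervals fun k _ => hHI _ _, gp_zero, gp_last hn]
    rw [e2, ← Finset.sum_sub_distrib]
    refine (norm_sum_le _ _).trans ?_
    have h2 : ∀ j ∈ Finset.range (2 * n ^ 2),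
        ‖((1 / (n : ℝ) : ℝ) : ℂ) * H (gp n j) - ∫ x in gp n j..gp n (j + 1), H x‖ ≤
          ∫ x in gp n j..gp n (j + 1), 1 / (n : ℝ) * (A * Real.exp 1) * ew a x := by
      intro j _
      have e3 : ((1 / (n : ℝ) : ℝ) : ℂ) * H (gp n j) = ∫ _ in gp n j..gp n (j + 1), H (gp n j) := by
        rw [intervalIntegral.integral_const, gp_succ n, Complex.real_smul]
        congr 2; ring
      rw [e3, ← intervalIntegral.integral_sub intervalIntegrable_const (hHI _ _)]
      have hle : gp n j ≤ gp n (j + 1) := by rw [gp_succ n]; linarith [one_div_pos.2 hn']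
      refine intervalIntegral.norm_integral_le_of_norm_le hle ?_
        (((integrable_ew a).const_mul _).intervalIntegrable)
      refine Filter.Eventually.of_forall fun x hx => ?_
      rw [gp_succ n] at hx
      have hx1 : |gp n j - x| ≤ 1 / n := by
        rw [abs_le]; constructor <;> linarith [hx.1, hx.2]
      have hx2 : |gp n j - x| ≤ 1 := hx1.trans (by rw [div_le_one (by linarith)]; exact hn1)
      have key : ‖H (gp n j) - H x‖ ≤ (A * Real.exp 1 * ew a x) * ‖gp n j - x‖ := by
        refine Convex.norm_image_sub_le_of_norm_hasDerivWithin_le (s := Set.Icc (gp n j) x)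
          (f' := H') (fun y _ => (hd y).hasDerivWithinAt) (fun y hy => ?_) (convex_Icc _ _)
          (right_mem_Icc.2 hx.1.le) (left_mem_Icc.2 hx.1.le)
        refine (h1 y).trans ?_
        rw [mul_assoc]
        refine mul_le_mul_of_nonneg_left ?_ hA
        refine ew_near ?_
        have : |gp n j - x| = x - gp n j := by rw [abs_sub_comm]; exact abs_of_nonneg (by linarith [hx.1])
        rw [abs_le]
        constructor <;> linarith [hy.1, hy.2, hx2, this]
      refine key.trans ?_
      rw [Real.norm_eq_abs]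
      have hp : 0 ≤ A * Real.exp 1 * ew a x := by have := ew_pos a x; positivity
      calc A * Real.exp 1 * ew a x * |gp n j - x| ≤ A * Real.exp 1 * ew a x * (1 / n) :=
            mul_le_mul_of_nonneg_left hx1 hp
        _ = _ := by ring
    refine (Finset.sum_le_sum h2).trans ?_
    rw [intervalIntegral.sum_integral_adjacent_intervals
      fun k _ => ((integrable_ew a).const_mul _).intervalIntegrable, gp_zero, gp_last hn,
      intervalIntegral.integral_of_le (by linarith)]
    have h3 := setIntegral_le_integral (s := Set.Ioc (-(n : ℝ)) n)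
      ((integrable_ew a).const_mul (1 / (n : ℝ) * (A * Real.exp 1)))
      (Filter.Eventually.of_forall fun x => by have := ew_pos a x; show (0 : ℝ) ≤ _; positivity)
    refine h3.trans ?_
    rw [integral_const_mul, integral_ew]
    have := Real.exp_one_lt_d9
    have h4 : A * Real.exp 1 ≤ A * 3 := mul_le_mul_of_nonneg_left (by linarith) hA
    have h5 : 1 / (n : ℝ) * (A * Real.exp 1) ≤ 1 / (n : ℝ) * (A * 3) :=
      mul_le_mul_of_nonneg_left h4 (by positivity)
    linarith
  -- the tails
  have b2 : ‖(∫ x, H x) - ∫ x in (-(n : ℝ))..n, H x‖ ≤ 6 * A * Real.exp (-(n / 4)) * Real.exp (|a| / 4) := by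
    rw [intervalIntegral.integral_of_le (by linarith)]
    rw [← integral_add_compl (μ := volume) (s := Set.Ioc (-(n : ℝ)) n) measurableSet_Ioc hHi, add_sub_cancel_left]
    have h3 : ‖∫ x in (Set.Ioc (-(n : ℝ)) n)ᶜ, H x‖ ≤ ∫ x in (Set.Ioc (-(n : ℝ)) n)ᶜ,
        A * (Real.exp (-(n / 4)) * Real.exp (|a| / 4)) * Real.exp (-(3 / 4 * |a - x|)) := by
      refine norm_integral_le_of_norm_le ((integrable_exp_sub (by norm_num) a).const_mul _).integrableOn ?_
      refine (ae_restrict_iff' measurableSet_Ioc.compl).2 (Filter.Eventually.of_forall fun x hx => ?_)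
      refine (h0 x).trans ?_
      rw [mul_assoc]
      refine mul_le_mul_of_nonneg_left ?_ hA
      unfold ew
      rw [← Real.exp_add, ← Real.exp_add]
      refine Real.exp_le_exp.2 ?_
      have hx' : (n : ℝ) ≤ |x| := by
        by_contra hcon
        push Not at hcon
        rw [abs_lt] at hcon
        exact hx ⟨hcon.1, hcon.2.le⟩
      have := abs_sub_abs_le_abs_sub x a
      rw [abs_sub_comm x a] at this
      linarith
    refine h3.trans ?_
    refine (setIntegral_le_integral ((integrable_exp_sub (by norm_num) a).const_mul _)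
      (Filter.Eventually.of_forall fun x => by show (0 : ℝ) ≤ _; positivity)).trans ?_
    rw [integral_const_mul, integral_exp_sub (by norm_num)]
    have hp : 0 ≤ A * (Real.exp (-(n / 4)) * Real.exp (|a| / 4)) := by positivity
    calc A * (Real.exp (-(n / 4)) * Real.exp (|a| / 4)) * (2 / (3 / 4)) ≤
          A * (Real.exp (-(n / 4)) * Real.exp (|a| / 4)) * 6 := mul_le_mul_of_nonneg_left (by norm_num) hp
      _ = _ := by ring
  have e4 : ∑ j ∈ Finset.range (2 * n ^ 2), ((1 / (n : ℝ) : ℝ) : ℂ) * H (gp n j) - ∫ x, H x =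
      (∑ j ∈ Finset.range (2 * n ^ 2), ((1 / (n : ℝ) : ℝ) : ℂ) * H (gp n j) - ∫ x in (-(n : ℝ))..n, H x) -
        ((∫ x, H x) - ∫ x in (-(n : ℝ))..n, H x) := by ring
  rw [e4]
  refine (norm_sub_le _ _).trans ((add_le_add b1 b2).trans ?_)
  have h6 : 1 ≤ Real.exp (|a| / 4) := Real.one_le_exp (by positivity)
  have h7 : 6 * A * (1 / (n : ℝ)) * 1 ≤ 6 * A * (1 / (n : ℝ)) * Real.exp (|a| / 4) :=
    mul_le_mul_of_nonneg_left h6 (by positivity)
  have e5 : 6 * A * (1 / (n : ℝ) + Real.exp (-(n / 4))) * Real.exp (|a| / 4) =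
      6 * A * (1 / (n : ℝ)) * Real.exp (|a| / 4) + 6 * A * Real.exp (-(n / 4)) * Real.exp (|a| / 4) := by ring
  rw [e5]
  linarith

end DUA

end
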