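import Pool.Agent.DUA.Ker

/-!
# Shift of a horizontal line
-/

set_option autoImplicit false

noncomputable section

open MeasureTheory Set Filter Topology Complex

namespace DUA

lemma int_exp_abs {b : ℝ} (hb : 0 < b) : Integrable fun y : ℝ => Real.exp (-b * |y|) := by
  have h := ker_int_exp hb
  have e : (fun y : ℝ => Real.exp (-b * |y|)) = fun y : ℝ => Real.exp (-(b * |y|)) := by
    funext y; rw [neg_mul]
  rw [e]; exact h

lemma line_bound {F : ℝ → ℂ} {C κ : ℝ} (hF : Continuous F)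
    (hb : ∀ s : ℝ, 1 ≤ |s| → ‖F s‖ ≤ C * Real.exp (-κ * |s|)) :
    ∃ M : ℝ, ∀ s : ℝ, ‖F s‖ ≤ M * Real.exp (-κ * |s|) := by
  have hcomp : IsCompact (Icc (-1:ℝ) 1) := isCompact_Icc
  obtain ⟨M1, hM1⟩ := hcomp.exists_bound_of_continuousOn
    (f := fun s : ℝ => F s * (Real.exp (κ * |s|) : ℂ)) (by
      refine Continuous.continuousOn ?_
      refine hF.mul (Complex.continuous_ofReal.comp ?_)
      exact Real.continuous_exp.comp (continuous_const.mul continuous_abs))
  refine ⟨max M1 C, fun s => ?_⟩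
  have he : 0 < Real.exp (-κ * |s|) := Real.exp_pos _
  by_cases hs : 1 ≤ |s|
  · exact (hb s hs).trans (by gcongr; exact le_max_right _ _)
  · have hs' : s ∈ Icc (-1:ℝ) 1 := abs_le.1 (not_le.1 hs).le
    have h1 := hM1 s hs'
    rw [norm_mul, Complex.norm_real, Real.norm_eq_abs, Real.abs_exp] at h1
    have h2 : ‖F s‖ = ‖F s‖ * Real.exp (κ * |s|) * Real.exp (-κ * |s|) := by
      rw [mul_assoc, ← Real.exp_add]
      simp
    rw [h2]
    gcongr
    exact h1.trans (le_max_left _ _)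

lemma line_integrable {F : ℝ → ℂ} {C κ : ℝ} (hκ : 0 < κ) (hF : Continuous F)
    (hb : ∀ s : ℝ, 1 ≤ |s| → ‖F s‖ ≤ C * Real.exp (-κ * |s|)) : Integrable F := by
  obtain ⟨M, hM⟩ := line_bound hF hb
  exact ((int_exp_abs hκ).const_mul M).mono' hF.aestronglyMeasurable (Eventually.of_forall hM)

theorem hshift {Φ : ℂ → ℂ} {θ C κ : ℝ} (hθ : 0 ≤ θ) (hκ : 0 < κ)
    (hc : ContinuousOn Φ {z : ℂ | 0 ≤ z.im ∧ z.im ≤ θ})
    (hd : ∀ z : ℂ, 0 < z.im → z.im < θ → DifferentiableAt ℂ Φ z)
    (hb : ∀ z : ℂ, 0 ≤ z.im → z.im ≤ θ → 1 ≤ |z.re| → ‖Φ z‖ ≤ C * Real.exp (-κ * |z.re|)) :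
    Integrable (fun s : ℝ => Φ s) ∧ Integrable (fun s : ℝ => Φ (s + θ * I)) ∧
      ∫ s : ℝ, Φ s = ∫ s : ℝ, Φ (s + θ * I) := by
  have c0 : Continuous fun s : ℝ => Φ s := by
    refine hc.comp_continuous Complex.continuous_ofReal ?_
    intro s
    simp [hθ]
  have c1 : Continuous fun s : ℝ => Φ (s + θ * I) := by
    refine hc.comp_continuous (by fun_prop) ?_
    intro s
    simp [hθ]
  have i0 : Integrable fun s : ℝ => Φ s := by
    refine line_integrable hκ c0 (C := C) fun s hs => ?_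
    simpa using hb s (by simp) (by simpa using hθ) (by simpa using hs)
  have i1 : Integrable fun s : ℝ => Φ (s + θ * I) := by
    refine line_integrable hκ c1 (C := C) fun s hs => ?_
    simpa using hb (s + θ * I) (by simpa using hθ) (by simp) (by simpa using hs)
  refine ⟨i0, i1, ?_⟩
  have hrect : ∀ R : ℝ, 0 < R →
      (∫ x in (-R)..R, Φ x) - (∫ x in (-R)..R, Φ (x + θ * I)) =
        I * (∫ y in (0:ℝ)..θ, Φ (-R + y * I)) - I * (∫ y in (0:ℝ)..θ, Φ (R + y * I)) := by
    intro R hR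
    have h1 := Complex.integral_boundary_rect_eq_zero_of_continuousOn_of_differentiableOn
      Φ (-(R:ℂ)) ((R:ℂ) + θ * I) ?_ ?_
    · simp only [neg_im, ofReal_im, neg_zero, ofReal_zero, zero_mul, add_zero, neg_re, ofReal_re,
        add_re, mul_re, I_re, mul_zero, I_im, mul_one, sub_self, add_im, mul_im, zero_add,
        smul_eq_mul] at h1
      simp only [Complex.ofReal_neg] at h1
      linear_combination h1
    · refine hc.mono ?_
      intro z hz
      have hz2 := hz.2
      simp only [mem_preimage] at hz2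
      have : z.im ∈ Set.uIcc (0:ℝ) θ := by simpa using hz2
      rw [uIcc_of_le hθ] at this
      exact this
    · intro z hz
      have hz2 := hz.2
      simp only [mem_preimage] at hz2
      have : z.im ∈ Ioo (0:ℝ) θ := by simpa [min_eq_left hθ, max_eq_right hθ] using hz2
      exact (hd z this.1 this.2).differentiableWithinAt
  have hv : ∀ R : ℝ, 1 ≤ R → ‖(∫ x in (-R)..R, Φ x) - (∫ x in (-R)..R, Φ (x + θ * I))‖ ≤
      2 * (C * Real.exp (-κ * R) * θ) := by
    intro R hR
    have hR0 : 0 < R := by linarith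
    rw [hrect R hR0]
    have h1 : ‖∫ y in (0:ℝ)..θ, Φ (-R + y * I)‖ ≤ C * Real.exp (-κ * R) * |θ - 0| := by
      refine intervalIntegral.norm_integral_le_of_norm_le_const fun y hy => ?_
      rw [uIoc_of_le hθ] at hy
      have := hb (-R + y * I) (by simpa using hy.1.le) (by simpa using hy.2)
        (by simpa [abs_of_pos hR0] using hR)
      simpa [abs_of_pos hR0] using this
    have h2 : ‖∫ y in (0:ℝ)..θ, Φ (R + y * I)‖ ≤ C * Real.exp (-κ * R) * |θ - 0| := by
      refine intervalIntegral.norm_integral_le_of_norm_le_const fun y hy => ?_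
      rw [uIoc_of_le hθ] at hy
      have := hb (R + y * I) (by simpa using hy.1.le) (by simpa using hy.2)
        (by simpa [abs_of_pos hR0] using hR)
      simpa [abs_of_pos hR0] using this
    rw [sub_zero, abs_of_nonneg hθ] at h1 h2
    calc _ ≤ ‖I * (∫ y in (0:ℝ)..θ, Φ (-R + y * I))‖ + ‖I * (∫ y in (0:ℝ)..θ, Φ (R + y * I))‖ :=
          norm_sub_le _ _
      _ ≤ _ := by
          rw [norm_mul, norm_mul, Complex.norm_I, one_mul, one_mul]
          linarith
  have t0 : Tendsto (fun R : ℝ => ∫ x in (-R)..R, Φ x) atTop (𝓝 (∫ s : ℝ, Φ s)) :=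
    intervalIntegral_tendsto_integral i0 tendsto_neg_atTop_atBot tendsto_id
  have t1 : Tendsto (fun R : ℝ => ∫ x in (-R)..R, Φ (x + θ * I)) atTop
      (𝓝 (∫ s : ℝ, Φ (s + θ * I))) :=
    intervalIntegral_tendsto_integral i1 tendsto_neg_atTop_atBot tendsto_id
  have t2 := t0.sub t1
  have t3 : Tendsto (fun R : ℝ => 2 * (C * Real.exp (-κ * R) * θ)) atTop (𝓝 0) := by
    have h1 : Tendsto (fun R : ℝ => Real.exp (-κ * R)) atTop (𝓝 0) := by
      refine Real.tendsto_exp_atBot.comp ?_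
      exact tendsto_id.const_mul_atTop_of_neg (by linarith)
    have h2 := ((h1.const_mul C).mul_const θ).const_mul 2
    simpa using h2
  have t4 : Tendsto (fun R : ℝ => (∫ x in (-R)..R, Φ x) - (∫ x in (-R)..R, Φ (x + θ * I))) atTop
      (𝓝 0) := by
    refine squeeze_zero_norm' ?_ t3
    filter_upwards [eventually_ge_atTop (1:ℝ)] with R hR
    exact hv R hR
  exact sub_eq_zero.1 (tendsto_nhds_unique t2 t4)

end DUA

end
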