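import Pool.Agent.DUA.Ki

/-!
# The kernels of the dual series: derivatives, bounds, numerics

(K1) - (K6): `t`, `t'`, `tau`, `p`, the grid sums of `1 - V`, the kernel `Q`.
-/

set_option autoImplicit false

noncomputable section

open Finset Complex MeasureTheory

namespace DUA

/-! ### real bounds -/

theorem ker_exp_le_cosh (r : ℝ) : Real.exp |r| / 2 ≤ Real.cosh r := by
  rw [← Real.cosh_abs r, Real.cosh_eq]
  have := (Real.exp_pos (-|r|)).le
  linarith

theorem ker_cosh_le_exp (r : ℝ) : Real.cosh r ≤ Real.exp |r| := by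
  rw [← Real.cosh_abs r, Real.cosh_eq]
  have : Real.exp (-|r|) ≤ Real.exp |r| := Real.exp_le_exp.2 (by linarith [abs_nonneg r])
  linarith

theorem ker_cos_pos {h : ℝ} (h0 : 0 ≤ h) (h1 : h < Real.pi) : 0 < (1 + Real.cos h) / 4 := by
  have : Real.cos Real.pi < Real.cos h := Real.cos_lt_cos_of_nonneg_of_le_pi h0 le_rfl h1
  rw [Real.cos_pi] at this
  linarith

theorem ker_cos_le {h : ℝ} (h1 : h < Real.pi) {y : ℝ} (hy : |y| ≤ h) : Real.cos h ≤ Real.cos y := by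
  rw [← Real.cos_abs y]
  exact Real.cos_le_cos_of_nonneg_of_le_pi (abs_nonneg y) h1.le hy

theorem ker_low0 {h : ℝ} (h0 : 0 ≤ h) (h1 : h < Real.pi) {y : ℝ} (hy : |y| ≤ h) (r : ℝ) :
    (1 + Real.cos h) / 2 * Real.cosh r ≤ Real.cosh r + Real.cos y := by
  have h2 := ker_cos_pos h0 h1
  have h3 := ker_cos_le h1 hy
  have h4 := Real.one_le_cosh r
  have h5 := Real.cos_le_one h
  nlinarith

theorem ker_low {h : ℝ} (h0 : 0 ≤ h) (h1 : h < Real.pi) {y : ℝ} (hy : |y| ≤ h) (r : ℝ) :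
    (1 + Real.cos h) / 4 * Real.exp |r| ≤ Real.cosh r + Real.cos y := by
  have h2 := ker_cos_pos h0 h1
  have h3 := ker_low0 h0 h1 hy r
  have h4 := ker_exp_le_cosh r
  nlinarith

/-! ### norms -/

theorem ker_cosh_sq (z : ℂ) : ‖Complex.cosh (z / 2)‖ ^ 2 = (Real.cosh z.re + Real.cos z.im) / 2 := by
  have h1 : ((‖Complex.cosh (z / 2)‖ ^ 2 : ℝ) : ℂ) = Complex.cosh (z / 2) * Complex.cosh ((starRingEnd ℂ) (z / 2)) := by
    rw [Complex.cosh_conj, Complex.mul_conj, Complex.normSq_eq_norm_sq]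
  have h2 : z / 2 = ((z.re : ℂ) + (z.im : ℂ) * I) / 2 := by rw [Complex.re_add_im]
  have h3 : (starRingEnd ℂ) (z / 2) = ((z.re : ℂ) - (z.im : ℂ) * I) / 2 := by
    rw [map_div₀, Complex.conj_eq_iff_re.2 (by norm_num : ((2 : ℂ).re : ℂ) = 2)]
    congr 1
    apply Complex.ext <;> simp
  have h4 : ((‖Complex.cosh (z / 2)‖ ^ 2 : ℝ) : ℂ) = (((Real.cosh z.re + Real.cos z.im) / 2 : ℝ) : ℂ) := by
    rw [h1, h3]
    nth_rewrite 1 [h2]
    rw [ki_prod', Complex.cosh_mul_I]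
    push_cast
    ring
  exact_mod_cast h4

theorem ker_sinh_sq (z : ℂ) : ‖Complex.sinh (z / 2)‖ ^ 2 = (Real.cosh z.re - Real.cos z.im) / 2 := by
  have h1 : ((‖Complex.sinh (z / 2)‖ ^ 2 : ℝ) : ℂ) = Complex.sinh (z / 2) * Complex.sinh ((starRingEnd ℂ) (z / 2)) := by
    rw [Complex.sinh_conj, Complex.mul_conj, Complex.normSq_eq_norm_sq]
  have h2 : z / 2 = ((z.re : ℂ) + (z.im : ℂ) * I) / 2 := by rw [Complex.re_add_im]
  have h3 : (starRingEnd ℂ) (z / 2) = ((z.re : ℂ) - (z.im : ℂ) * I) / 2 := by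
    rw [map_div₀, Complex.conj_eq_iff_re.2 (by norm_num : ((2 : ℂ).re : ℂ) = 2)]
    congr 1
    apply Complex.ext <;> simp
  have h4 : ((‖Complex.sinh (z / 2)‖ ^ 2 : ℝ) : ℂ) = (((Real.cosh z.re - Real.cos z.im) / 2 : ℝ) : ℂ) := by
    rw [h1, h3]
    nth_rewrite 1 [h2]
    rw [ki_prod, Complex.cosh_mul_I]
    push_cast
    ring
  exact_mod_cast h4

theorem ker_cosh_ne {z : ℂ} (hz : |z.im| < Real.pi) : Complex.cosh (z / 2) ≠ 0 := by
  intro h
  have h1 := ker_cosh_sq z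
  rw [h, norm_zero, zero_pow (two_ne_zero)] at h1
  have h2 := ker_low (abs_nonneg z.im) hz le_rfl z.re
  have h3 := ker_cos_pos (abs_nonneg z.im) hz
  have h4 := mul_pos h3 (Real.exp_pos |z.re|)
  linarith

theorem ker_norm_t' (z : ℂ) : ‖t' z‖ = 1 / (Real.cosh z.re + Real.cos z.im) := by
  unfold t'
  rw [norm_div, norm_one, norm_mul, norm_pow, ker_cosh_sq]
  congr 1
  simp
  ring

theorem ker_norm_t_sq {z : ℂ} : ‖t z‖ ^ 2 = (Real.cosh z.re - Real.cos z.im) / (Real.cosh z.re + Real.cos z.im) := by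
  unfold t
  rw [Complex.tanh_eq_sinh_div_cosh, norm_div, div_pow, ker_cosh_sq, ker_sinh_sq]
  rw [div_div_div_cancel_right₀ (two_ne_zero)]

/-! ### (K1), (K2) -/

/-- **(K1)** -/
theorem t_hasDeriv {z : ℂ} (hz : |z.im| < Real.pi) : HasDerivAt t (t' z) z := by
  have hc := ker_cosh_ne hz
  have h0 : HasDerivAt (fun z : ℂ => z / 2) (1 / 2) z := (hasDerivAt_id z).div_const 2
  have h1 : HasDerivAt (fun z : ℂ => Complex.sinh (z / 2)) (Complex.cosh (z / 2) * (1 / 2)) z := h0.csinh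
  have h2 : HasDerivAt (fun z : ℂ => Complex.cosh (z / 2)) (Complex.sinh (z / 2) * (1 / 2)) z := h0.ccosh
  have h3 := h1.div h2 hc
  have h4 : t = fun z : ℂ => Complex.sinh (z / 2) / Complex.cosh (z / 2) := by
    funext z; unfold t; rw [Complex.tanh_eq_sinh_div_cosh]
  rw [h4]
  refine h3.congr_deriv ?_
  unfold t'
  have h5 := Complex.cosh_sq (z / 2)
  field_simp
  linear_combination h5

theorem t'_hasDeriv {z : ℂ} (hz : |z.im| < Real.pi) : HasDerivAt t' (-(t z * t' z)) z := by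
  have hc := ker_cosh_ne hz
  have h0 : HasDerivAt (fun z : ℂ => z / 2) (1 / 2) z := (hasDerivAt_id z).div_const 2
  have h2 : HasDerivAt (fun z : ℂ => Complex.cosh (z / 2)) (Complex.sinh (z / 2) * (1 / 2)) z := h0.ccosh
  have h3 := ((h2.fun_pow 2).const_mul (2 : ℂ))
  have h4 := (hasDerivAt_const z (1 : ℂ)).div h3 (by exact mul_ne_zero two_ne_zero (pow_ne_zero 2 hc))
  have h5 : t' = fun z : ℂ => 1 / (2 * Complex.cosh (z / 2) ^ 2) := by funext z; rfl
  rw [h5]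
  refine h4.congr_deriv ?_
  unfold t
  rw [Complex.tanh_eq_sinh_div_cosh]
  field_simp
  ring

theorem t'_deriv {z : ℂ} (hz : |z.im| < Real.pi) : deriv t' z = -(t z * t' z) := (t'_hasDeriv hz).deriv

/-- **(K2)** -/
theorem t_bounds {h : ℝ} (hh : h < Real.pi) : ∃ C : ℝ, 0 < C ∧ ∀ z : ℂ, |z.im| ≤ h →
    ‖t z‖ ≤ C ∧ ‖t' z‖ ≤ C * Real.exp (-|z.re|) ∧ ‖deriv t' z‖ ≤ C * Real.exp (-|z.re|) := by
  rcases lt_or_ge h 0 with h0 | h0
  · exact ⟨1, one_pos, fun z hz => absurd (hz.trans_lt h0) (not_lt.2 (abs_nonneg _))⟩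
  set m := (1 + Real.cos h) / 4 with hm
  have hm0 : 0 < m := ker_cos_pos h0 hh
  refine ⟨(1 + 1 / m) ^ 2, by positivity, fun z hz => ?_⟩
  have hl := ker_low h0 hh hz z.re
  have hl0 := ker_low0 h0 hh hz z.re
  rw [← hm] at hl
  have hc1 := Real.one_le_cosh z.re
  have hD : 0 < Real.cosh z.re + Real.cos z.im := lt_of_lt_of_le (by positivity) hl
  have i1 : 0 < 1 / m := by positivity
  have b1 : ‖t' z‖ ≤ 1 / m * Real.exp (-|z.re|) := by
    rw [ker_norm_t', Real.exp_neg, ← one_div, div_mul_div_comm, one_mul]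
    exact one_div_le_one_div_of_le (by positivity) hl
  have b2 : ‖t z‖ ≤ 1 + 1 / m := by
    refine le_of_sq_le_sq ?_ (by positivity)
    rw [ker_norm_t_sq]
    have : (Real.cosh z.re - Real.cos z.im) / (Real.cosh z.re + Real.cos z.im) ≤ 1 / m := by
      rw [div_le_div_iff₀ hD hm0]
      have h5 := Real.neg_one_le_cos z.im
      have h6 : 4 * m ≤ 2 := by rw [hm]; linarith [Real.cos_le_one h]
      have h7 : 2 * m * Real.cosh z.re ≤ Real.cosh z.re + Real.cos z.im := by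
        have : (1 + Real.cos h) / 2 = 2 * m := by rw [hm]; ring
        rw [← this]; exact hl0
      nlinarith
    nlinarith
  have he : 0 ≤ Real.exp (-|z.re|) := (Real.exp_pos _).le
  have hC1 : 1 / m ≤ (1 + 1 / m) ^ 2 := by nlinarith
  refine ⟨b2.trans (by nlinarith), b1.trans (mul_le_mul_of_nonneg_right hC1 he), ?_⟩
  rw [t'_deriv (hz.trans_lt hh), norm_neg, norm_mul]
  calc ‖t z‖ * ‖t' z‖ ≤ (1 + 1 / m) * (1 / m * Real.exp (-|z.re|)) :=
        mul_le_mul b2 b1 (norm_nonneg _) (by positivity)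
    _ = ((1 + 1 / m) * (1 / m)) * Real.exp (-|z.re|) := by ring
    _ ≤ (1 + 1 / m) ^ 2 * Real.exp (-|z.re|) := mul_le_mul_of_nonneg_right (by nlinarith) he

/-! ### (K3) -/

theorem cosh_a6 : Complex.cosh a6 = ((Real.sqrt 3 / 2 : ℝ) : ℂ) := by
  unfold a6
  rw [Complex.cosh_mul_I, ← Complex.ofReal_cos, Real.cos_pi_div_six]

theorem tau_eq (z : ℂ) : tau z = (Complex.cosh z - ((Real.sqrt 3 / 2 : ℝ) : ℂ)) /
    (Complex.cosh z + ((Real.sqrt 3 / 2 : ℝ) : ℂ)) := by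
  unfold tau
  rw [ki_tt, cosh_a6]

theorem cosh_re (z : ℂ) : (Complex.cosh z).re = Real.cosh z.re * Real.cos z.im := by
  conv_lhs => rw [← Complex.re_add_im z, Complex.cosh_add, Complex.cosh_mul_I, Complex.sinh_mul_I]
  rw [← Complex.ofReal_cosh, ← Complex.ofReal_cos, ← Complex.ofReal_sinh, ← Complex.ofReal_sin]
  simp only [add_re, mul_re, mul_im, ofReal_re, ofReal_im, I_re, I_im]
  ring

theorem cosh_im (z : ℂ) : (Complex.cosh z).im = Real.sinh z.re * Real.sin z.im := by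
  conv_lhs => rw [← Complex.re_add_im z, Complex.cosh_add, Complex.cosh_mul_I, Complex.sinh_mul_I]
  rw [← Complex.ofReal_cosh, ← Complex.ofReal_cos, ← Complex.ofReal_sinh, ← Complex.ofReal_sin]
  simp only [add_im, mul_re, mul_im, ofReal_re, ofReal_im, I_re, I_im]
  ring

theorem ker_norm_cosh_add (z : ℂ) (b : ℝ) : ‖Complex.cosh z + (b : ℂ)‖ ^ 2 =
    Real.sinh z.re ^ 2 + Real.cos z.im ^ 2 + 2 * b * (Real.cosh z.re * Real.cos z.im) + b ^ 2 := by
  rw [← Complex.normSq_eq_norm_sq, Complex.normSq_apply, add_re, add_im, cosh_re, cosh_im, ofReal_re, ofReal_im,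
    add_zero]
  have h1 := Real.sin_sq_add_cos_sq z.im
  have h2 := Real.cosh_sq z.re
  linear_combination (Real.cos z.im) ^ 2 * h2 + (Real.sinh z.re) ^ 2 * h1

theorem ker_cos_nonneg {y : ℝ} (hy : |y| ≤ Real.pi / 2) : 0 ≤ Real.cos y :=
  Real.cos_nonneg_of_neg_pi_div_two_le_of_le (abs_le.1 hy).1 (abs_le.1 hy).2

theorem ker_den {z : ℂ} (hz : |z.im| ≤ Real.pi / 2) {b : ℝ} (hb0 : 0 < b) (hb : b ≤ 1) :
    b / 2 * Real.exp |z.re| ≤ ‖Complex.cosh z + (b : ℂ)‖ := by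
  refine le_of_sq_le_sq ?_ (norm_nonneg _)
  rw [ker_norm_cosh_add]
  have h1 := ker_cos_nonneg hz
  have h2 := Real.cosh_sq z.re
  have h3 := ker_exp_le_cosh z.re
  have h4 := Real.exp_pos |z.re|
  have h5 := Real.one_le_cosh z.re
  have h6 : (b / 2 * Real.exp |z.re|) ^ 2 ≤ (b * Real.cosh z.re) ^ 2 := by
    refine pow_le_pow_left₀ (by positivity) ?_ 2
    nlinarith
  have h7 : (b * Real.cosh z.re) ^ 2 ≤ Real.sinh z.re ^ 2 + b ^ 2 := by
    rw [mul_pow, h2]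
    have : b ^ 2 ≤ 1 := by nlinarith
    nlinarith [sq_nonneg (Real.sinh z.re)]
  have h8 : 0 ≤ 2 * b * (Real.cosh z.re * Real.cos z.im) := by positivity
  nlinarith [sq_nonneg (Real.cos z.im)]

theorem ker_s3 : (0 : ℝ) < Real.sqrt 3 ∧ Real.sqrt 3 ≤ 2 ∧ Real.sqrt 3 ^ 2 = 3 :=
  ⟨Real.sqrt_pos.2 (by norm_num), Real.sqrt_le_iff.2 ⟨by norm_num, by norm_num⟩,
    Real.sq_sqrt (by norm_num)⟩

/-- **(K3)**, first part -/
theorem tau_le_one {z : ℂ} (hz : |z.im| ≤ Real.pi / 2) : ‖tau z‖ ≤ 1 := by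
  obtain ⟨s0, s1, s2⟩ := ker_s3
  rw [tau_eq, norm_div]
  have hd := ker_den hz (b := Real.sqrt 3 / 2) (by positivity) (by linarith)
  have hp : 0 < ‖Complex.cosh z + ((Real.sqrt 3 / 2 : ℝ) : ℂ)‖ := lt_of_lt_of_le (by positivity) hd
  rw [div_le_one hp]
  refine le_of_sq_le_sq ?_ hp.le
  have h1 := ker_norm_cosh_add z (Real.sqrt 3 / 2)
  have h2 := ker_norm_cosh_add z (-(Real.sqrt 3 / 2))
  rw [show Complex.cosh z - ((Real.sqrt 3 / 2 : ℝ) : ℂ) = Complex.cosh z + ((-(Real.sqrt 3 / 2) : ℝ) : ℂ) by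
    push_cast; ring]
  rw [h1, h2]
  have h3 := ker_cos_nonneg hz
  have h4 : 0 ≤ Real.sqrt 3 / 2 * (Real.cosh z.re * Real.cos z.im) := by
    have := (Real.cosh_pos z.re).le
    positivity
  nlinarith

/-- **(K3)**, second part -/
theorem tau_sub_one {z : ℂ} (hz : |z.im| ≤ Real.pi / 2) : ‖tau z - 1‖ ≤ 4 * Real.exp (-|z.re|) := by
  obtain ⟨s0, s1, s2⟩ := ker_s3
  have hd := ker_den hz (b := Real.sqrt 3 / 2) (by positivity) (by linarith)
  have hp : 0 < ‖Complex.cosh z + ((Real.sqrt 3 / 2 : ℝ) : ℂ)‖ := lt_of_lt_of_le (by positivity) hd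
  have hne : Complex.cosh z + ((Real.sqrt 3 / 2 : ℝ) : ℂ) ≠ 0 := norm_pos_iff.1 hp
  have h1 : tau z - 1 = -((Real.sqrt 3 : ℝ) : ℂ) / (Complex.cosh z + ((Real.sqrt 3 / 2 : ℝ) : ℂ)) := by
    rw [tau_eq, div_sub_one hne]
    congr 1
    push_cast
    ring
  rw [h1, norm_div, norm_neg, Complex.norm_real, Real.norm_of_nonneg s0.le, div_le_iff₀ hp]
  have he : Real.exp (-|z.re|) * Real.exp |z.re| = 1 := by rw [← Real.exp_add]; simp
  calc Real.sqrt 3 = 4 * Real.exp (-|z.re|) * (Real.sqrt 3 / 2 / 2 * Real.exp |z.re|) := by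
        linear_combination (-Real.sqrt 3) * he
    _ ≤ _ := mul_le_mul_of_nonneg_left hd (by positivity)

theorem tau_diff {z : ℂ} (hz : |z.im| ≤ Real.pi / 2) : DifferentiableAt ℂ tau z := by
  obtain ⟨s0, s1, s2⟩ := ker_s3
  have hd := ker_den hz (b := Real.sqrt 3 / 2) (by positivity) (by linarith)
  have hp : 0 < ‖Complex.cosh z + ((Real.sqrt 3 / 2 : ℝ) : ℂ)‖ := lt_of_lt_of_le (by positivity) hd
  have hne : Complex.cosh z + ((Real.sqrt 3 / 2 : ℝ) : ℂ) ≠ 0 := norm_pos_iff.1 hp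
  have h1 : tau = fun z => (Complex.cosh z - ((Real.sqrt 3 / 2 : ℝ) : ℂ)) /
    (Complex.cosh z + ((Real.sqrt 3 / 2 : ℝ) : ℂ)) := funext tau_eq
  rw [h1]
  have hc : DifferentiableAt ℂ Complex.cosh z := (Complex.hasDerivAt_cosh z).differentiableAt
  exact (hc.sub_const _).div (hc.add_const _) hne

/-! ### (K4) -/

/-- denominator of `p` -/
def pD (z : ℂ) : ℂ := Complex.cosh (3 * z / 4) + ((Real.sqrt 2 / 2 : ℝ) : ℂ)

theorem pD_eq (z : ℂ) : pD z = 2 * (Complex.cosh ((3 * z / 4 + ((Real.pi / 4 : ℝ) : ℂ) * I) / 2) *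
    Complex.cosh ((3 * z / 4 - ((Real.pi / 4 : ℝ) : ℂ) * I) / 2)) := by
  rw [ki_prod', Complex.cosh_mul_I, ← Complex.ofReal_cos, Real.cos_pi_div_four]
  unfold pD
  ring

theorem pD_low {h : ℝ} (h0 : 0 ≤ h) (hh : h < Real.pi) {z : ℂ} (hz : |z.im| ≤ h) :
    (1 + Real.cos (3 * h / 4 + Real.pi / 4)) / 4 * Real.exp (3 / 4 * |z.re|) ≤ ‖pD z‖ := by
  have hpi := Real.pi_pos
  have k0 : 0 ≤ 3 * h / 4 + Real.pi / 4 := by positivity
  have k1 : 3 * h / 4 + Real.pi / 4 < Real.pi := by linarith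
  set m := (1 + Real.cos (3 * h / 4 + Real.pi / 4)) / 4 with hm
  have hm0 : 0 < m := ker_cos_pos k0 k1
  have er : ∀ σ : ℝ, (3 * z / 4 + ((σ : ℝ) : ℂ) * I).re = 3 / 4 * z.re := by
    intro σ
    have : (3 * z / 4 : ℂ) = ((3 / 4 : ℝ) : ℂ) * z := by push_cast; ring
    rw [this]
    simp
  have ei : ∀ σ : ℝ, (3 * z / 4 + ((σ : ℝ) : ℂ) * I).im = 3 / 4 * z.im + σ := by
    intro σ
    have : (3 * z / 4 : ℂ) = ((3 / 4 : ℝ) : ℂ) * z := by push_cast; ring
    rw [this]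
    simp
  have hb : ∀ σ : ℝ, |σ| ≤ Real.pi / 4 → m / 2 * Real.exp (3 / 4 * |z.re|) ≤
      ‖Complex.cosh ((3 * z / 4 + ((σ : ℝ) : ℂ) * I) / 2)‖ ^ 2 := by
    intro σ hσ
    rw [ker_cosh_sq, er, ei]
    have h5 : |3 / 4 * z.im + σ| ≤ 3 * h / 4 + Real.pi / 4 := by
      refine (abs_add_le _ _).trans ?_
      rw [abs_mul, abs_of_pos (by norm_num : (0 : ℝ) < 3 / 4)]
      linarith
    have h6 := ker_low k0 k1 h5 (3 / 4 * z.re)
    rw [← hm, abs_mul, abs_of_pos (by norm_num : (0 : ℝ) < 3 / 4)] at h6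
    linarith
  have hp4 : |Real.pi / 4| ≤ Real.pi / 4 := by rw [abs_of_pos (by positivity)]
  have b1 := hb (Real.pi / 4) hp4
  have b2 := hb (-(Real.pi / 4)) (by rw [abs_neg]; exact hp4)
  have e2 : (3 * z / 4 + ((-(Real.pi / 4) : ℝ) : ℂ) * I) = 3 * z / 4 - ((Real.pi / 4 : ℝ) : ℂ) * I := by
    push_cast; ring
  rw [e2] at b2
  refine le_of_sq_le_sq ?_ (norm_nonneg _)
  rw [pD_eq, norm_mul, norm_mul]
  have n2 : ‖(2 : ℂ)‖ = 2 := by norm_num
  rw [n2]
  have hE := Real.exp_pos (3 / 4 * |z.re|)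
  have b3 := mul_le_mul b1 b2 (by positivity) (sq_nonneg _)
  calc (m * Real.exp (3 / 4 * |z.re|)) ^ 2 = 4 * (m / 2 * Real.exp (3 / 4 * |z.re|) *
        (m / 2 * Real.exp (3 / 4 * |z.re|))) := by ring
    _ ≤ 4 * (‖Complex.cosh ((3 * z / 4 + ((Real.pi / 4 : ℝ) : ℂ) * I) / 2)‖ ^ 2 *
        ‖Complex.cosh ((3 * z / 4 - ((Real.pi / 4 : ℝ) : ℂ) * I) / 2)‖ ^ 2) :=
        mul_le_mul_of_nonneg_left b3 (by norm_num)
    _ = _ := by ring

theorem pD_ne {z : ℂ} (hz : |z.im| < Real.pi) : pD z ≠ 0 := by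
  have h1 := pD_low (abs_nonneg z.im) hz le_rfl
  have hpi := Real.pi_pos
  have h2 := ker_cos_pos (h := 3 * |z.im| / 4 + Real.pi / 4) (by positivity) (by linarith)
  exact norm_pos_iff.1 (lt_of_lt_of_le (by positivity) h1)

theorem ker_norm_exp_le (z : ℂ) : ‖Complex.exp z‖ ≤ Real.exp |z.re| := by
  rw [Complex.norm_exp]
  exact Real.exp_le_exp.2 (le_abs_self _)

theorem ker_norm_sinh_le (z : ℂ) : ‖Complex.sinh z‖ ≤ Real.exp |z.re| := by
  have h1 := ker_norm_exp_le z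
  have h2 := ker_norm_exp_le (-z)
  rw [neg_re, abs_neg] at h2
  have h3 : Complex.sinh z = (Complex.exp z - Complex.exp (-z)) / 2 := by rw [← Complex.two_sinh]; ring
  rw [h3, norm_div]
  have h4 := norm_sub_le (Complex.exp z) (Complex.exp (-z))
  simp only [Complex.norm_ofNat]
  linarith

theorem ker_norm_cosh_le (z : ℂ) : ‖Complex.cosh z‖ ≤ Real.exp |z.re| := by
  have h1 := ker_norm_exp_le z
  have h2 := ker_norm_exp_le (-z)
  rw [neg_re, abs_neg] at h2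
  have h3 : Complex.cosh z = (Complex.exp z + Complex.exp (-z)) / 2 := by rw [← Complex.two_cosh]; ring
  rw [h3, norm_div]
  have h4 := norm_add_le (Complex.exp z) (Complex.exp (-z))
  simp only [Complex.norm_ofNat]
  linarith

/-- derivative of `p` -/
def p' (z : ℂ) : ℂ := (9 / 8 : ℂ) * (1 + ((Real.sqrt 2 / 2 : ℝ) : ℂ) * Complex.cosh (3 * z / 4)) / pD z ^ 2

theorem p_hasDeriv {z : ℂ} (hz : |z.im| < Real.pi) : HasDerivAt p (p' z) z := by
  have hne := pD_ne hz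
  have h0 : HasDerivAt (fun z : ℂ => 3 * z / 4) (3 * 1 / 4) z := ((hasDerivAt_id z).const_mul 3).div_const 4
  have h1 : HasDerivAt (fun z : ℂ => Complex.sinh (3 * z / 4)) (Complex.cosh (3 * z / 4) * (3 * 1 / 4)) z := h0.csinh
  have h2 : HasDerivAt (fun z : ℂ => Complex.cosh (3 * z / 4)) (Complex.sinh (3 * z / 4) * (3 * 1 / 4)) z := h0.ccosh
  have h3 : HasDerivAt pD (Complex.sinh (3 * z / 4) * (3 * 1 / 4)) z := h2.add_const _
  have h4 := (h1.const_mul (3 / 2 : ℂ)).div h3 hne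
  have h5 : p = fun z : ℂ => (3 / 2 : ℂ) * Complex.sinh (3 * z / 4) / pD z := by funext z; rfl
  rw [h5]
  refine h4.congr_deriv ?_
  unfold p'
  have h6 := Complex.cosh_sq (3 * z / 4)
  congr 1
  unfold pD
  linear_combination (9 / 8 : ℂ) * h6

theorem p_diff {z : ℂ} (hz : |z.im| < Real.pi) : DifferentiableAt ℂ p z := (p_hasDeriv hz).differentiableAt

theorem p_deriv {z : ℂ} (hz : |z.im| < Real.pi) : deriv p z = p' z := (p_hasDeriv hz).deriv

theorem isOpen_strip (c : ℝ) : IsOpen {z : ℂ | |z.im| < c} :=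
  isOpen_lt (continuous_abs.comp continuous_im) continuous_const

theorem deriv_p_diff {z : ℂ} (hz : |z.im| < Real.pi) : DifferentiableAt ℂ (deriv p) z := by
  have h1 : DifferentiableOn ℂ p {z : ℂ | |z.im| < Real.pi} := fun z hz => (p_diff hz).differentiableWithinAt
  exact (h1.deriv (isOpen_strip _)).differentiableAt ((isOpen_strip _).mem_nhds hz)

theorem deriv_t'_diff {z : ℂ} (hz : |z.im| < Real.pi) : DifferentiableAt ℂ (deriv t') z := by
  have h1 : DifferentiableOn ℂ t' {z : ℂ | |z.im| < Real.pi} :=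
    fun z hz => (t'_hasDeriv hz).differentiableAt.differentiableWithinAt
  exact (h1.deriv (isOpen_strip _)).differentiableAt ((isOpen_strip _).mem_nhds hz)

theorem p_zero : p 0 = 0 := by unfold p; simp

theorem p_neg (z : ℂ) : p (-z) = -p z := by
  unfold p
  rw [show (3 * -z / 4 : ℂ) = -(3 * z / 4) by ring, Complex.sinh_neg, Complex.cosh_neg]
  ring

/-- **(K4)** -/
theorem p_bounds {h : ℝ} (hh : h < Real.pi) : ∃ C : ℝ, 0 < C ∧ ∀ z : ℂ, |z.im| ≤ h →
    ‖p z‖ ≤ C ∧ ‖deriv p z‖ ≤ C * Real.exp (-(3 / 4 * |z.re|)) := by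
  rcases lt_or_ge h 0 with h0 | h0
  · exact ⟨1, one_pos, fun z hz => absurd (hz.trans_lt h0) (not_lt.2 (abs_nonneg _))⟩
  have hpi := Real.pi_pos
  have hm0 : 0 < (1 + Real.cos (3 * h / 4 + Real.pi / 4)) / 4 := ker_cos_pos (by positivity) (by linarith)
  set m := (1 + Real.cos (3 * h / 4 + Real.pi / 4)) / 4 with hm
  refine ⟨3 / m + 3 / m ^ 2, by positivity, fun z hz => ?_⟩
  have hl := pD_low h0 hh hz
  rw [← hm] at hl
  set E := Real.exp (3 / 4 * |z.re|) with hE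
  have hE0 : 0 < E := Real.exp_pos _
  have hE1 : 1 ≤ E := Real.one_le_exp (by positivity)
  have hEn : Real.exp (-(3 / 4 * |z.re|)) = E⁻¹ := by rw [Real.exp_neg]
  have hD0 : 0 < ‖pD z‖ := lt_of_lt_of_le (by positivity) hl
  have hre : |(3 * z / 4 : ℂ).re| = 3 / 4 * |z.re| := by
    have : (3 * z / 4 : ℂ) = ((3 / 4 : ℝ) : ℂ) * z := by push_cast; ring
    rw [this, Complex.re_ofReal_mul, abs_mul, abs_of_pos (by norm_num : (0 : ℝ) < 3 / 4)]
  have hs := ker_norm_sinh_le (3 * z / 4)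
  have hc := ker_norm_cosh_le (3 * z / 4)
  rw [hre, ← hE] at hs hc
  constructor
  · have h5 : p z = (3 / 2 : ℂ) * Complex.sinh (3 * z / 4) / pD z := rfl
    rw [h5, norm_div, norm_mul, div_le_iff₀ hD0]
    have n2 : ‖(3 / 2 : ℂ)‖ = 3 / 2 := by norm_num
    rw [n2]
    calc 3 / 2 * ‖Complex.sinh (3 * z / 4)‖ ≤ 3 / 2 * E := by linarith
      _ ≤ 3 * E := by linarith
      _ = 3 / m * (m * E) := by field_simp
      _ ≤ (3 / m + 3 / m ^ 2) * (m * E) := by
          refine mul_le_mul_of_nonneg_right ?_ (by positivity)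
          have : 0 < 3 / m ^ 2 := by positivity
          linarith
      _ ≤ _ := mul_le_mul_of_nonneg_left hl (by positivity)
  · rw [p_deriv (hz.trans_lt hh), hEn]
    unfold p'
    rw [norm_div, norm_mul, norm_pow, div_le_iff₀ (by positivity)]
    have n2 : ‖(9 / 8 : ℂ)‖ = 9 / 8 := by norm_num
    have s2 : Real.sqrt 2 ≤ 2 := Real.sqrt_le_iff.2 ⟨by norm_num, by norm_num⟩
    have s0 : 0 ≤ Real.sqrt 2 := Real.sqrt_nonneg 2
    have h6 : ‖1 + ((Real.sqrt 2 / 2 : ℝ) : ℂ) * Complex.cosh (3 * z / 4)‖ ≤ 2 * E := by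
      refine (norm_add_le _ _).trans ?_
      rw [norm_one, norm_mul, Complex.norm_real, Real.norm_of_nonneg (by positivity)]
      have : Real.sqrt 2 / 2 * ‖Complex.cosh (3 * z / 4)‖ ≤ 1 * E :=
        mul_le_mul (by linarith) hc (norm_nonneg _) (by norm_num)
      linarith
    rw [n2]
    have h7 : (m * E) ^ 2 ≤ ‖pD z‖ ^ 2 := pow_le_pow_left₀ (by positivity) hl 2
    calc 9 / 8 * ‖1 + ((Real.sqrt 2 / 2 : ℝ) : ℂ) * Complex.cosh (3 * z / 4)‖ ≤ 9 / 8 * (2 * E) := by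
          linarith
      _ ≤ 3 * E := by linarith
      _ = 3 / m ^ 2 * E⁻¹ * (m * E) ^ 2 := by field_simp
      _ ≤ (3 / m + 3 / m ^ 2) * E⁻¹ * (m * E) ^ 2 := by
          refine mul_le_mul_of_nonneg_right (mul_le_mul_of_nonneg_right ?_ (by positivity)) (by positivity)
          have : 0 < 3 / m := by positivity
          linarith
      _ ≤ _ := mul_le_mul_of_nonneg_left h7 (by positivity)

/-! ### (K5) -/

theorem V_one_sub (s : ℝ) : 1 - V s = 6 * Real.cosh s / ((Real.cosh s + 1) * (2 * Real.cosh s + 1)) := by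
  have h1 := Real.one_le_cosh s
  have h2 : Real.cosh (s / 2) ≠ 0 := (Real.cosh_pos _).ne'
  have e1 : Real.cosh s = 2 * Real.cosh (s / 2) ^ 2 - 1 := by
    conv_lhs => rw [show s = 2 * (s / 2) by ring, Real.cosh_two_mul, Real.sinh_sq]
    ring
  have h3 : Real.tanh (s / 2) ^ 2 = (Real.cosh s - 1) / (Real.cosh s + 1) := by
    rw [Real.tanh_eq_sinh_div_cosh, div_pow, Real.sinh_sq, e1]
    field_simp
    ring
  unfold V
  rw [h3]
  have : Real.cosh s + 1 ≠ 0 := by positivity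
  have : 2 * Real.cosh s + 1 ≠ 0 := by positivity
  field_simp
  ring

theorem V_one_sub_le (s : ℝ) : 1 - V s ≤ 3 / (Real.cosh s + 1) := by
  rw [V_one_sub]
  have h1 := Real.one_le_cosh s
  rw [div_le_div_iff₀ (by positivity) (by positivity)]
  nlinarith

theorem V_nonneg (s : ℝ) : 0 ≤ V s := by
  unfold V
  have h1 := Real.one_le_cosh s
  have h2 : 0 ≤ (2 * Real.cosh s - 1) / (2 * Real.cosh s + 1) := div_nonneg (by linarith) (by linarith)
  positivity

theorem V_le_one (s : ℝ) : V s ≤ 1 := by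
  have h := V_one_sub s
  have h1 := Real.one_le_cosh s
  have h2 : 0 ≤ 6 * Real.cosh s / ((Real.cosh s + 1) * (2 * Real.cosh s + 1)) := by positivity
  linarith

theorem V_lt_one (s : ℝ) : V s < 1 := by
  have h := V_one_sub s
  have h1 := Real.one_le_cosh s
  have h2 : 0 < 6 * Real.cosh s / ((Real.cosh s + 1) * (2 * Real.cosh s + 1)) := by positivity
  linarith

/-- one cell -/
theorem ker_cell (s u : ℝ) (hu0 : 0 ≤ u) (hu : u ≤ 1 / 4) :
    2 * u * (3 / (Real.cosh s + 1)) ≤ 61 / 60 * (3 * Real.tanh ((s + u) / 2) - 3 * Real.tanh ((s - u) / 2)) := by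
  have c1 := Real.one_le_cosh s
  have c2 := Real.one_le_cosh u
  have e1 : Real.tanh ((s + u) / 2) - Real.tanh ((s - u) / 2) = 2 * Real.sinh u / (Real.cosh s + Real.cosh u) := by
    have p1 : Real.cosh ((s + u) / 2) ≠ 0 := (Real.cosh_pos _).ne'
    have p2 : Real.cosh ((s - u) / 2) ≠ 0 := (Real.cosh_pos _).ne'
    have q1 : Real.sinh u = Real.sinh ((s + u) / 2) * Real.cosh ((s - u) / 2) -
        Real.cosh ((s + u) / 2) * Real.sinh ((s - u) / 2) := by
      rw [← Real.sinh_sub]; congr 1; ring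
    have q2 : Real.cosh s = Real.cosh ((s + u) / 2) * Real.cosh ((s - u) / 2) +
        Real.sinh ((s + u) / 2) * Real.sinh ((s - u) / 2) := by
      rw [← Real.cosh_add]; congr 1; ring
    have q3 : Real.cosh u = Real.cosh ((s + u) / 2) * Real.cosh ((s - u) / 2) -
        Real.sinh ((s + u) / 2) * Real.sinh ((s - u) / 2) := by
      rw [← Real.cosh_sub]; congr 1; ring
    have q4 : Real.cosh s + Real.cosh u = 2 * (Real.cosh ((s + u) / 2) * Real.cosh ((s - u) / 2)) := by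
      rw [q2, q3]; ring
    rw [q4, Real.tanh_eq_sinh_div_cosh, Real.tanh_eq_sinh_div_cosh, q1]
    field_simp
  have hs : u ≤ Real.sinh u := Real.self_le_sinh_iff.2 hu0
  have hc : Real.cosh u ≤ 31 / 30 := by
    have h1 := Real.cosh_le_exp_half_sq u
    have h2 : u ^ 2 / 2 ≤ 1 / 32 := by nlinarith
    have h3 : Real.exp (u ^ 2 / 2) ≤ Real.exp (1 / 32) := Real.exp_le_exp.2 h2
    have h4 : Real.exp (1 / 32 : ℝ) ≤ 31 / 30 := by
      have := Real.exp_bound_div_one_sub_of_interval (x := 1 / 32) (by norm_num) (by norm_num)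
      refine this.trans ?_
      norm_num
    exact (h1.trans h3).trans h4
  have e2 : 61 / 60 * (3 * Real.tanh ((s + u) / 2) - 3 * Real.tanh ((s - u) / 2)) =
      61 / 60 * 3 * (2 * Real.sinh u / (Real.cosh s + Real.cosh u)) := by rw [← e1]; ring
  rw [e2, ← mul_div_assoc, ← mul_div_assoc, div_le_div_iff₀ (by positivity) (by positivity)]
  have h5 : Real.cosh s + Real.cosh u ≤ 61 / 60 * (Real.cosh s + 1) := by linarith
  calc 2 * u * 3 * (Real.cosh s + Real.cosh u) ≤ 2 * Real.sinh u * 3 * (61 / 60 * (Real.cosh s + 1)) := by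
        refine mul_le_mul (by linarith) h5 (by positivity) (by positivity)
    _ = _ := by ring

/-- **(K5)** -/
theorem V_grid {e : ℝ} (he0 : 0 < e) (he : e ≤ 1 / 2) (a : ℝ) (K : Finset ℤ) :
    ∑ k ∈ K, e * (1 - V (a - k * e)) ≤ 61 / 10 := by
  set F : ℤ → ℝ := fun k => 3 * Real.tanh ((a - k * e + e / 2) / 2) with hF
  have hb : ∀ k, |F k| ≤ 3 := by
    intro k
    rw [hF]
    simp only
    rw [abs_mul, abs_of_pos (by norm_num : (0 : ℝ) < 3)]
    have := (Real.abs_tanh_lt_one ((a - k * e + e / 2) / 2)).le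
    linarith
  have h1 : ∀ k : ℤ, e * (1 - V (a - k * e)) ≤ 61 / 60 * (F k - F (k + 1)) := by
    intro k
    have h2 := ker_cell (a - k * e) (e / 2) (by positivity) (by linarith)
    have h3 := V_one_sub_le (a - k * e)
    have h4 : e * (1 - V (a - k * e)) ≤ 2 * (e / 2) * (3 / (Real.cosh (a - k * e) + 1)) := by
      rw [show 2 * (e / 2) = e by ring]
      exact mul_le_mul_of_nonneg_left h3 he0.le
    refine h4.trans (h2.trans (le_of_eq ?_))
    rw [hF]
    simp only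
    push_cast
    rw [show a - (k + 1) * e + e / 2 = a - k * e - e / 2 by ring]
  have hmono : ∀ k : ℤ, 0 ≤ F k - F (k + 1) := by
    intro k
    have h2 : 0 ≤ e * (1 - V (a - k * e)) := mul_nonneg he0.le (by linarith [V_le_one (a - k * e)])
    have := h1 k
    linarith
  obtain ⟨N, hN⟩ : ∃ N : ℕ, K ⊆ Finset.Ico (-(N : ℤ)) (N : ℤ) := by
    refine ⟨∑ k ∈ K, (k.natAbs + 1), fun k hk => ?_⟩
    have h5 : k.natAbs + 1 ≤ ∑ k ∈ K, (k.natAbs + 1) :=
      Finset.single_le_sum (f := fun k : ℤ => k.natAbs + 1) (fun _ _ => Nat.zero_le _) hk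
    rw [Finset.mem_Ico]
    omega
  have hsum : ∀ N : ℕ, ∑ k ∈ Finset.Ico (-(N : ℤ)) (N : ℤ), (F k - F (k + 1)) = F (-(N : ℤ)) - F (N : ℤ) := by
    intro N
    induction N with
    | zero => simp
    | succ n ih =>
      have e1 : Finset.Ico (-((n + 1 : ℕ) : ℤ)) ((n + 1 : ℕ) : ℤ) =
          insert (-((n + 1 : ℕ) : ℤ)) (insert (n : ℤ) (Finset.Ico (-(n : ℤ)) (n : ℤ))) := by
        ext k
        simp only [Finset.mem_Ico, Finset.mem_insert]
        push_cast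
        omega
      rw [e1, Finset.sum_insert (by simp only [Finset.mem_insert, Finset.mem_Ico]; push_cast; omega),
        Finset.sum_insert (by simp), ih]
      have e2 : -((n + 1 : ℕ) : ℤ) + 1 = -(n : ℤ) := by push_cast; ring
      have e3 : ((n + 1 : ℕ) : ℤ) = (n : ℤ) + 1 := by push_cast; ring
      rw [e2, e3]
      ring
  calc ∑ k ∈ K, e * (1 - V (a - k * e)) ≤ ∑ k ∈ K, 61 / 60 * (F k - F (k + 1)) := Finset.sum_le_sum fun k _ => h1 k
    _ = 61 / 60 * ∑ k ∈ K, (F k - F (k + 1)) := by rw [Finset.mul_sum]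
    _ ≤ 61 / 60 * ∑ k ∈ Finset.Ico (-(N : ℤ)) (N : ℤ), (F k - F (k + 1)) := by
        refine mul_le_mul_of_nonneg_left ?_ (by norm_num)
        exact Finset.sum_le_sum_of_subset_of_nonneg hN fun k _ _ => hmono k
    _ = 61 / 60 * (F (-(N : ℤ)) - F (N : ℤ)) := by rw [hsum]
    _ ≤ 61 / 10 := by
        have := (abs_le.1 (hb (-(N : ℤ)))).2
        have := (abs_le.1 (hb (N : ℤ))).1
        linarith

/-! ### (K6) -/

/-- complex `qq` -/
def Q (z : ℂ) : ℂ := ((Real.sqrt 3 / (2 * Real.pi) : ℝ) : ℂ) / (2 * Complex.cosh z + 1)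

theorem Q_real (s : ℝ) : Q s = ((qq s : ℝ) : ℂ) := by
  unfold Q qq
  push_cast
  ring

theorem Q_den {z : ℂ} (hz : |z.im| ≤ Real.pi / 2) : Real.exp |z.re| / 2 ≤ ‖2 * Complex.cosh z + 1‖ := by
  have h1 := ker_den hz (b := 1 / 2) (by norm_num) (by norm_num)
  have h2 : 2 * Complex.cosh z + 1 = 2 * (Complex.cosh z + ((1 / 2 : ℝ) : ℂ)) := by push_cast; ring
  rw [h2, norm_mul]
  have n2 : ‖(2 : ℂ)‖ = 2 := by norm_num
  rw [n2]
  linarith

theorem Q_den_ne {z : ℂ} (hz : |z.im| ≤ Real.pi / 2) : 2 * Complex.cosh z + 1 ≠ 0 :=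
  norm_pos_iff.1 (lt_of_lt_of_le (by positivity) (Q_den hz))

/-- **(K6)**, first part -/
theorem Q_bound {z : ℂ} (hz : |z.im| ≤ Real.pi / 2) : ‖Q z‖ ≤ Real.exp (-|z.re|) := by
  have hd := Q_den hz
  have hp : 0 < ‖2 * Complex.cosh z + 1‖ := lt_of_lt_of_le (by positivity) hd
  obtain ⟨s0, s1, s2⟩ := ker_s3
  have hpi := Real.pi_gt_three
  have hk : Real.sqrt 3 / (2 * Real.pi) ≤ 1 / 2 := by
    rw [div_le_div_iff₀ (by positivity) (by norm_num)]; linarith
  unfold Q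
  rw [norm_div, Complex.norm_real, Real.norm_of_nonneg (by positivity), div_le_iff₀ hp]
  have he : Real.exp (-|z.re|) * Real.exp |z.re| = 1 := by rw [← Real.exp_add]; simp
  calc Real.sqrt 3 / (2 * Real.pi) ≤ 1 / 2 := hk
    _ = Real.exp (-|z.re|) * (Real.exp |z.re| / 2) := by linear_combination (-1 / 2 : ℝ) * he
    _ ≤ _ := mul_le_mul_of_nonneg_left hd (Real.exp_pos _).le

theorem Q_diff {z : ℂ} (hz : |z.im| ≤ Real.pi / 2) : DifferentiableAt ℂ Q z := by
  have hc : DifferentiableAt ℂ Complex.cosh z := (Complex.hasDerivAt_cosh z).differentiableAt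
  exact (differentiableAt_const _).div ((hc.const_mul 2).add_const 1) (Q_den_ne hz)

theorem qq_pos (s : ℝ) : 0 < qq s := by
  unfold qq
  have h1 := Real.one_le_cosh s
  have := Real.pi_pos
  have := ker_s3.1
  positivity

theorem qq_le (s : ℝ) : qq s ≤ Real.sqrt 3 / (2 * Real.pi) * Real.exp (-|s|) := by
  unfold qq
  have h1 := ker_exp_le_cosh s
  have hpi := Real.pi_pos
  have h0 := ker_s3.1
  rw [div_le_iff₀ (by linarith [Real.exp_pos |s|] : 0 < 2 * Real.cosh s + 1), mul_assoc]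
  refine le_mul_of_one_le_right (by positivity) ?_
  have he : Real.exp (-|s|) * Real.exp |s| = 1 := by rw [← Real.exp_add]; simp
  have h2 := Real.exp_pos (-|s|)
  nlinarith

theorem qq_continuous : Continuous qq := by
  unfold qq
  refine continuous_const.div (by fun_prop) fun s => ?_
  have h1 := Real.one_le_cosh s
  positivity

theorem ker_int_exp {δ : ℝ} (hδ : 0 < δ) : Integrable (fun s : ℝ => Real.exp (-(δ * |s|))) := by
  rw [← integrableOn_univ, ← Set.Iic_union_Ioi (a := (0 : ℝ)), integrableOn_union]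
  constructor
  · refine (integrableOn_exp_mul_Iic hδ 0).congr_fun (fun x hx => ?_) measurableSet_Iic
    simp only
    rw [abs_of_nonpos hx]; ring_nf
  · refine (integrableOn_exp_mul_Ioi (a := -δ) (by linarith) 0).congr_fun (fun x hx => ?_) measurableSet_Ioi
    have hx' : 0 < x := hx
    simp only [abs_of_pos hx']
    ring_nf

theorem ker_int_exp_val {δ : ℝ} (hδ : 0 < δ) : ∫ s : ℝ, Real.exp (-(δ * |s|)) = 2 / δ := by
  have h1 : ∫ s : ℝ, Real.exp (-(δ * |s|)) = 2 * ∫ s in Set.Ioi (0 : ℝ), Real.exp (-(δ * s)) :=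
    integral_comp_abs (f := fun s => Real.exp (-(δ * s)))
  rw [h1]
  have h2 : ∫ s in Set.Ioi (0 : ℝ), Real.exp (-(δ * s)) = 1 / δ := by
    have h3 := integral_exp_mul_Ioi (a := -δ) (by linarith) 0
    have h4 : ∀ s : ℝ, Real.exp (-(δ * s)) = Real.exp (-δ * s) := fun s => by ring_nf
    simp_rw [h4]
    rw [h3]
    simp
  rw [h2]
  ring

theorem qq_exp_le (s : ℝ) : qq s * Real.exp (|s| / 4) ≤
    Real.sqrt 3 / (2 * Real.pi) * Real.exp (-(3 / 4 * |s|)) := by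
  calc qq s * Real.exp (|s| / 4) ≤ Real.sqrt 3 / (2 * Real.pi) * Real.exp (-|s|) * Real.exp (|s| / 4) :=
        mul_le_mul_of_nonneg_right (qq_le s) (Real.exp_pos _).le
    _ = _ := by rw [mul_assoc, ← Real.exp_add]; congr 2; ring

theorem qq_exp_int : Integrable (fun s : ℝ => qq s * Real.exp (|s| / 4)) := by
  refine ((ker_int_exp (δ := 3 / 4) (by norm_num)).const_mul (Real.sqrt 3 / (2 * Real.pi))).mono' ?_ ?_
  · exact (qq_continuous.mul (by fun_prop)).aestronglyMeasurable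
  · refine Filter.Eventually.of_forall fun s => ?_
    rw [Real.norm_of_nonneg (mul_nonneg (qq_pos s).le (Real.exp_pos _).le)]
    exact qq_exp_le s

/-- **(K6)**, second part -/
theorem qq_exp_le_val : ∫ s : ℝ, qq s * Real.exp (|s| / 4) ≤ 3 / 4 := by
  calc ∫ s : ℝ, qq s * Real.exp (|s| / 4) ≤ ∫ s : ℝ, Real.sqrt 3 / (2 * Real.pi) * Real.exp (-(3 / 4 * |s|)) :=
        integral_mono qq_exp_int ((ker_int_exp (by norm_num)).const_mul _) qq_exp_le
    _ = Real.sqrt 3 / (2 * Real.pi) * (2 / (3 / 4)) := by rw [integral_const_mul, ker_int_exp_val (by norm_num)]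
    _ ≤ 3 / 4 := by
        obtain ⟨s0, s1, s2⟩ := ker_s3
        have hpi := Real.pi_gt_d2
        rw [div_mul_eq_mul_div, div_le_iff₀ (by positivity)]
        have h5 : Real.sqrt 3 ≤ 1.7321 := Real.sqrt_le_iff.2 ⟨by norm_num, by norm_num⟩
        linarith

end DUA

end
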