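import Pool.Agent.DUA.Defs

/-!
# The exact grid equation

`rs J f = ∑_i (-1)^i f (J_i) (J - J_i)`.  For `x` and `J` in the strip the derivative of `nG G κ (x :: J)` in `x` is
`rs J (t' (x - v) nG K) + κ / t (2 a6) * ∑_θ (t' (x - y1) nG (y2 :: J) - t' (x - y2) nG (y1 :: J))`,
`y1 = θ + a6`, `y2 = θ - a6`: exact for every finite grid.
-/

set_option autoImplicit false

noncomputable section

open Finset Complex

namespace DUA

/-- first row expansion sum -/
def rs (J : List ℂ) (f : ℂ → List ℂ → ℂ) : ℂ :=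
  ∑ i ∈ range J.length, (-1 : ℂ) ^ i * f (J.getD i 0) (J.eraseIdx i)

@[simp] theorem rs_nil (f : ℂ → List ℂ → ℂ) : rs [] f = 0 := by simp [rs]

theorem rs_cons (a : ℂ) (J : List ℂ) (f : ℂ → List ℂ → ℂ) :
    rs (a :: J) f = f a J - rs J (fun v K => f v (a :: K)) := by
  unfold rs
  rw [List.length_cons, sum_range_succ']
  simp only [List.getD_cons_zero, List.getD_cons_succ, List.eraseIdx_cons_succ, pow_succ, pow_zero, one_mul,
    List.eraseIdx_zero, List.tail_cons]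
  rw [add_comm, sub_eq_add_neg, ← sum_neg_distrib]
  congr 1
  refine sum_congr rfl fun i _ => by ring

theorem rs_congr {J : List ℂ} {f g : ℂ → List ℂ → ℂ} (h : ∀ v ∈ J, ∀ K : List ℂ, f v K = g v K) :
    rs J f = rs J g := by
  unfold rs
  refine sum_congr rfl fun i hi => ?_
  have hi' := mem_range.1 hi
  rw [h]
  rw [List.getD_eq_getElem _ _ hi']
  exact List.getElem_mem hi'

theorem rs_congr' {J : List ℂ} {f g : ℂ → List ℂ → ℂ} (h : ∀ v ∈ J, ∀ K : List ℂ, K.Sublist J →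
    K.length + 1 = J.length → f v K = g v K) : rs J f = rs J g := by
  unfold rs
  refine sum_congr rfl fun i hi => ?_
  have hi' := mem_range.1 hi
  rw [h]
  · rw [List.getD_eq_getElem _ _ hi']
    exact List.getElem_mem hi'
  · exact List.eraseIdx_sublist ..
  · rw [List.length_eraseIdx_of_lt hi']; omega

theorem rs_mul (c : ℂ) (J : List ℂ) (f : ℂ → List ℂ → ℂ) : rs J (fun v K => c * f v K) = c * rs J f := by
  unfold rs
  rw [mul_sum]
  refine sum_congr rfl fun i _ => by ring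

theorem rs_sub (J : List ℂ) (f g : ℂ → List ℂ → ℂ) : rs J (fun v K => f v K - g v K) = rs J f - rs J g := by
  unfold rs
  rw [← sum_sub_distrib]
  refine sum_congr rfl fun i _ => by ring

theorem rs_sum {ι : Type*} (s : Finset ι) (J : List ℂ) (f : ι → ℂ → List ℂ → ℂ) :
    rs J (fun v K => ∑ i ∈ s, f i v K) = ∑ i ∈ s, rs J (f i) := by
  unfold rs
  rw [sum_comm]
  refine sum_congr rfl fun i _ => by rw [mul_sum]

/-- the double expansion with one row repeated vanishes -/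
theorem rs_rs (f : ℂ → ℂ) : ∀ (J : List ℂ) (g : List ℂ → ℂ),
    rs J (fun v K => f v * rs K (fun w M => f w * g M)) = 0 := by
  intro J
  induction J with
  | nil => intro g; simp
  | cons a J ih =>
    intro g
    rw [rs_cons]
    have h1 : rs J (fun v K => f v * rs (a :: K) (fun w M => f w * g M)) =
        rs J (fun v K => f a * (f v * g K)) - rs J (fun v K => f v * rs K (fun w M => f w * g (a :: M))) := by
      rw [← rs_sub]
      refine rs_congr fun v _ K => ?_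
      rw [rs_cons]
      ring
    rw [h1, rs_mul, ih (fun M => g (a :: M))]
    ring

theorem pf_nil (a : ℂ → ℂ) : pf a [] = 1 := by rw [pf]

theorem pf_cons (a : ℂ → ℂ) (x : ℂ) (l : List ℂ) : pf a (x :: l) = rs l (fun v K => a (x - v) * pf a K) := by
  rw [pf]
  unfold rs
  rw [← Fin.sum_univ_eq_sum_range (fun i => (-1 : ℂ) ^ i * (a (x - l.getD i 0) * pf a (l.eraseIdx i))) l.length]
  refine sum_congr rfl fun i _ => ?_
  rw [List.getD_eq_getElem _ _ i.2, List.get_eq_getElem]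
  ring

/-- two equal rows -/
theorem pf_eq (a : ℂ → ℂ) (ha : a 0 = 0) (x : ℂ) (l : List ℂ) : pf a (x :: x :: l) = 0 := by
  rw [pf_cons, rs_cons, sub_self, ha, zero_mul, zero_sub, neg_eq_zero]
  have h : rs l (fun v K => a (x - v) * pf a (x :: K)) =
      rs l (fun v K => a (x - v) * rs K (fun w M => a (x - w) * pf a M)) :=
    rs_congr fun v _ K => by rw [pf_cons]
  rw [h]
  exact rs_rs (fun v => a (x - v)) l (pf a)

/-! ### Dl, Lam, W -/

theorem ki_neg (z : ℂ) : t (-z) = -t z := by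
  unfold t; rw [neg_div, Complex.tanh_neg]

theorem ki_zero : t 0 = 0 := by unfold t; simp

theorem ki_sub (a b : ℂ) : t (a - b) = -t (b - a) := by rw [← ki_neg, neg_sub]

theorem tp_nil (x : ℂ) : tp x [] = 1 := by simp [tp]

theorem tp_cons (x v : ℂ) (J : List ℂ) : tp x (v :: J) = t (x - v) * tp x J := by simp [tp]

theorem Dl_nil : Dl [] = 1 := by rw [Dl]

theorem Dl_cons (x : ℂ) (J : List ℂ) : Dl (x :: J) = tp x J * Dl J := by rw [Dl]

theorem Lam_nil (θ : ℂ) : Lam [] θ = 1 := by simp [Lam]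

theorem Lam_cons (x : ℂ) (J : List ℂ) (θ : ℂ) : Lam (x :: J) θ = tau (x - θ) * Lam J θ := by simp [Lam]

theorem Lam_tp (J : List ℂ) (θ : ℂ) : Lam J θ = tp (θ + a6) J * tp (θ - a6) J := by
  induction J with
  | nil => simp [Lam, tp]
  | cons v J ih =>
    rw [Lam_cons, tp_cons, tp_cons, ih]
    have h : tau (v - θ) = t (θ + a6 - v) * t (θ - a6 - v) := by
      unfold tau
      rw [show v - θ + a6 = -(θ - a6 - v) by ring, show v - θ - a6 = -(θ + a6 - v) by ring, ki_neg, ki_neg]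
      ring
    rw [h]
    ring

/-- the product formula for two half angles -/
theorem ki_prod (s d : ℂ) : Complex.sinh ((s + d) / 2) * Complex.sinh ((s - d) / 2) =
    (Complex.cosh s - Complex.cosh d) / 2 := by
  have e1 : Complex.cosh s = Complex.cosh ((s + d) / 2 + (s - d) / 2) := by congr 1; ring
  have e2 : Complex.cosh d = Complex.cosh ((s + d) / 2 - (s - d) / 2) := by congr 1; ring
  rw [e1, e2, Complex.cosh_add, Complex.cosh_sub]
  ring

theorem ki_prod' (s d : ℂ) : Complex.cosh ((s + d) / 2) * Complex.cosh ((s - d) / 2) =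
    (Complex.cosh s + Complex.cosh d) / 2 := by
  have e1 : Complex.cosh s = Complex.cosh ((s + d) / 2 + (s - d) / 2) := by congr 1; ring
  have e2 : Complex.cosh d = Complex.cosh ((s + d) / 2 - (s - d) / 2) := by congr 1; ring
  rw [e1, e2, Complex.cosh_add, Complex.cosh_sub]
  ring

theorem ki_tt (s d : ℂ) : t (s + d) * t (s - d) =
    (Complex.cosh s - Complex.cosh d) / (Complex.cosh s + Complex.cosh d) := by
  unfold t
  rw [Complex.tanh_eq_sinh_div_cosh, Complex.tanh_eq_sinh_div_cosh, div_mul_div_comm, ki_prod, ki_prod']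
  rw [div_div_div_cancel_right₀ (two_ne_zero)]

theorem cosh_2a6 : Complex.cosh (2 * a6) = 1 / 2 := by
  unfold a6
  rw [show (2 : ℂ) * (((Real.pi / 6 : ℝ) : ℂ) * I) = ((Real.pi / 3 : ℝ) : ℂ) * I by push_cast; ring,
    Complex.cosh_mul_I, ← Complex.ofReal_cos, Real.cos_pi_div_three]
  push_cast
  ring

theorem V_tau (s : ℝ) : ((V s : ℝ) : ℂ) = tau (s + a6) * tau (s - a6) := by
  unfold tau
  rw [show (s : ℂ) + a6 + a6 = s + 2 * a6 by ring, show (s : ℂ) + a6 - a6 = s by ring,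
    show (s : ℂ) - a6 + a6 = s by ring, show (s : ℂ) - a6 - a6 = s - 2 * a6 by ring]
  rw [show t ((s : ℂ) + 2 * a6) * t s * (t s * t ((s : ℂ) - 2 * a6)) =
    t s ^ 2 * (t ((s : ℂ) + 2 * a6) * t ((s : ℂ) - 2 * a6)) by ring, ki_tt, cosh_2a6]
  unfold V t
  push_cast
  congr 1
  have h0 : Complex.cosh (s : ℂ) + 1 / 2 = (2 * Complex.cosh s + 1) / 2 := by ring
  have h1 : Complex.cosh (s : ℂ) - 1 / 2 = (2 * Complex.cosh s - 1) / 2 := by ring
  rw [h0, h1, div_div_div_cancel_right₀ (two_ne_zero)]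

theorem V_even (s : ℝ) : V (-s) = V s := by
  unfold V; rw [neg_div, Real.tanh_neg, Real.cosh_neg]; ring

theorem V_zero : V 0 = 0 := by unfold V; simp

theorem tau_a6 : tau (-a6) = 0 := by
  unfold tau; rw [neg_add_cancel, ki_zero, zero_mul]

theorem tau_a6' : tau a6 = 0 := by
  unfold tau; rw [sub_self, ki_zero, mul_zero]

/-- the weight of the configuration `T` with the rows `J` -/
def W (J : List ℂ) (T : Finset ℝ) : ℂ := Dl J * (∏ θ ∈ T, Lam J (θ : ℂ)) * (pV V T : ℂ)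

theorem W_empty (J : List ℂ) : W J ∅ = Dl J := by simp [W]

theorem W_insert {a : ℝ} {T : Finset ℝ} (ha : a ∉ T) (J : List ℂ) :
    t (2 * a6) * W J (insert a T) = W (((a : ℂ) + a6) :: ((a : ℂ) - a6) :: J) T := by
  unfold W
  rw [prod_insert ha, pV_insert V_even ha, Dl_cons, Dl_cons, tp_cons,
    show (a : ℂ) + a6 - ((a : ℂ) - a6) = 2 * a6 by ring]
  have h1 : ∏ θ ∈ T, Lam (((a : ℂ) + a6) :: ((a : ℂ) - a6) :: J) (θ : ℂ) =
      (∏ θ ∈ T, ((V (θ - a) : ℝ) : ℂ)) * ∏ θ ∈ T, Lam J (θ : ℂ) := by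
    rw [← prod_mul_distrib]
    refine prod_congr rfl fun θ _ => ?_
    rw [Lam_cons, Lam_cons, show θ - a = -(a - θ) by ring, V_even, V_tau]
    push_cast
    rw [show (a : ℂ) + a6 - θ = a - θ + a6 by ring, show (a : ℂ) - a6 - θ = a - θ - a6 by ring]
    ring
  have h2 : ((VT V T a : ℝ) : ℂ) = ∏ θ ∈ T, ((V (θ - a) : ℝ) : ℂ) := by
    unfold VT; rw [Complex.ofReal_prod]
  rw [h1, Lam_tp J a, Complex.ofReal_mul, h2]
  ring

theorem W_swap (y1 y2 x : ℂ) (J : List ℂ) (T : Finset ℝ) : W (y1 :: y2 :: x :: J) T = W (x :: y1 :: y2 :: J) T := by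
  unfold W
  have h1 : ∏ θ ∈ T, Lam (y1 :: y2 :: x :: J) (θ : ℂ) = ∏ θ ∈ T, Lam (x :: y1 :: y2 :: J) (θ : ℂ) := by
    refine prod_congr rfl fun θ _ => ?_
    simp only [Lam_cons]; ring
  rw [h1]
  simp only [Dl_cons, tp_cons]
  rw [ki_sub y1 x, ki_sub y2 x]
  ring

theorem W_swap' (x y : ℂ) (J : List ℂ) (T : Finset ℝ) : W (x :: y :: J) T = -W (y :: x :: J) T := by
  unfold W
  have h1 : ∏ θ ∈ T, Lam (x :: y :: J) (θ : ℂ) = ∏ θ ∈ T, Lam (y :: x :: J) (θ : ℂ) := by
    refine prod_congr rfl fun θ _ => ?_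
    simp only [Lam_cons]; ring
  rw [h1]
  simp only [Dl_cons, tp_cons]
  rw [ki_sub x y]
  ring

theorem W_zero {a : ℝ} {T : Finset ℝ} (ha : a ∈ T) {y : ℂ} (hy : tau (y - a) = 0) (J : List ℂ) :
    W (y :: J) T = 0 := by
  unfold W
  rw [prod_eq_zero ha (by rw [Lam_cons, hy, zero_mul])]
  ring

theorem t_2a6 : t (2 * a6) = I / (Real.sqrt 3 : ℝ) := by
  unfold t a6
  rw [show (2 : ℂ) * (((Real.pi / 6 : ℝ) : ℂ) * I) / 2 = ((Real.pi / 6 : ℝ) : ℂ) * I by ring,
    Complex.tanh_mul_I, ← Complex.ofReal_tan, Real.tan_pi_div_six]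
  push_cast
  ring

theorem t_2a6_ne : t (2 * a6) ≠ 0 := by
  rw [t_2a6]
  have : (Real.sqrt 3 : ℂ) ≠ 0 := by
    exact_mod_cast (Real.sqrt_pos.2 (by norm_num : (0 : ℝ) < 3)).ne'
  exact div_ne_zero I_ne_zero this

/-- in the strip -/
def St (z : ℂ) : Prop := |z.im| < Real.pi / 2

theorem St_y1 (θ : ℝ) : St ((θ : ℂ) + a6) := by
  unfold St a6
  simp only [add_im, ofReal_im, mul_im, ofReal_re, I_im, mul_one, I_re, mul_zero, add_zero, zero_add]
  rw [abs_of_pos (by positivity)]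
  linarith [Real.pi_pos]

theorem St_y2 (θ : ℝ) : St ((θ : ℂ) - a6) := by
  unfold St a6
  simp only [sub_im, ofReal_im, mul_im, ofReal_re, I_im, mul_one, I_re, mul_zero, add_zero, zero_sub]
  rw [abs_neg, abs_of_pos (by positivity)]
  linarith [Real.pi_pos]

/-- the statement of `Pfr` used here -/
def PfrS : Prop := ∀ (J : List ℂ), (∀ v ∈ J, St v) → ∀ x : ℂ, St x →
  HasDerivAt (fun x => Dl (x :: J)) (rs J (fun v K => t' (x - v) * Dl K)) x

theorem W_deriv (hP : PfrS) (T : Finset ℝ) : ∀ (J : List ℂ), (∀ v ∈ J, St v) → ∀ x : ℂ, St x →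
    HasDerivAt (fun x => W (x :: J) T) (rs J (fun v K => t' (x - v) * W K T) +
      (t (2 * a6))⁻¹ * ∑ θ ∈ T, (t' (x - ((θ : ℂ) + a6)) * W (((θ : ℂ) - a6) :: J) (T.erase θ) -
        t' (x - ((θ : ℂ) - a6)) * W (((θ : ℂ) + a6) :: J) (T.erase θ))) x := by
  classical
  induction T using Finset.induction_on with
  | empty =>
    intro J hJ x hx
    have := hP J hJ x hx
    simpa only [W_empty, sum_empty, mul_zero, add_zero] using this
  | insert a T ha ih =>
    intro J hJ x hx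
    have h1 : (fun x => W (x :: J) (insert a T)) =
        fun x => (t (2 * a6))⁻¹ * W (x :: ((a : ℂ) + a6) :: ((a : ℂ) - a6) :: J) T := by
      funext x
      rw [← W_swap, ← W_insert ha, inv_mul_cancel_left₀ t_2a6_ne]
    rw [h1]
    have h2 := (ih (((a : ℂ) + a6) :: ((a : ℂ) - a6) :: J) (by
      intro v hv
      rcases List.mem_cons.1 hv with h | h
      · rw [h]; exact St_y1 a
      rcases List.mem_cons.1 h with h | h
      · rw [h]; exact St_y2 a
      · exact hJ v h) x hx).const_mul (t (2 * a6))⁻¹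
    refine h2.congr_deriv ?_
    rw [rs_cons, rs_cons]
    have h3 : rs J (fun v K => t' (x - v) * W (((a : ℂ) + a6) :: ((a : ℂ) - a6) :: K) T) =
        t (2 * a6) * rs J (fun v K => t' (x - v) * W K (insert a T)) := by
      rw [← rs_mul]
      refine rs_congr fun v _ K => ?_
      rw [← W_insert ha]; ring
    rw [sum_insert ha, erase_insert ha]
    have h4 : ∑ θ ∈ T, (t' (x - ((θ : ℂ) + a6)) * W (((θ : ℂ) - a6) :: J) ((insert a T).erase θ) -
        t' (x - ((θ : ℂ) - a6)) * W (((θ : ℂ) + a6) :: J) ((insert a T).erase θ)) =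
        (t (2 * a6))⁻¹ * ∑ θ ∈ T, (t' (x - ((θ : ℂ) + a6)) *
            W (((θ : ℂ) - a6) :: ((a : ℂ) + a6) :: ((a : ℂ) - a6) :: J) (T.erase θ) -
          t' (x - ((θ : ℂ) - a6)) * W (((θ : ℂ) + a6) :: ((a : ℂ) + a6) :: ((a : ℂ) - a6) :: J) (T.erase θ)) := by
      rw [mul_sum]
      refine sum_congr rfl fun θ hθ => ?_
      have hne : θ ≠ a := fun h => ha (h ▸ hθ)
      have hna : a ∉ T.erase θ := fun h => ha (mem_of_mem_erase h)
      rw [erase_insert_of_ne (Ne.symm hne), ← W_swap ((a : ℂ) + a6) ((a : ℂ) - a6) ((θ : ℂ) - a6) J,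
        ← W_swap ((a : ℂ) + a6) ((a : ℂ) - a6) ((θ : ℂ) + a6) J, ← W_insert hna, ← W_insert hna]
      have hn := t_2a6_ne
      generalize t (2 * a6) = c at hn
      field_simp
    rw [h3, h4]
    have hn := t_2a6_ne
    generalize t (2 * a6) = c at hn
    field_simp
    ring

theorem sum_erase_swap (G : Finset ℝ) (κ : ℂ) (g : ℝ → Finset ℝ → ℂ) (hg : ∀ θ T, θ ∈ T → g θ T = 0) :
    ∑ T ∈ G.powerset, κ ^ T.card * ∑ θ ∈ T, g θ (T.erase θ) =
      κ * ∑ θ ∈ G, ∑ T ∈ G.powerset, κ ^ T.card * g θ T := by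
  classical
  have h1 : ∑ T ∈ G.powerset, κ ^ T.card * ∑ θ ∈ T, g θ (T.erase θ) =
      ∑ T ∈ G.powerset, ∑ θ ∈ G, if θ ∈ T then κ ^ T.card * g θ (T.erase θ) else 0 := by
    refine sum_congr rfl fun T hT => ?_
    rw [mul_sum, ← sum_filter]
    congr 1
    ext θ
    simp only [mem_filter]
    exact ⟨fun h => ⟨mem_powerset.1 hT h, h⟩, fun h => h.2⟩
  rw [h1, sum_comm, mul_sum]
  refine sum_congr rfl fun θ hθ => ?_
  rw [mul_sum, ← sum_filter]
  have h2 : ∑ T ∈ G.powerset, κ * (κ ^ T.card * g θ T) =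
      ∑ T ∈ G.powerset.filter (θ ∉ ·), κ * (κ ^ T.card * g θ T) := by
    rw [sum_filter]
    refine sum_congr rfl fun T _ => ?_
    by_cases h : θ ∈ T
    · simp [h, hg θ T h]
    · simp [h]
  rw [h2]
  refine sum_bij' (fun T _ => T.erase θ) (fun T _ => insert θ T) ?_ ?_ ?_ ?_ ?_
  · intro T hT
    simp only [mem_filter, mem_powerset] at hT ⊢
    exact ⟨(erase_subset _ _).trans hT.1, notMem_erase θ T⟩
  · intro T hT
    simp only [mem_filter, mem_powerset] at hT ⊢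
    exact ⟨insert_subset hθ hT.1, mem_insert_self θ T⟩
  · intro T hT
    simp only [mem_filter, mem_powerset] at hT
    exact insert_erase hT.2
  · intro T hT
    simp only [mem_filter, mem_powerset] at hT
    exact erase_insert hT.2
  · intro T hT
    simp only [mem_filter, mem_powerset] at hT
    rw [← card_erase_add_one hT.2, pow_succ]
    ring

theorem nG_W (G : Finset ℝ) (κ : ℂ) (J : List ℂ) :
    nG G κ J = (∑ T ∈ G.powerset, κ ^ T.card * W J T) / Z V G (fun _ => κ) := by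
  unfold nG
  rw [← mul_div_assoc]
  congr 1
  unfold Z W
  rw [mul_sum]
  refine sum_congr rfl fun T _ => ?_
  rw [prod_mul_distrib, prod_const]
  ring

/-- **the exact grid equation** -/
theorem nG_deriv (hP : PfrS) (G : Finset ℝ) (κ : ℂ) (J : List ℂ) (hJ : ∀ v ∈ J, St v) (x : ℂ) (hx : St x) :
    HasDerivAt (fun x => nG G κ (x :: J)) (rs J (fun v K => t' (x - v) * nG G κ K) +
      κ * (t (2 * a6))⁻¹ * ∑ θ ∈ G, (t' (x - ((θ : ℂ) + a6)) * nG G κ (((θ : ℂ) - a6) :: J) -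
        t' (x - ((θ : ℂ) - a6)) * nG G κ (((θ : ℂ) + a6) :: J))) x := by
  classical
  have h0 : (fun x => nG G κ (x :: J)) =
      fun x => (∑ T ∈ G.powerset, κ ^ T.card * W (x :: J) T) / Z V G (fun _ => κ) := by
    funext x; rw [nG_W]
  rw [h0]
  have h1 := (HasDerivAt.fun_sum fun T (_ : T ∈ G.powerset) =>
    (W_deriv hP T J hJ x hx).const_mul (κ ^ T.card)).div_const (Z V G (fun _ => κ))
  refine h1.congr_deriv ?_
  have h2 : rs J (fun v K => t' (x - v) * nG G κ K) =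
      (∑ T ∈ G.powerset, κ ^ T.card * rs J (fun v K => t' (x - v) * W K T)) / Z V G (fun _ => κ) := by
    rw [div_eq_inv_mul, mul_sum]
    have : ∀ T ∈ G.powerset, (Z V G fun _ => κ)⁻¹ * (κ ^ T.card * rs J fun v K => t' (x - v) * W K T) =
        rs J (fun v K => (Z V G fun _ => κ)⁻¹ * (κ ^ T.card * (t' (x - v) * W K T))) := by
      intro T _
      rw [rs_mul, rs_mul]
    rw [sum_congr rfl this, ← rs_sum]
    refine rs_congr fun v _ K => ?_
    rw [nG_W, div_eq_inv_mul, mul_left_comm, mul_sum, mul_sum]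
    refine sum_congr rfl fun T _ => by ring
  have h3 : ∑ T ∈ G.powerset, κ ^ T.card * ∑ θ ∈ T,
        (t' (x - ((θ : ℂ) + a6)) * W (((θ : ℂ) - a6) :: J) (T.erase θ) -
          t' (x - ((θ : ℂ) - a6)) * W (((θ : ℂ) + a6) :: J) (T.erase θ)) =
      κ * ∑ θ ∈ G, ∑ T ∈ G.powerset, κ ^ T.card *
        (t' (x - ((θ : ℂ) + a6)) * W (((θ : ℂ) - a6) :: J) T -
          t' (x - ((θ : ℂ) - a6)) * W (((θ : ℂ) + a6) :: J) T) := by
    refine sum_erase_swap G κ (fun θ T => t' (x - ((θ : ℂ) + a6)) * W (((θ : ℂ) - a6) :: J) T -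
          t' (x - ((θ : ℂ) - a6)) * W (((θ : ℂ) + a6) :: J) T) ?_
    intro θ T hθ
    rw [W_zero hθ (by rw [show (θ : ℂ) - a6 - θ = -a6 by ring]; exact tau_a6),
      W_zero hθ (by rw [show (θ : ℂ) + a6 - θ = a6 by ring]; exact tau_a6')]
    ring
  have h4 : ∀ θ ∈ G, (t' (x - ((θ : ℂ) + a6)) * nG G κ (((θ : ℂ) - a6) :: J) -
        t' (x - ((θ : ℂ) - a6)) * nG G κ (((θ : ℂ) + a6) :: J)) =
      (Z V G (fun _ => κ))⁻¹ * ∑ T ∈ G.powerset, κ ^ T.card *
        (t' (x - ((θ : ℂ) + a6)) * W (((θ : ℂ) - a6) :: J) T -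
          t' (x - ((θ : ℂ) - a6)) * W (((θ : ℂ) + a6) :: J) T) := by
    intro θ _
    rw [nG_W, nG_W, div_eq_inv_mul, div_eq_inv_mul, mul_left_comm, mul_left_comm (t' (x - ((θ : ℂ) - a6))),
      ← mul_sub, mul_sum, mul_sum, ← sum_sub_distrib]
    congr 1
    refine sum_congr rfl fun T _ => by ring
  rw [h2, sum_congr rfl h4, ← mul_sum, div_eq_inv_mul, div_eq_inv_mul]
  have h5 : ∑ T ∈ G.powerset, κ ^ T.card * ((rs J fun v K => t' (x - v) * W K T) +
      (t (2 * a6))⁻¹ * ∑ θ ∈ T, (t' (x - ((θ : ℂ) + a6)) * W (((θ : ℂ) - a6) :: J) (T.erase θ) -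
        t' (x - ((θ : ℂ) - a6)) * W (((θ : ℂ) + a6) :: J) (T.erase θ))) =
      (∑ T ∈ G.powerset, κ ^ T.card * rs J fun v K => t' (x - v) * W K T) + (t (2 * a6))⁻¹ *
      ∑ T ∈ G.powerset, κ ^ T.card * ∑ θ ∈ T,
        (t' (x - ((θ : ℂ) + a6)) * W (((θ : ℂ) - a6) :: J) (T.erase θ) -
          t' (x - ((θ : ℂ) - a6)) * W (((θ : ℂ) + a6) :: J) (T.erase θ)) := by
    rw [mul_sum, ← sum_add_distrib]
    refine sum_congr rfl fun T _ => by ring
  rw [h5, h3]
  ring

end DUA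

end
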