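import Mathlib

/-!
# The grid gas and its Kirkwood - Salsburg bound (DUAL, B series, part 1)

`Z V G g` is the sum over the subsets `T` of the finite set `G` of `∏ g` times the product of `V` over the pairs
of `T`.  `rr V G κ T` is the correlation function of `T` (any finite set of reals).  If
`exp (ξ ∑ ‖κ s‖ (1 - V (a - s))) ≤ ρ ξ`, `ρ < 1`, then `Z V G κ ≠ 0` and `‖rr V G κ T‖ ≤ ξ ^ |T|`.
-/

set_option autoImplicit false

noncomputable section

open Finset

namespace DUA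

/-- the pair product over a finite set of reals -/
def pV (V : ℝ → ℝ) (T : Finset ℝ) : ℝ := ∏ i ∈ T, ∏ j ∈ T.filter (· < i), V (i - j)

/-- the product of the pair factors of `b` with the points of `S` -/
def VT (V : ℝ → ℝ) (S : Finset ℝ) (b : ℝ) : ℝ := ∏ s ∈ S, V (s - b)

@[simp] theorem pV_empty (V : ℝ → ℝ) : pV V ∅ = 1 := by simp [pV]

@[simp] theorem VT_empty (V : ℝ → ℝ) (b : ℝ) : VT V ∅ b = 1 := by simp [VT]

theorem VT_insert (V : ℝ → ℝ) {a : ℝ} {S : Finset ℝ} (ha : a ∉ S) (b : ℝ) :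
    VT V (insert a S) b = V (a - b) * VT V S b := by
  unfold VT; rw [prod_insert ha]

theorem pV_insert {V : ℝ → ℝ} (hV : ∀ x, V (-x) = V x) {a : ℝ} {T : Finset ℝ} (ha : a ∉ T) :
    pV V (insert a T) = VT V T a * pV V T := by
  unfold pV VT
  rw [prod_insert ha]
  have h1 : (insert a T).filter (· < a) = T.filter (· < a) := by
    rw [filter_insert, if_neg (lt_irrefl a)]
  have h2 : ∀ i ∈ T, (∏ j ∈ (insert a T).filter (· < i), V (i - j)) =
      (if a < i then V (i - a) else 1) * ∏ j ∈ T.filter (· < i), V (i - j) := by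
    intro i _
    rw [filter_insert]
    split_ifs with h
    · rw [prod_insert (by simp [ha])]
    · rw [one_mul]
  rw [h1, prod_congr rfl h2, prod_mul_distrib, ← mul_assoc]
  congr 1
  rw [← prod_filter]
  have h3 : ∏ j ∈ T.filter (· < a), V (a - j) = ∏ j ∈ T.filter (· < a), V (j - a) := by
    refine prod_congr rfl fun j _ => ?_
    rw [← hV (j - a), neg_sub]
  have h4 : T.filter (fun i => a < i) = T.filter (fun i => ¬ i < a) := by
    refine filter_congr fun i hi => ?_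
    have : i ≠ a := fun h => ha (h ▸ hi)
    constructor
    · exact fun h => not_lt.2 h.le
    · exact fun h => lt_of_le_of_ne (not_lt.1 h) (Ne.symm this)
  rw [h3, h4, prod_filter_mul_prod_filter_not]

/-- the partition function of the grid `G` -/
def Z (V : ℝ → ℝ) (G : Finset ℝ) (g : ℝ → ℂ) : ℂ :=
  ∑ T ∈ G.powerset, (∏ i ∈ T, g i) * (pV V T : ℂ)

@[simp] theorem Z_empty (V : ℝ → ℝ) (g : ℝ → ℂ) : Z V ∅ g = 1 := by simp [Z]

theorem Z_insert {V : ℝ → ℝ} (hV : ∀ x, V (-x) = V x) {a : ℝ} {G : Finset ℝ} (ha : a ∉ G) (g : ℝ → ℂ) :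
    Z V (insert a G) g = Z V G g + g a * Z V G (fun b => g b * (V (a - b) : ℂ)) := by
  unfold Z
  rw [sum_powerset_insert ha]
  congr 1
  rw [mul_sum]
  refine sum_congr rfl fun T hT => ?_
  have haT : a ∉ T := fun h => ha (mem_powerset.1 hT h)
  rw [prod_insert haT, pV_insert hV haT, prod_mul_distrib]
  have h5 : ((VT V T a : ℝ) : ℂ) = ∏ i ∈ T, (V (a - i) : ℂ) := by
    unfold VT
    rw [Complex.ofReal_prod]
    refine prod_congr rfl fun i _ => ?_
    rw [← hV (i - a), neg_sub]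
  rw [Complex.ofReal_mul, h5]
  ring

theorem Z_congr (V : ℝ → ℝ) {G : Finset ℝ} {g g' : ℝ → ℂ} (h : ∀ a ∈ G, g a = g' a) : Z V G g = Z V G g' := by
  unfold Z
  refine sum_congr rfl fun T hT => ?_
  rw [prod_congr rfl fun i hi => h i (mem_powerset.1 hT hi)]

/-- **expansion** -/
theorem Z_add {V : ℝ → ℝ} (hV : ∀ x, V (-x) = V x) (hV0 : V 0 = 0) (G : Finset ℝ) : ∀ g g' : ℝ → ℂ,
    Z V G (fun b => g b + g' b) =
      ∑ S ∈ G.powerset, (∏ i ∈ S, g' i) * (pV V S : ℂ) * Z V G (fun b => g b * (VT V S b : ℂ)) := by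
  classical
  induction G using Finset.induction_on with
  | empty => intro g g'; simp
  | insert a G ha ih =>
    intro g g'
    rw [Z_insert hV ha, sum_powerset_insert ha]
    have e1 : Z V G (fun b => (g b + g' b) * (V (a - b) : ℂ)) =
        Z V G (fun b => g b * (V (a - b) : ℂ) + g' b * (V (a - b) : ℂ)) := by
      refine Z_congr V fun b _ => by ring
    rw [e1, ih g g', ih (fun b => g b * (V (a - b) : ℂ)) (fun b => g' b * (V (a - b) : ℂ))]
    have e2 : ∀ S ∈ G.powerset, (∏ i ∈ S, g' i) * (pV V S : ℂ) * Z V (insert a G) (fun b => g b * (VT V S b : ℂ)) =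
        (∏ i ∈ S, g' i) * (pV V S : ℂ) * Z V G (fun b => g b * (VT V S b : ℂ)) +
          g a * ((∏ i ∈ S, (g' i * (V (a - i) : ℂ))) * (pV V S : ℂ) *
            Z V G (fun b => g b * (V (a - b) : ℂ) * (VT V S b : ℂ))) := by
      intro S _
      rw [Z_insert hV ha, prod_mul_distrib]
      have h5 : ((VT V S a : ℝ) : ℂ) = ∏ i ∈ S, (V (a - i) : ℂ) := by
        unfold VT
        rw [Complex.ofReal_prod]
        refine prod_congr rfl fun i _ => ?_
        rw [← hV (i - a), neg_sub]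
      rw [← h5]
      have e3 : Z V G (fun b => g b * (VT V S b : ℂ) * (V (a - b) : ℂ)) =
          Z V G (fun b => g b * (V (a - b) : ℂ) * (VT V S b : ℂ)) := Z_congr V fun b _ => by ring
      rw [e3]
      ring
    have e4 : ∀ S ∈ G.powerset, (∏ i ∈ insert a S, g' i) * (pV V (insert a S) : ℂ) *
          Z V (insert a G) (fun b => g b * (VT V (insert a S) b : ℂ)) =
        g' a * ((∏ i ∈ S, (g' i * (V (a - i) : ℂ))) * (pV V S : ℂ) *
            Z V G (fun b => g b * (V (a - b) : ℂ) * (VT V S b : ℂ))) := by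
      intro S hS
      have haS : a ∉ S := fun h => ha (mem_powerset.1 hS h)
      rw [Z_insert hV ha, prod_insert haS, pV_insert hV haS, prod_mul_distrib]
      have h5 : ((VT V S a : ℝ) : ℂ) = ∏ i ∈ S, (V (a - i) : ℂ) := by
        unfold VT
        rw [Complex.ofReal_prod]
        refine prod_congr rfl fun i _ => ?_
        rw [← hV (i - a), neg_sub]
      have h6 : (VT V (insert a S) a : ℝ) = 0 := by
        rw [VT_insert V haS, sub_self, hV0, zero_mul]
      have e3 : Z V G (fun b => g b * (VT V (insert a S) b : ℂ)) =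
          Z V G (fun b => g b * (V (a - b) : ℂ) * (VT V S b : ℂ)) := by
        refine Z_congr V fun b _ => ?_
        rw [VT_insert V haS, Complex.ofReal_mul]; ring
      rw [Complex.ofReal_mul, h5, h6, e3]
      simp only [Complex.ofReal_zero, mul_zero, zero_mul, add_zero]
      ring
    rw [sum_congr rfl e2, sum_congr rfl e4, sum_add_distrib, ← mul_sum, ← mul_sum]
    ring

/-- the correlation functions -/
def rr (V : ℝ → ℝ) (G : Finset ℝ) (κ : ℝ → ℂ) (T : Finset ℝ) : ℂ :=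
  (pV V T : ℂ) * Z V G (fun b => κ b * (VT V T b : ℂ)) / Z V G κ

theorem pV_disj {V : ℝ → ℝ} (hV : ∀ x, V (-x) = V x) {S T : Finset ℝ} (h : Disjoint S T) :
    pV V (S ∪ T) = pV V S * pV V T * ∏ s ∈ S, VT V T s := by
  classical
  induction S using Finset.induction_on with
  | empty => simp
  | insert a S ha ih =>
    rw [disjoint_insert_left] at h
    have haU : a ∉ S ∪ T := by
      rw [mem_union]; push Not; exact ⟨ha, h.1⟩
    rw [insert_union, pV_insert hV haU, ih h.2, pV_insert hV ha, prod_insert ha]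
    have e : VT V (S ∪ T) a = VT V S a * VT V T a := by
      unfold VT; rw [prod_union h.2]
    rw [e]; ring

theorem VT_disj (V : ℝ → ℝ) {S T : Finset ℝ} (h : Disjoint S T) (b : ℝ) :
    VT V (S ∪ T) b = VT V S b * VT V T b := by
  unfold VT; rw [prod_union h]

/-- the Kirkwood - Salsburg equation -/
theorem rr_insert {V : ℝ → ℝ} (hV : ∀ x, V (-x) = V x) (hV0 : V 0 = 0) (G : Finset ℝ) (κ : ℝ → ℂ)
    {a : ℝ} {T : Finset ℝ} (ha : a ∉ T) :
    rr V G κ (insert a T) = (VT V T a : ℂ) *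
      ∑ S ∈ G.powerset, if Disjoint S T then (∏ s ∈ S, κ s * ((V (a - s) : ℂ) - 1)) * rr V G κ (S ∪ T) else 0 := by
  classical
  have e1 : Z V G (fun b => κ b * (VT V (insert a T) b : ℂ)) =
      Z V G (fun b => κ b * (VT V T b : ℂ) + κ b * (VT V T b : ℂ) * ((V (a - b) : ℂ) - 1)) := by
    refine Z_congr V fun b _ => ?_
    rw [VT_insert V ha, Complex.ofReal_mul]; ring
  unfold rr
  rw [e1, Z_add hV hV0, pV_insert hV ha, Complex.ofReal_mul]
  rw [mul_assoc, mul_div_assoc]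
  congr 1
  rw [mul_sum, sum_div]
  refine sum_congr rfl fun S _ => ?_
  split_ifs with h
  · rw [pV_disj hV h]
    have e2 : Z V G (fun b => κ b * (VT V T b : ℂ) * (VT V S b : ℂ)) =
        Z V G (fun b => κ b * (VT V (S ∪ T) b : ℂ)) := by
      refine Z_congr V fun b _ => ?_
      rw [VT_disj V h, Complex.ofReal_mul]; ring
    rw [e2]
    have e3 : ∏ i ∈ S, κ i * (VT V T i : ℂ) * ((V (a - i) : ℂ) - 1) =
        (∏ s ∈ S, κ s * ((V (a - s) : ℂ) - 1)) * ((∏ s ∈ S, VT V T s : ℝ) : ℂ) := by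
      rw [Complex.ofReal_prod, ← prod_mul_distrib]
      refine prod_congr rfl fun i _ => by ring
    rw [e3]
    push_cast
    ring
  · rw [not_disjoint_iff] at h
    obtain ⟨s, hs, hsT⟩ := h
    have e4 : ∏ i ∈ S, κ i * (VT V T i : ℂ) * ((V (a - i) : ℂ) - 1) = 0 := by
      refine prod_eq_zero hs ?_
      have : VT V T s = 0 := by
        unfold VT
        exact prod_eq_zero hsT (by rw [sub_self, hV0])
      rw [this]; simp
    rw [e4]; simp

theorem VT_nonneg {V : ℝ → ℝ} (h0 : ∀ x, 0 ≤ V x) (S : Finset ℝ) (b : ℝ) : 0 ≤ VT V S b :=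
  prod_nonneg fun _ _ => h0 _

theorem VT_le {V : ℝ → ℝ} (h0 : ∀ x, 0 ≤ V x) (h1 : ∀ x, V x ≤ 1) (S : Finset ℝ) (b : ℝ) : VT V S b ≤ 1 :=
  prod_le_one (fun _ _ => h0 _) fun _ _ => h1 _

theorem pV_nonneg {V : ℝ → ℝ} (h0 : ∀ x, 0 ≤ V x) (S : Finset ℝ) : 0 ≤ pV V S :=
  prod_nonneg fun _ _ => prod_nonneg fun _ _ => h0 _

theorem pV_le {V : ℝ → ℝ} (h0 : ∀ x, 0 ≤ V x) (h1 : ∀ x, V x ≤ 1) (S : Finset ℝ) : pV V S ≤ 1 :=
  prod_le_one (fun _ _ => prod_nonneg fun _ _ => h0 _) fun _ _ => prod_le_one (fun _ _ => h0 _) fun _ _ => h1 _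

/-- the trivial bound -/
theorem Z_norm_le {V : ℝ → ℝ} (h0 : ∀ x, 0 ≤ V x) (h1 : ∀ x, V x ≤ 1) (G : Finset ℝ) {g : ℝ → ℂ} {m : ℝ → ℝ}
    (hg : ∀ a ∈ G, ‖g a‖ ≤ m a) : ‖Z V G g‖ ≤ ∏ a ∈ G, (1 + m a) := by
  classical
  unfold Z
  refine (norm_sum_le _ _).trans ?_
  rw [prod_one_add]
  refine sum_le_sum fun T hT => ?_
  rw [norm_mul, norm_prod, Complex.norm_real, Real.norm_of_nonneg (pV_nonneg h0 T)]
  calc (∏ i ∈ T, ‖g i‖) * pV V T ≤ (∏ i ∈ T, ‖g i‖) * 1 :=
        mul_le_mul_of_nonneg_left (pV_le h0 h1 T) (prod_nonneg fun _ _ => norm_nonneg _)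
    _ ≤ ∏ i ∈ T, m i := by
        rw [mul_one]
        exact prod_le_prod (fun _ _ => norm_nonneg _) fun i hi => hg i (mem_powerset.1 hT hi)

/-- one step of the iteration -/
theorem ks_step {V : ℝ → ℝ} (hV : ∀ x, V (-x) = V x) (hV0 : V 0 = 0) (h0 : ∀ x, 0 ≤ V x) (h1 : ∀ x, V x ≤ 1)
    {G : Finset ℝ} {κ : ℝ → ℂ} {ξ ρ M : ℝ} (hξ : 1 ≤ ξ) (hM : 0 ≤ M)
    (hks : ∀ a, Real.exp (ξ * ∑ s ∈ G, ‖κ s‖ * (1 - V (a - s))) ≤ ρ * ξ)
    (hr : ∀ T, ‖rr V G κ T‖ ≤ M * ξ ^ T.card) (a : ℝ) (T : Finset ℝ) (ha : a ∉ T) :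
    ‖rr V G κ (insert a T)‖ ≤ ρ * M * ξ ^ (insert a T).card := by
  classical
  have hξ0 : 0 < ξ := by linarith
  rw [rr_insert hV hV0 G κ ha, norm_mul, Complex.norm_real, Real.norm_of_nonneg (VT_nonneg h0 T a)]
  have b1 : ‖∑ S ∈ G.powerset, if Disjoint S T then (∏ s ∈ S, κ s * ((V (a - s) : ℂ) - 1)) * rr V G κ (S ∪ T)
      else 0‖ ≤ ∑ S ∈ G.powerset, (∏ s ∈ S, ξ * (‖κ s‖ * (1 - V (a - s)))) * (M * ξ ^ T.card) := by
    refine (norm_sum_le _ _).trans (sum_le_sum fun S _ => ?_)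
    have hp : 0 ≤ ∏ s ∈ S, ξ * (‖κ s‖ * (1 - V (a - s))) :=
      prod_nonneg fun s _ => mul_nonneg hξ0.le (mul_nonneg (norm_nonneg _) (by linarith [h1 (a - s)]))
    split_ifs with h
    · rw [norm_mul, norm_prod]
      have e1 : ∏ s ∈ S, ‖κ s * ((V (a - s) : ℂ) - 1)‖ = ∏ s ∈ S, ‖κ s‖ * (1 - V (a - s)) := by
        refine prod_congr rfl fun s _ => ?_
        rw [norm_mul]
        congr 1
        rw [← Complex.ofReal_one, ← Complex.ofReal_sub, Complex.norm_real, Real.norm_of_nonpos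
          (by linarith [h1 (a - s)])]
        ring
      have e2 : ∏ s ∈ S, ξ * (‖κ s‖ * (1 - V (a - s))) = ξ ^ S.card * ∏ s ∈ S, ‖κ s‖ * (1 - V (a - s)) := by
        rw [prod_mul_distrib, prod_const]
      rw [e1, e2]
      have h3 := hr (S ∪ T)
      rw [card_union_of_disjoint h, pow_add] at h3
      have hq : 0 ≤ ∏ s ∈ S, ‖κ s‖ * (1 - V (a - s)) :=
        prod_nonneg fun s _ => mul_nonneg (norm_nonneg _) (by linarith [h1 (a - s)])
      calc (∏ s ∈ S, ‖κ s‖ * (1 - V (a - s))) * ‖rr V G κ (S ∪ T)‖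
          ≤ (∏ s ∈ S, ‖κ s‖ * (1 - V (a - s))) * (M * (ξ ^ S.card * ξ ^ T.card)) :=
            mul_le_mul_of_nonneg_left h3 hq
        _ = _ := by ring
    · rw [norm_zero]
      exact mul_nonneg hp (mul_nonneg hM (pow_nonneg hξ0.le _))
  have b2 : ∑ S ∈ G.powerset, (∏ s ∈ S, ξ * (‖κ s‖ * (1 - V (a - s)))) * (M * ξ ^ T.card) ≤
      ρ * ξ * (M * ξ ^ T.card) := by
    rw [← sum_mul]
    refine mul_le_mul_of_nonneg_right ?_ (mul_nonneg hM (pow_nonneg hξ0.le _))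
    rw [← prod_one_add]
    refine le_trans ?_ (hks a)
    rw [mul_sum, Real.exp_sum]
    refine prod_le_prod (fun s _ => ?_) fun s _ => ?_
    · have := mul_nonneg hξ0.le (mul_nonneg (norm_nonneg (κ s)) (by linarith [h1 (a - s)] : 0 ≤ 1 - V (a - s)))
      linarith
    · have := Real.add_one_le_exp (ξ * (‖κ s‖ * (1 - V (a - s))))
      linarith
  rw [card_insert_of_notMem ha, pow_succ]
  have hS0 : 0 ≤ ρ * ξ * (M * ξ ^ T.card) := le_trans (le_trans (norm_nonneg _) b1) b2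
  calc VT V T a * ‖∑ S ∈ G.powerset, if Disjoint S T then (∏ s ∈ S, κ s * ((V (a - s) : ℂ) - 1)) *
        rr V G κ (S ∪ T) else 0‖ ≤ 1 * (ρ * ξ * (M * ξ ^ T.card)) :=
        mul_le_mul (VT_le h0 h1 T a) (b1.trans b2) (norm_nonneg _) zero_le_one
    _ = _ := by ring

/-- **the Kirkwood - Salsburg bound** when the partition function does not vanish -/
theorem ks_bound {V : ℝ → ℝ} (hV : ∀ x, V (-x) = V x) (hV0 : V 0 = 0) (h0 : ∀ x, 0 ≤ V x) (h1 : ∀ x, V x ≤ 1)
    {G : Finset ℝ} {κ : ℝ → ℂ} {ξ ρ : ℝ} (hξ : 1 ≤ ξ) (hρ0 : 0 ≤ ρ) (hρ : ρ < 1)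
    (hks : ∀ a, Real.exp (ξ * ∑ s ∈ G, ‖κ s‖ * (1 - V (a - s))) ≤ ρ * ξ)
    (hZ : Z V G κ ≠ 0) (T : Finset ℝ) : ‖rr V G κ T‖ ≤ ξ ^ T.card := by
  classical
  have hξ0 : 0 < ξ := by linarith
  set M0 : ℝ := 1 + (∏ a ∈ G, (1 + ‖κ a‖)) / ‖Z V G κ‖ with hM0
  have hZ0 : 0 < ‖Z V G κ‖ := norm_pos_iff.2 hZ
  have hP : 0 ≤ ∏ a ∈ G, (1 + ‖κ a‖) := prod_nonneg fun _ _ => by positivity
  have hM0' : 0 ≤ M0 := by positivity
  have key : ∀ n : ℕ, ∀ T, ‖rr V G κ T‖ ≤ max 1 (ρ ^ n * M0) * ξ ^ T.card := by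
    intro n
    induction n with
    | zero =>
      intro T
      have hb : ‖rr V G κ T‖ ≤ M0 := by
        unfold rr
        rw [norm_div, norm_mul, Complex.norm_real, Real.norm_of_nonneg (pV_nonneg h0 T)]
        have hz : ‖Z V G (fun b => κ b * (VT V T b : ℂ))‖ ≤ ∏ a ∈ G, (1 + ‖κ a‖) := by
          refine Z_norm_le h0 h1 G fun a _ => ?_
          rw [norm_mul, Complex.norm_real, Real.norm_of_nonneg (VT_nonneg h0 T a)]
          exact mul_le_of_le_one_right (norm_nonneg _) (VT_le h0 h1 T a)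
        have : pV V T * ‖Z V G (fun b => κ b * (VT V T b : ℂ))‖ ≤ 1 * ∏ a ∈ G, (1 + ‖κ a‖) :=
          mul_le_mul (pV_le h0 h1 T) hz (norm_nonneg _) zero_le_one
        rw [hM0]
        have h2 : pV V T * ‖Z V G (fun b => κ b * (VT V T b : ℂ))‖ / ‖Z V G κ‖ ≤
            (∏ a ∈ G, (1 + ‖κ a‖)) / ‖Z V G κ‖ := by
          refine div_le_div_of_nonneg_right ?_ hZ0.le
          linarith
        linarith
      have hx : 1 ≤ ξ ^ T.card := one_le_pow₀ hξ
      calc ‖rr V G κ T‖ ≤ M0 * 1 := by linarith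
        _ ≤ max 1 (ρ ^ 0 * M0) * ξ ^ T.card := by
            refine mul_le_mul ?_ hx zero_le_one (le_trans zero_le_one (le_max_left _ _))
            rw [pow_zero, one_mul]; exact le_max_right _ _
    | succ n ih =>
      intro T
      rcases T.eq_empty_or_nonempty with rfl | ⟨a, haT⟩
      · have : rr V G κ ∅ = 1 := by
          unfold rr
          simp only [pV_empty, VT_empty, Complex.ofReal_one, mul_one, one_mul]
          exact div_self hZ
        rw [this, norm_one, card_empty, pow_zero, mul_one]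
        exact le_max_left _ _
      · obtain ⟨T', haT', rfl⟩ : ∃ T', a ∉ T' ∧ T = insert a T' :=
          ⟨T.erase a, notMem_erase a T, (insert_erase haT).symm⟩
        have h := ks_step hV hV0 h0 h1 hξ (le_trans zero_le_one (le_max_left _ _)) hks ih a T' haT'
        refine h.trans ?_
        refine mul_le_mul_of_nonneg_right ?_ (pow_nonneg hξ0.le _)
        rw [mul_max_of_nonneg _ _ hρ0]
        refine max_le_max (by linarith) ?_
        rw [pow_succ]
        exact le_of_eq (by ring)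
  obtain ⟨n, hn⟩ : ∃ n : ℕ, ρ ^ n * M0 ≤ 1 := by
    have ht : Filter.Tendsto (fun n : ℕ => ρ ^ n * M0) Filter.atTop (nhds (0 * M0)) :=
      (tendsto_pow_atTop_nhds_zero_of_lt_one hρ0 hρ).mul_const M0
    rw [zero_mul] at ht
    exact ((ht.eventually (gt_mem_nhds one_pos)).exists).imp fun n hn => le_of_lt hn
  have h := key n T
  rw [max_eq_left hn, one_mul] at h
  exact h

/-- the partition function does not vanish -/
theorem Z_ne {V : ℝ → ℝ} (hV : ∀ x, V (-x) = V x) (hV0 : V 0 = 0) (h0 : ∀ x, 0 ≤ V x) (h1 : ∀ x, V x ≤ 1)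
    {κ : ℝ → ℂ} {ξ ρ : ℝ} (hξ : 1 ≤ ξ) (hρ0 : 0 ≤ ρ) (hρ : ρ < 1) (G : Finset ℝ)
    (hks : ∀ a, Real.exp (ξ * ∑ s ∈ G, ‖κ s‖ * (1 - V (a - s))) ≤ ρ * ξ)
    (hκ : ∀ a ∈ G, ‖κ a‖ * ξ < 1) : Z V G κ ≠ 0 := by
  classical
  induction G using Finset.induction_on with
  | empty => simp
  | insert a G ha ih =>
    have hks' : ∀ b, Real.exp (ξ * ∑ s ∈ G, ‖κ s‖ * (1 - V (b - s))) ≤ ρ * ξ := by
      intro b
      refine le_trans (Real.exp_le_exp.2 ?_) (hks b)
      refine mul_le_mul_of_nonneg_left ?_ (by linarith)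
      rw [sum_insert ha]
      have := mul_nonneg (norm_nonneg (κ a)) (by linarith [h1 (b - a)] : 0 ≤ 1 - V (b - a))
      linarith
    have hZ := ih hks' fun b hb => hκ b (mem_insert_of_mem hb)
    rw [Z_insert hV ha]
    have hb := ks_bound hV hV0 h0 h1 hξ hρ0 hρ hks' hZ {a}
    have e1 : rr V G κ {a} = Z V G (fun b => κ b * (V (a - b) : ℂ)) / Z V G κ := by
      unfold rr
      have p1 : pV V {a} = 1 := by
        have := pV_insert hV (notMem_empty a)
        rw [VT_empty, pV_empty, mul_one] at this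
        simpa using this
      have p2 : ∀ b, VT V {a} b = V (a - b) := by
        intro b; unfold VT; rw [prod_singleton]
      rw [p1, Complex.ofReal_one, one_mul]
      simp only [p2]
    rw [e1, card_singleton, pow_one, norm_div] at hb
    have hZ0 : 0 < ‖Z V G κ‖ := norm_pos_iff.2 hZ
    have h2 : ‖Z V G (fun b => κ b * (V (a - b) : ℂ))‖ ≤ ξ * ‖Z V G κ‖ := by
      rwa [div_le_iff₀ hZ0] at hb
    intro h3
    have h4 : Z V G κ = -(κ a * Z V G (fun b => κ b * (V (a - b) : ℂ))) := by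
      linear_combination h3
    have h5 : ‖Z V G κ‖ ≤ ‖κ a‖ * (ξ * ‖Z V G κ‖) := by
      calc ‖Z V G κ‖ = ‖κ a‖ * ‖Z V G (fun b => κ b * (V (a - b) : ℂ))‖ := by
            conv_lhs => rw [h4]
            rw [norm_neg, norm_mul]
        _ ≤ _ := mul_le_mul_of_nonneg_left h2 (norm_nonneg _)
    have h6 := hκ a (mem_insert_self a G)
    have h7 : ‖κ a‖ * (ξ * ‖Z V G κ‖) < 1 * ‖Z V G κ‖ := by
      rw [← mul_assoc]
      exact mul_lt_mul_of_pos_right h6 hZ0
    linarith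

/-- the partition function in terms of the correlation functions of a reference activity -/
theorem Z_ratio {V : ℝ → ℝ} (hV : ∀ x, V (-x) = V x) (hV0 : V 0 = 0) (G : Finset ℝ) (κ h : ℝ → ℂ) :
    Z V G (fun b => κ b * (1 + h b)) / Z V G κ =
      ∑ S ∈ G.powerset, (∏ i ∈ S, κ i * h i) * rr V G κ S := by
  have e1 : Z V G (fun b => κ b * (1 + h b)) = Z V G (fun b => κ b + κ b * h b) :=
    Z_congr V fun b _ => by ring
  rw [e1, Z_add hV hV0, sum_div]
  refine sum_congr rfl fun S _ => ?_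
  unfold rr
  ring

/-- every activity is bounded by the `L¹` distance to the reference -/
theorem Z_ratio_le {V : ℝ → ℝ} (hV : ∀ x, V (-x) = V x) (hV0 : V 0 = 0) (G : Finset ℝ) {κ h : ℝ → ℂ} {ξ : ℝ}
    (hξ : 0 ≤ ξ) (hr : ∀ T, ‖rr V G κ T‖ ≤ ξ ^ T.card) :
    ‖Z V G (fun b => κ b * (1 + h b)) / Z V G κ‖ ≤ Real.exp (ξ * ∑ s ∈ G, ‖κ s‖ * ‖h s‖) := by
  classical
  rw [Z_ratio hV hV0]
  refine (norm_sum_le _ _).trans ?_
  have b1 : ∀ S ∈ G.powerset, ‖(∏ i ∈ S, κ i * h i) * rr V G κ S‖ ≤ ∏ i ∈ S, ξ * (‖κ i‖ * ‖h i‖) := by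
    intro S _
    rw [norm_mul, norm_prod, prod_mul_distrib (f := fun _ => ξ), prod_const]
    have e : ∏ i ∈ S, ‖κ i * h i‖ = ∏ i ∈ S, ‖κ i‖ * ‖h i‖ := prod_congr rfl fun i _ => norm_mul _ _
    rw [e, mul_comm]
    exact mul_le_mul_of_nonneg_right (hr S) (prod_nonneg fun _ _ => by positivity)
  refine (sum_le_sum b1).trans ?_
  rw [← prod_one_add, mul_sum, Real.exp_sum]
  refine prod_le_prod (fun s _ => by positivity) fun s _ => ?_
  have := Real.add_one_le_exp (ξ * (‖κ s‖ * ‖h s‖))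
  linarith

end DUA
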