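import Pool.Agent.DUA.Grid
import Pool.Agent.DUA.Ki
import Pool.Agent.DUA.Ker

/-!
# The Kirkwood - Salsburg condition on the grids `Gd n`, `n ≥ 20`: `ξ = 7 / 2`
-/

set_option autoImplicit false

noncomputable section

open Finset MeasureTheory Set

namespace DUA

theorem V_form (s : ℝ) : V s = (Real.cosh s - 1) * (2 * Real.cosh s - 1) /
    ((Real.cosh s + 1) * (2 * Real.cosh s + 1)) := by
  unfold V
  have e1 : Real.cosh s = 2 * Real.cosh (s / 2) ^ 2 - 1 := by
    have := Real.cosh_two_mul (s / 2)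
    rw [show 2 * (s / 2) = s by ring] at this
    have h2 := Real.cosh_sq (s / 2)
    rw [this]; linarith
  have h2 := Real.cosh_sq (s / 2)
  have e2 : Real.tanh (s / 2) ^ 2 = (Real.cosh s - 1) / (Real.cosh s + 1) := by
    rw [Real.tanh_eq_sinh_div_cosh, div_pow]
    have hc : Real.cosh (s / 2) ≠ 0 := (Real.cosh_pos _).ne'
    have hs : Real.sinh (s / 2) ^ 2 = Real.cosh (s / 2) ^ 2 - 1 := by linarith
    rw [hs, e1]
    field_simp
    ring
  rw [e2, div_mul_div_comm]

theorem one_sub_V (s : ℝ) : 1 - V s = 6 * Real.cosh s / ((Real.cosh s + 1) * (2 * Real.cosh s + 1)) := by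
  rw [V_form]
  have := Real.one_le_cosh s
  have h1 : Real.cosh s + 1 ≠ 0 := by linarith
  have h2 : 2 * Real.cosh s + 1 ≠ 0 := by linarith
  field_simp
  ring

theorem one_sub_V_le (s : ℝ) : 1 - V s ≤ 3 * (1 / (Real.cosh s + 1)) := by
  rw [one_sub_V]
  have := Real.one_le_cosh s
  have h1 : 0 < Real.cosh s + 1 := by linarith
  have h2 : 0 < 2 * Real.cosh s + 1 := by linarith
  rw [mul_one_div, div_le_div_iff₀ (mul_pos h1 h2) h1]
  nlinarith

theorem cosh_shift (u v : ℝ) : Real.cosh u + 1 ≤ Real.exp |u - v| * (Real.cosh v + 1) := by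
  have h1 : Real.cosh u ≤ Real.exp |u - v| * Real.cosh v := by
    rw [Real.cosh_eq, Real.cosh_eq]
    have a1 : Real.exp u ≤ Real.exp |u - v| * Real.exp v := by
      rw [← Real.exp_add]; exact Real.exp_le_exp.2 (by linarith [le_abs_self (u - v)])
    have a2 : Real.exp (-u) ≤ Real.exp |u - v| * Real.exp (-v) := by
      rw [← Real.exp_add]; exact Real.exp_le_exp.2 (by linarith [neg_abs_le (u - v)])
    linarith
  have h2 : 1 ≤ Real.exp |u - v| := Real.one_le_exp (abs_nonneg _)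
  linarith

/-- `1 / (cosh (a - x) + 1)` -/
def ch (a x : ℝ) : ℝ := 1 / (Real.cosh (a - x) + 1)

theorem ch_pos (a x : ℝ) : 0 < ch a x := by
  unfold ch
  have := Real.one_le_cosh (a - x)
  exact one_div_pos.2 (by linarith)

theorem ch_shift (a x y : ℝ) : ch a x ≤ Real.exp |x - y| * ch a y := by
  unfold ch
  have h1 := Real.one_le_cosh (a - x)
  have h2 := Real.one_le_cosh (a - y)
  have h := cosh_shift (a - y) (a - x)
  rw [show a - y - (a - x) = x - y by ring] at h
  rw [mul_one_div, div_le_div_iff₀ (by linarith) (by linarith)]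
  linarith

theorem ch_le (a x : ℝ) : ch a x ≤ 2 * ew a x := by
  unfold ch ew
  have h1 := Real.one_le_cosh (a - x)
  rw [div_le_iff₀ (by linarith)]
  have h2 : Real.exp |a - x| ≤ 2 * Real.cosh (a - x) := by
    rw [← Real.cosh_abs, Real.cosh_eq]
    have := Real.exp_pos (-|a - x|)
    linarith
  have h3 : Real.exp (-|a - x|) * Real.exp |a - x| = 1 := by rw [← Real.exp_add]; simp
  have h4 := Real.exp_pos (-|a - x|)
  nlinarith

theorem continuous_ch (a : ℝ) : Continuous (ch a) := by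
  unfold ch
  refine continuous_const.div ?_ fun x => ?_
  · exact (Real.continuous_cosh.comp (continuous_const.sub continuous_id)).add continuous_const
  · have := Real.one_le_cosh (a - x); linarith

theorem integrable_ch (a : ℝ) : Integrable (ch a) := by
  refine ((integrable_ew a).const_mul 2).mono' (continuous_ch a).aestronglyMeasurable
    (Filter.Eventually.of_forall fun x => ?_)
  rw [Real.norm_of_nonneg (ch_pos a x).le]
  exact ch_le a x

theorem integral_ch (a : ℝ) : ∫ x, ch a x = 2 := by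
  have h0 : ∫ x, ch a x = ∫ x, ch 0 x := by
    have := integral_sub_left_eq_self (fun x : ℝ => ch 0 x) volume a
    rw [← this]
    congr 1
    funext x
    unfold ch
    rw [zero_sub, Real.cosh_neg]
  rw [h0]
  have hd : ∀ x : ℝ, HasDerivAt (fun x : ℝ => -2 / (Real.exp x + 1)) (ch 0 x) x := by
    intro x
    have hp : Real.exp x + 1 ≠ 0 := by have := Real.exp_pos x; linarith
    have h1 := (HasDerivAt.div (hasDerivAt_const x (-2 : ℝ)) ((Real.hasDerivAt_exp x).add_const 1) hp)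
    refine h1.congr_deriv ?_
    unfold ch
    rw [zero_sub, Real.cosh_neg, Real.cosh_eq, Real.exp_neg]
    have := Real.exp_pos x
    field_simp
    ring
  have ht : Filter.Tendsto (fun x : ℝ => -2 / (Real.exp x + 1)) Filter.atTop (nhds 0) := by
    refine Filter.Tendsto.div_atTop tendsto_const_nhds ?_
    exact Filter.tendsto_atTop_add_const_right _ _ Real.tendsto_exp_atTop
  have hb : Filter.Tendsto (fun x : ℝ => -2 / (Real.exp x + 1)) Filter.atBot (nhds (-2)) := by
    have : Filter.Tendsto (fun x : ℝ => -2 / (Real.exp x + 1)) Filter.atBot (nhds (-2 / (0 + 1))) :=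
      tendsto_const_nhds.div (Real.tendsto_exp_atBot.add_const 1) (by norm_num)
    simpa using this
  have := integral_of_hasDerivAt_of_tendsto hd (integrable_ch 0) hb ht
  rw [this]; norm_num

theorem exp_inv_le {n : ℕ} (hn : 20 ≤ n) : Real.exp (1 / n) ≤ 1.06 := by
  have hn' : (20 : ℝ) ≤ n := by exact_mod_cast hn
  have h1 : Real.exp (1 / n) ≤ Real.exp (1 / 20) := by
    refine Real.exp_le_exp.2 ?_
    exact one_div_le_one_div_of_le (by norm_num) hn'
  refine h1.trans ?_
  by_contra hcon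
  push Not at hcon
  have h2 : (1.06 : ℝ) ^ 20 < Real.exp (1 / 20) ^ 20 := pow_lt_pow_left₀ hcon (by norm_num) (by norm_num)
  rw [← Real.exp_nat_mul] at h2
  have h3 := Real.exp_one_lt_d9
  norm_num at h2
  norm_num at h3
  linarith

theorem z0_pos : 0 < z0 := by unfold z0; have := Real.pi_pos; positivity

theorem z0_le : z0 ≤ 0.047 := by
  unfold z0
  have h1 := Real.pi_gt_d2
  have h2 : (1.73 : ℝ) ≤ Real.sqrt 3 := Real.le_sqrt_of_sq_le (by norm_num)
  rw [div_le_iff₀ (by have := Real.pi_pos; positivity)]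
  have h3 : (1.73 : ℝ) * 3.14 ≤ Real.sqrt 3 * Real.pi :=
    mul_le_mul h2 h1.le (by norm_num) (Real.sqrt_nonneg _)
  nlinarith

/-- the activity on the grid `n` -/
def kap (n : ℕ) : ℂ := ((-(z0 * (1 / n)) : ℝ) : ℂ)

theorem norm_kap (n : ℕ) : ‖kap n‖ = z0 * (1 / n) := by
  unfold kap
  rw [Complex.norm_real, norm_neg, Real.norm_of_nonneg]
  have := z0_pos
  positivity

theorem ks_cond {n : ℕ} (hn : 20 ≤ n) (a : ℝ) :
    Real.exp (7 / 2 * ∑ s ∈ Gd n, ‖kap n‖ * (1 - V (a - s))) ≤ 9 / 10 * (7 / 2) := by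
  have hn0 : 0 < n := by omega
  have h1 : ∑ s ∈ Gd n, ‖kap n‖ * (1 - V (a - s)) ≤ z0 * (3 * (1.06 * 2)) := by
    have h2 := gsum_le hn0 (integrable_ch a) (fun x => (ch_pos a x).le) (c := 1.06) (by norm_num)
      (fun x y h => (ch_shift a x y).trans (mul_le_mul_of_nonneg_right
        ((Real.exp_le_exp.2 h).trans (exp_inv_le hn)) (ch_pos a y).le))
    rw [integral_ch] at h2
    have h3 : ∀ s ∈ Gd n, ‖kap n‖ * (1 - V (a - s)) ≤ z0 * (3 * (1 / (n : ℝ) * ch a s)) := by
      intro s _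
      rw [norm_kap]
      have := one_sub_V_le (a - s)
      have h4 : 0 ≤ z0 * (1 / (n : ℝ)) := by have := z0_pos; positivity
      calc z0 * (1 / (n : ℝ)) * (1 - V (a - s)) ≤ z0 * (1 / (n : ℝ)) * (3 * ch a s) :=
            mul_le_mul_of_nonneg_left this h4
        _ = _ := by ring
    refine (Finset.sum_le_sum h3).trans ?_
    rw [← Finset.mul_sum, ← Finset.mul_sum]
    exact mul_le_mul_of_nonneg_left (mul_le_mul_of_nonneg_left h2 (by norm_num)) z0_pos.le
  have h5 : 7 / 2 * ∑ s ∈ Gd n, ‖kap n‖ * (1 - V (a - s)) ≤ 1 + 0.1 := by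
    have := z0_le
    linarith
  refine (Real.exp_le_exp.2 h5).trans ?_
  rw [Real.exp_add]
  have h6 := Real.exp_one_lt_d9
  have h7 : Real.exp 0.1 ≤ 10 / 9 := by
    have h8 := Real.add_one_le_exp (-0.1 : ℝ)
    have h9 : Real.exp (-0.1) * Real.exp 0.1 = 1 := by rw [← Real.exp_add]; norm_num
    have h10 := Real.exp_pos (0.1 : ℝ)
    nlinarith
  have h11 := Real.exp_pos (1 : ℝ)
  calc Real.exp 1 * Real.exp 0.1 ≤ Real.exp 1 * (10 / 9) := mul_le_mul_of_nonneg_left h7 h11.le
    _ ≤ _ := by linarith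

theorem Zne {n : ℕ} (hn : 20 ≤ n) : Z V (Gd n) (fun _ => kap n) ≠ 0 := by
  refine Z_ne V_even V_zero V_nonneg V_le_one (ξ := 7 / 2) (ρ := 9 / 10) (by norm_num) (by norm_num)
    (by norm_num) (Gd n) (ks_cond hn) fun a _ => ?_
  rw [norm_kap]
  have hn' : (20 : ℝ) ≤ n := by exact_mod_cast hn
  have h1 : 1 / (n : ℝ) ≤ 1 := by rw [div_le_one (by linarith)]; linarith
  have h2 := z0_le
  have h3 := z0_pos
  have h4 : z0 * (1 / (n : ℝ)) ≤ z0 * 1 := mul_le_mul_of_nonneg_left h1 h3.le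
  linarith

theorem rr_le {n : ℕ} (hn : 20 ≤ n) (T : Finset ℝ) : ‖rr V (Gd n) (fun _ => kap n) T‖ ≤ (7 / 2) ^ T.card :=
  ks_bound V_even V_zero V_nonneg V_le_one (by norm_num) (by norm_num) (by norm_num) (ks_cond hn) (Zne hn) T

/-- the ratio is bounded by the grid `L¹` norm of the field -/
theorem ratio_le {n : ℕ} (hn : 20 ≤ n) (Λ : ℝ → ℂ) :
    ‖Z V (Gd n) (fun s => kap n * Λ s) / Z V (Gd n) (fun _ => kap n)‖ ≤
      Real.exp (7 / 2 * z0 * ∑ s ∈ Gd n, 1 / (n : ℝ) * ‖Λ s - 1‖) := by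
  have h := Z_ratio_le (V := V) V_even V_zero (Gd n) (κ := fun _ => kap n) (h := fun s => Λ s - 1)
    (ξ := 7 / 2) (by norm_num) (rr_le hn)
  have e : (fun b : ℝ => kap n * (1 + (Λ b - 1))) = fun s => kap n * Λ s := by
    funext b; ring
  rw [e] at h
  refine h.trans (Real.exp_le_exp.2 (le_of_eq ?_))
  rw [norm_kap, Finset.mul_sum, Finset.mul_sum]
  refine Finset.sum_congr rfl fun s _ => by ring

end DUA

end
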