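import Pool.Agent.DUA.KsG

/-!
# Uniform bounds for the normalised grid averages and the contraction
-/

set_option autoImplicit false

noncomputable section

open Finset MeasureTheory

namespace DUA

/-- the field factor at two half distances -/
def H2 (x : ℂ) (f : ℂ → ℂ) (θ : ℝ) : ℂ :=
  t' (x - ((θ : ℂ) + a6)) * f ((θ : ℂ) - a6) - t' (x - ((θ : ℂ) - a6)) * f ((θ : ℂ) + a6)

/-- facts about the kernels used by the limit -/
structure KerH : Prop where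
  dt : ∀ z : ℂ, |z.im| < Real.pi → HasDerivAt t (t' z) z
  dt' : ∀ z : ℂ, |z.im| < Real.pi → DifferentiableAt ℂ t' z
  bt : ∀ h : ℝ, h < Real.pi → ∃ C : ℝ, 0 ≤ C ∧ ∀ z : ℂ, |z.im| ≤ h → ‖t z‖ ≤ C
  bt' : ∀ h : ℝ, h < Real.pi → ∃ C : ℝ, 0 ≤ C ∧ ∀ z : ℂ, |z.im| ≤ h → ‖t' z‖ ≤ C * Real.exp (-|z.re|)
  bt'' : ∀ h : ℝ, h < Real.pi → ∃ C : ℝ, 0 ≤ C ∧ ∀ z : ℂ, |z.im| ≤ h → ‖deriv t' z‖ ≤ C * Real.exp (-|z.re|)
  tau1 : ∀ z : ℂ, |z.im| ≤ Real.pi / 2 → ‖tau z‖ ≤ 1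
  ctau : ∃ C : ℝ, 0 ≤ C ∧ ∀ z : ℂ, |z.im| ≤ Real.pi / 2 → ‖tau z - 1‖ ≤ C * Real.exp (-|z.re|)
  dp : ∀ z : ℂ, |z.im| < Real.pi → DifferentiableAt ℂ p z
  bp : ∀ h : ℝ, h < Real.pi → ∃ C : ℝ, 0 ≤ C ∧ ∀ z : ℂ, |z.im| ≤ h → ‖p z‖ ≤ C
  bp' : ∀ h : ℝ, h < Real.pi → ∃ C : ℝ, 0 ≤ C ∧ ∀ z : ℂ, |z.im| ≤ h → ‖deriv p z‖ ≤ C
  i3 : ∀ u x : ℂ, St u → St x → deriv p (x - u) = t' (x - u) +
    (Complex.I / (4 * Real.pi)) * ∫ θ : ℝ, H2 x (fun z => p (z - u)) θ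
  i4 : ∀ (f : ℂ → ℂ) (h B : ℝ), Real.pi / 6 < h → h < Real.pi / 2 →
    (∀ z, St z → DifferentiableAt ℂ f z) → (∀ z : ℂ, |z.im| ≤ h → ‖f z‖ ≤ B) → ∀ x : ℂ, St x →
    (Complex.I / (4 * Real.pi)) * ∫ θ : ℝ, H2 x f θ = ∫ θ : ℝ, Q (x - θ) * deriv f (θ : ℂ)
  bQ : ∃ C : ℝ, 0 ≤ C ∧ ∀ z : ℂ, |z.im| ≤ Real.pi / 2 → ‖Q z‖ ≤ C * Real.exp (-|z.re|)
  cQ : ∀ x : ℝ, ‖Q x‖ ≤ Real.sqrt 3 / (2 * Real.pi) * Real.exp (-|x|)

theorem norm_tp_le {C : ℝ} (hC : 0 ≤ C) (x : ℂ) (J : List ℂ) (h : ∀ v ∈ J, ‖t (x - v)‖ ≤ C) :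
    ‖tp x J‖ ≤ C ^ J.length := by
  induction J with
  | nil => simp [tp_nil]
  | cons v J ih =>
    rw [tp_cons, norm_mul, List.length_cons, pow_succ']
    exact mul_le_mul (h v List.mem_cons_self) (ih fun w hw => h w (List.mem_cons_of_mem _ hw)) (norm_nonneg _) hC

theorem norm_Dl_le {C h : ℝ} (hC : 1 ≤ C) (hb : ∀ z : ℂ, |z.im| ≤ 2 * h → ‖t z‖ ≤ C) (m : ℕ) (J : List ℂ)
    (hm : J.length ≤ m) (hJ : ∀ v ∈ J, |v.im| ≤ h) : ‖Dl J‖ ≤ C ^ (m * m) := by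
  have key : ∀ J : List ℂ, J.length ≤ m → (∀ v ∈ J, |v.im| ≤ h) → ‖Dl J‖ ≤ C ^ (m * J.length) := by
    intro J
    induction J with
    | nil => intro _ _; simp [Dl_nil]
    | cons x J ih =>
      intro hm hJ
      rw [Dl_cons, norm_mul, List.length_cons, mul_add, mul_one, pow_add, mul_comm]
      rw [List.length_cons] at hm
      refine mul_le_mul (ih (by omega) fun v hv => hJ v (List.mem_cons_of_mem _ hv)) ?_ (norm_nonneg _)
        (by positivity)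
      refine (norm_tp_le (by linarith) x J fun v hv => hb _ ?_).trans (pow_le_pow_right₀ hC (by omega))
      rw [Complex.sub_im]
      have h1 := hJ x List.mem_cons_self
      have h2 := hJ v (List.mem_cons_of_mem _ hv)
      exact (abs_sub _ _).trans (by linarith)
  exact (key J hm hJ).trans (pow_le_pow_right₀ hC (Nat.mul_le_mul_left m hm))

theorem norm_Lam_sub (hK : KerH) {C : ℝ} (hC : ∀ z : ℂ, |z.im| ≤ Real.pi / 2 → ‖tau z - 1‖ ≤ C * Real.exp (-|z.re|))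
    (J : List ℂ) (hJ : ∀ v ∈ J, |v.im| ≤ Real.pi / 2) (θ : ℝ) :
    ‖Lam J (θ : ℂ)‖ ≤ 1 ∧ ‖Lam J (θ : ℂ) - 1‖ ≤ (J.map fun v => C * ew v.re θ).sum := by
  induction J with
  | nil => simp [Lam_nil]
  | cons v J ih =>
    obtain ⟨h1, h2⟩ := ih fun w hw => hJ w (List.mem_cons_of_mem _ hw)
    have hv := hJ v List.mem_cons_self
    have hv' : |(v - (θ : ℂ)).im| ≤ Real.pi / 2 := by
      rw [Complex.sub_im, Complex.ofReal_im, sub_zero]; exact hv
    have h3 := hK.tau1 _ hv'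
    have h4 := hC _ hv'
    rw [Complex.sub_re, Complex.ofReal_re] at h4
    rw [Lam_cons]
    constructor
    · rw [norm_mul]
      exact mul_le_one₀ h3 (norm_nonneg _) h1
    · rw [List.map_cons, List.sum_cons]
      have e : tau (v - θ) * Lam J θ - 1 = (tau (v - θ) - 1) * Lam J θ + (Lam J θ - 1) := by ring
      rw [e]
      refine (norm_add_le _ _).trans (add_le_add ?_ h2)
      rw [norm_mul]
      calc ‖tau (v - θ) - 1‖ * ‖Lam J θ‖ ≤ ‖tau (v - θ) - 1‖ * 1 :=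
            mul_le_mul_of_nonneg_left h1 (norm_nonneg _)
        _ ≤ _ := by rw [mul_one]; exact h4

theorem gsum_Lam (hK : KerH) {C : ℝ} (hC0 : 0 ≤ C)
    (hC : ∀ z : ℂ, |z.im| ≤ Real.pi / 2 → ‖tau z - 1‖ ≤ C * Real.exp (-|z.re|)) {n : ℕ} (hn : 0 < n)
    (J : List ℂ) (hJ : ∀ v ∈ J, |v.im| ≤ Real.pi / 2) :
    ∑ s ∈ Gd n, 1 / (n : ℝ) * ‖Lam J (s : ℂ) - 1‖ ≤ 6 * C * J.length := by
  have h1 : ∑ s ∈ Gd n, 1 / (n : ℝ) * ‖Lam J (s : ℂ) - 1‖ ≤
      ∑ s ∈ Gd n, 1 / (n : ℝ) * (J.map fun v => C * ew v.re s).sum := by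
    refine Finset.sum_le_sum fun s _ => mul_le_mul_of_nonneg_left (norm_Lam_sub hK hC J hJ s).2 (by positivity)
  refine h1.trans ?_
  clear h1 hJ
  induction J with
  | nil => simp
  | cons v J ih =>
    simp only [List.map_cons, List.sum_cons, List.length_cons, mul_add, Finset.sum_add_distrib]
    push_cast
    have h2 : ∑ s ∈ Gd n, 1 / (n : ℝ) * (C * ew v.re s) ≤ 6 * C := by
      have e : ∀ s ∈ Gd n, 1 / (n : ℝ) * (C * ew v.re s) = C * (1 / (n : ℝ) * ew v.re s) := fun s _ => by ring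
      rw [Finset.sum_congr rfl e, ← Finset.mul_sum]
      have := mul_le_mul_of_nonneg_left (gsum_ew hn v.re) hC0
      linarith
    linarith

/-- **uniform bound** -/
theorem nG_le (hK : KerH) {h : ℝ} (hh : h < Real.pi / 2) (m : ℕ) : ∃ B : ℝ, 0 ≤ B ∧ ∀ n : ℕ, 20 ≤ n →
    ∀ J : List ℂ, J.length ≤ m → (∀ v ∈ J, |v.im| ≤ h) → ‖nG (Gd n) (kap n) J‖ ≤ B := by
  obtain ⟨C, hC0, hC⟩ := hK.bt (2 * h) (by linarith)
  obtain ⟨A, hA0, hA⟩ := hK.ctau
  refine ⟨(C + 1) ^ (m * m) * Real.exp (7 / 2 * z0 * (6 * A * m)), by positivity, fun n hn J hm hJ => ?_⟩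
  unfold nG
  rw [norm_mul]
  refine mul_le_mul (norm_Dl_le (by linarith) (fun z hz => (hC z hz).trans (by linarith)) m J hm hJ) ?_
    (norm_nonneg _) (by positivity)
  refine (ratio_le hn _).trans (Real.exp_le_exp.2 ?_)
  refine mul_le_mul_of_nonneg_left ?_ (by have := z0_pos; positivity)
  refine (gsum_Lam hK hA0 hA (by omega) J fun v hv => (hJ v hv).trans hh.le).trans ?_
  have : (J.length : ℝ) ≤ m := by exact_mod_cast hm
  exact mul_le_mul_of_nonneg_left this (by positivity)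

theorem norm_rs_le (J : List ℂ) (f : ℂ → List ℂ → ℂ) {B : ℝ}
    (h : ∀ v ∈ J, ∀ K : List ℂ, K.Sublist J → K.length + 1 = J.length → ‖f v K‖ ≤ B) :
    ‖rs J f‖ ≤ J.length * B := by
  unfold rs
  refine (norm_sum_le _ _).trans ?_
  have h1 : ∀ i ∈ range J.length, ‖(-1 : ℂ) ^ i * f (J.getD i 0) (J.eraseIdx i)‖ ≤ B := by
    intro i hi
    have hi' := mem_range.1 hi
    rw [norm_mul, norm_pow, norm_neg, norm_one, one_pow, one_mul]
    refine h _ ?_ _ (List.eraseIdx_sublist ..) ?_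
    · rw [List.getD_eq_getElem _ _ hi']
      exact List.getElem_mem hi'
    · rw [List.length_eraseIdx_of_lt hi']; omega
  refine (Finset.sum_le_sum h1).trans ?_
  rw [sum_const, card_range, nsmul_eq_mul]

/-- the coefficient of the grid sum -/
theorem kap_coef (n : ℕ) : kap n * (t (2 * a6))⁻¹ = Complex.I / (4 * Real.pi) * ((1 / (n : ℝ) : ℝ) : ℂ) := by
  rw [t_2a6]
  unfold kap z0
  have h3 : (Real.sqrt 3 : ℂ) ≠ 0 := by
    exact_mod_cast (Real.sqrt_pos.2 (by norm_num : (0 : ℝ) < 3)).ne'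
  have hpi : (Real.pi : ℂ) ≠ 0 := by exact_mod_cast Real.pi_ne_zero
  push_cast
  rw [inv_div]
  have hI := Complex.I_ne_zero
  field_simp
  rw [Complex.I_sq]
  ring

theorem im_y1 (θ : ℝ) : ((θ : ℂ) + a6).im = Real.pi / 6 := by
  unfold a6
  simp

theorem im_y2 (θ : ℝ) : ((θ : ℂ) - a6).im = -(Real.pi / 6) := by
  unfold a6
  simp

theorem re_y1 (θ : ℝ) : ((θ : ℂ) + a6).re = θ := by
  unfold a6
  simp

theorem re_y2 (θ : ℝ) : ((θ : ℂ) - a6).re = θ := by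
  unfold a6
  simp

/-- bound of the field factor -/
theorem norm_H2_le {C B : ℝ} (hC : 0 ≤ C) {x : ℂ} (hx : St x)
    (ht : ∀ z : ℂ, |z.im| ≤ 2 * Real.pi / 3 → ‖t' z‖ ≤ C * Real.exp (-|z.re|)) {f : ℂ → ℂ} (θ : ℝ)
    (h1 : ‖f ((θ : ℂ) - a6)‖ ≤ B) (h2 : ‖f ((θ : ℂ) + a6)‖ ≤ B) : ‖H2 x f θ‖ ≤ 2 * C * B * ew x.re θ := by
  unfold H2
  have hx' : |x.im| < Real.pi / 2 := hx
  have e1 := ht (x - ((θ : ℂ) + a6)) (by
    rw [Complex.sub_im, im_y1]
    have := abs_lt.1 hx'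
    rw [abs_le]; constructor <;> linarith [Real.pi_pos])
  have e2 := ht (x - ((θ : ℂ) - a6)) (by
    rw [Complex.sub_im, im_y2]
    have := abs_lt.1 hx'
    rw [abs_le]; constructor <;> linarith [Real.pi_pos])
  rw [Complex.sub_re, re_y1] at e1
  rw [Complex.sub_re, re_y2] at e2
  have hw := ew_pos x.re θ
  refine (norm_sub_le _ _).trans ?_
  rw [norm_mul, norm_mul]
  have a1 := mul_le_mul e1 h1 (norm_nonneg _) (by positivity)
  have a2 := mul_le_mul e2 h2 (norm_nonneg _) (by positivity)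
  unfold ew
  calc ‖t' (x - (↑θ + a6))‖ * ‖f (↑θ - a6)‖ + ‖t' (x - (↑θ - a6))‖ * ‖f (↑θ + a6)‖ ≤
        C * Real.exp (-|x.re - θ|) * B + C * Real.exp (-|x.re - θ|) * B := add_le_add a1 a2
    _ = _ := by ring

/-- the contraction -/
theorem contr {g : ℝ → ℝ} (hg0 : ∀ x, 0 ≤ g x) {B η : ℝ} (hB : ∀ x, g x ≤ B) (hη : 0 ≤ η)
    {q : ℝ → ℝ} (hq0 : ∀ x, 0 ≤ q x)
    (hq : ∀ x, q x ≤ Real.sqrt 3 / (2 * Real.pi) * Real.exp (-|x|))
    (h : ∀ x, g x ≤ η * Real.exp (|x| / 4) + ∫ θ, q (x - θ) * g θ) (x : ℝ) :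
    g x ≤ 4 * η * Real.exp (|x| / 4) := by
  have hB0 : 0 ≤ B := (hg0 0).trans (hB 0)
  have hs : Real.sqrt 3 / (2 * Real.pi) * (8 / 3) ≤ 3 / 4 := by
    have h1 : Real.sqrt 3 ≤ 1.74 := Real.sqrt_le_iff.2 ⟨by norm_num, by norm_num⟩
    have h2 := Real.pi_gt_d2
    rw [div_mul_eq_mul_div, div_le_iff₀ (by linarith)]
    linarith
  have hs0 : 0 ≤ Real.sqrt 3 / (2 * Real.pi) := by have := Real.pi_pos; positivity
  -- one step
  have hint : ∀ x, Integrable fun θ => Real.sqrt 3 / (2 * Real.pi) * Real.exp (|x| / 4) *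
      Real.exp (-(3 / 4 * |x - θ|)) := fun x => (integrable_exp_sub (by norm_num) x).const_mul _
  have step : ∀ M : ℝ, 0 ≤ M → (∀ x, g x ≤ M * Real.exp (|x| / 4)) →
      ∀ x, g x ≤ (η + 3 / 4 * M) * Real.exp (|x| / 4) := by
    intro M hM hgM x
    refine (h x).trans ?_
    have h1 : ∫ θ, q (x - θ) * g θ ≤ ∫ θ, M * (Real.sqrt 3 / (2 * Real.pi) * Real.exp (|x| / 4) *
        Real.exp (-(3 / 4 * |x - θ|))) := by
      refine integral_mono_of_nonneg (Filter.Eventually.of_forall fun θ => mul_nonneg (hq0 _) (hg0 _))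
        ((hint x).const_mul M) (Filter.Eventually.of_forall fun θ => ?_)
      have a1 : q (x - θ) * g θ ≤ (Real.sqrt 3 / (2 * Real.pi) * Real.exp (-|x - θ|)) *
          (M * Real.exp (|θ| / 4)) := mul_le_mul (hq _) (hgM θ) (hg0 θ) (by positivity)
      refine a1.trans ?_
      have a2 : Real.exp (-|x - θ|) * Real.exp (|θ| / 4) ≤ Real.exp (|x| / 4) * Real.exp (-(3 / 4 * |x - θ|)) := by
        rw [← Real.exp_add, ← Real.exp_add]
        refine Real.exp_le_exp.2 ?_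
        have := abs_sub_abs_le_abs_sub θ x
        rw [abs_sub_comm θ x] at this
        linarith
      calc Real.sqrt 3 / (2 * Real.pi) * Real.exp (-|x - θ|) * (M * Real.exp (|θ| / 4)) =
            (M * (Real.sqrt 3 / (2 * Real.pi))) * (Real.exp (-|x - θ|) * Real.exp (|θ| / 4)) := by ring
        _ ≤ (M * (Real.sqrt 3 / (2 * Real.pi))) * (Real.exp (|x| / 4) * Real.exp (-(3 / 4 * |x - θ|))) :=
            mul_le_mul_of_nonneg_left a2 (by positivity)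
        _ = _ := by ring
    rw [integral_const_mul, integral_const_mul, integral_exp_sub (by norm_num)] at h1
    have h2 : M * (Real.sqrt 3 / (2 * Real.pi) * Real.exp (|x| / 4) * (2 / (3 / 4))) ≤
        3 / 4 * M * Real.exp (|x| / 4) := by
      have e : M * (Real.sqrt 3 / (2 * Real.pi) * Real.exp (|x| / 4) * (2 / (3 / 4))) =
          (M * Real.exp (|x| / 4)) * (Real.sqrt 3 / (2 * Real.pi) * (8 / 3)) := by ring
      rw [e]
      calc (M * Real.exp (|x| / 4)) * (Real.sqrt 3 / (2 * Real.pi) * (8 / 3)) ≤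
            (M * Real.exp (|x| / 4)) * (3 / 4) := mul_le_mul_of_nonneg_left hs (by positivity)
        _ = _ := by ring
    rw [add_mul]
    linarith
  have key : ∀ k : ℕ, ∀ x, g x ≤ (4 * η + (3 / 4) ^ k * B) * Real.exp (|x| / 4) := by
    intro k
    induction k with
    | zero =>
      intro x
      have h1 : 1 ≤ Real.exp (|x| / 4) := Real.one_le_exp (by positivity)
      have h2 : B * 1 ≤ (4 * η + B) * Real.exp (|x| / 4) :=
        mul_le_mul (by linarith) h1 zero_le_one (by linarith)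
      rw [pow_zero, one_mul]
      linarith [hB x]
    | succ k ih =>
      intro x
      have := step (4 * η + (3 / 4) ^ k * B) (by positivity) ih x
      refine this.trans (le_of_eq ?_)
      rw [pow_succ]; ring
  have hlim : Filter.Tendsto (fun k : ℕ => (4 * η + (3 / 4 : ℝ) ^ k * B) * Real.exp (|x| / 4)) Filter.atTop
      (nhds ((4 * η + 0 * B) * Real.exp (|x| / 4))) :=
    (((tendsto_pow_atTop_nhds_zero_of_lt_one (by norm_num) (by norm_num)).mul_const B).const_add _).mul_const _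
  rw [zero_mul, add_zero] at hlim
  exact ge_of_tendsto' hlim fun k => key k x

end DUA

end
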