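import Pool.Agent.DUA.LimA

/-!
# The limit of the normalised grid averages: Pfaffian
-/

set_option autoImplicit false

noncomputable section

open Finset MeasureTheory Filter Topology

namespace DUA

theorem hasDerivAt_rs {J : List ℂ} {f : ℂ → ℂ → List ℂ → ℂ} {f' : ℂ → List ℂ → ℂ} {x : ℂ}
    (h : ∀ v ∈ J, ∀ K : List ℂ, HasDerivAt (fun x => f x v K) (f' v K) x) :
    HasDerivAt (fun x => rs J (f x)) (rs J f') x := by
  unfold rs
  refine HasDerivAt.fun_sum fun i hi => ?_
  have hi' := mem_range.1 hi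
  refine (h _ ?_ _).const_mul _
  rw [List.getD_eq_getElem _ _ hi']
  exact List.getElem_mem hi'

theorem St_sub {x v : ℂ} (hx : St x) (hv : St v) : |(x - v).im| < Real.pi := by
  rw [Complex.sub_im]
  unfold St at hx hv
  have h1 := abs_lt.1 hx
  have h2 := abs_lt.1 hv
  rw [abs_lt]; constructor <;> linarith

theorem pf_deriv (hK : KerH) {J : List ℂ} (hJ : ∀ v ∈ J, St v) {x : ℂ} (hx : St x) :
    HasDerivAt (fun x => pf p (x :: J)) (rs J (fun v K => deriv p (x - v) * pf p K)) x := by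
  have h0 : (fun x => pf p (x :: J)) = fun x => rs J (fun v K => p (x - v) * pf p K) := by
    funext x; rw [pf_cons]
  rw [h0]
  refine hasDerivAt_rs fun v hv K => ?_
  have h1 := (hK.dp (x - v) (St_sub hx (hJ v hv))).hasDerivAt
  exact (h1.comp_sub_const x v).mul_const _

/-- `f` is analytic in the strip -/
def An (f : ℂ → ℂ) : Prop := ∀ z, St z → DifferentiableAt ℂ f z

theorem An_pf (hK : KerH) {J : List ℂ} (hJ : ∀ v ∈ J, St v) : An (fun x => pf p (x :: J)) :=
  fun _ hx => (pf_deriv hK hJ hx).differentiableAt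

theorem An_nG (hP : PfrS) (G : Finset ℝ) (κ : ℂ) {J : List ℂ} (hJ : ∀ v ∈ J, St v) :
    An (fun x => nG G κ (x :: J)) :=
  fun x hx => (nG_deriv hP G κ J hJ x hx).differentiableAt

theorem An_p (hK : KerH) {u : ℂ} (hu : St u) : An (fun z => p (z - u)) := fun x hx =>
  ((hK.dp (x - u) (St_sub hx hu)).hasDerivAt.comp_sub_const x u).differentiableAt

/-- derivative of the field factor -/
def H2' (x : ℂ) (f : ℂ → ℂ) (θ : ℝ) : ℂ :=
  (-deriv t' (x - ((θ : ℂ) + a6)) * f ((θ : ℂ) - a6) + t' (x - ((θ : ℂ) + a6)) * deriv f ((θ : ℂ) - a6)) -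
    (-deriv t' (x - ((θ : ℂ) - a6)) * f ((θ : ℂ) + a6) + t' (x - ((θ : ℂ) - a6)) * deriv f ((θ : ℂ) + a6))

theorem im_x1 {x : ℂ} (hx : St x) (θ : ℝ) : |(x - ((θ : ℂ) + a6)).im| ≤ 2 * Real.pi / 3 := by
  rw [Complex.sub_im, im_y1]
  unfold St at hx
  have := abs_lt.1 hx
  rw [abs_le]; constructor <;> linarith [Real.pi_pos]

theorem im_x2 {x : ℂ} (hx : St x) (θ : ℝ) : |(x - ((θ : ℂ) - a6)).im| ≤ 2 * Real.pi / 3 := by
  rw [Complex.sub_im, im_y2]
  unfold St at hx
  have := abs_lt.1 hx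
  rw [abs_le]; constructor <;> linarith [Real.pi_pos]

theorem hasDerivAt_H2 (hK : KerH) {x : ℂ} (hx : St x) {f : ℂ → ℂ} (hf : An f) (θ : ℝ) :
    HasDerivAt (H2 x f) (H2' x f θ) θ := by
  have h23 : 2 * Real.pi / 3 < Real.pi := by linarith [Real.pi_pos]
  have c1 : HasDerivAt (fun s : ℝ => (s : ℂ) + a6) 1 θ := (Complex.ofRealCLM.hasDerivAt).add_const a6
  have c2 : HasDerivAt (fun s : ℝ => (s : ℂ) - a6) 1 θ := (Complex.ofRealCLM.hasDerivAt).sub_const a6
  have d1 : HasDerivAt (fun s : ℝ => x - ((s : ℂ) + a6)) (-1) θ := by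
    simpa using c1.const_sub x
  have d2 : HasDerivAt (fun s : ℝ => x - ((s : ℂ) - a6)) (-1) θ := by
    simpa using c2.const_sub x
  have e1 := (hK.dt' _ ((im_x1 hx θ).trans_lt h23)).hasDerivAt.comp_of_eq (𝕜' := ℂ) θ d1 rfl
  have e2 := (hK.dt' _ ((im_x2 hx θ).trans_lt h23)).hasDerivAt.comp_of_eq (𝕜' := ℂ) θ d2 rfl
  have f1 := (hf _ (St_y1 θ)).hasDerivAt.comp_of_eq (𝕜' := ℂ) θ c1 rfl
  have f2 := (hf _ (St_y2 θ)).hasDerivAt.comp_of_eq (𝕜' := ℂ) θ c2 rfl
  have := (e1.mul f2).sub (e2.mul f1)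
  refine this.congr_deriv ?_
  unfold H2'
  simp only [Function.comp_apply]
  ring

theorem continuous_H2 (hK : KerH) {x : ℂ} (hx : St x) {f : ℂ → ℂ} (hf : An f) : Continuous (H2 x f) :=
  continuous_iff_continuousAt.2 fun θ => (hasDerivAt_H2 hK hx hf θ).continuousAt

theorem integrable_H2 (hK : KerH) {x : ℂ} (hx : St x) {f : ℂ → ℂ} (hf : An f) {B : ℝ}
    (hB : ∀ z : ℂ, |z.im| ≤ Real.pi / 3 → ‖f z‖ ≤ B) : Integrable (H2 x f) := by
  obtain ⟨C, hC0, hC⟩ := hK.bt' (2 * Real.pi / 3) (by linarith [Real.pi_pos])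
  refine ((integrable_ew x.re).const_mul (2 * C * B)).mono' (continuous_H2 hK hx hf).aestronglyMeasurable
    (Eventually.of_forall fun θ => ?_)
  refine norm_H2_le hC0 hx hC θ (hB _ ?_) (hB _ ?_)
  · rw [im_y2, abs_neg, abs_of_pos (by linarith [Real.pi_pos])]; linarith [Real.pi_pos]
  · rw [im_y1, abs_of_pos (by linarith [Real.pi_pos])]; linarith [Real.pi_pos]

/-- Cauchy -/
theorem cauchy {f : ℂ → ℂ} (hf : An f) {B h r : ℝ} (hr : 0 < r) (hh : h + r < Real.pi / 2)
    (hB : ∀ z : ℂ, |z.im| ≤ h + r → ‖f z‖ ≤ B) {z : ℂ} (hz : |z.im| ≤ h) : ‖deriv f z‖ ≤ B / r := by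
  have him : ∀ w ∈ Metric.closedBall z r, |w.im| ≤ h + r := by
    intro w hw
    have h1 : |w.im - z.im| ≤ r := by
      have := Complex.abs_im_le_norm (w - z)
      rw [Complex.sub_im] at this
      rw [Metric.mem_closedBall, dist_eq_norm] at hw
      linarith
    have h2 := abs_sub_abs_le_abs_sub w.im z.im
    linarith
  refine Complex.norm_deriv_le_of_forall_mem_sphere_norm_le hr ?_ fun w hw => hB w
    (him w (Metric.sphere_subset_closedBall hw))
  refine (DifferentiableOn.diffContOnCl ?_)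
  rw [closure_ball z hr.ne']
  intro w hw
  exact (hf w ((him w hw).trans_lt hh)).differentiableWithinAt

theorem H2'_le (hK : KerH) : ∃ C : ℝ, 0 ≤ C ∧ ∀ (f : ℂ → ℂ) (B : ℝ), An f → 0 ≤ B →
    (∀ z : ℂ, |z.im| ≤ Real.pi / 3 → ‖f z‖ ≤ B) → ∀ x : ℂ, St x → ∀ θ : ℝ,
      ‖H2 x f θ‖ ≤ C * B * ew x.re θ ∧ ‖H2' x f θ‖ ≤ C * B * ew x.re θ := by
  obtain ⟨C, hC0, hC⟩ := hK.bt' (2 * Real.pi / 3) (by linarith [Real.pi_pos])
  obtain ⟨D, hD0, hD⟩ := hK.bt'' (2 * Real.pi / 3) (by linarith [Real.pi_pos])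
  refine ⟨2 * D + 4 * C, by positivity, fun f B hf hB0 hB x hx θ => ?_⟩
  have hy2 : |((θ : ℂ) - a6).im| ≤ Real.pi / 6 := by
    rw [im_y2, abs_neg, abs_of_pos (by linarith [Real.pi_pos])]
  have hy1 : |((θ : ℂ) + a6).im| ≤ Real.pi / 6 := by
    rw [im_y1, abs_of_pos (by linarith [Real.pi_pos])]
  have h3 : Real.pi / 6 ≤ Real.pi / 3 := by linarith [Real.pi_pos]
  have b1 := hB _ (hy1.trans h3)
  have b2 := hB _ (hy2.trans h3)
  have hpi := Real.pi_gt_three
  have hB' : ∀ z : ℂ, |z.im| ≤ Real.pi / 6 → ‖deriv f z‖ ≤ 2 * B := by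
    intro z hz
    have := cauchy hf (B := B) (h := Real.pi / 6) (r := Real.pi / 6) (by linarith) (by linarith)
      (fun w hw => hB w (by linarith)) hz
    refine this.trans ?_
    rw [div_le_iff₀ (by linarith)]
    nlinarith
  have b3 := hB' _ hy1
  have b4 := hB' _ hy2
  have hw := ew_pos x.re θ
  have e1 := hC _ (im_x1 hx θ)
  have e2 := hC _ (im_x2 hx θ)
  have g1 := hD _ (im_x1 hx θ)
  have g2 := hD _ (im_x2 hx θ)
  rw [Complex.sub_re, re_y1] at e1 g1
  rw [Complex.sub_re, re_y2] at e2 g2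
  constructor
  · refine (norm_H2_le hC0 hx hC θ b2 b1).trans ?_
    refine mul_le_mul_of_nonneg_right ?_ hw.le
    exact mul_le_mul_of_nonneg_right (by linarith) hB0
  · unfold H2'
    refine (norm_sub_le _ _).trans ((add_le_add (norm_add_le _ _) (norm_add_le _ _)).trans ?_)
    rw [norm_mul, norm_mul, norm_mul, norm_mul, norm_neg, norm_neg]
    have a1 := mul_le_mul g1 b2 (norm_nonneg _) (by positivity)
    have a2 := mul_le_mul e1 b4 (norm_nonneg _) (by positivity)
    have a3 := mul_le_mul g2 b1 (norm_nonneg _) (by positivity)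
    have a4 := mul_le_mul e2 b3 (norm_nonneg _) (by positivity)
    refine (add_le_add (add_le_add a1 a2) (add_le_add a3 a4)).trans (le_of_eq ?_)
    unfold ew
    ring

theorem integral_rs {J : List ℂ} {f : ℝ → ℂ → List ℂ → ℂ} (h : ∀ v ∈ J, ∀ K, Integrable fun θ => f θ v K) :
    ∫ θ, rs J (f θ) = rs J (fun v K => ∫ θ, f θ v K) := by
  unfold rs
  have hm : ∀ i ∈ range J.length, J.getD i 0 ∈ J := by
    intro i hi
    rw [List.getD_eq_getElem _ _ (mem_range.1 hi)]
    exact List.getElem_mem _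
  rw [integral_finsetSum _ fun i hi => (h _ (hm i hi) _).const_mul _]
  refine sum_congr rfl fun i _ => ?_
  rw [integral_const_mul]

theorem exists_h {J : List ℂ} (hJ : ∀ v ∈ J, St v) : ∃ h : ℝ, Real.pi / 3 ≤ h ∧ h < Real.pi / 2 ∧
    ∀ v ∈ J, |v.im| ≤ h := by
  induction J with
  | nil => exact ⟨Real.pi / 3, le_rfl, by linarith [Real.pi_pos], by simp⟩
  | cons a J ih =>
    obtain ⟨h, h1, h2, h3⟩ := ih fun v hv => hJ v (List.mem_cons_of_mem _ hv)
    refine ⟨max h |a.im|, h1.trans (le_max_left _ _), max_lt h2 (hJ a List.mem_cons_self), ?_⟩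
    intro v hv
    rcases List.mem_cons.1 hv with rfl | hv
    · exact le_max_right _ _
    · exact (h3 v hv).trans (le_max_left _ _)

theorem pf_bound (hK : KerH) {J : List ℂ} (hJ : ∀ v ∈ J, St v) :
    ∃ B : ℝ, 0 ≤ B ∧ ∀ z : ℂ, |z.im| ≤ Real.pi / 3 → ‖pf p (z :: J)‖ ≤ B := by
  obtain ⟨h, h1, h2, h3⟩ := exists_h hJ
  obtain ⟨C, hC0, hC⟩ := hK.bp (Real.pi / 3 + h) (by linarith [Real.pi_pos])
  refine ⟨∑ i ∈ range J.length, C * ‖pf p (J.eraseIdx i)‖, sum_nonneg fun _ _ => by positivity, ?_⟩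
  intro z hz
  rw [pf_cons]
  unfold rs
  refine (norm_sum_le _ _).trans (sum_le_sum fun i hi => ?_)
  rw [norm_mul, norm_pow, norm_neg, norm_one, one_pow, one_mul, norm_mul]
  refine mul_le_mul_of_nonneg_right (hC _ ?_) (norm_nonneg _)
  rw [Complex.sub_im]
  have h4 : |(J.getD i 0).im| ≤ h := by
    rw [List.getD_eq_getElem _ _ (mem_range.1 hi)]
    exact h3 _ (List.getElem_mem _)
  exact (abs_sub _ _).trans (by linarith)

/-- the difference -/
def DD (n : ℕ) (J : List ℂ) (z : ℂ) : ℂ := nG (Gd n) (kap n) (z :: J) - pf p (z :: J)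

theorem An_DD (hK : KerH) (hP : PfrS) (n : ℕ) {J : List ℂ} (hJ : ∀ v ∈ J, St v) : An (DD n J) :=
  fun z hz => (An_nG hP _ _ hJ z hz).sub (An_pf hK hJ z hz)

/-- **the equation of the difference** -/
theorem DD_eq (hK : KerH) (hP : PfrS) {n : ℕ} (hn : 20 ≤ n) {J : List ℂ} (hJ : ∀ v ∈ J, St v) {x : ℂ} (hx : St x) :
    deriv (DD n J) x = rs J (fun v K => t' (x - v) * (nG (Gd n) (kap n) K - pf p K)) +
      Complex.I / (4 * Real.pi) * (∑ θ ∈ Gd n, ((1 / (n : ℝ) : ℝ) : ℂ) *
        H2 x (fun z => nG (Gd n) (kap n) (z :: J)) θ - ∫ θ, H2 x (fun z => nG (Gd n) (kap n) (z :: J)) θ) +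
      ∫ θ : ℝ, Q (x - θ) * deriv (DD n J) (θ : ℂ) := by
  have h1 := nG_deriv hP (Gd n) (kap n) J hJ x hx
  have h2 := pf_deriv hK hJ hx
  have h3 : deriv (DD n J) x = _ := (h1.sub h2).deriv
  obtain ⟨h, hh1, hh2, hh3⟩ := exists_h hJ
  obtain ⟨B1, hB10, hB1⟩ := nG_le hK hh2 (J.length + 1)
  have hB1' : ∀ z : ℂ, |z.im| ≤ h → ‖nG (Gd n) (kap n) (z :: J)‖ ≤ B1 := by
    intro z hz
    refine hB1 n hn (z :: J) (by simp) fun v hv => ?_
    rcases List.mem_cons.1 hv with rfl | hv
    · exact hz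
    · exact hh3 v hv
  obtain ⟨B2, hB20, hB2⟩ := pf_bound hK hJ
  have i1 : Integrable (H2 x fun z => nG (Gd n) (kap n) (z :: J)) :=
    integrable_H2 hK hx (An_nG hP _ _ hJ) fun z hz => hB1' z (hz.trans hh1)
  have i2 : Integrable (H2 x fun z => pf p (z :: J)) := integrable_H2 hK hx (An_pf hK hJ) hB2
  have h4 : ∫ θ, H2 x (DD n J) θ = (∫ θ, H2 x (fun z => nG (Gd n) (kap n) (z :: J)) θ) -
      ∫ θ, H2 x (fun z => pf p (z :: J)) θ := by
    rw [← integral_sub i1 i2]
    congr 1
    funext θ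
    unfold H2 DD
    ring
  have h5 := hK.i4 (DD n J) (Real.pi / 3) (B1 + B2) (by linarith [Real.pi_pos]) (by linarith [Real.pi_pos])
    (An_DD hK hP n hJ) (fun z hz => (norm_sub_le _ _).trans (add_le_add (hB1' z (hz.trans hh1)) (hB2 z hz))) x hx
  have h6 : ∫ θ, H2 x (fun z => pf p (z :: J)) θ =
      rs J (fun v K => (∫ θ, H2 x (fun z => p (z - v)) θ) * pf p K) := by
    have e1 : (fun θ => H2 x (fun z => pf p (z :: J)) θ) =
        fun θ => rs J (fun v K => H2 x (fun z => p (z - v)) θ * pf p K) := by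
      funext θ
      simp only [H2, pf_cons]
      rw [← rs_mul, ← rs_mul, ← rs_sub]
      refine rs_congr fun v _ K => by ring
    rw [e1, integral_rs]
    · refine rs_congr fun v _ K => ?_
      rw [integral_mul_const]
    · intro v hv K
      refine Integrable.mul_const ?_ _
      obtain ⟨C, hC0, hC⟩ := hK.bp (Real.pi / 3 + h) (by linarith [Real.pi_pos])
      refine integrable_H2 hK hx (An_p hK (hJ v hv)) (B := C) fun z hz => hC _ ?_
      rw [Complex.sub_im]
      have := hh3 v hv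
      exact (abs_sub _ _).trans (by linarith)
  have h7 : rs J (fun v K => deriv p (x - v) * pf p K) = rs J (fun v K => t' (x - v) * pf p K) +
      Complex.I / (4 * Real.pi) * ∫ θ, H2 x (fun z => pf p (z :: J)) θ := by
    rw [h6, ← rs_mul]
    have e2 : ∀ f g : ℂ → List ℂ → ℂ, rs J f + rs J g = rs J (fun v K => f v K + g v K) := by
      intro f g
      unfold rs
      rw [← sum_add_distrib]
      refine sum_congr rfl fun i _ => by ring
    rw [e2]
    refine rs_congr fun v hv K => ?_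
    rw [hK.i3 v x (hJ v hv) hx]
    ring
  have h8 : rs J (fun v K => t' (x - v) * (nG (Gd n) (kap n) K - pf p K)) =
      rs J (fun v K => t' (x - v) * nG (Gd n) (kap n) K) - rs J (fun v K => t' (x - v) * pf p K) := by
    rw [← rs_sub]
    refine rs_congr fun v _ K => by ring
  have h9 : ∑ θ ∈ Gd n, ((1 / (n : ℝ) : ℝ) : ℂ) * H2 x (fun z => nG (Gd n) (kap n) (z :: J)) θ =
      ((1 / (n : ℝ) : ℝ) : ℂ) * ∑ θ ∈ Gd n, (t' (x - ((θ : ℂ) + a6)) * nG (Gd n) (kap n) (((θ : ℂ) - a6) :: J) -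
        t' (x - ((θ : ℂ) - a6)) * nG (Gd n) (kap n) (((θ : ℂ) + a6) :: J)) := by
    rw [Finset.mul_sum]
    rfl
  rw [h3, h7, ← h5, h4, h8, h9, kap_coef]
  ring

theorem norm_c : ‖Complex.I / (4 * Real.pi)‖ ≤ 1 := by
  rw [norm_div, Complex.norm_I]
  have : ‖(4 * Real.pi : ℂ)‖ = 4 * Real.pi := by
    rw [norm_mul, Complex.norm_real, Real.norm_of_nonneg Real.pi_pos.le]; norm_num
  rw [this, div_le_one (by linarith [Real.pi_gt_three])]
  linarith [Real.pi_gt_three]

/-- the error of order `n` -/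
def del (n : ℕ) (J : List ℂ) : ℝ :=
  ∑ i ∈ range J.length, ‖nG (Gd n) (kap n) (J.eraseIdx i) - pf p (J.eraseIdx i)‖

theorem del_nonneg (n : ℕ) (J : List ℂ) : 0 ≤ del n J := sum_nonneg fun _ _ => norm_nonneg _

/-- the Riemann sum error -/
def er (n : ℕ) : ℝ := 1 / n + Real.exp (-(n / 4))

theorem er_nonneg (n : ℕ) : 0 ≤ er n := by unfold er; positivity

theorem er_tendsto : Tendsto er atTop (𝓝 0) := by
  unfold er
  have h1 : Tendsto (fun n : ℕ => 1 / (n : ℝ)) atTop (𝓝 0) := tendsto_one_div_atTop_nhds_zero_nat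
  have h2 : Tendsto (fun n : ℕ => Real.exp (-((n : ℝ) / 4))) atTop (𝓝 0) := by
    refine Real.tendsto_exp_neg_atTop_nhds_zero.comp ?_
    exact tendsto_natCast_atTop_atTop.atTop_div_const (by norm_num)
  simpa using h1.add h2

/-- **the derivative of the difference is small** -/
theorem DD_deriv_le (hK : KerH) (hP : PfrS) {J : List ℂ} (hJ : ∀ v ∈ J, St v) : ∃ C : ℝ, 0 ≤ C ∧
    ∀ n : ℕ, 20 ≤ n → ∀ x : ℂ, St x → ‖deriv (DD n J) x‖ ≤ C * (del n J + er n) * Real.exp (|x.re| / 4) := by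
  obtain ⟨h, hh1, hh2, hh3⟩ := exists_h hJ
  obtain ⟨B1, hB10, hB1⟩ := nG_le hK hh2 (J.length + 1)
  have hB1' : ∀ n, 20 ≤ n → ∀ z : ℂ, |z.im| ≤ h → ‖nG (Gd n) (kap n) (z :: J)‖ ≤ B1 := by
    intro n hn z hz
    refine hB1 n hn (z :: J) (by simp) fun v hv => ?_
    rcases List.mem_cons.1 hv with rfl | hv
    · exact hz
    · exact hh3 v hv
  obtain ⟨B2, hB20, hB2⟩ := pf_bound hK hJ
  obtain ⟨C1, hC10, hC1⟩ := H2'_le hK
  obtain ⟨C2, hC20, hC2⟩ := hK.bt' (Real.pi / 2 + h) (by linarith)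
  obtain ⟨C3, hC30, hC3⟩ := hK.bQ
  set A : ℝ := C2 + 6 * (C1 * B1) with hA
  have hA0 : 0 ≤ A := by positivity
  -- the inhomogeneous term
  have key : ∀ n, 20 ≤ n → ∀ x : ℂ, St x → ‖deriv (DD n J) x‖ ≤
      A * (del n J + er n) * Real.exp (|x.re| / 4) + ‖∫ θ : ℝ, Q (x - θ) * deriv (DD n J) (θ : ℂ)‖ := by
    intro n hn x hx
    rw [DD_eq hK hP hn hJ hx]
    refine (norm_add_le _ _).trans (add_le_add ((norm_add_le _ _).trans ?_) le_rfl)
    have hw : 1 ≤ Real.exp (|x.re| / 4) := Real.one_le_exp (by positivity)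
    have a1 : ‖rs J (fun v K => t' (x - v) * (nG (Gd n) (kap n) K - pf p K))‖ ≤ C2 * del n J := by
      unfold rs del
      refine (norm_sum_le _ _).trans ?_
      rw [Finset.mul_sum]
      refine sum_le_sum fun i hi => ?_
      rw [norm_mul, norm_pow, norm_neg, norm_one, one_pow, one_mul, norm_mul]
      refine mul_le_mul_of_nonneg_right ((hC2 _ ?_).trans ?_) (norm_nonneg _)
      · rw [Complex.sub_im]
        have h4 : |(J.getD i 0).im| ≤ h := by
          rw [List.getD_eq_getElem _ _ (mem_range.1 hi)]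
          exact hh3 _ (List.getElem_mem _)
        have h5 : |x.im| ≤ Real.pi / 2 := le_of_lt hx
        exact (abs_sub _ _).trans (by linarith)
      · refine mul_le_of_le_one_right hC20 ?_
        rw [Real.exp_le_one_iff]
        linarith [abs_nonneg (x - J.getD i 0).re]
    have a2 : ‖Complex.I / (4 * Real.pi) * (∑ θ ∈ Gd n, ((1 / (n : ℝ) : ℝ) : ℂ) *
        H2 x (fun z => nG (Gd n) (kap n) (z :: J)) θ - ∫ θ, H2 x (fun z => nG (Gd n) (kap n) (z :: J)) θ)‖ ≤
        6 * (C1 * B1) * er n * Real.exp (|x.re| / 4) := by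
      rw [norm_mul]
      have hb := fun θ => hC1 (fun z => nG (Gd n) (kap n) (z :: J)) B1 (An_nG hP _ _ hJ) hB10
        (fun z hz => hB1' n hn z (hz.trans hh1)) x hx θ
      have := riem (n := n) (by omega) (A := C1 * B1) (a := x.re) (by positivity)
        (fun θ => hasDerivAt_H2 hK hx (An_nG hP (Gd n) (kap n) hJ) θ) (fun θ => (hb θ).1) (fun θ => (hb θ).2)
      refine (mul_le_mul norm_c this (norm_nonneg _) zero_le_one).trans ?_
      rw [one_mul]
      unfold er
      exact le_rfl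
    refine (add_le_add a1 a2).trans ?_
    have hd := del_nonneg n J
    have he := er_nonneg n
    have a3 : C2 * del n J ≤ C2 * del n J * Real.exp (|x.re| / 4) :=
      le_mul_of_one_le_right (by positivity) hw
    rw [hA]
    have a4 : 0 ≤ (C2 * er n + 6 * (C1 * B1) * del n J) * Real.exp (|x.re| / 4) := by positivity
    nlinarith
  -- real points
  have real : ∀ n, 20 ≤ n → ∀ x : ℝ, ‖deriv (DD n J) (x : ℂ)‖ ≤
      4 * (A * (del n J + er n)) * Real.exp (|x| / 4) := by
    intro n hn x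
    have hd := del_nonneg n J
    have he := er_nonneg n
    refine contr (g := fun x : ℝ => ‖deriv (DD n J) (x : ℂ)‖) (fun _ => norm_nonneg _)
      (B := (B1 + B2) / (Real.pi / 3)) ?_ (by positivity) (q := fun x : ℝ => ‖Q x‖) (fun _ => norm_nonneg _)
      hK.cQ ?_ x
    · intro y
      refine cauchy (h := 0) (An_DD hK hP n hJ) (by linarith [Real.pi_pos]) (by linarith [Real.pi_pos]) ?_ (by simp)
      intro z hz
      rw [zero_add] at hz
      exact (norm_sub_le _ _).trans (add_le_add (hB1' n hn z (hz.trans hh1)) (hB2 z hz))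
    · intro y
      have hy : St (y : ℂ) := by unfold St; simp; linarith [Real.pi_pos]
      have := key n hn y hy
      rw [Complex.ofReal_re] at this
      refine this.trans (add_le_add le_rfl ((norm_integral_le_integral_norm _).trans (le_of_eq ?_)))
      congr 1
      funext θ
      rw [norm_mul, ← Complex.ofReal_sub]
  refine ⟨A + C3 * (4 * A) * (8 / 3), by positivity, fun n hn x hx => ?_⟩
  have hd := del_nonneg n J
  have he := er_nonneg n
  refine (key n hn x hx).trans ?_
  have a5 : ‖∫ θ : ℝ, Q (x - θ) * deriv (DD n J) (θ : ℂ)‖ ≤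
      ∫ θ : ℝ, C3 * (4 * (A * (del n J + er n))) * Real.exp (|x.re| / 4) * Real.exp (-(3 / 4 * |x.re - θ|)) := by
    refine norm_integral_le_of_norm_le ((integrable_exp_sub (by norm_num) x.re).const_mul _)
      (Eventually.of_forall fun θ => ?_)
    rw [norm_mul]
    have b1 := hC3 (x - θ) (by
      rw [Complex.sub_im, Complex.ofReal_im, sub_zero]; exact le_of_lt hx)
    rw [Complex.sub_re, Complex.ofReal_re] at b1
    have b2 := real n hn θ
    refine (mul_le_mul b1 b2 (norm_nonneg _) (by positivity)).trans ?_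
    have b3 : Real.exp (-|x.re - θ|) * Real.exp (|θ| / 4) ≤
        Real.exp (|x.re| / 4) * Real.exp (-(3 / 4 * |x.re - θ|)) := by
      rw [← Real.exp_add, ← Real.exp_add]
      refine Real.exp_le_exp.2 ?_
      have := abs_sub_abs_le_abs_sub θ x.re
      rw [abs_sub_comm θ x.re] at this
      linarith
    calc C3 * Real.exp (-|x.re - θ|) * (4 * (A * (del n J + er n)) * Real.exp (|θ| / 4)) =
          (C3 * (4 * (A * (del n J + er n)))) * (Real.exp (-|x.re - θ|) * Real.exp (|θ| / 4)) := by ring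
      _ ≤ (C3 * (4 * (A * (del n J + er n)))) *
          (Real.exp (|x.re| / 4) * Real.exp (-(3 / 4 * |x.re - θ|))) :=
          mul_le_mul_of_nonneg_left b3 (by positivity)
      _ = _ := by ring
  rw [integral_const_mul, integral_exp_sub (by norm_num)] at a5
  refine (add_le_add le_rfl a5).trans (le_of_eq ?_)
  ring

theorem St_convex : Convex ℝ {z : ℂ | St z} := by
  have : {z : ℂ | St z} = Complex.im ⁻¹' Set.Ioo (-(Real.pi / 2)) (Real.pi / 2) := by
    ext z
    simp only [Set.mem_ofPred_eq, St, abs_lt, Set.mem_preimage, Set.mem_Ioo]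
  rw [this]
  exact (convex_Ioo _ _).linear_preimage Complex.imLm

theorem nG_eq (G : Finset ℝ) (κ : ℂ) (v : ℂ) (J : List ℂ) : nG G κ (v :: v :: J) = 0 := by
  unfold nG
  rw [Dl_cons, tp_cons, sub_self, ki_zero]
  ring

/-- **the limit**: even lists in the strip -/
theorem lim_even (hK : KerH) (hP : PfrS) : ∀ (m : ℕ) (J : List ℂ), J.length = 2 * m → (∀ v ∈ J, St v) →
    Tendsto (fun n => nG (Gd n) (kap n) J) atTop (𝓝 (pf p J)) := by
  intro m
  induction m with
  | zero =>
    intro J hJ _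
    have : J = [] := List.length_eq_zero_iff.1 (by omega)
    subst this
    rw [pf_nil]
    refine tendsto_const_nhds.congr' ?_
    filter_upwards [eventually_ge_atTop 20] with n hn
    unfold nG
    simp only [Dl_nil, Lam_nil, mul_one, one_mul]
    rw [div_self (Zne hn)]
  | succ m ih =>
    intro J hJ hSt
    match J, hJ, hSt with
    | [], hJ, _ => simp at hJ
    | [_], hJ, _ => simp at hJ; omega
    | x :: v :: J, hJ, hSt =>
      have hx := hSt x List.mem_cons_self
      have hv := hSt v (List.mem_cons_of_mem _ List.mem_cons_self)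
      have hJ' : ∀ w ∈ v :: J, St w := fun w hw => hSt w (List.mem_cons_of_mem _ hw)
      obtain ⟨C, hC0, hC⟩ := DD_deriv_le hK hP hJ'
      have hdel : Tendsto (fun n => del n (v :: J)) atTop (𝓝 0) := by
        unfold del
        have : Tendsto (fun n => ∑ i ∈ range (v :: J).length,
            ‖nG (Gd n) (kap n) ((v :: J).eraseIdx i) - pf p ((v :: J).eraseIdx i)‖) atTop
            (𝓝 (∑ i ∈ range (v :: J).length, 0)) := by
          refine tendsto_finsetSum _ fun i hi => ?_
          have h1 := ih ((v :: J).eraseIdx i) (by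
            rw [List.length_eraseIdx_of_lt (mem_range.1 hi)]
            simp only [List.length_cons] at hJ ⊢
            omega) fun w hw => hJ' w ((List.eraseIdx_sublist ..).subset hw)
          have h2 := (h1.sub_const (pf p ((v :: J).eraseIdx i))).norm
          rw [sub_self, norm_zero] at h2
          exact h2
        rwa [sum_const_zero] at this
      have hD : ∀ n, 20 ≤ n → ‖DD n (v :: J) x‖ ≤
          C * (del n (v :: J) + er n) * Real.exp ((|x.re| + |v.re|) / 4) * ‖x - v‖ := by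
        intro n hn
        have h0 : DD n (v :: J) v = 0 := by
          unfold DD
          rw [nG_eq, pf_eq p p_zero, sub_zero]
        have h1 : ‖DD n (v :: J) x - DD n (v :: J) v‖ ≤
            C * (del n (v :: J) + er n) * Real.exp ((|x.re| + |v.re|) / 4) * ‖x - v‖ := by
          have hseg : segment ℝ v x ⊆ {z : ℂ | St z} := St_convex.segment_subset hv hx
          refine Convex.norm_image_sub_le_of_norm_deriv_le (s := segment ℝ v x) (fun z hz => ?_)
            (fun z hz => ?_) (convex_segment _ _) (left_mem_segment _ _ _) (right_mem_segment _ _ _)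
          · exact An_DD hK hP n hJ' z (hseg hz)
          · refine (hC n hn z (hseg hz)).trans ?_
            have hd := del_nonneg n (v :: J)
            have he := er_nonneg n
            refine mul_le_mul_of_nonneg_left (Real.exp_le_exp.2 ?_) (by positivity)
            obtain ⟨a, b, ha, hb, hab, rfl⟩ := hz
            have h2 : (a • v + b • x).re = a * v.re + b * x.re := by
              simp
            rw [h2]
            have h3 : |a * v.re + b * x.re| ≤ |v.re| + |x.re| := by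
              refine (abs_add_le _ _).trans ?_
              rw [abs_mul, abs_mul, abs_of_nonneg ha, abs_of_nonneg hb]
              have h4 : a ≤ 1 := by linarith
              have h5 : b ≤ 1 := by linarith
              have h6 := mul_le_of_le_one_left (abs_nonneg v.re) h4
              have h7 := mul_le_of_le_one_left (abs_nonneg x.re) h5
              linarith
            linarith
        rwa [h0, sub_zero] at h1
      have hlim : Tendsto (fun n => C * (del n (v :: J) + er n) * Real.exp ((|x.re| + |v.re|) / 4) * ‖x - v‖)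
          atTop (𝓝 (C * (0 + 0) * Real.exp ((|x.re| + |v.re|) / 4) * ‖x - v‖)) :=
        (((hdel.add er_tendsto).const_mul C).mul_const _).mul_const _
      rw [add_zero, mul_zero, zero_mul, zero_mul] at hlim
      have hDD : Tendsto (fun n => DD n (v :: J) x) atTop (𝓝 0) := by
        refine squeeze_zero_norm' ?_ hlim
        filter_upwards [eventually_ge_atTop 20] with n hn using hD n hn
      have := hDD.add_const (pf p (x :: v :: J))
      rw [zero_add] at this
      refine this.congr fun n => ?_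
      unfold DD
      ring

end DUA

end
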