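import Pool.Agent.DUA.Grid

/-!
# Multiple Riemann sums on the grids `Gd n`, sums over subsets as sums over tuples, limits of series (helper62)
-/

set_option autoImplicit false

noncomputable section

open Finset MeasureTheory Set Filter Topology

namespace DUA

/-! ### continuity of limits under continuous convergence -/

/-- continuous convergence: the limit is continuous -/
theorem cont_of_seq {X : Type*} [TopologicalSpace X] [FirstCountableTopology X] {r : ℕ → X → ℂ} {ρ : X → ℂ}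
    (hlim : ∀ (x : X) (s : ℕ → X), Tendsto s atTop (𝓝 x) → Tendsto (fun n => r n (s n)) atTop (𝓝 (ρ x))) :
    Continuous ρ := by
  rw [continuous_iff_continuousAt]
  intro x
  by_contra hc
  rw [ContinuousAt, Metric.tendsto_nhds] at hc
  push Not at hc
  obtain ⟨ε, hε, hf⟩ := hc
  obtain ⟨u, hu1, hu2⟩ := (Filter.exists_seq_forall_of_frequently hf)
  have h1 : ∀ k, ∃ N, ∀ n ≥ N, dist (r n (u k)) (ρ (u k)) < ε / 2 := by
    intro k
    have := hlim (u k) (fun _ => u k) tendsto_const_nhds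
    exact eventually_atTop.1 ((Metric.tendsto_nhds.1 this) (ε / 2) (by linarith))
  obtain ⟨φ, hφ, h2⟩ := Filter.extraction_forall_of_eventually' h1
  classical
  obtain ⟨s, hs⟩ : ∃ s : ℕ → X, s = fun n => if h : ∃ k, φ k = n then u h.choose else x := ⟨_, rfl⟩
  have h3 : ∀ k, s (φ k) = u k := by
    intro k
    have hk : ∃ k', φ k' = φ k := ⟨k, rfl⟩
    rw [hs]
    simp only
    rw [dif_pos hk, hφ.injective hk.choose_spec]
  have h4 : Tendsto s atTop (𝓝 x) := by
    rw [tendsto_atTop_nhds]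
    intro U hx hU
    obtain ⟨K, hK⟩ := (tendsto_atTop_nhds.1 hu1) U hx hU
    refine ⟨φ K, fun n hn => ?_⟩
    by_cases hk : ∃ k, φ k = n
    · obtain ⟨k, rfl⟩ := hk
      rw [h3]
      exact hK k (hφ.le_iff_le.1 hn)
    · rw [hs]
      simp only
      rw [dif_neg hk]
      exact hx
  have h5 := (Metric.tendsto_nhds.1 (hlim x s h4)) (ε / 2) (by linarith)
  rw [eventually_atTop] at h5
  obtain ⟨K, hK⟩ := h5
  have h6 := hK (φ K) (hφ.id_le K)
  rw [h3] at h6
  have h7 := h2 K
  have h8 := hu2 K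
  have h9 := dist_triangle (ρ (u K)) (r (φ K) (u K)) (ρ x)
  rw [dist_comm (ρ (u K)) (r (φ K) (u K))] at h9
  linarith

/-! ### cells -/

/-- the corner of the cell -/
def cn (n : ℕ) (x : ℝ) : ℝ := (⌊(n : ℝ) * x⌋ : ℝ) / n

theorem cn_le {n : ℕ} (hn : 0 < n) (x : ℝ) : cn n x ≤ x := by
  have hn' : (0 : ℝ) < n := by exact_mod_cast hn
  unfold cn
  rw [div_le_iff₀ hn', mul_comm x]
  exact Int.floor_le _

theorem lt_cn {n : ℕ} (hn : 0 < n) (x : ℝ) : x < cn n x + 1 / n := by
  have hn' : (0 : ℝ) < n := by exact_mod_cast hn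
  unfold cn
  rw [← add_div, lt_div_iff₀ hn', mul_comm x]
  exact Int.lt_floor_add_one _

theorem cn_near {n : ℕ} (hn : 0 < n) (x : ℝ) : |cn n x - x| ≤ 1 / n := by
  have h1 := cn_le hn x
  have h2 := lt_cn hn x
  rw [abs_le]
  constructor <;> linarith

theorem cn_lim (x : ℝ) : Tendsto (fun n => cn n x) atTop (𝓝 x) := by
  rw [tendsto_iff_norm_sub_tendsto_zero]
  refine squeeze_zero' (Eventually.of_forall fun _ => norm_nonneg _) ?_ tendsto_one_div_atTop_nhds_zero_nat
  filter_upwards [eventually_gt_atTop 0] with n hn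
  exact cn_near hn x

theorem mem_cell {n : ℕ} (hn : 0 < n) {g x : ℝ} (hg : g ∈ Gd n) : x ∈ Set.Ico g (g + 1 / n) ↔ cn n x = g := by
  have hn' : (0 : ℝ) < n := by exact_mod_cast hn
  constructor
  · rintro ⟨h1, h2⟩
    unfold Gd at hg
    rw [Finset.mem_image] at hg
    obtain ⟨j, -, rfl⟩ := hg
    have h3 : ⌊(n : ℝ) * x⌋ = (j : ℤ) - (n : ℤ) ^ 2 := by
      rw [Int.floor_eq_iff]
      unfold gp at h1 h2
      push_cast
      constructor
      · have := mul_le_mul_of_nonneg_left h1 hn'.le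
        have e : (n : ℝ) * ((j : ℝ) / n - n) = j - n ^ 2 := by field_simp
        linarith
      · have := mul_lt_mul_of_pos_left h2 hn'
        have e : (n : ℝ) * ((j : ℝ) / n - n + 1 / n) = j - n ^ 2 + 1 := by field_simp
        linarith
    unfold cn gp
    rw [h3]
    push_cast
    field_simp
  · intro h
    rw [← h]
    exact ⟨cn_le hn x, lt_cn hn x⟩

theorem cn_mem {n : ℕ} (hn : 0 < n) {x : ℝ} (h1 : -(n : ℝ) ≤ x) (h2 : x < n) : cn n x ∈ Gd n := by
  have hn' : (0 : ℝ) < n := by exact_mod_cast hn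
  unfold Gd
  rw [Finset.mem_image]
  have h3 : -(n : ℤ) ^ 2 ≤ ⌊(n : ℝ) * x⌋ := by
    rw [Int.le_floor]
    push_cast
    nlinarith
  have h4 : ⌊(n : ℝ) * x⌋ < (n : ℤ) ^ 2 := by
    rw [Int.floor_lt]
    push_cast
    nlinarith
  refine ⟨(⌊(n : ℝ) * x⌋ + (n : ℤ) ^ 2).toNat, ?_, ?_⟩
  · rw [Finset.mem_range]
    zify
    rw [Int.toNat_of_nonneg (by linarith)]
    linarith
  · unfold gp cn
    have h5 : (((⌊(n : ℝ) * x⌋ + (n : ℤ) ^ 2).toNat : ℕ) : ℝ) = (⌊(n : ℝ) * x⌋ : ℝ) + (n : ℝ) ^ 2 := by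
      have h6 : (((⌊(n : ℝ) * x⌋ + (n : ℤ) ^ 2).toNat : ℕ) : ℤ) = ⌊(n : ℝ) * x⌋ + (n : ℤ) ^ 2 :=
        Int.toNat_of_nonneg (by linarith)
      exact_mod_cast h6
    rw [h5]
    field_simp
    ring

/-! ### the multiple Riemann sum -/

variable {m : ℕ}

/-- the sum over the cells -/
def stepF (n : ℕ) (f : (Fin m → ℝ) → ℂ) (θ : Fin m → ℝ) : ℂ :=
  ∑ g ∈ Fintype.piFinset (fun _ : Fin m => Gd n),
    (Set.univ.pi fun i => Set.Ico (g i) (g i + 1 / n)).indicator (fun _ => f g) θ

theorem stepF_eq {n : ℕ} (hn : 0 < n) (f : (Fin m → ℝ) → ℂ) (θ : Fin m → ℝ) :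
    stepF n f θ = if ∀ i, cn n (θ i) ∈ Gd n then f (fun i => cn n (θ i)) else 0 := by
  classical
  unfold stepF
  have h1 : ∀ g ∈ Fintype.piFinset (fun _ : Fin m => Gd n),
      (Set.univ.pi fun i => Set.Ico (g i) (g i + 1 / n)).indicator (fun _ => f g) θ =
        if (fun i => cn n (θ i)) = g then f g else 0 := by
    intro g hg
    rw [Fintype.mem_piFinset] at hg
    rw [Set.indicator_apply]
    refine if_congr ?_ rfl rfl
    rw [Set.mem_univ_pi]
    constructor
    · intro h
      funext i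
      exact (mem_cell hn (hg i)).1 (h i)
    · intro h i
      exact (mem_cell hn (hg i)).2 (congrFun h i)
  rw [Finset.sum_congr rfl h1, Finset.sum_ite_eq]
  refine if_congr ?_ rfl rfl
  rw [Fintype.mem_piFinset]

theorem volume_cell {n : ℕ} (hn : 0 < n) (g : Fin m → ℝ) :
    (volume (Set.univ.pi fun i => Set.Ico (g i) (g i + 1 / (n : ℝ)))).toReal = (1 / (n : ℝ)) ^ m := by
  rw [Real.volume_pi_Ico, ENNReal.toReal_prod]
  have hn' : (0 : ℝ) < n := by exact_mod_cast hn
  have h1 : ∀ i : Fin m, (ENNReal.ofReal (g i + 1 / (n : ℝ) - g i)).toReal = 1 / (n : ℝ) := by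
    intro i
    rw [add_sub_cancel_left, ENNReal.toReal_ofReal (by positivity)]
  rw [Finset.prod_congr rfl fun i _ => h1 i, Finset.prod_const, Finset.card_univ, Fintype.card_fin]

theorem measurableSet_cell (n : ℕ) (g : Fin m → ℝ) :
    MeasurableSet (Set.univ.pi fun i => Set.Ico (g i) (g i + 1 / (n : ℝ))) :=
  MeasurableSet.univ_pi fun _ => measurableSet_Ico

theorem measurable_stepF (n : ℕ) (f : (Fin m → ℝ) → ℂ) : Measurable (stepF n f) := by
  unfold stepF
  exact Finset.measurable_sum _ fun g _ => measurable_const.indicator (measurableSet_cell n g)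

theorem integral_stepF {n : ℕ} (hn : 0 < n) (f : (Fin m → ℝ) → ℂ) :
    ∫ θ, stepF n f θ = ∑ g ∈ Fintype.piFinset (fun _ : Fin m => Gd n), (((1 / (n : ℝ)) ^ m : ℝ) : ℂ) * f g := by
  unfold stepF
  have hfin : ∀ g : Fin m → ℝ, volume (Set.univ.pi fun i => Set.Ico (g i) (g i + 1 / (n : ℝ))) ≠ ⊤ := by
    intro g
    rw [Real.volume_pi_Ico]
    exact ENNReal.prod_ne_top fun i _ => ENNReal.ofReal_ne_top
  rw [integral_finsetSum]
  · refine Finset.sum_congr rfl fun g _ => ?_
    rw [integral_indicator_const _ (measurableSet_cell n g), measureReal_def, volume_cell hn, Complex.real_smul]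
  · intro g _
    exact (integrable_indicator_iff (measurableSet_cell n g)).2 (integrableOn_const (hfin g))

/-- **multiple Riemann sums** -/
theorem riem_multi (m : ℕ) {h : ℝ → ℂ} (hh : Continuous h) {A a : ℝ} (hA : ∀ x, ‖h x‖ ≤ A * ew a x)
    {r : ℕ → (Fin m → ℝ) → ℂ} {ρ : (Fin m → ℝ) → ℂ} {B : ℝ} (hr : ∀ n θ, ‖r n θ‖ ≤ B)
    (hlim : ∀ (θ : Fin m → ℝ) (s : ℕ → Fin m → ℝ), Tendsto s atTop (𝓝 θ) →
      Tendsto (fun n => r n (s n)) atTop (𝓝 (ρ θ))) :
    Continuous ρ ∧ (∀ θ, ‖ρ θ‖ ≤ B) ∧ Integrable (fun θ : Fin m → ℝ => (∏ i, h (θ i)) * ρ θ) ∧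
      Tendsto (fun n : ℕ => ∑ θ ∈ Fintype.piFinset (fun _ : Fin m => Gd n),
        (∏ i, (((1 / (n : ℝ) : ℝ) : ℂ) * h (θ i))) * r n θ) atTop (𝓝 (∫ θ : Fin m → ℝ, (∏ i, h (θ i)) * ρ θ)) := by
  have hρc : Continuous ρ := cont_of_seq hlim
  have hρB : ∀ θ, ‖ρ θ‖ ≤ B := by
    intro θ
    have h1 := (hlim θ (fun _ => θ) tendsto_const_nhds).norm
    exact le_of_tendsto h1 (Eventually.of_forall fun n => hr n θ)
  have hB : 0 ≤ B := (norm_nonneg _).trans (hr 0 (fun _ => 0))
  have hA0 : 0 ≤ A := by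
    have h1 := (norm_nonneg _).trans (hA a)
    have h2 := ew_pos a a
    by_contra hc
    push Not at hc
    nlinarith
  have hhi : Integrable h := ((integrable_ew a).const_mul A).mono' hh.aestronglyMeasurable
    (Eventually.of_forall hA)
  have hew : Integrable fun θ : Fin m → ℝ => ∏ i, (A * Real.exp 1 * ew a (θ i)) :=
    Integrable.fintype_prod (f := fun (_ : Fin m) (x : ℝ) => A * Real.exp 1 * ew a x)
      (fun _ => (integrable_ew a).const_mul _)
  have hprod : Continuous fun θ : Fin m → ℝ => ∏ i, h (θ i) :=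
    continuous_finsetProd _ fun i _ => hh.comp (continuous_apply i)
  have he1 : 1 ≤ Real.exp 1 := Real.one_le_exp zero_le_one
  have hpb : ∀ θ : Fin m → ℝ, ‖∏ i, h (θ i)‖ ≤ ∏ i, (A * Real.exp 1 * ew a (θ i)) := by
    intro θ
    rw [norm_prod]
    refine Finset.prod_le_prod (fun _ _ => norm_nonneg _) fun i _ => (hA _).trans ?_
    have := ew_pos a (θ i)
    have h2 : A * 1 ≤ A * Real.exp 1 := mul_le_mul_of_nonneg_left he1 hA0
    rw [mul_one] at h2
    exact mul_le_mul_of_nonneg_right h2 this.le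
  refine ⟨hρc, hρB, ?_, ?_⟩
  · refine (hew.mul_const B).mono' (hprod.mul hρc).aestronglyMeasurable (Eventually.of_forall fun θ => ?_)
    rw [norm_mul]
    exact mul_le_mul (hpb θ) (hρB θ) (norm_nonneg _) (Finset.prod_nonneg fun i _ => by
      have := ew_pos a (θ i)
      positivity)
  -- the step functions
  have h1 : (fun n : ℕ => ∑ θ ∈ Fintype.piFinset (fun _ : Fin m => Gd n),
      (∏ i, (((1 / (n : ℝ) : ℝ) : ℂ) * h (θ i))) * r n θ) =ᶠ[atTop]
      fun n => ∫ θ : Fin m → ℝ, stepF n (fun θ => (∏ i, h (θ i)) * r n θ) θ := by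
    filter_upwards [eventually_gt_atTop 0] with n hn
    rw [integral_stepF hn]
    refine Finset.sum_congr rfl fun g _ => ?_
    rw [Finset.prod_mul_distrib, Finset.prod_const, Finset.card_univ, Fintype.card_fin]
    push_cast
    ring
  refine Tendsto.congr' h1.symm ?_
  refine tendsto_integral_filter_of_dominated_convergence (fun θ : Fin m → ℝ => (∏ i, (A * Real.exp 1 * ew a (θ i))) * B)
    (Eventually.of_forall fun n => (measurable_stepF n _).aestronglyMeasurable) ?_ (hew.mul_const B) ?_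
  · filter_upwards [eventually_gt_atTop 0] with n hn
    refine Eventually.of_forall fun θ => ?_
    have hn1 : (1 : ℝ) ≤ n := by exact_mod_cast hn
    rw [stepF_eq hn]
    split_ifs with hc
    · rw [norm_mul, norm_prod]
      refine mul_le_mul (Finset.prod_le_prod (fun _ _ => norm_nonneg _) fun i _ => (hA _).trans ?_) (hr _ _)
        (norm_nonneg _) (Finset.prod_nonneg fun i _ => by
          have := ew_pos a (θ i)
          positivity)
      rw [mul_assoc]
      refine mul_le_mul_of_nonneg_left (ew_near ((cn_near hn _).trans ?_)) hA0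
      rw [div_le_one (by linarith)]
      exact hn1
    · rw [norm_zero]
      exact mul_nonneg (Finset.prod_nonneg fun i _ => by
        have := ew_pos a (θ i)
        positivity) hB
  · refine Eventually.of_forall fun θ => ?_
    have h2 : Tendsto (fun n : ℕ => fun i => cn n (θ i)) atTop (𝓝 θ) :=
      tendsto_pi_nhds.2 fun i => cn_lim (θ i)
    have h3 : Tendsto (fun n : ℕ => (∏ i, h (cn n (θ i))) * r n (fun i => cn n (θ i))) atTop
        (𝓝 ((∏ i, h (θ i)) * ρ θ)) := ((hprod.tendsto θ).comp h2).mul (hlim θ _ h2)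
    refine h3.congr' ?_
    obtain ⟨K, hK⟩ : ∃ K : ℕ, ∀ i, |θ i| < K := by
      obtain ⟨K, hK⟩ := exists_nat_gt (∑ i, |θ i|)
      exact ⟨K, fun i => lt_of_le_of_lt (Finset.single_le_sum (f := fun i => |θ i|) (fun _ _ => abs_nonneg _)
        (Finset.mem_univ i)) hK⟩
    filter_upwards [eventually_gt_atTop 0, eventually_ge_atTop K] with n hn hnK
    rw [stepF_eq hn, if_pos]
    intro i
    have h4 : (K : ℝ) ≤ n := by exact_mod_cast hnK
    have h5 := abs_lt.1 (hK i)
    exact cn_mem hn (by linarith) (by linarith)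

/-! ### subsets and tuples -/

/-- the number of the enumerations of a finite set -/
theorem card_enum {α : Type*} [DecidableEq α] {m : ℕ} {S : Finset α} (hS : S.card = m) :
    ((Fintype.piFinset (fun _ : Fin m => S)).filter Function.Injective).card = m.factorial := by
  classical
  have h1 : Fintype.card (Fin m ↪ S) = m.factorial := by
    rw [Fintype.card_embedding_eq, Fintype.card_coe, Fintype.card_fin, hS, Nat.descFactorial_self]
  rw [← h1, ← Finset.card_univ]
  refine Finset.card_bij' (fun θ hθ => ⟨fun i => ⟨θ i, ?_⟩, ?_⟩) (fun e _ => fun i => (e i : α)) ?_ ?_ ?_ ?_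
  · exact Fintype.mem_piFinset.1 (Finset.mem_filter.1 hθ).1 i
  · intro i j hij
    exact (Finset.mem_filter.1 hθ).2 (congrArg Subtype.val hij)
  · intro θ _
    exact Finset.mem_univ _
  · intro e _
    rw [Finset.mem_filter, Fintype.mem_piFinset]
    exact ⟨fun i => (e i).2, fun i j hij => e.injective (Subtype.ext hij)⟩
  · intro θ _
    rfl
  · intro e _
    ext i
    rfl

theorem sum_tuples {α : Type*} [DecidableEq α] (G : Finset α) (m : ℕ) (F : (Fin m → α) → ℂ) (H : Finset α → ℂ)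
    (h0 : ∀ θ, ¬ Function.Injective θ → F θ = 0)
    (h1 : ∀ θ, Function.Injective θ → F θ = H (Finset.univ.image θ)) :
    ∑ θ ∈ Fintype.piFinset (fun _ : Fin m => G), F θ = (m.factorial : ℂ) * ∑ S ∈ G.powersetCard m, H S := by
  classical
  rw [← Finset.sum_filter_add_sum_filter_not (Fintype.piFinset (fun _ : Fin m => G)) Function.Injective]
  have e0 : ∑ θ ∈ (Fintype.piFinset (fun _ : Fin m => G)).filter (fun θ => ¬ Function.Injective θ), F θ = 0 :=
    Finset.sum_eq_zero fun θ hθ => h0 θ (Finset.mem_filter.1 hθ).2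
  rw [e0, add_zero]
  have hmap : ∀ θ ∈ (Fintype.piFinset (fun _ : Fin m => G)).filter Function.Injective,
      Finset.univ.image θ ∈ G.powersetCard m := by
    intro θ hθ
    rw [Finset.mem_filter, Fintype.mem_piFinset] at hθ
    rw [Finset.mem_powersetCard]
    refine ⟨fun x hx => ?_, ?_⟩
    · rw [Finset.mem_image] at hx
      obtain ⟨i, -, rfl⟩ := hx
      exact hθ.1 i
    · rw [Finset.card_image_of_injective _ hθ.2, Finset.card_univ, Fintype.card_fin]
  rw [← Finset.sum_fiberwise_of_maps_to hmap, Finset.mul_sum]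
  refine Finset.sum_congr rfl fun S hS => ?_
  rw [Finset.mem_powersetCard] at hS
  have e1 : ((Fintype.piFinset (fun _ : Fin m => G)).filter Function.Injective).filter
      (fun θ => Finset.univ.image θ = S) = (Fintype.piFinset (fun _ : Fin m => S)).filter Function.Injective := by
    ext θ
    simp only [Finset.mem_filter, Fintype.mem_piFinset]
    constructor
    · rintro ⟨⟨-, h3⟩, h4⟩
      refine ⟨fun i => ?_, h3⟩
      rw [← h4]
      exact Finset.mem_image_of_mem _ (Finset.mem_univ i)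
    · rintro ⟨h2, h3⟩
      refine ⟨⟨fun i => hS.1 (h2 i), h3⟩, ?_⟩
      refine Finset.eq_of_subset_of_card_le (fun x hx => ?_) ?_
      · rw [Finset.mem_image] at hx
        obtain ⟨i, -, rfl⟩ := hx
        exact h2 i
      · rw [Finset.card_image_of_injective _ h3, Finset.card_univ, Fintype.card_fin, hS.2]
  have e2 : ∀ θ ∈ ((Fintype.piFinset (fun _ : Fin m => G)).filter Function.Injective).filter
      (fun θ => Finset.univ.image θ = S), F θ = H S := by
    intro θ hθ
    rw [Finset.mem_filter, Finset.mem_filter] at hθ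
    rw [h1 θ hθ.1.2, hθ.2]
  rw [Finset.sum_congr rfl e2, Finset.sum_const, e1, card_enum hS.2, nsmul_eq_mul]

/-- **sums over subsets as sums over tuples** -/
theorem sum_sets {G : Finset ℝ} {g : ℝ → ℂ} {R : List ℝ → ℂ} (hp : ∀ l l' : List ℝ, l.Perm l' → R l = R l')
    (h0 : ∀ l : List ℝ, ¬ l.Nodup → R l = 0) {M : ℕ} (hM : G.card ≤ M) :
    ∑ S ∈ G.powerset, (∏ s ∈ S, g s) * R S.toList = ∑ m ∈ Finset.range (M + 1), (1 / (m.factorial : ℂ)) *
      ∑ θ ∈ Fintype.piFinset (fun _ : Fin m => G), (∏ i, g (θ i)) * R (List.ofFn θ) := by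
  classical
  have h1 : ∀ m, ∑ θ ∈ Fintype.piFinset (fun _ : Fin m => G), (∏ i, g (θ i)) * R (List.ofFn θ) =
      (m.factorial : ℂ) * ∑ S ∈ G.powersetCard m, (∏ s ∈ S, g s) * R S.toList := by
    intro m
    refine sum_tuples G m _ _ (fun θ hθ => ?_) fun θ hθ => ?_
    · rw [h0 _ (fun h => hθ (List.nodup_ofFn.1 h)), mul_zero]
    · rw [Finset.prod_image fun i _ j _ h => hθ h]
      congr 1
      refine hp _ _ ?_
      refine (List.perm_ext_iff_of_nodup (List.nodup_ofFn.2 hθ) (Finset.nodup_toList _)).2 fun x => ?_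
      rw [List.mem_ofFn, Finset.mem_toList, Finset.mem_image]
      simp
  have h2 : ∀ m, (1 / (m.factorial : ℂ)) *
      ∑ θ ∈ Fintype.piFinset (fun _ : Fin m => G), (∏ i, g (θ i)) * R (List.ofFn θ) =
        ∑ S ∈ G.powersetCard m, (∏ s ∈ S, g s) * R S.toList := by
    intro m
    rw [h1, ← mul_assoc, one_div, inv_mul_cancel₀ (by exact_mod_cast m.factorial_ne_zero), one_mul]
  rw [Finset.sum_congr rfl fun m _ => h2 m, Finset.sum_powerset]
  refine Finset.sum_subset (Finset.range_mono (by omega)) fun m _ hm => ?_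
  rw [Finset.mem_range, not_lt] at hm
  rw [Finset.powersetCard_eq_empty.2 (by omega), Finset.sum_empty]

/-! ### the limit of the whole series -/

/-- **Tannery** -/
theorem series_lim {T : ℕ → ℕ → ℂ} {T' : ℕ → ℂ} {C : ℝ} (hT : ∀ n m, ‖T n m‖ ≤ C ^ m / m.factorial)
    (hl : ∀ m, Tendsto (fun n => T n m) atTop (𝓝 (T' m))) {M : ℕ → ℕ} (hM : Tendsto M atTop atTop) :
    Summable T' ∧ (∀ m, ‖T' m‖ ≤ C ^ m / m.factorial) ∧
      Tendsto (fun n => ∑ m ∈ Finset.range (M n + 1), T n m) atTop (𝓝 (∑' m, T' m)) := by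
  have hs : Summable fun m : ℕ => C ^ m / m.factorial := Real.summable_pow_div_factorial C
  have hb : ∀ m, ‖T' m‖ ≤ C ^ m / m.factorial := fun m =>
    le_of_tendsto (hl m).norm (Eventually.of_forall fun n => hT n m)
  refine ⟨Summable.of_norm_bounded hs hb, hb, ?_⟩
  have h1 : ∀ n, ∑ m ∈ Finset.range (M n + 1), T n m = ∑' m, if m < M n + 1 then T n m else 0 := by
    intro n
    rw [tsum_eq_sum (s := Finset.range (M n + 1))]
    · exact Finset.sum_congr rfl fun m hm => (if_pos (Finset.mem_range.1 hm)).symm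
    · intro m hm
      rw [Finset.mem_range] at hm
      exact if_neg hm
  simp only [h1]
  refine tendsto_tsum_of_dominated_convergence hs (fun m => ?_) (Eventually.of_forall fun n m => ?_)
  · refine (hl m).congr' ?_
    filter_upwards [hM.eventually_ge_atTop m] with n hn
    rw [if_pos (by omega)]
  · split_ifs
    · exact hT n m
    · rw [norm_zero]
      exact (norm_nonneg _).trans (hT n m)

end DUA

end
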