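import Pool.Agent.DUA.LimB
import Pool.Agent.DUA.RiemM

/-!
# The dual series

`rho m θ = (t (2 a6))⁻ᵐ * pf p (θ_i ± a6)` are the correlation functions of the gas, `‖rho m θ‖ ≤ (7 / 2) ^ m`;
`gas Λ = ∑ (1 / m!) ∫ ∏ (- z0 (Λ (θ_i) - 1)) rho m θ`, and `Dl J * gas (Lam J) = pf p J` for every list `J` of even
length in the strip.
-/

set_option autoImplicit false

noncomputable section

open Finset MeasureTheory Filter Topology

namespace DUA

/-- the pairs of rows at the heights `l` -/
def prs : List ℝ → List ℂ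
  | [] => []
  | a :: l => ((a : ℂ) + a6) :: ((a : ℂ) - a6) :: prs l

theorem length_prs (l : List ℝ) : (prs l).length = 2 * l.length := by
  induction l with
  | nil => rfl
  | cons a l ih => simp only [prs, List.length_cons, ih]; ring

theorem im_prs (l : List ℝ) : ∀ v ∈ prs l, |v.im| ≤ Real.pi / 6 := by
  induction l with
  | nil => intro v hv; simp [prs] at hv
  | cons a l ih =>
    intro v hv
    have hpi := Real.pi_pos
    rcases List.mem_cons.1 hv with rfl | hv
    · rw [im_y1, abs_of_pos (by linarith)]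
    rcases List.mem_cons.1 hv with rfl | hv
    · rw [im_y2, abs_neg, abs_of_pos (by linarith)]
    · exact ih v hv

theorem St_prs (l : List ℝ) : ∀ v ∈ prs l, St v := fun v hv =>
  (im_prs l v hv).trans_lt (by linarith [Real.pi_pos])

theorem W_nil (T : Finset ℝ) : W [] T = (pV V T : ℂ) := by
  unfold W
  simp [Dl_nil, Lam_nil]

theorem W_prs : ∀ (l : List ℝ), l.Nodup → ∀ T : Finset ℝ, Disjoint T l.toFinset →
    W (prs l) T = t (2 * a6) ^ l.length * W [] (T ∪ l.toFinset) := by
  classical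
  intro l
  induction l with
  | nil => intro _ T _; simp [prs]
  | cons a l ih =>
    intro hn T hT
    rw [List.nodup_cons] at hn
    rw [List.toFinset_cons, disjoint_insert_right] at hT
    have h1 : W (prs (a :: l)) T = t (2 * a6) * W (prs l) (insert a T) := by
      rw [W_insert hT.1]; rfl
    have h2 : Disjoint (insert a T) l.toFinset := by
      rw [disjoint_insert_left]
      exact ⟨fun h => hn.1 (List.mem_toFinset.1 h), hT.2⟩
    rw [h1, ih hn.2 _ h2, List.length_cons, pow_succ, List.toFinset_cons, insert_union, union_insert]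
    ring

theorem Dl_prs {l : List ℝ} (hl : l.Nodup) : Dl (prs l) = t (2 * a6) ^ l.length * (pV V l.toFinset : ℂ) := by
  classical
  have h := W_prs l hl ∅ (disjoint_empty_left _)
  rwa [W_empty, empty_union, W_nil] at h

theorem Lam_prs {l : List ℝ} (hl : l.Nodup) (s : ℝ) : Lam (prs l) (s : ℂ) = (VT V l.toFinset s : ℂ) := by
  classical
  induction l with
  | nil => simp [prs, Lam_nil]
  | cons a l ih =>
    rw [List.nodup_cons] at hl
    have ha : a ∉ l.toFinset := fun h => hl.1 (List.mem_toFinset.1 h)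
    rw [List.toFinset_cons, VT_insert V ha, Complex.ofReal_mul, V_tau, ← ih hl.2]
    show Lam (((a : ℂ) + a6) :: ((a : ℂ) - a6) :: prs l) (s : ℂ) = _
    rw [Lam_cons, Lam_cons]
    push_cast
    rw [show (a : ℂ) + a6 - s = a - s + a6 by ring, show (a : ℂ) - a6 - s = a - s - a6 by ring]
    ring

theorem Dl_zero {J : List ℂ} (h : ¬ J.Nodup) : Dl J = 0 := by
  induction J with
  | nil => simp at h
  | cons x J ih =>
    rw [Dl_cons]
    by_cases hx : x ∈ J
    · have : tp x J = 0 := by
        unfold tp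
        refine List.prod_eq_zero ?_
        rw [List.mem_map]
        exact ⟨x, hx, by rw [sub_self, ki_zero]⟩
      rw [this, zero_mul]
    · rw [List.nodup_cons] at h
      rw [ih fun h2 => h ⟨hx, h2⟩, mul_zero]

theorem mem_prs {a : ℝ} {l : List ℝ} (h : a ∈ l) : ((a : ℂ) + a6) ∈ prs l := by
  induction l with
  | nil => simp at h
  | cons b l ih =>
    rcases List.mem_cons.1 h with rfl | h
    · exact List.mem_cons_self
    · exact List.mem_cons_of_mem _ (List.mem_cons_of_mem _ (ih h))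

theorem nodup_of_prs {l : List ℝ} (h : (prs l).Nodup) : l.Nodup := by
  induction l with
  | nil => simp
  | cons a l ih =>
    change (((a : ℂ) + a6) :: ((a : ℂ) - a6) :: prs l).Nodup at h
    rw [List.nodup_cons, List.nodup_cons] at h
    rw [List.nodup_cons]
    exact ⟨fun ha => h.1 (List.mem_cons_of_mem _ (mem_prs ha)), ih h.2.2⟩

/-- the correlation function of the grid as a function of lists -/
def RR (n : ℕ) (l : List ℝ) : ℂ := (t (2 * a6) ^ l.length)⁻¹ * nG (Gd n) (kap n) (prs l)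

theorem RR_eq (n : ℕ) {l : List ℝ} (hl : l.Nodup) : RR n l = rr V (Gd n) (fun _ => kap n) l.toFinset := by
  unfold RR nG rr
  have e : (fun s : ℝ => kap n * Lam (prs l) (s : ℂ)) = fun s => kap n * (VT V l.toFinset s : ℂ) := by
    funext s; rw [Lam_prs hl]
  rw [Dl_prs hl, e]
  have h0 : t (2 * a6) ^ l.length ≠ 0 := pow_ne_zero _ t_2a6_ne
  rw [mul_assoc, inv_mul_cancel_left₀ h0]
  ring

theorem RR_zero (n : ℕ) {l : List ℝ} (hl : ¬ l.Nodup) : RR n l = 0 := by
  unfold RR nG
  rw [Dl_zero fun h => hl (nodup_of_prs h)]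
  ring

theorem RR_perm (n : ℕ) {l l' : List ℝ} (h : l.Perm l') : RR n l = RR n l' := by
  by_cases hl : l.Nodup
  · rw [RR_eq n hl, RR_eq n (h.nodup_iff.1 hl), List.toFinset_eq_of_perm _ _ h]
  · rw [RR_zero n hl, RR_zero n fun h2 => hl (h.nodup_iff.2 h2)]

theorem RR_le {n : ℕ} (hn : 20 ≤ n) (l : List ℝ) : ‖RR n l‖ ≤ (7 / 2) ^ l.length := by
  by_cases hl : l.Nodup
  · rw [RR_eq n hl]
    have := rr_le hn l.toFinset
    rwa [List.toFinset_card_of_nodup hl] at this
  · rw [RR_zero n hl, norm_zero]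
    positivity

/-- the correlation functions -/
def rho (m : ℕ) (θ : Fin m → ℝ) : ℂ := (t (2 * a6) ^ m)⁻¹ * pf p (prs (List.ofFn θ))

theorem RR_lim (hK : KerH) (hP : PfrS) {m : ℕ} (θ : Fin m → ℝ) :
    Tendsto (fun n => RR n (List.ofFn θ)) atTop (𝓝 (rho m θ)) := by
  unfold RR rho
  rw [List.length_ofFn]
  refine (lim_even hK hP m _ ?_ (St_prs _)).const_mul _
  rw [length_prs, List.length_ofFn]

/-! ### moving a row -/

theorem tp_append (x : ℂ) (J K : List ℂ) : tp x (J ++ K) = tp x J * tp x K := by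
  unfold tp; rw [List.map_append, List.prod_append]

theorem Dl_move (pre : List ℂ) (x : ℂ) (K : List ℂ) :
    Dl (pre ++ x :: K) = (-1) ^ pre.length * Dl (x :: (pre ++ K)) := by
  induction pre with
  | nil => simp
  | cons b pre ih =>
    rw [List.cons_append, Dl_cons, ih, List.length_cons, List.cons_append, Dl_cons, Dl_cons, Dl_cons,
      tp_append, tp_cons, tp_cons, tp_append, tp_append, ki_sub b x, pow_succ]
    ring

theorem Lam_move (pre : List ℂ) (x : ℂ) (K : List ℂ) (θ : ℂ) :
    Lam (pre ++ x :: K) θ = Lam (x :: (pre ++ K)) θ := by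
  unfold Lam
  simp only [List.map_append, List.map_cons, List.prod_append, List.prod_cons]
  ring

theorem nG_move (G : Finset ℝ) (κ : ℂ) (pre : List ℂ) (x : ℂ) (K : List ℂ) :
    nG G κ (pre ++ x :: K) = (-1) ^ pre.length * nG G κ (x :: (pre ++ K)) := by
  unfold nG
  rw [Dl_move]
  simp only [Lam_move]
  ring

theorem nG_lip (hK : KerH) (hP : PfrS) {h : ℝ} (hh : h < Real.pi / 2) (m : ℕ) :
    ∃ L : ℝ, 0 ≤ L ∧ ∀ n : ℕ, 20 ≤ n → ∀ (J J' pre : List ℂ), J.length = J'.length → pre.length + J.length ≤ m →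
      (∀ v ∈ pre, |v.im| ≤ h) → (∀ v ∈ J, |v.im| ≤ h) → (∀ v ∈ J', |v.im| ≤ h) →
      ‖nG (Gd n) (kap n) (pre ++ J) - nG (Gd n) (kap n) (pre ++ J')‖ ≤
        L * (List.zipWith (fun a b => ‖a - b‖) J J').sum := by
  set r : ℝ := (Real.pi / 2 - h) / 2 with hr
  have hr0 : 0 < r := by rw [hr]; linarith
  have hhr : h + r < Real.pi / 2 := by rw [hr]; linarith
  obtain ⟨B, hB0, hB⟩ := nG_le hK hhr m
  refine ⟨B / r, by positivity, fun n hn => ?_⟩
  -- one row
  have one : ∀ (a b : ℂ) (K : List ℂ), K.length + 1 ≤ m → |a.im| ≤ h → |b.im| ≤ h → (∀ v ∈ K, |v.im| ≤ h) →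
      ‖nG (Gd n) (kap n) (a :: K) - nG (Gd n) (kap n) (b :: K)‖ ≤ B / r * ‖a - b‖ := by
    intro a b K hm ha hb hKK
    have hK' : ∀ v ∈ K, St v := fun v hv => (hKK v hv).trans_lt hh
    have hconv : Convex ℝ {z : ℂ | |z.im| ≤ h} := by
      have : {z : ℂ | |z.im| ≤ h} = Complex.im ⁻¹' Set.Icc (-h) h := by
        ext z
        simp only [Set.mem_ofPred_eq, abs_le, Set.mem_preimage, Set.mem_Icc]
      rw [this]
      exact (convex_Icc _ _).linear_preimage Complex.imLm
    refine Convex.norm_image_sub_le_of_norm_deriv_le (s := {z : ℂ | |z.im| ≤ h})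
      (f := fun z => nG (Gd n) (kap n) (z :: K)) (fun z hz => ?_) (fun z hz => ?_) hconv hb ha
    · exact An_nG hP _ _ hK' z (lt_of_le_of_lt hz hh)
    · refine cauchy (An_nG hP _ _ hK') hr0 hhr (fun w hw => hB n hn (w :: K) (by simpa using hm) ?_) hz
      intro v hv
      rcases List.mem_cons.1 hv with rfl | hv
      · exact hw
      · exact (hKK v hv).trans (by linarith)
  intro J
  induction J with
  | nil =>
    intro J' pre hl _ _ _ _
    have : J' = [] := List.length_eq_zero_iff.1 hl.symm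
    subst this
    simp
  | cons a K ih =>
    intro J' pre hl hm hpre hJ hJ'
    match J', hl, hJ' with
    | [], hl, _ => simp at hl
    | b :: K', hl, hJ' =>
      simp only [List.length_cons] at hl hm
      have ha := hJ a List.mem_cons_self
      have hb := hJ' b List.mem_cons_self
      have e1 : ‖nG (Gd n) (kap n) (pre ++ a :: K) - nG (Gd n) (kap n) (pre ++ b :: K)‖ ≤ B / r * ‖a - b‖ := by
        rw [nG_move, nG_move, ← mul_sub, norm_mul, norm_pow, norm_neg, norm_one, one_pow, one_mul]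
        refine one a b (pre ++ K) (by rw [List.length_append]; omega) ha hb fun v hv => ?_
        rcases List.mem_append.1 hv with hv | hv
        · exact hpre v hv
        · exact hJ v (List.mem_cons_of_mem _ hv)
      have e2 := ih K' (pre ++ [b]) (by omega) (by rw [List.length_append, List.length_singleton]; omega)
        (fun v hv => by
          rcases List.mem_append.1 hv with hv | hv
          · exact hpre v hv
          · rw [List.mem_singleton] at hv; rw [hv]; exact hb)
        (fun v hv => hJ v (List.mem_cons_of_mem _ hv)) (fun v hv => hJ' v (List.mem_cons_of_mem _ hv))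
      rw [List.append_assoc, List.singleton_append, List.append_assoc, List.singleton_append] at e2
      rw [List.zipWith_cons_cons, List.sum_cons, mul_add]
      calc ‖nG (Gd n) (kap n) (pre ++ a :: K) - nG (Gd n) (kap n) (pre ++ b :: K')‖ =
            ‖(nG (Gd n) (kap n) (pre ++ a :: K) - nG (Gd n) (kap n) (pre ++ b :: K)) +
              (nG (Gd n) (kap n) (pre ++ b :: K) - nG (Gd n) (kap n) (pre ++ b :: K'))‖ := by congr 1; ring
        _ ≤ _ := (norm_add_le _ _).trans (add_le_add e1 e2)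

theorem zip_prs : ∀ l l' : List ℝ, l.length = l'.length →
    (List.zipWith (fun a b => ‖a - b‖) (prs l) (prs l')).sum = 2 * (List.zipWith (fun a b => |a - b|) l l').sum := by
  intro l
  induction l with
  | nil => intro l' _; simp [prs]
  | cons a l ih =>
    intro l' hl
    match l', hl with
    | [], hl => simp at hl
    | b :: l', hl =>
      simp only [prs, List.zipWith_cons_cons, List.sum_cons]
      rw [ih l' (by simpa using hl)]
      rw [show (a : ℂ) + a6 - ((b : ℂ) + a6) = ((a - b : ℝ) : ℂ) by push_cast; ring,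
        show (a : ℂ) - a6 - ((b : ℂ) - a6) = ((a - b : ℝ) : ℂ) by push_cast; ring, Complex.norm_real,
        Real.norm_eq_abs]
      ring

theorem zip_ofFn {m : ℕ} (f : ℝ → ℝ → ℝ) (θ θ' : Fin m → ℝ) :
    (List.zipWith f (List.ofFn θ) (List.ofFn θ')).sum = ∑ i, f (θ i) (θ' i) := by
  induction m with
  | zero => simp
  | succ m ih =>
    rw [List.ofFn_succ, List.ofFn_succ, List.zipWith_cons_cons, List.sum_cons, ih, Fin.sum_univ_succ]

/-- continuous convergence of the correlation functions -/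
theorem RR_clim (hK : KerH) (hP : PfrS) {m : ℕ} (θ : Fin m → ℝ) (s : ℕ → Fin m → ℝ) (hs : Tendsto s atTop (𝓝 θ)) :
    Tendsto (fun n => RR n (List.ofFn (s n))) atTop (𝓝 (rho m θ)) := by
  obtain ⟨L, hL0, hL⟩ := nG_lip hK hP (h := Real.pi / 6) (by linarith [Real.pi_pos]) (2 * m)
  have h1 := RR_lim hK hP θ
  have h2 : Tendsto (fun n => RR n (List.ofFn (s n)) - RR n (List.ofFn θ)) atTop (𝓝 0) := by
    have h3 : Tendsto (fun n => ‖(t (2 * a6) ^ m)⁻¹‖ * (L * (2 * ∑ i, |s n i - θ i|))) atTop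
        (𝓝 (‖(t (2 * a6) ^ m)⁻¹‖ * (L * (2 * ∑ _i : Fin m, 0)))) := by
      refine ((tendsto_finsetSum _ fun i _ => ?_).const_mul _ |>.const_mul _).const_mul _
      have h4 := (tendsto_pi_nhds.1 hs i).sub_const (θ i)
      rw [sub_self] at h4
      have h5 := h4.abs
      rwa [abs_zero] at h5
    rw [sum_const_zero, mul_zero, mul_zero, mul_zero] at h3
    refine squeeze_zero_norm' ?_ h3
    filter_upwards [eventually_ge_atTop 20] with n hn
    unfold RR
    rw [List.length_ofFn, List.length_ofFn, ← mul_sub, norm_mul]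
    refine mul_le_mul_of_nonneg_left ?_ (norm_nonneg _)
    have := hL n hn (prs (List.ofFn (s n))) (prs (List.ofFn θ)) [] (by simp [length_prs])
      (by simp [length_prs]) (by simp) (im_prs _) (im_prs _)
    rw [List.nil_append, List.nil_append, zip_prs _ _ (by simp), zip_ofFn] at this
    exact this
  have h3 := h2.add h1
  rw [zero_add] at h3
  refine h3.congr fun n => by ring

/-- truncated version, bounded for every `n` -/
def R20 (m n : ℕ) (θ : Fin m → ℝ) : ℂ := if 20 ≤ n then RR n (List.ofFn θ) else 0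

theorem R20_le (m n : ℕ) (θ : Fin m → ℝ) : ‖R20 m n θ‖ ≤ (7 / 2) ^ m := by
  unfold R20
  split_ifs with hn
  · have := RR_le hn (List.ofFn θ)
    rwa [List.length_ofFn] at this
  · rw [norm_zero]; positivity

theorem R20_lim (hK : KerH) (hP : PfrS) (m : ℕ) (θ : Fin m → ℝ) (s : ℕ → Fin m → ℝ)
    (hs : Tendsto s atTop (𝓝 θ)) : Tendsto (fun n => R20 m n (s n)) atTop (𝓝 (rho m θ)) := by
  refine (RR_clim hK hP θ s hs).congr' ?_
  filter_upwards [eventually_ge_atTop 20] with n hn
  unfold R20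
  rw [if_pos hn]

/-- the `m`-th term of the series -/
def gterm (Λ : ℝ → ℂ) (m : ℕ) : ℂ :=
  (1 / (m.factorial : ℂ)) * ∫ θ : Fin m → ℝ, (∏ i, (-(z0 : ℂ) * (Λ (θ i) - 1))) * rho m θ

/-- **the gas functional** -/
def gas (Λ : ℝ → ℂ) : ℂ := ∑' m, gterm Λ m

theorem rho_le (hK : KerH) (hP : PfrS) (m : ℕ) (θ : Fin m → ℝ) : ‖rho m θ‖ ≤ (7 / 2) ^ m :=
  le_of_tendsto (R20_lim hK hP m θ (fun _ => θ) tendsto_const_nhds).norm
    (Eventually.of_forall fun n => R20_le m n θ)

theorem rho_cont (hK : KerH) (hP : PfrS) (m : ℕ) : Continuous (rho m) := cont_of_seq (R20_lim hK hP m)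

theorem rho_perm (hK : KerH) (hP : PfrS) (m : ℕ) (σ : Equiv.Perm (Fin m)) (θ : Fin m → ℝ) :
    rho m (θ ∘ σ) = rho m θ := by
  refine tendsto_nhds_unique (RR_lim hK hP (θ ∘ σ)) ((RR_lim hK hP θ).congr fun n => ?_)
  exact (RR_perm n (Equiv.Perm.ofFn_comp_perm σ θ)).symm

/-- **the limit of the grid ratios for every field** -/
theorem gas_lim (hK : KerH) (hP : PfrS) {Λ : ℝ → ℂ} (hc : Continuous Λ) {A a : ℝ} (hA0 : 0 ≤ A)
    (hA : ∀ x, ‖Λ x - 1‖ ≤ A * ew a x) : Summable (gterm Λ) ∧
    (∀ m, ‖gterm Λ m‖ ≤ (6 * (z0 * A) * (7 / 2)) ^ m / m.factorial) ∧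
    (∀ m, Integrable fun θ : Fin m → ℝ => (∏ i, (-(z0 : ℂ) * (Λ (θ i) - 1))) * rho m θ) ∧
    Tendsto (fun n => Z V (Gd n) (fun s => kap n * Λ s) / Z V (Gd n) (fun _ => kap n)) atTop (𝓝 (gas Λ)) := by
  classical
  set g : ℝ → ℂ := fun x => -(z0 : ℂ) * (Λ x - 1) with hg
  have hgc : Continuous g := by rw [hg]; fun_prop
  have hz := z0_pos
  have hgA : ∀ x, ‖g x‖ ≤ (z0 * A) * ew a x := by
    intro x
    rw [hg]
    simp only
    rw [norm_mul, norm_neg, Complex.norm_real, Real.norm_of_nonneg hz.le, mul_assoc]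
    exact mul_le_mul_of_nonneg_left (hA x) hz.le
  set T : ℕ → ℕ → ℂ := fun n m => (1 / (m.factorial : ℂ)) *
    ∑ θ ∈ Fintype.piFinset (fun _ : Fin m => Gd n), (∏ i, (((1 / (n : ℝ) : ℝ) : ℂ) * g (θ i))) * R20 m n θ with hT
  have hTb : ∀ n m, ‖T n m‖ ≤ (6 * (z0 * A) * (7 / 2)) ^ m / m.factorial := by
    intro n m
    rw [hT]
    simp only
    rw [norm_mul, norm_div, norm_one, Complex.norm_natCast, one_div_mul_eq_div]
    refine div_le_div_of_nonneg_right ?_ (by positivity)
    by_cases hn : 20 ≤ n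
    swap
    · have e : ∀ θ ∈ Fintype.piFinset (fun _ : Fin m => Gd n),
          (∏ i, (((1 / (n : ℝ) : ℝ) : ℂ) * g (θ i))) * R20 m n θ = 0 := by
        intro θ _
        unfold R20
        rw [if_neg hn, mul_zero]
      rw [sum_congr rfl e, sum_const_zero, norm_zero]
      positivity
    refine (norm_sum_le _ _).trans ?_
    have h1 : ∀ θ ∈ Fintype.piFinset (fun _ : Fin m => Gd n),
        ‖(∏ i, (((1 / (n : ℝ) : ℝ) : ℂ) * g (θ i))) * R20 m n θ‖ ≤
          (∏ i, (1 / (n : ℝ) * ‖g (θ i)‖)) * (7 / 2) ^ m := by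
      intro θ _
      rw [norm_mul, norm_prod]
      refine mul_le_mul (le_of_eq (prod_congr rfl fun i _ => ?_)) (R20_le m n θ) (norm_nonneg _)
        (prod_nonneg fun i _ => by positivity)
      rw [norm_mul, Complex.norm_real, Real.norm_of_nonneg (by positivity)]
    refine (sum_le_sum h1).trans ?_
    rw [← Finset.sum_mul, Finset.sum_prod_piFinset (Gd n) (fun _ x => 1 / (n : ℝ) * ‖g x‖), prod_const, card_univ,
      Fintype.card_fin, ← mul_pow]
    refine pow_le_pow_left₀ (mul_nonneg (sum_nonneg fun _ _ => by positivity) (by norm_num)) ?_ m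
    refine mul_le_mul_of_nonneg_right ?_ (by norm_num)
    have h2 : ∀ x ∈ Gd n, 1 / (n : ℝ) * ‖g x‖ ≤ z0 * A * (1 / (n : ℝ) * ew a x) := by
      intro x _
      calc 1 / (n : ℝ) * ‖g x‖ ≤ 1 / (n : ℝ) * (z0 * A * ew a x) := mul_le_mul_of_nonneg_left (hgA x) (by positivity)
        _ = _ := by ring
    refine (sum_le_sum h2).trans ?_
    rw [← Finset.mul_sum, mul_comm 6]
    exact mul_le_mul_of_nonneg_left (gsum_ew (by omega) a) (by positivity)
  have hl : ∀ m, Tendsto (fun n => T n m) atTop (𝓝 (gterm Λ m)) := by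
    intro m
    have := (riem_multi m hgc hgA (R20_le m) (R20_lim hK hP m)).2.2.2
    exact this.const_mul _
  have hM : Tendsto (fun n : ℕ => 2 * n ^ 2) atTop atTop := by
    refine tendsto_atTop_mono (fun n => ?_) tendsto_id
    show n ≤ 2 * n ^ 2
    nlinarith [Nat.zero_le n, sq_nonneg n]
  obtain ⟨s1, s2, s3⟩ := series_lim hTb hl hM
  refine ⟨s1, s2, fun m => (riem_multi m hgc hgA (R20_le m) (R20_lim hK hP m)).2.2.1, s3.congr' ?_⟩
  filter_upwards [eventually_ge_atTop 20] with n hn
  have e0 : (fun s : ℝ => kap n * Λ s) = fun b => kap n * (1 + (Λ b - 1)) := by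
    funext s; ring
  rw [e0, Z_ratio V_even V_zero (Gd n) (fun _ => kap n) (fun b => Λ b - 1)]
  have e1 : ∀ S ∈ (Gd n).powerset, (∏ i ∈ S, kap n * (Λ i - 1)) * rr V (Gd n) (fun _ => kap n) S =
      (∏ i ∈ S, (((1 / (n : ℝ) : ℝ) : ℂ) * g i)) * RR n S.toList := by
    intro S _
    rw [RR_eq n S.nodup_toList, toList_toFinset]
    congr 1
    refine prod_congr rfl fun i _ => ?_
    rw [hg]
    unfold kap
    push_cast
    ring
  have hcard : (Gd n).card ≤ 2 * n ^ 2 := by
    unfold Gd
    exact card_image_le.trans (by rw [card_range])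
  rw [sum_congr rfl e1, sum_sets (fun l l' h => RR_perm n h) (fun l h => RR_zero n h) hcard]
  refine sum_congr rfl fun m _ => ?_
  rw [hT]
  simp only
  unfold R20
  simp only [if_pos hn]

theorem ew_shift (a x : ℝ) : ew a x ≤ Real.exp |a| * ew 0 x := by
  unfold ew
  rw [← Real.exp_add]
  refine Real.exp_le_exp.2 ?_
  have := abs_sub_abs_le_abs_sub x a
  rw [abs_sub_comm x a] at this
  rw [zero_sub, abs_neg]
  linarith

theorem Lam_cont (hK : KerH) (J : List ℂ) (hJ : ∀ v ∈ J, St v) : Continuous fun θ : ℝ => Lam J (θ : ℂ) := by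
  induction J with
  | nil => simp only [Lam_nil]; exact continuous_const
  | cons v J ih =>
    simp only [Lam_cons]
    refine Continuous.mul ?_ (ih fun w hw => hJ w (List.mem_cons_of_mem _ hw))
    have hv : |v.im| < Real.pi / 2 := hJ v List.mem_cons_self
    have hv' := abs_lt.1 hv
    have h6 : a6.im = Real.pi / 6 := by unfold a6; simp
    unfold tau
    refine Continuous.mul ?_ ?_
    · refine continuous_iff_continuousAt.2 fun θ => ?_
      refine ContinuousAt.comp (g := t) (f := fun θ : ℝ => v - (θ : ℂ) + a6) ?_ (by fun_prop)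
      refine (hK.dt _ ?_).continuousAt
      rw [Complex.add_im, Complex.sub_im, Complex.ofReal_im, sub_zero, h6, abs_lt]
      constructor <;> linarith [Real.pi_pos]
    · refine continuous_iff_continuousAt.2 fun θ => ?_
      refine ContinuousAt.comp (g := t) (f := fun θ : ℝ => v - (θ : ℂ) - a6) ?_ (by fun_prop)
      refine (hK.dt _ ?_).continuousAt
      rw [Complex.sub_im, Complex.sub_im, Complex.ofReal_im, sub_zero, h6, abs_lt]
      constructor <;> linarith [Real.pi_pos]

theorem Lam_decay (hK : KerH) (J : List ℂ) (hJ : ∀ v ∈ J, St v) :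
    ∃ A : ℝ, 0 ≤ A ∧ ∀ θ : ℝ, ‖Lam J (θ : ℂ) - 1‖ ≤ A * ew 0 θ := by
  obtain ⟨C, hC0, hC⟩ := hK.ctau
  refine ⟨(J.map fun v => C * Real.exp |v.re|).sum, ?_, fun θ => ?_⟩
  · refine List.sum_nonneg fun x hx => ?_
    obtain ⟨v, -, rfl⟩ := List.mem_map.1 hx
    positivity
  · refine (norm_Lam_sub hK hC J (fun v hv => (hJ v hv).le) θ).2.trans ?_
    clear hJ
    induction J with
    | nil => simp
    | cons v J ih =>
      rw [List.map_cons, List.sum_cons, List.map_cons, List.sum_cons, add_mul]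
      refine add_le_add ?_ ih
      rw [mul_assoc]
      exact mul_le_mul_of_nonneg_left (ew_shift _ _) hC0

/-- **the dual series of an even list** -/
theorem gas_even (hK : KerH) (hP : PfrS) {J : List ℂ} (hJ : ∀ v ∈ J, St v) {m : ℕ} (hm : J.length = 2 * m) :
    Dl J * gas (fun θ => Lam J (θ : ℂ)) = pf p J := by
  obtain ⟨A, hA0, hA⟩ := Lam_decay hK J hJ
  have h1 := (gas_lim hK hP (Lam_cont hK J hJ) hA0 hA).2.2.2
  exact tendsto_nhds_unique (h1.const_mul (Dl J)) (lim_even hK hP m J hm hJ)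

end DUA

end
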